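import Pool.Agent.Lib.SL.SpecD

/-!
MP_00e23e_nt, project SL (THEOREM SL, single lock), directory Lib/SLB (helper90): the T-statements, i.e. the bounds for the sums
SL.TG (first Cauchy inequality, Lib/SL/SpecD) as they are used by chapter B. Case I: ρ r = r0 is a divisor of r (r = r0 q').
Case II: ρ r = r, one van der Corput step with the divisor r2 r of r.

All tuples of the support of γ: modulo ρ r the class of the FIRST modulus depends only on ρ r and s1/v r s1 (function b1), the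
class of the SECOND modulus depends only on ρ r and s2/v r s2 (function b2; b1 ≠ b2 in the application: two colours).
OUTER variables of the second Cauchy inequality: (ρ, u1, u2, n1, n2), u_i = s_i/v r s_i; INNER: (r/ρ r, v r s1, v r s2, h).
Number of the outer variables ≤ 64 R0 (S/V)^2 N (N/R0 + 1) (lattice n1 b2(ρ,u2) ≡ n2 b1(ρ,u1) mod ρ). Diagonal: number of tuples
(r,s1,s2,n1,n2) with gcd(s1,s2) = g ≤ 144 S^2 N^2/g^3 (ND for g ≥ 2).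
-/

namespace Pool.Agent.Lib.SLB

open Finset Pool.Agent.Lib.EH3 Pool.Agent.Lib.TB Pool.Agent.Results.MP_00e23e_nt Pool.Agent.Lib.MI

/-- the lock data of the support of γ: ρ r is a divisor of r in (R0, 2 R0], v r s a divisor of s in (V, 2V] -/
def Lt (a b1 b2 : ℕ → ℕ → ℤ) (ρ : ℕ → ℕ) (v : ℕ → ℕ → ℕ) (R0 V : ℕ) (γ : ℤ → ℕ → ℕ → ℕ → ℂ) : Prop :=
  ∀ h r s1 s2, γ h r s1 s2 ≠ 0 → (ρ r ∣ r ∧ R0 < ρ r ∧ ρ r ≤ 2 * R0) ∧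
    (v r s1 ∣ s1 ∧ V < v r s1 ∧ v r s1 ≤ 2 * V) ∧ (v r s2 ∣ s2 ∧ V < v r s2 ∧ v r s2 ≤ 2 * V) ∧
    (ρ r : ℤ) ∣ a r s1 - b1 (ρ r) (s1 / v r s1) ∧ (ρ r : ℤ) ∣ a r s2 - b2 (ρ r) (s2 / v r s2)

/-- the size conditions; γ, ω are bounded by 1; for g ≥ 2 the support of γ has ND -/
def Tz (X T : ℝ) (a : ℕ → ℕ → ℤ) (g R S N H R0 V : ℕ) (Hs : Finset ℤ) (γ : ℤ → ℕ → ℕ → ℕ → ℂ) (ω : ℕ → ℕ → ℂ) : Prop :=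
  Tau X T ∧ (1 ≤ g ∧ 1 ≤ R ∧ 1 ≤ S ∧ 1 ≤ N ∧ 1 ≤ H ∧ 1 ≤ R0 ∧ 1 ≤ V ∧ R0 ≤ R ∧ V ≤ S ∧ R ≤ N) ∧
    (2 * (R : ℝ) * (S : ℝ) ^ 2 * N * H) ^ 12 ≤ X ∧ (∀ h ∈ Hs, h ≠ 0 ∧ |h| ≤ (H : ℤ)) ∧
    (∀ h r s1 s2, ‖γ h r s1 s2‖ ≤ 1) ∧ (∀ n1 n2, ‖ω n1 n2‖ ≤ 1) ∧
    ∀ h r s1 s2, γ h r s1 s2 ≠ 0 → 2 ≤ g → SL.ND (a r s1) (a r s2) (r * g) N

/-- CHAPTER T, case I (no van der Corput step): r = r0 q', r0 = ρ r, the class modulo q' is free. From SL.SecStmt, SL.PhStmt, SL.EkStmt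
(uniform D, as in the mail of helper83). For given g: label lb r s := s / v r s, v_g r s := v r s / gcd (v r s) g ∣ s / g, of size in
(V/g, 2V]: O(T^2) dyadic pieces (V1, V2), V1, V2 ≥ V/(2g), V1, V2 ≤ 2V. -/
def T0Stmt : Prop := ∃ C : ℝ, 0 < C ∧ ∃ A : ℕ, ∀ (X T : ℝ) (a b1 b2 : ℕ → ℕ → ℤ) (ρ : ℕ → ℕ) (v : ℕ → ℕ → ℕ)
    (g R S N H R0 V : ℕ) (Hs : Finset ℤ) (γ : ℤ → ℕ → ℕ → ℕ → ℂ) (ω : ℕ → ℕ → ℂ),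
  Tz X T a g R S N H R0 V Hs γ ω → Lt a b1 b2 ρ v R0 V γ →
  ‖∑ h ∈ Hs, SL.TG a g h R S N (γ h) ω‖ ^ 2 ≤ C * T ^ A * ((S : ℝ) ^ 2 * (N : ℝ) ^ 2) ^ 2 *
    ((H : ℝ) / ((V : ℝ) ^ 2 * (g : ℝ) ^ 3) + ((H : ℝ) / g) ^ 2 *
      ((R : ℝ) ^ 3 * S * V / (R0 * Real.sqrt R0 * (N : ℝ) ^ 2) + (R : ℝ) ^ 2 / (R0 * Real.sqrt R0 * N) +
        R * Real.sqrt R * Real.sqrt ((S : ℝ) * V) / ((R0 : ℝ) * N) + R / (R0 * Real.sqrt R0)))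

/-- CHAPTER T, case II. ρ r = r (R0 = R), one van der Corput step with the divisor F = r2 r of r, L < F ≤ L', 16 L' S V ≤ N. From
SL.SecStmt, SL.PhStmt, SL.EvStmt (F w_i ≤ N since g w_i ≤ 4 S V_i ≤ 8 S V; (r/F) g ≤ N since 2 g ≤ L; the factor (1 + B/N)^2 is
≤ 25 g^2 since R ≤ N). -/
def T1Stmt : Prop := ∃ C : ℝ, 0 < C ∧ ∃ A : ℕ, ∀ (X T : ℝ) (a b1 b2 : ℕ → ℕ → ℤ) (v : ℕ → ℕ → ℕ) (r2 : ℕ → ℕ)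
    (g R S N H V L L' : ℕ) (Hs : Finset ℤ) (γ : ℤ → ℕ → ℕ → ℕ → ℂ) (ω : ℕ → ℕ → ℂ),
  Tz X T a g R S N H R V Hs γ ω → Lt a b1 b2 (fun r => r) v R V γ → 2 ≤ L → L ≤ L' → g ^ 4 ≤ L → 16 * L' * S * V ≤ N →
  (∀ h r s1 s2, γ h r s1 s2 ≠ 0 → r2 r ∣ r ∧ L < r2 r ∧ r2 r ≤ L') →
  ‖∑ h ∈ Hs, SL.TG a g h R S N (γ h) ω‖ ^ 2 ≤ C * T ^ A * ((S : ℝ) ^ 2 * (N : ℝ) ^ 2) ^ 2 *
    ((H : ℝ) / ((V : ℝ) ^ 2 * (g : ℝ) ^ 3) + ((H : ℝ) / g) ^ 2 * (1 / Real.sqrt (Real.sqrt L)))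

end Pool.Agent.Lib.SLB
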