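import Pool.Agent.Lib.SLB.StmT

/-!
MP_00e23e_nt, project SL (THEOREM SL, single lock): the T-statement of case II in the form with 84 δ + 48 κ < 1 (helper78). It
replaces T1Stmt: no divisor of r (r need not be smooth), but a divisor f r (s2/v) of the outer part of s2; the van der Corput shifts
are divisible by F1 = u1/gcd(u1, g), u1 = s1/v, in n1 and by F2 = f/gcd(f, g) in n2. From SL.SecStmt, SL.PhStmt and SL.EwStmt (SL/SpecW);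
the modules are in SLB/SpecTw.lean.
-/

namespace Pool.Agent.Lib.SLB

open Finset Pool.Agent.Lib.EH3 Pool.Agent.Lib.TB Pool.Agent.Results.MP_00e23e_nt Pool.Agent.Lib.MI

/-- the size of the correlations -/
noncomputable def EW (R S N V L L' : ℕ) : ℝ :=
  (S : ℝ) * L' / ((V : ℝ) * R) +
    (R : ℝ) * Real.sqrt R * Real.sqrt S * ((V : ℝ) * Real.sqrt V) / (Real.sqrt L * (N : ℝ) ^ 2) +
    Real.sqrt ((R : ℝ) * S * V / L) / N + Real.sqrt R * V / N + Real.sqrt ((L' : ℝ) / R)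

/-- CHAPTER T, case II with 84 δ. ρ r = r (R0 = R). f r t is a divisor of t = s2/v r s2 in [L, L'] (L = 1 with f = 1 is allowed). -/
def TwStmt : Prop := ∃ C : ℝ, 0 < C ∧ ∃ A : ℕ, ∀ (X T : ℝ) (a b1 b2 : ℕ → ℕ → ℤ) (v f : ℕ → ℕ → ℕ)
    (g R S N H V L L' : ℕ) (Hs : Finset ℤ) (γ : ℤ → ℕ → ℕ → ℕ → ℂ) (ω : ℕ → ℕ → ℂ),
  Tz X T a g R S N H R V Hs γ ω → Lt a b1 b2 (fun r => r) v R V γ → 1 ≤ L → L' ≤ R → 4 * S ≤ R →
  (∀ h r s1 s2, γ h r s1 s2 ≠ 0 →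
    f r (s2 / v r s2) ∣ s2 / v r s2 ∧ L ≤ f r (s2 / v r s2) ∧ f r (s2 / v r s2) ≤ L') →
  ‖∑ h ∈ Hs, SL.TG a g h R S N (γ h) ω‖ ^ 2 ≤ C * T ^ A * ((S : ℝ) ^ 2 * (N : ℝ) ^ 2) ^ 2 *
    ((H : ℝ) / ((V : ℝ) ^ 2 * (g : ℝ) ^ 3) + ((H : ℝ) / g) ^ 2 * Real.sqrt (EW R S N V L L'))

end Pool.Agent.Lib.SLB
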