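import Pool.Agent.Lib.SLB.StmT
import Pool.Agent.Lib.SLB.StmW

/-!
MP_00e23e_nt, project SL (THEOREM SL, single lock), phase 2: the lock with colours (helper54). The class modulo ρ r depends on ρ r,
on s/v r s and on a colour col r s < K; the bounds of the sums TG are those of T0Stmt, TwStmt multiplied by K². (The colours of the
two moduli belong to the outer variables of the second Cauchy inequality: K² times as many lattices, the pairs of inner variables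
have equal colours.)
-/

namespace Pool.Agent.Lib.SLB

open Finset Pool.Agent.Lib.EH3 Pool.Agent.Lib.TB Pool.Agent.Results.MP_00e23e_nt Pool.Agent.Lib.MI

/-- the lock data with colours -/
def LtK (a : ℕ → ℕ → ℤ) (b : ℕ → ℕ → ℕ → ℤ) (ρ : ℕ → ℕ) (v col : ℕ → ℕ → ℕ) (K R0 V : ℕ)
    (γ : ℤ → ℕ → ℕ → ℕ → ℂ) : Prop :=
  ∀ h r s1 s2, γ h r s1 s2 ≠ 0 → (ρ r ∣ r ∧ R0 < ρ r ∧ ρ r ≤ 2 * R0) ∧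
    (v r s1 ∣ s1 ∧ V < v r s1 ∧ v r s1 ≤ 2 * V) ∧ (v r s2 ∣ s2 ∧ V < v r s2 ∧ v r s2 ≤ 2 * V) ∧
    (col r s1 < K ∧ (ρ r : ℤ) ∣ a r s1 - b (ρ r) (s1 / v r s1) (col r s1)) ∧
    (col r s2 < K ∧ (ρ r : ℤ) ∣ a r s2 - b (ρ r) (s2 / v r s2) (col r s2))

/-- CHAPTER T, case I with colours. From SL.SecKStmt, SL.PhStmt, SL.EkStmt. -/
def T0KStmt : Prop := ∃ C : ℝ, 0 < C ∧ ∃ A : ℕ, ∀ (X T : ℝ) (a : ℕ → ℕ → ℤ) (b : ℕ → ℕ → ℕ → ℤ) (ρ : ℕ → ℕ)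
    (v col : ℕ → ℕ → ℕ) (K g R S N H R0 V : ℕ) (Hs : Finset ℤ) (γ : ℤ → ℕ → ℕ → ℕ → ℂ) (ω : ℕ → ℕ → ℂ), 1 ≤ K →
  Tz X T a g R S N H R0 V Hs γ ω → LtK a b ρ v col K R0 V γ →
  ‖∑ h ∈ Hs, SL.TG a g h R S N (γ h) ω‖ ^ 2 ≤ C * T ^ A * (K : ℝ) ^ 2 * ((S : ℝ) ^ 2 * (N : ℝ) ^ 2) ^ 2 *
    ((H : ℝ) / ((V : ℝ) ^ 2 * (g : ℝ) ^ 3) + ((H : ℝ) / g) ^ 2 *
      ((R : ℝ) ^ 3 * S * V / (R0 * Real.sqrt R0 * (N : ℝ) ^ 2) + (R : ℝ) ^ 2 / (R0 * Real.sqrt R0 * N) +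
        R * Real.sqrt R * Real.sqrt ((S : ℝ) * V) / ((R0 : ℝ) * N) + R / (R0 * Real.sqrt R0)))

/-- CHAPTER T, case II with colours. From SL.SecKStmt, SL.PhStmt, SL.EwStmt. -/
def TwKStmt : Prop := ∃ C : ℝ, 0 < C ∧ ∃ A : ℕ, ∀ (X T : ℝ) (a : ℕ → ℕ → ℤ) (b : ℕ → ℕ → ℕ → ℤ)
    (v f col : ℕ → ℕ → ℕ) (K g R S N H V L L' : ℕ) (Hs : Finset ℤ) (γ : ℤ → ℕ → ℕ → ℕ → ℂ) (ω : ℕ → ℕ → ℂ), 1 ≤ K →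
  Tz X T a g R S N H R V Hs γ ω → LtK a b (fun r => r) v col K R V γ → 1 ≤ L → L' ≤ R → 4 * S ≤ R →
  (∀ h r s1 s2, γ h r s1 s2 ≠ 0 →
    f r (s2 / v r s2) ∣ s2 / v r s2 ∧ L ≤ f r (s2 / v r s2) ∧ f r (s2 / v r s2) ≤ L') →
  ‖∑ h ∈ Hs, SL.TG a g h R S N (γ h) ω‖ ^ 2 ≤ C * T ^ A * (K : ℝ) ^ 2 * ((S : ℝ) ^ 2 * (N : ℝ) ^ 2) ^ 2 *
    ((H : ℝ) / ((V : ℝ) ^ 2 * (g : ℝ) ^ 3) + ((H : ℝ) / g) ^ 2 * Real.sqrt (EW R S N V L L'))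

end Pool.Agent.Lib.SLB
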