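import Pool.Agent.Lib.MI.WAll
import Pool.Agent.Lib.MI.T1Fht
import Pool.Agent.Lib.MI.T1Gsa
import Pool.Agent.Lib.TN.AllW
import Pool.Agent.Lib.SL.AllEs
import Pool.Agent.Lib.SL.Ekl
import Pool.Agent.Lib.SL.Ekh
import Pool.Agent.Lib.SL.Ekf
import Pool.Agent.Lib.SL.Ccs
import Pool.Agent.Lib.SL.Cou
import Pool.Agent.Lib.SL.Cnu
import Pool.Agent.Lib.SL.Cpr
import Pool.Agent.Lib.SL.Cdc
import Pool.Agent.Lib.SL.Cgv
import Pool.Agent.Lib.SL.Cp0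
import Pool.Agent.Lib.SL.Cp1
import Pool.Agent.Lib.SL.Cse
import Pool.Agent.Lib.SL.Pha
import Pool.Agent.Lib.SL.WCor
import Pool.Agent.Lib.SL.Tzero
import Pool.Agent.Lib.SL.Ttw

/-! MP_00e23e_nt, directory Lib/SLB (THEOREM SL, single lock): the T-statements; T0Stmt without hypotheses. -/

namespace Pool.Agent.Lib.SLB

open Pool.Agent.Lib.TB

theorem aSec : SL.SecStmt :=
  SL.tCse SL.tCcs SL.tCou (SL.tCp0 SL.tCnu SL.tCpr SL.tCdc) (SL.tCp1 SL.tCpr (SL.tCgv MI.tT1Gsa))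

theorem aEk : SL.EkStmt := SL.tEkf SL.aEs (SL.tEkh (SL.tEkl TN.tWeil))

theorem aWCor : SL.WCorStmt := SL.tWCor SL.aEs MI.tSsb MI.tT1Fht

/-- case I -/
theorem aT0 : T0Stmt := SL.tTzero aSec SL.tPh aEk

/-- case II from the van der Corput step -/
theorem aTw (h : SL.EwStmt) : TwStmt := SL.tTtw aSec SL.tPh h

end Pool.Agent.Lib.SLB
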