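import Pool.Agent.Lib.SLB.SpecB

/-!
MP_00e23e_nt, project SL, chapter B: one block.
-/

set_option autoImplicit false

namespace Pool.Agent.Lib.SLB

open Finset Pool.Agent.Lib.EH3 Pool.Agent.Lib.TB Pool.Agent.Results.MP_00e23e_nt Pool.Agent.Lib.MI
open Pool.Agent.Lib.MX (Bd Mz Bd_nonneg Bd_mono rp_le rn_le log_le_T Tau_x)

/-- the square root -/
private lemma Bbb_rt {s x z ε C T : ℝ} {A : ℕ} (hs : 0 ≤ s) (hx : 0 ≤ x) (hz : 1 ≤ z) (hC : 0 ≤ C) (hT : 1 ≤ T)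
    (h : s ^ 2 ≤ C * T ^ A * (x ^ 2 * (1 / z ^ ε))) : s ≤ Bd (Real.sqrt C) A (ε / 2) x T z := by
  have hz0 : 0 < z := by linarith
  have h1 : 0 < z ^ (ε / 2) := Real.rpow_pos_of_pos hz0 _
  have h2 : z ^ ε = z ^ (ε / 2) * z ^ (ε / 2) := by
    rw [← Real.rpow_add hz0]
    ring_nf
  have h3 : (1 : ℝ) ≤ T ^ A := one_le_pow₀ hT
  unfold MX.Bd
  refine (pow_le_pow_iff_left₀ hs (by positivity) (by norm_num : 2 ≠ 0)).1 ?_
  refine h.trans ?_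
  have h4 : (Real.sqrt C * T ^ A * (x / z ^ (ε / 2))) ^ 2 = C * T ^ A * (x ^ 2 * (1 / z ^ ε)) * T ^ A := by
    rw [mul_pow, mul_pow, Real.sq_sqrt hC, h2, div_pow]
    ring
  rw [h4]
  refine le_mul_of_one_le_right ?_ h3
  positivity

/-- the square root of D -/
private lemma Bbb_sq {C T : ℝ} {A : ℕ} (hC : 0 ≤ C) (hT : 1 ≤ T) : 1 + Real.sqrt (C * T ^ A) ≤ (2 + C) * T ^ A := by
  have h1 : (1 : ℝ) ≤ T ^ A := one_le_pow₀ hT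
  have h2 : Real.sqrt (C * T ^ A) ≤ (1 + C) * T ^ A := by
    rw [Real.sqrt_le_left (by positivity)]
    have h3 : C ≤ (1 + C) ^ 2 := by nlinarith
    have h4 : T ^ A ≤ (T ^ A) ^ 2 := by nlinarith
    calc C * T ^ A ≤ (1 + C) ^ 2 * (T ^ A) ^ 2 := by gcongr
      _ = _ := by ring
  nlinarith

/-- the final estimate of the square -/
private lemma Bbb_fin {s x z ε B C1 C2 C3 T : ℝ} {A1 A2 : ℕ} (hx : 1 ≤ x) (hz : 1 ≤ z) (hzx : z ≤ x)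
    (hε0 : 0 < ε) (hε : ε < 1 / 100) (hC1 : 0 ≤ C1) (hC2 : 0 ≤ C2) (hC3 : 0 ≤ C3) (hT : 1 ≤ T)
    (h1 : s ^ 2 ≤ C2 * T ^ A2 * B)
    (h2 : B ≤ C3 * (1 + Real.sqrt (C1 * T ^ A1)) * (x ^ 2 * (x ^ (-(ε / 8)) + 1 / z))) :
    s ^ 2 ≤ (C2 * (2 * (C3 * (2 + C1)))) * T ^ (A2 + A1) * (x ^ 2 * (1 / z ^ (ε / 8))) := by
  have hz0 : 0 < z := by linarith
  have hzε : 0 < z ^ (ε / 8) := Real.rpow_pos_of_pos hz0 _
  obtain ⟨q, hq⟩ : ∃ q : ℝ, q = 1 / z ^ (ε / 8) := ⟨_, rfl⟩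
  have hq0 : 0 < q := by
    rw [hq]
    positivity
  rw [← hq]
  have hxε : x ^ (-(ε / 8)) ≤ q := by
    rw [hq]
    exact rn_le hz hzx (by linarith)
  have hzq : 1 / z ≤ q := by
    rw [hq]
    refine div_le_div_of_nonneg_left zero_le_one hzε ?_
    calc z ^ (ε / 8) ≤ z ^ (1 : ℝ) := Real.rpow_le_rpow_of_exponent_le hz (by linarith)
      _ = z := Real.rpow_one z
  have h3 : x ^ 2 * (x ^ (-(ε / 8)) + 1 / z) ≤ x ^ 2 * (2 * q) :=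
    mul_le_mul_of_nonneg_left (by linarith) (by positivity)
  have hT0 : 0 < T := by linarith
  have h4 : B ≤ C3 * ((2 + C1) * T ^ A1) * (x ^ 2 * (2 * q)) := by
    refine h2.trans ?_
    have h5 : 0 ≤ x ^ (-(ε / 8)) + 1 / z := by positivity
    exact mul_le_mul (mul_le_mul_of_nonneg_left (Bbb_sq hC1 hT) hC3) h3 (by positivity) (by positivity)
  calc s ^ 2 ≤ C2 * T ^ A2 * B := h1
    _ ≤ C2 * T ^ A2 * (C3 * ((2 + C1) * T ^ A1) * (x ^ 2 * (2 * q))) :=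
        mul_le_mul_of_nonneg_left h4 (by positivity)
    _ = _ := by
        rw [pow_add]
        ring

/-- one block, from the bounds Hg -/
private lemma Bbb_core (h2 : BdiStmt) (h3 : BncStmt) {δ κ l ε C1 C0 : ℝ} {A1 : ℕ} (hPar : Par δ κ l ε)
    (hC1 : 0 ≤ C1) (hC0 : 0 ≤ C0) : ∃ (C x0 : ℝ) (A0 : ℕ), 0 ≤ C ∧ 1 ≤ x0 ∧
    ∀ (x T z : ℝ) (a : ℕ → ℕ → ℤ) (ρ : ℕ → ℕ) (v col : ℕ → ℕ → ℕ) (K M N R S R0 V : ℕ) (P : Finset (ℕ × ℕ))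
    (f g : ℕ → ℂ), x0 ≤ x → Tau (x ^ (30 : ℝ)) T → 1 ≤ z → z ≤ x → Blk δ κ ε x M N R S →
    (K : ℝ) ≤ 2 * x ^ (ε / 16) → 1 ≤ V → (x ^ vv δ κ ε ≤ 2 * (V : ℝ) ∨ V = S) →
    SL.Pr a R S z P → Lp a ρ v col K R0 V P → (∀ m, ‖f m‖ ≤ 1) → (∀ n, ‖g n‖ ≤ 1) →
    (∀ k Hm : ℕ, 1 ≤ R → 1 ≤ k → (k : ℝ) ≤ x ^ vv δ κ ε →
      (2 * (R : ℝ) * (S : ℝ) ^ 2 * N * Hm) ^ 12 ≤ x ^ (30 : ℝ) →
      Hg a ρ v k R S N R0 V Hm P (C1 * T ^ A1) (C0 * x ^ (-hh δ κ ε))) →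
    ∑ w ∈ P, ‖∑ m ∈ Ioc M (2 * M), ∑ n ∈ Ioc N (2 * N), f m * g n * Dl (a w.1 w.2) w.1 w.2 (m * n)‖ ≤
      Bd C A0 (ε / 16) x T z := by
  obtain ⟨C2, hC2, A2, hD⟩ := h2
  obtain ⟨C3, x0, hC3, hx0, hN⟩ := h3 δ κ l ε C0 hPar hC0
  refine ⟨Real.sqrt (C2 * (2 * (C3 * (2 + C1)))), x0, A2 + A1, Real.sqrt_nonneg _, hx0, ?_⟩
  intro x T z a ρ v col K M N R S R0 V P f g hx hT hz hzx hBlk hK hV hVc hPr hLp hf hg hHg
  have hx1 : 1 ≤ x := hx0.trans hx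
  have hx00 : 0 < x := by linarith
  have hT1 : 1 ≤ T := hT.1
  have hD0 : 0 ≤ C1 * T ^ A1 := mul_nonneg hC1 (by positivity)
  have hE0 : 0 ≤ C0 * x ^ (-hh δ κ ε) := mul_nonneg hC0 (Real.rpow_pos_of_pos hx00 _).le
  obtain ⟨⟨b1, b2, b3, b4, b5, b6, b7, b8, b9, b10, b11, b12⟩, b13⟩ :=
    hN x z (C1 * T ^ A1) (C0 * x ^ (-hh δ κ ε)) K M N R S V ⌊x ^ hh δ κ ε⌋₊ (min ⌊x ^ vv δ κ ε⌋₊ S) hx hz hD0 hE0
      le_rfl hBlk hK hV hVc rfl rfl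
  have hS : 1 ≤ S := b5.trans b6
  have key := hD (x ^ (30 : ℝ)) T z (C1 * T ^ A1) (C0 * x ^ (-hh δ κ ε)) a ρ v col K R S M N ⌊x ^ hh δ κ ε⌋₊
    (min ⌊x ^ vv δ κ ε⌋₊ S) R0 V P f g hT hz hD0 hE0 b1 hS b2 b3 b4 b5 b6 hV b8 b9 b10 b11 hPr hLp
    (fun k hk => by
      obtain ⟨hk1, hk2⟩ := Finset.mem_Icc.1 hk
      exact hHg k _ b1 hk1 ((Nat.cast_le.2 hk2).trans b7) b12) hf hg
  have key2 := Bbb_fin hx1 hz hzx hPar.2.2.1 hPar.2.2.2.1 hC1 hC2.le hC3 hT1 key b13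
  have key3 := Bbb_rt (Finset.sum_nonneg fun w _ => norm_nonneg _) hx00.le hz (by positivity) hT1 key2
  have h16 : ε / 8 / 2 = ε / 16 := by ring
  rw [h16] at key3
  exact key3

theorem tBbb (h1 : BiStmt) (h2 : BdiStmt) (h3 : BncStmt) : BbbStmt := by
  intro δ κ l ε hPar hBii
  obtain ⟨C1, C01, x1, A1, hC1, hC01, hI⟩ := h1 δ κ l ε hPar
  obtain ⟨C2, C02, x2, A2, hC2, hC02, hII⟩ := hBii
  obtain ⟨Ca, xa, Aa, hCa, hxa, hA⟩ := Bbb_core h2 h3 (A1 := A1) hPar hC1.le hC01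
  obtain ⟨Cb, xb, Ab, hCb, hxb, hB⟩ := Bbb_core h2 h3 (A1 := A2) hPar hC2.le hC02
  have hε : 0 < ε := hPar.2.2.1
  refine ⟨ε / 16, Ca + Cb, max (max x1 x2) (max xa xb), Aa + Ab, by linarith, by linarith, ?_⟩
  intro x T z a ρ v col K M N R S R0 V P f g hx hT hz hzx hBlk hK hR0R hVS hVx hCs hPr hLp hf hg
  have hx1 : x1 ≤ x := (le_max_left _ _).trans ((le_max_left _ _).trans hx)
  have hx2 : x2 ≤ x := (le_max_right _ _).trans ((le_max_left _ _).trans hx)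
  have hxa' : xa ≤ x := (le_max_left _ _).trans ((le_max_right _ _).trans hx)
  have hxb' : xb ≤ x := (le_max_right _ _).trans ((le_max_right _ _).trans hx)
  have hx1' : 1 ≤ x := hxa.trans hxa'
  have hx00 : 0 < x := by linarith
  have hvv : 0 < x ^ vv δ κ ε := Real.rpow_pos_of_pos hx00 _
  have hVpos : x ^ vv δ κ ε ≤ 2 * (V : ℝ) → 1 ≤ V := by
    intro h
    have h4 : (0 : ℝ) < (V : ℝ) := by linarith
    exact_mod_cast h4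
  have hS : 1 ≤ S := hBlk.2.2.2.2.1
  rcases hCs with ⟨hl, hc⟩ | ⟨hR0, hc, hsm⟩
  · have hV1 : 1 ≤ V := by
      rcases hc with h | h
      · exact hVpos h
      · rw [h]
        exact hS
    have key := hA x T z a ρ v col K M N R S R0 V P f g hxa' hT hz hzx hBlk hK hV1 hc hPr hLp hf hg
      (fun k Hm hR hk hkv hsz => hI x T a ρ v k M N R S R0 V Hm P hx1 hT hBlk hR hR0R hV1 hVS hVx hl hk hsz)
    exact key.trans (Bd_mono hCa (by linarith) (by omega) le_rfl hT.1 hx00.le hz)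
  · subst hR0
    have hV1 : 1 ≤ V := hVpos hc
    have hLp' : Lp a (fun r => r) v col K R0 V P := by
      obtain ⟨p1, p2⟩ := hLp
      refine ⟨fun w hw => ?_, fun w hw w' hw' he1 he2 he3 => ?_⟩
      · have h5 := p1 w hw
        rw [(hsm w hw).1] at h5
        exact h5
      · have h5 := p2 w hw w' hw'
        rw [(hsm w hw).1, (hsm w' hw').1] at h5
        exact h5 he1 he2 he3
    have key := hB x T z a (fun r => r) v col K M N R0 S R0 V P f g hxb' hT hz hzx hBlk hK hV1 (Or.inl hc) hPr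
      hLp' hf hg
      (fun k Hm hR hk hkv hsz => hII x T a v k M N R0 S V Hm P hx2 hT hBlk hR hV1 hVS hc hVx hk hkv hsz
        (fun w hw => by
          obtain ⟨q1, q2, q3, q4, q5, -, -⟩ := hPr w hw
          exact ⟨q1, q2, q3, q4, q5, (hsm w hw).2⟩))
    exact key.trans (Bd_mono hCb (by linarith) (by omega) le_rfl hT.1 hx00.le hz)

end Pool.Agent.Lib.SLB
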