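import Pool.Agent.Lib.SLB.SpecB

/-!
MP_00e23e_nt, directory Lib/SLB, module Bcs (helper6): splitting of the sums TG by colours.
-/

set_option autoImplicit false

namespace Pool.Agent.Lib.SLB

open Finset Pool.Agent.Lib.EH3 Pool.Agent.Lib.TB Pool.Agent.Results.MP_00e23e_nt Pool.Agent.Lib.MI
open Pool.Agent.Lib.MX (Bd Mz Bd_nonneg Bd_mono rp_le rn_le log_le_T Tau_x)

/-- the sums TG are additive in the coefficients -/
private lemma Bcs_sum {ι : Type} (a : ℕ → ℕ → ℤ) (g : ℕ) (h : ℤ) (R S N : ℕ) (ω : ℕ → ℕ → ℂ) (s : Finset ι)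
    (F : ι → ℕ → ℕ → ℕ → ℂ) :
    SL.TG a g h R S N (fun r s1 s2 => ∑ i ∈ s, F i r s1 s2) ω = ∑ i ∈ s, SL.TG a g h R S N (F i) ω := by
  unfold SL.TG
  rw [Finset.sum_comm (s := s)]
  refine Finset.sum_congr rfl fun r _ => ?_
  rw [Finset.sum_comm (s := s)]
  refine Finset.sum_congr rfl fun s1 _ => ?_
  rw [Finset.sum_comm (s := s)]
  refine Finset.sum_congr rfl fun s2 _ => ?_
  rw [Finset.sum_mul]

theorem tBcs : BcsStmt := by
  intro a g R S N K col Hs γ ω E hE hcol hb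
  have hγ : ∀ h : ℤ, γ h = fun r s1 s2 => ∑ i ∈ (range K) ×ˢ (range K),
      (if col r s1 = i.1 ∧ col r s2 = i.2 then γ h r s1 s2 else 0) := by
    intro h
    funext r s1 s2
    by_cases h0 : γ h r s1 s2 = 0
    · rw [h0]
      symm
      apply Finset.sum_eq_zero
      intro i _
      rw [ite_self]
    · obtain ⟨k1, k2⟩ := hcol h r s1 s2 h0
      rw [Finset.sum_eq_single (col r s1, col r s2)]
      · rw [if_pos ⟨rfl, rfl⟩]
      · intro i _ hi
        rw [if_neg]
        rintro ⟨e1, e2⟩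
        exact hi (Prod.ext e1.symm e2.symm)
      · intro hn
        exact absurd (Finset.mem_product.2 ⟨Finset.mem_range.2 k1, Finset.mem_range.2 k2⟩) hn
  have e1 : ∑ h ∈ Hs, SL.TG a g h R S N (γ h) ω = ∑ i ∈ (range K) ×ˢ (range K), ∑ h ∈ Hs,
      SL.TG a g h R S N (fun r s1 s2 => if col r s1 = i.1 ∧ col r s2 = i.2 then γ h r s1 s2 else 0) ω := by
    rw [Finset.sum_comm]
    refine Finset.sum_congr rfl fun h _ => ?_
    rw [← Bcs_sum a g h R S N ω ((range K) ×ˢ (range K))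
      (fun i r s1 s2 => if col r s1 = i.1 ∧ col r s2 = i.2 then γ h r s1 s2 else 0), ← hγ h]
  rw [e1]
  refine (norm_sum_le_of_le _ fun i _ => hb i.1 i.2).trans ?_
  rw [Finset.sum_const, Finset.card_product, Finset.card_range, nsmul_eq_mul, Nat.cast_mul, pow_two]

end Pool.Agent.Lib.SLB
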