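import Pool.Agent.Lib.SLB.SpecB

/-!
MP_00e23e_nt, Lib/SLB, chapter B, module Bdh: dyadic decomposition in h (copy of Lib/MS/Bdh.lean).
-/

set_option autoImplicit false

namespace Pool.Agent.Lib.SLB

open Finset Pool.Agent.Lib.EH3 Pool.Agent.Lib.TB Pool.Agent.Results.MP_00e23e_nt Pool.Agent.Lib.MI
open Pool.Agent.Lib.MX (Bd Mz Bd_nonneg Bd_mono rp_le rn_le log_le_T Tau_x)

private lemma Bdh_smul (a : ℕ → ℕ → ℤ) (g : ℕ) (h : ℤ) (R S N : ℕ) (γ : ℕ → ℕ → ℕ → ℂ) (ω : ℕ → ℕ → ℂ) (c : ℂ) :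
    SL.TG a g h R S N (fun r s1 s2 => c * γ r s1 s2) ω = c * SL.TG a g h R S N γ ω := by
  unfold SL.TG
  simp only [mul_sum, mul_assoc]

private lemma Bdh_zero (a : ℕ → ℕ → ℤ) (g : ℕ) (h : ℤ) (R S N : ℕ) (γ : ℕ → ℕ → ℕ → ℂ) (ω : ℕ → ℕ → ℂ)
    (h0 : ∀ r s1 s2, γ r s1 s2 = 0) : SL.TG a g h R S N γ ω = 0 := by
  unfold SL.TG
  refine sum_eq_zero (fun r _ => sum_eq_zero (fun s1 _ => sum_eq_zero (fun s2 _ => ?_)))
  rw [h0, zero_mul]

/-- the coefficient bound on the block i -/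
private lemma Bdh_coef {R S M Y0 i : ℕ} {h : ℤ} {g : ℂ} (hR : 1 ≤ R) (hS : 1 ≤ S) (hM : 1 ≤ M) (hY : 1 ≤ Y0)
    (hY0 : 4 * (R * S ^ 2) ≤ M * Y0)
    (hg : ‖g‖ ≤ 4 * (M : ℝ) / ((R : ℝ) * (S : ℝ) ^ 2) *
      min 1 ((4 * ((R : ℝ) * (S : ℝ) ^ 2) / ((M : ℝ) * |(h : ℝ)|)) ^ 2))
    (hi : i ≠ 0 → ((2 ^ (i - 1) * Y0 : ℕ) : ℤ) < |h|) :
    ‖g‖ ≤ 16 * (M : ℝ) / ((R : ℝ) * (S : ℝ) ^ 2) * ((1 / 2 : ℝ) ^ i * (1 / 2 : ℝ) ^ i) := by
  have hR' : (0 : ℝ) < R := by exact_mod_cast hR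
  have hS' : (0 : ℝ) < S := by exact_mod_cast hS
  have hM' : (0 : ℝ) < M := by exact_mod_cast hM
  have hY' : (0 : ℝ) < Y0 := by exact_mod_cast hY
  have hQ : (0 : ℝ) < (R : ℝ) * (S : ℝ) ^ 2 := by positivity
  have hK : (0 : ℝ) ≤ 4 * (M : ℝ) / ((R : ℝ) * (S : ℝ) ^ 2) := by positivity
  have key : min 1 ((4 * ((R : ℝ) * (S : ℝ) ^ 2) / ((M : ℝ) * |(h : ℝ)|)) ^ 2) ≤
      4 * ((1 / 2 : ℝ) ^ i * (1 / 2 : ℝ) ^ i) := by
    rcases Nat.eq_zero_or_pos i with h0 | h0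
    · subst h0
      refine (min_le_left _ _).trans ?_
      norm_num
    · refine (min_le_right _ _).trans ?_
      have h1 := hi (by omega)
      have h2 : (2 : ℝ) ^ (i - 1) * Y0 < |(h : ℝ)| := by
        have h3 : (((2 ^ (i - 1) * Y0 : ℕ) : ℤ) : ℝ) < ((|h| : ℤ) : ℝ) := by exact_mod_cast h1
        rw [Int.cast_abs] at h3
        refine lt_of_eq_of_lt ?_ h3
        push_cast
        ring
      have h4 : (2 : ℝ) ^ i = 2 * 2 ^ (i - 1) := by
        rw [← pow_succ']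
        congr 1
        omega
      have hp : (0 : ℝ) < 2 ^ (i - 1) := by positivity
      have hh : 0 < |(h : ℝ)| := lt_trans (by positivity) h2
      have h5 : 4 * ((R : ℝ) * (S : ℝ) ^ 2) / ((M : ℝ) * |(h : ℝ)|) ≤ 2 * (1 / 2 : ℝ) ^ i := by
        rw [div_le_iff₀ (by positivity), one_div, inv_pow, h4]
        have h6 : 4 * ((R : ℝ) * (S : ℝ) ^ 2) ≤ (M : ℝ) * Y0 := by exact_mod_cast hY0
        refine h6.trans ?_
        have h7 : 2 * (2 * (2 : ℝ) ^ (i - 1))⁻¹ * ((M : ℝ) * |(h : ℝ)|) =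
            (M : ℝ) * (|(h : ℝ)| / 2 ^ (i - 1)) := by
          field_simp
        rw [h7]
        refine mul_le_mul_of_nonneg_left ?_ hM'.le
        rw [le_div_iff₀ hp]
        linarith [mul_comm ((2 : ℝ) ^ (i - 1)) (Y0 : ℝ)]
      calc (4 * ((R : ℝ) * (S : ℝ) ^ 2) / ((M : ℝ) * |(h : ℝ)|)) ^ 2 ≤ (2 * (1 / 2 : ℝ) ^ i) ^ 2 :=
            pow_le_pow_left₀ (by positivity) h5 2
        _ = 4 * ((1 / 2 : ℝ) ^ i * (1 / 2 : ℝ) ^ i) := by ring
  refine hg.trans ((mul_le_mul_of_nonneg_left key hK).trans (le_of_eq ?_))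
  ring

theorem tBdh : BdhStmt := by
  classical
  intro a g R S M N H Y0 P γ ω E hg hR hS hM hY hY0 hE hCf hyp
  obtain ⟨hc0, hcP, hcb⟩ := hCf
  have hR' : (0 : ℝ) < R := by exact_mod_cast hR
  have hS' : (0 : ℝ) < S := by exact_mod_cast hS
  have hM' : (0 : ℝ) < M := by exact_mod_cast hM
  have hg' : (0 : ℝ) < g := by exact_mod_cast hg
  have hMg : 1 ≤ M * g := Nat.mul_pos hM hg
  -- the index of h
  have hex : ∀ h : ℤ, ∃ i : ℕ, |h| ≤ ((2 ^ i * Y0 : ℕ) : ℤ) := by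
    intro h
    refine ⟨h.natAbs, ?_⟩
    have h1 : h.natAbs ≤ 2 ^ h.natAbs * Y0 := by
      have h2 : h.natAbs < 2 ^ h.natAbs := Nat.lt_two_pow_self
      calc h.natAbs ≤ 2 ^ h.natAbs * 1 := by omega
        _ ≤ 2 ^ h.natAbs * Y0 := Nat.mul_le_mul_left _ hY
    rw [Int.abs_eq_natAbs]
    exact_mod_cast h1
  set idx : ℤ → ℕ := fun h => Nat.find (hex h) with hidx
  have hidx1 : ∀ h, |h| ≤ ((2 ^ idx h * Y0 : ℕ) : ℤ) := fun h => Nat.find_spec (hex h)
  have hidx2 : ∀ h, idx h ≠ 0 → ((2 ^ (idx h - 1) * Y0 : ℕ) : ℤ) < |h| := by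
    intro h hi
    have := Nat.find_min (hex h) (m := idx h - 1) (by
      have : idx h - 1 < idx h := by omega
      exact this)
    exact not_le.1 this
  set I : Finset ℤ := (Icc (-(H : ℤ)) H).filter (fun h => h ≠ 0) with hI
  have hIle : ∀ h ∈ I, |h| ≤ (H : ℤ) := by
    intro h hh
    have := mem_Icc.1 (mem_filter.1 hh).1
    exact abs_le.2 this
  have hidx3 : ∀ h ∈ I, idx h ∈ range (H + 1) := by
    intro h hh
    rw [mem_range]
    have h1 : idx h ≤ H := by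
      refine Nat.find_min' (hex h) ?_
      refine (hIle h hh).trans ?_
      have h2 : H < 2 ^ H := Nat.lt_two_pow_self
      have h1 : H ≤ 2 ^ H * Y0 := by
        calc H ≤ 2 ^ H * 1 := by omega
          _ ≤ 2 ^ H * Y0 := Nat.mul_le_mul_left _ hY
      exact_mod_cast h1
    omega
  have e1 : ∑ h ∈ Icc (-(H : ℤ)) H, SL.TG a g h R S N (γ h) ω = ∑ h ∈ I, SL.TG a g h R S N (γ h) ω := by
    rw [hI, sum_filter]
    refine sum_congr rfl (fun h _ => ?_)
    by_cases h0 : h = 0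
    · subst h0
      rw [Bdh_zero _ _ _ _ _ _ _ _ hc0]
      simp
    · rw [if_pos h0]
  have e2 : ∑ h ∈ I, SL.TG a g h R S N (γ h) ω =
      ∑ i ∈ range (H + 1), ∑ h ∈ I.filter (fun h => idx h = i), SL.TG a g h R S N (γ h) ω :=
    (sum_fiberwise_of_maps_to hidx3 _).symm
  set K : ℝ := 16 * ((M * g : ℕ) : ℝ) / ((R : ℝ) * (S : ℝ) ^ 2) with hK
  have hK0 : 0 < K := by
    rw [hK, Nat.cast_mul]
    positivity
  have e3 : ∀ i ∈ range (H + 1), ‖∑ h ∈ I.filter (fun h => idx h = i), SL.TG a g h R S N (γ h) ω‖ ≤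
      K * E * (1 / 2 : ℝ) ^ i := by
    intro i _
    rcases (I.filter (fun h => idx h = i)).eq_empty_or_nonempty with hem | ⟨h1, hh1⟩
    · rw [hem, sum_empty, norm_zero]
      positivity
    · obtain ⟨hh1I, hh1i⟩ := mem_filter.1 hh1
      have hsz : 2 ^ i * Y0 ≤ 2 * H + Y0 := by
        rcases Nat.eq_zero_or_pos i with h0 | h0
        · subst h0
          simp
        · have h2 := hidx2 h1 (by omega)
          rw [hh1i] at h2
          have h3 := lt_of_lt_of_le h2 (hIle h1 hh1I)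
          have h4 : 2 ^ (i - 1) * Y0 < H := by exact_mod_cast h3
          have h5 : 2 ^ i = 2 * 2 ^ (i - 1) := by
            rw [← pow_succ']
            congr 1
            omega
          rw [h5, mul_assoc]
          omega
      set c : ℝ := K * ((1 / 2 : ℝ) ^ i * (1 / 2 : ℝ) ^ i) with hc
      have hcpos : 0 < c := by positivity
      have hcne : (c : ℂ) ≠ 0 := by
        exact_mod_cast hcpos.ne'
      set Hs := I.filter (fun h => idx h = i) with hHs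
      set γ' : ℤ → ℕ → ℕ → ℕ → ℂ := fun h r s1 s2 => if h ∈ Hs then (c : ℂ)⁻¹ * γ h r s1 s2 else 0 with hγ'
      have hb := hyp i Hs γ' hsz (by
        intro h hh
        obtain ⟨g1, g2⟩ := mem_filter.1 hh
        refine ⟨(mem_filter.1 g1).2, ?_⟩
        rw [← g2]
        exact hidx1 h) (by
        intro h r s1 s2
        simp only [hγ']
        split_ifs with hh
        · obtain ⟨g1, g2⟩ := mem_filter.1 hh
          have h3 := Bdh_coef (M := M * g) (i := i) hR hS hMg hY hY0 (by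
            rw [Nat.cast_mul]
            exact hcb h r s1 s2) (by
            intro h0
            rw [← g2] at h0 ⊢
            exact hidx2 h h0)
          rw [norm_mul, norm_inv, Complex.norm_real, Real.norm_of_nonneg hcpos.le, inv_mul_le_iff₀ hcpos, mul_one]
          exact h3
        · simp) (by
        intro h r s1 s2 hne
        simp only [hγ'] at hne
        split_ifs at hne with hh
        · exact hcP h r s1 s2 (right_ne_zero_of_mul hne)
        · exact absurd rfl hne)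
      have e4 : ∑ h ∈ Hs, SL.TG a g h R S N (γ h) ω = (c : ℂ) * ∑ h ∈ Hs, SL.TG a g h R S N (γ' h) ω := by
        rw [mul_sum]
        refine sum_congr rfl (fun h hh => ?_)
        have e5 : γ' h = fun r s1 s2 => (c : ℂ)⁻¹ * γ h r s1 s2 := by
          funext r s1 s2
          simp only [hγ', if_pos hh]
        rw [e5, Bdh_smul, ← mul_assoc, mul_inv_cancel₀ hcne, one_mul]
      rw [e4, norm_mul, Complex.norm_real, Real.norm_of_nonneg hcpos.le]
      refine (mul_le_mul_of_nonneg_left hb hcpos.le).trans (le_of_eq ?_)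
      have e6 : (1 / 2 : ℝ) ^ i * 2 ^ i = 1 := by
        rw [← mul_pow]
        norm_num
      calc c * (2 ^ i * E) = K * E * (1 / 2 : ℝ) ^ i * ((1 / 2 : ℝ) ^ i * 2 ^ i) := by rw [hc]; ring
        _ = K * E * (1 / 2 : ℝ) ^ i := by rw [e6, mul_one]
  rw [e1, e2]
  refine (norm_sum_le _ _).trans ((sum_le_sum e3).trans ?_)
  rw [← mul_sum]
  have e7 : ∑ i ∈ range (H + 1), (1 / 2 : ℝ) ^ i ≤ 2 := sum_geometric_two_le _
  refine (mul_le_mul_of_nonneg_left e7 (by positivity)).trans (le_of_eq ?_)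
  rw [hK, Nat.cast_mul]
  ring

end Pool.Agent.Lib.SLB
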