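import Pool.Agent.Lib.SLB.SpecB

/-! MP_00e23e_nt, Lib/SLB, module Bfi: the bilinear theorem, assembly (adapted from Lib/MX/Bfi). -/

namespace Pool.Agent.Lib.SLB

open Finset Pool.Agent.Lib.EH3 Pool.Agent.Lib.TB Pool.Agent.Results.MP_00e23e_nt Pool.Agent.Lib.MI
open Pool.Agent.Lib.MX (Bd Mz Bd_nonneg Bd_mono rp_le rn_le log_le_T Tau_x)

/-- the divisor r of one modulus q -/
private lemma Bfi_div (h3 : MI.BgrStmt) {Z y : ℝ} {q t w m : ℕ} (hq : 1 ≤ q) (hw : w ∣ q) (ht : t ∣ q)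
    (hm : m ∣ w) (hZq : Z < (q : ℝ)) (hmt : (m : ℝ) * t ≤ Z)
    (hsm : ∀ p : ℕ, p.Prime → p ∣ q / m → (p : ℝ) ≤ y) :
    ∃ r : ℕ, m ∣ r ∧ t ∣ r ∧ r ∣ q ∧ (r : ℝ) ≤ Z ∧ Z < (r : ℝ) * y ∧ (Nat.lcm w t ∣ r ∨ r ∣ Nat.lcm w t) := by
  have hc : Nat.lcm w t ∣ q := Nat.lcm_dvd hw ht
  have hmc : m ∣ Nat.lcm w t := hm.trans (Nat.dvd_lcm_left w t)
  have htc : t ∣ Nat.lcm w t := Nat.dvd_lcm_right w t
  rcases le_or_gt ((Nat.lcm w t : ℕ) : ℝ) Z with hcZ | hcZ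
  · obtain ⟨r, r1, r2, r3, r4⟩ := h3 q (Nat.lcm w t) Z y hq hc hcZ hZq (by
      intro p hp hpd
      exact hsm p hp (hpd.trans (Nat.div_dvd_div_left hc hmc)))
    exact ⟨r, hmc.trans r1, htc.trans r1, r2, r3, r4, Or.inl r1⟩
  · have hd : Nat.lcm m t ∣ Nat.lcm w t := Nat.lcm_dvd hmc htc
    have hm0 : 0 < m := Nat.pos_of_dvd_of_pos (hm.trans hw) (by omega)
    have ht0 : 0 < t := Nat.pos_of_dvd_of_pos ht (by omega)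
    have hw0 : 0 < w := Nat.pos_of_dvd_of_pos hw (by omega)
    have hle : ((Nat.lcm m t : ℕ) : ℝ) ≤ Z := by
      refine le_trans ?_ hmt
      have h5 : Nat.lcm m t ≤ m * t := Nat.le_of_dvd (Nat.mul_pos hm0 ht0) (Nat.lcm_dvd_mul m t)
      have h6 : ((Nat.lcm m t : ℕ) : ℝ) ≤ ((m * t : ℕ) : ℝ) := by exact_mod_cast h5
      rwa [Nat.cast_mul] at h6
    obtain ⟨r, r1, r2, r3, r4⟩ := h3 (Nat.lcm w t) (Nat.lcm m t) Z y (Nat.lcm_pos hw0 ht0) hd hle hcZ (by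
      intro p hp hpd
      refine hsm p hp (hpd.trans ?_)
      exact (Nat.div_dvd_div hd hc).trans (Nat.div_dvd_div_left (hd.trans hc) (Nat.dvd_lcm_left m t)))
    exact ⟨r, (Nat.dvd_lcm_left m t).trans r1, (Nat.dvd_lcm_right m t).trans r1, r2.trans hc, r3, r4, Or.inr r2⟩

/-- exchange of the two variables -/
private lemma Bfi_swap (a : ℤ) (t q M N : ℕ) (f g : ℕ → ℂ) :
    ∑ m ∈ Ioc M (2 * M), ∑ n ∈ Ioc N (2 * N), f m * g n * Ek a t q (m * n) =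
      ∑ n ∈ Ioc N (2 * N), ∑ m ∈ Ioc M (2 * M), g n * f m * Ek a t q (n * m) := by
  rw [sum_comm]
  refine sum_congr rfl fun n _ => sum_congr rfl fun m _ => ?_
  rw [mul_comm m n, mul_comm (f m) (g n)]

/-- the bilinear theorem for N ≤ M -/
private lemma Bfi_core (h1 : BdsStmt) (h2 : SL.BgeStmt) (h3 : MI.BgrStmt) {δ μ κ l l' ε : ℝ}
    (hP : Par δ κ l ε) (hl : l' + δ + 3 / 2 * κ + 6 * ε ≤ 1 / 2) (hμ : μ + 3 * ε ≤ 1 / 3)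
    (hB : BiiStmt δ κ ε) : ∃ (η C x0 : ℝ) (A0 : ℕ), 0 < η ∧ 0 ≤ C ∧
    ∀ (x T z : ℝ) (a : ℕ → ℤ) (M N : ℕ) (f g : ℕ → ℂ) (F : Finset ℕ) (t : ℕ → ℕ), x0 ≤ x →
    Tau (x ^ (30 : ℝ)) T → 1 ≤ z → z ≤ x → N ≤ M → x ^ ((1 : ℝ) / 3 - ε) ≤ N →
    x ^ (1 - ε) ≤ (M : ℝ) * N → (M : ℝ) * N ≤ x → (∀ m, ‖f m‖ ≤ 1) → (∀ n, ‖g n‖ ≤ 1) →
    (∀ q ∈ F, Mz (1 / 2 + δ) (ε / 16) z x (t q) q ∧ Int.gcd (a q) q = 1) → SLA.Lkm μ κ l l' x a t F →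
    ∑ q ∈ F, ‖∑ m ∈ Ioc M (2 * M), ∑ n ∈ Ioc N (2 * N), f m * g n * Ek (a q) (t q) q (m * n)‖ ≤
      MX.Bd C A0 η x T z := by
  classical
  obtain ⟨hδ, hκ, hε, hε1, hp1, hp2⟩ := id hP
  obtain ⟨ηd, Cd, xd, Ad, hηd, hCd, hds⟩ := h1 δ κ l l' ε hP hl hB
  obtain ⟨Cg, xg, Ag, hCg, hge⟩ := h2 δ ε hδ (by linarith) hε hε1
  refine ⟨min ηd (ε / 2), Cd + Cg, max (max xd xg) 1, max Ad Ag, lt_min hηd (by linarith), by positivity, ?_⟩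
  intro x T z a M N f g F t hx hT hz hzx hNM hN hMN1 hMN2 hf hg hF hΦ
  have hxd : xd ≤ x := ((le_max_left _ _).trans (le_max_left _ _)).trans hx
  have hxg : xg ≤ x := ((le_max_right _ _).trans (le_max_left _ _)).trans hx
  have hx1 : 1 ≤ x := (le_max_right _ _).trans hx
  have hx0 : 0 < x := by linarith
  have hT1 : 1 ≤ T := hT.1
  obtain ⟨w, m, hwm, hlock⟩ := hΦ
  have hNpos : (0 : ℝ) < N := lt_of_lt_of_le (Real.rpow_pos_of_pos hx0 _) hN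
  have hNMR : (N : ℝ) ≤ M := by exact_mod_cast hNM
  have hN2 : (N : ℝ) ≤ x ^ ((1 : ℝ) / 2) := by
    rw [← Real.sqrt_eq_rpow]
    refine Real.le_sqrt_of_sq_le ?_
    nlinarith
  obtain ⟨Z, hZ⟩ : ∃ Z : ℝ, Z = (N : ℝ) * x ^ (-ε) := ⟨_, rfl⟩
  have hZ1 : Z ≤ x ^ (1 / 2 - ε / 2) := by
    rw [hZ]
    calc (N : ℝ) * x ^ (-ε) ≤ x ^ ((1 : ℝ) / 2) * x ^ (-ε) :=
          mul_le_mul_of_nonneg_right hN2 (Real.rpow_nonneg hx0.le _)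
      _ = x ^ ((1 : ℝ) / 2 + -ε) := (Real.rpow_add hx0 _ _).symm
      _ ≤ x ^ (1 / 2 - ε / 2) := Real.rpow_le_rpow_of_exponent_le hx1 (by linarith)
  have hZ3 : x ^ (μ + ε / 16) ≤ Z := by
    rw [hZ]
    calc x ^ (μ + ε / 16) ≤ x ^ ((1 : ℝ) / 3 - ε + -ε) :=
          Real.rpow_le_rpow_of_exponent_le hx1 (by linarith)
      _ = x ^ ((1 : ℝ) / 3 - ε) * x ^ (-ε) := Real.rpow_add hx0 _ _
      _ ≤ (N : ℝ) * x ^ (-ε) := mul_le_mul_of_nonneg_right hN (Real.rpow_nonneg hx0.le _)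
  have hex : ∀ q : ℕ, ∃ r : ℕ, q ∈ F → x ^ (1 / 2 - ε / 2) < (q : ℝ) →
      (m q ∣ r ∧ t q ∣ r ∧ r ∣ q ∧ (r : ℝ) ≤ Z ∧ Z < (r : ℝ) * x ^ κ ∧
        (Nat.lcm (w q) (t q) ∣ r ∨ r ∣ Nat.lcm (w q) (t q))) := by
    intro q
    by_cases hq : q ∈ F
    · by_cases hq2 : x ^ (1 / 2 - ε / 2) < (q : ℝ)
      · obtain ⟨⟨e1, e2, e3, e4, e5⟩, e6⟩ := hF q hq
        obtain ⟨⟨d1, d2, d3⟩, d4, d5, d6⟩ := hwm q hq
        have hq1 : 1 ≤ q := Nat.one_le_iff_ne_zero.2 e1.ne_zero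
        have hmt : (m q : ℝ) * t q ≤ Z := by
          refine le_trans ?_ hZ3
          rw [Real.rpow_add hx0]
          exact mul_le_mul d2 e4 (Nat.cast_nonneg _) (Real.rpow_nonneg hx0.le _)
        obtain ⟨r, hr⟩ := Bfi_div h3 hq1 d4 e2 d1 (lt_of_le_of_lt hZ1 hq2) hmt d3
        exact ⟨r, fun _ _ => hr⟩
      · exact ⟨0, fun _ h => absurd h hq2⟩
    · exact ⟨0, fun h => absurd h hq⟩
  choose r hr using hex
  obtain ⟨F2, hF2⟩ : ∃ F2 : Finset ℕ, F2 = F.filter (fun q : ℕ => x ^ (1 / 2 - ε / 2) < (q : ℝ)) := ⟨_, rfl⟩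
  have hF2m : ∀ q ∈ F2, q ∈ F ∧ x ^ (1 / 2 - ε / 2) < (q : ℝ) := by
    intro q hq
    rw [hF2, mem_filter] at hq
    exact hq
  have hge' := hge (ε / 16) x T z a M N f g F t (fun q => r q / t q) hxg hT hz hzx hNM hN hMN1 hMN2 hf hg hF (by
    intro q hq hq2
    obtain ⟨i1, i2, i3, i4, i5, i6⟩ := hr q hq hq2
    obtain ⟨⟨e1, e2, e3, e4, e5⟩, e6⟩ := hF q hq
    refine ⟨Nat.div_dvd_div i2 i3, ?_⟩
    rw [Nat.mul_div_cancel' i2]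
    exact i4.trans hZ1)
  have hds' := hds x T z a M N f g F2 t w m r hxd hT hz hzx hNM hN hMN1 hMN2 hf hg (by
    intro q hq
    obtain ⟨hq1, hq2⟩ := hF2m q hq
    obtain ⟨i1, i2, i3, i4, i5, i6⟩ := hr q hq1 hq2
    obtain ⟨⟨d1, d2, d3⟩, d4, d5, d6⟩ := hwm q hq1
    rw [hZ] at i4 i5
    exact ⟨⟨(hF q hq1).1, (hF q hq1).2, hq2, d3⟩, ⟨d4, d5, d6⟩, d1, i1, i2, i3, i4, i5, i6⟩) (by
    intro q hq q' hq' hww
    exact hlock q (hF2m q hq).1 q' (hF2m q' hq').1 hww)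
  have hsum : ∑ q ∈ F.filter (fun q : ℕ => x ^ (1 / 2 - ε / 2) < (q : ℝ)), ‖∑ m ∈ Ioc M (2 * M), ∑ n ∈ Ioc N (2 * N),
      f m * g n * Dl (a q) (t q * (r q / t q)) (q / (t q * (r q / t q))) (m * n)‖ =
      ∑ q ∈ F2, ‖∑ m ∈ Ioc M (2 * M), ∑ n ∈ Ioc N (2 * N), f m * g n * Dl (a q) (r q) (q / r q) (m * n)‖ := by
    rw [← hF2]
    refine sum_congr rfl fun q hq => ?_
    obtain ⟨hq1, hq2⟩ := hF2m q hq
    rw [Nat.mul_div_cancel' (hr q hq1 hq2).2.1]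
  have hge2 := hge'
  rw [hsum] at hge2
  have c1 : MX.Bd Cd Ad ηd x T z ≤ MX.Bd Cd (max Ad Ag) (min ηd (ε / 2)) x T z :=
    Bd_mono hCd le_rfl (le_max_left _ _) (min_le_left _ _) hT1 hx0.le hz
  have c2 : MX.Bd Cg Ag (ε / 2) x T z ≤ MX.Bd Cg (max Ad Ag) (min ηd (ε / 2)) x T z :=
    Bd_mono hCg le_rfl (le_max_right _ _) (min_le_right _ _) hT1 hx0.le hz
  calc _ ≤ MX.Bd Cd (max Ad Ag) (min ηd (ε / 2)) x T z + MX.Bd Cg (max Ad Ag) (min ηd (ε / 2)) x T z :=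
        hge2.trans (add_le_add (hds'.trans c1) c2)
    _ = MX.Bd (Cd + Cg) (max Ad Ag) (min ηd (ε / 2)) x T z := by
        unfold MX.Bd
        ring

theorem tBfi (h1 : BdsStmt) (h2 : SL.BgeStmt) (h3 : MI.BgrStmt) : BfiStmt := by
  intro δ μ κ l l' hδ hμ hκ hp1 hp2 hp3 hB
  obtain ⟨ε1, hε1, hB⟩ := hB
  obtain ⟨m0, hm0⟩ : ∃ m0 : ℝ, m0 = min (min (min (1 - 84 * δ - 48 * κ) (l - 1 / 3 - 4 * δ - 7 / 3 * κ))
    (min (1 / 2 - l' - δ - 3 / 2 * κ) (1 / 3 - μ))) (min 1 ε1) := ⟨_, rfl⟩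
  obtain ⟨ε, hε⟩ : ∃ ε : ℝ, ε = m0 / 1000 := ⟨_, rfl⟩
  have e0 : 0 < m0 := by
    rw [hm0]
    exact lt_min (lt_min (lt_min (by linarith) (by linarith)) (lt_min (by linarith) (by linarith)))
      (lt_min one_pos hε1)
  have e1 : m0 ≤ 1 - 84 * δ - 48 * κ := by
    rw [hm0]
    exact ((min_le_left _ _).trans (min_le_left _ _)).trans (min_le_left _ _)
  have e2 : m0 ≤ l - 1 / 3 - 4 * δ - 7 / 3 * κ := by
    rw [hm0]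
    exact ((min_le_left _ _).trans (min_le_left _ _)).trans (min_le_right _ _)
  have e3 : m0 ≤ 1 / 2 - l' - δ - 3 / 2 * κ := by
    rw [hm0]
    exact ((min_le_left _ _).trans (min_le_right _ _)).trans (min_le_left _ _)
  have e4 : m0 ≤ 1 / 3 - μ := by
    rw [hm0]
    exact ((min_le_left _ _).trans (min_le_right _ _)).trans (min_le_right _ _)
  have e5 : m0 ≤ 1 := by
    rw [hm0]
    exact (min_le_right _ _).trans (min_le_left _ _)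
  have e6 : m0 ≤ ε1 := by
    rw [hm0]
    exact (min_le_right _ _).trans (min_le_right _ _)
  have hε0 : 0 < ε := by rw [hε]; linarith
  have hP : Par δ κ l ε := by
    refine ⟨hδ, hκ, hε0, ?_, ?_, ?_⟩ <;> rw [hε] <;> linarith
  have hl : l' + δ + 3 / 2 * κ + 6 * ε ≤ 1 / 2 := by
    rw [hε]
    linarith
  have hμ2 : μ + 3 * ε ≤ 1 / 3 := by
    rw [hε]
    linarith
  have hε2 : ε ≤ ε1 := by
    rw [hε]
    linarith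
  have hε3 : ε < 1 / 100 := hP.2.2.2.1
  refine ⟨ε, ε / 16, hε0, hε3, by linarith, by linarith, ?_⟩
  obtain ⟨η, C, x0, A0, hη, hC, h⟩ := Bfi_core h1 h2 h3 hP hl hμ2 (hB ε hε0 hε2)
  refine ⟨η, C, x0, A0, hη, hC, ?_⟩
  intro x T z a M N f g F t hx hT hz hzx hN hM hMN1 hMN2 hf hg hF hΦ
  rcases le_total N M with hNM | hNM
  · exact h x T z a M N f g F t hx hT hz hzx hNM hN hMN1 hMN2 hf hg hF hΦ
  · have := h x T z a N M g f F t hx hT hz hzx hNM hM (by rw [mul_comm]; exact hMN1)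
      (by rw [mul_comm]; exact hMN2) hg hf hF hΦ
    refine le_trans (le_of_eq ?_) this
    refine sum_congr rfl fun q _ => ?_
    rw [Bfi_swap]

end Pool.Agent.Lib.SLB
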