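import Pool.Agent.Lib.SLB.SpecB

set_option autoImplicit false

/-!
One g: admissible coefficients from bounded ones.
-/

namespace Pool.Agent.Lib.SLB

open Finset Pool.Agent.Lib.EH3 Pool.Agent.Lib.TB Pool.Agent.Results.MP_00e23e_nt Pool.Agent.Lib.MI
open Pool.Agent.Lib.MX (Bd Mz Bd_nonneg Bd_mono rp_le rn_le log_le_T Tau_x)

private theorem Bga_b {a : ℕ → ℕ → ℤ} {ρ : ℕ → ℕ} {v col : ℕ → ℕ → ℕ} {K R0 V : ℕ} {P : Finset (ℕ × ℕ)}
    (hLp : Lp a ρ v col K R0 V P) (c : ℕ) : ∃ b : ℕ → ℕ → ℤ, ∀ r s, (r, s) ∈ P → col r s = c →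
      ((ρ r : ℕ) : ℤ) ∣ a r s - b (ρ r) (s / v r s) := by
  classical
  refine ⟨fun ρ' u => if h : ∃ w ∈ P, ρ w.1 = ρ' ∧ w.2 / v w.1 w.2 = u ∧ col w.1 w.2 = c then
    a h.choose.1 h.choose.2 else 0, fun r s hrs hc => ?_⟩
  have hex : ∃ w ∈ P, ρ w.1 = ρ r ∧ w.2 / v w.1 w.2 = s / v r s ∧ col w.1 w.2 = c := ⟨(r, s), hrs, rfl, rfl, hc⟩
  dsimp only
  rw [dif_pos hex]
  obtain ⟨h1, h2, h3, h4⟩ := hex.choose_spec
  exact hLp.2 (r, s) hrs hex.choose h1 h2.symm h3.symm (hc.trans h4.symm)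

private theorem Bga_root {Y V g E0 : ℝ} (hV : 0 < V) (hg : 0 < g) :
    Real.sqrt (Y / (V ^ 2 * g) + Y ^ 2 * E0) = g * Real.sqrt (Y / (V ^ 2 * g ^ 3) + (Y / g) ^ 2 * E0) := by
  have h : Y / (V ^ 2 * g) + Y ^ 2 * E0 = g ^ 2 * (Y / (V ^ 2 * g ^ 3) + (Y / g) ^ 2 * E0) := by
    field_simp
  rw [h, Real.sqrt_mul (sq_nonneg g), Real.sqrt_sq hg.le]

theorem tBga (h1 : BdhStmt) (h2 : BcsStmt) : BgaStmt := by
  intro D E0 a ρ v col g K R S M N H Y0 R0 V P γ ω hD hE0 hg hR hS hM hN hY0 hV h4 hCg hω hLp hHg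
  have hgR : (0 : ℝ) < g := by exact_mod_cast hg
  have hVR : (0 : ℝ) < V := by exact_mod_cast hV
  have hRR : (0 : ℝ) < R := by exact_mod_cast hR
  have hSR : (0 : ℝ) < S := by exact_mod_cast hS
  have hYR : (0 : ℝ) ≤ Y0 := Nat.cast_nonneg _
  set W : ℝ := (Y0 : ℝ) / ((V : ℝ) ^ 2 * (g : ℝ) ^ 3) + ((Y0 : ℝ) / g) ^ 2 * E0 with hW
  have hW0 : 0 ≤ W := by positivity
  set F : ℝ := Real.sqrt D * ((S : ℝ) ^ 2 * (N : ℝ) ^ 2) * Real.sqrt W with hF
  have hF0 : 0 ≤ F := by positivity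
  have hF2 : F ^ 2 = D * ((S : ℝ) ^ 2 * (N : ℝ) ^ 2) ^ 2 * W := by
    rw [hF, mul_pow, mul_pow, Real.sq_sqrt hD, Real.sq_sqrt hW0]
  have key := h1 a g R S M N H Y0 P γ ω ((K : ℝ) ^ 2 * F) hg hR hS hM hY0 h4 (by positivity) hCg
    (by
      intro i Hs γ' hi hHs hγ1 hγ2
      have hcol : ∀ h r s1 s2, γ' h r s1 s2 ≠ 0 → col r s1 < K ∧ col r s2 < K := by
        intro h r s1 s2 hne
        obtain ⟨hp1, hp2, -⟩ := hγ2 h r s1 s2 hne
        exact ⟨(hLp.1 (r, s1) hp1).2.2, (hLp.1 (r, s2) hp2).2.2⟩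
      have hbd := h2 a g R S N K col Hs γ' ω (2 ^ i * F) (by positivity) hcol
        (by
          intro c1 c2
          obtain ⟨b1, hb1⟩ := Bga_b hLp c1
          obtain ⟨b2, hb2⟩ := Bga_b hLp c2
          have hpos : 1 ≤ 2 ^ i * Y0 := Nat.mul_pos (Nat.two_pow_pos i) hY0
          have hne' : ∀ h r s1 s2, (if col r s1 = c1 ∧ col r s2 = c2 then γ' h r s1 s2 else 0) ≠ 0 →
              (col r s1 = c1 ∧ col r s2 = c2) ∧ γ' h r s1 s2 ≠ 0 := by
            intro h r s1 s2 hne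
            by_cases hc : col r s1 = c1 ∧ col r s2 = c2
            · rw [if_pos hc] at hne
              exact ⟨hc, hne⟩
            · rw [if_neg hc] at hne
              exact absurd rfl hne
          have hsq := hHg (2 ^ i * Y0) Hs
            (fun h r s1 s2 => if col r s1 = c1 ∧ col r s2 = c2 then γ' h r s1 s2 else 0) ω b1 b2 hpos hi hHs
            (by
              intro h r s1 s2
              split_ifs
              · exact hγ1 h r s1 s2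
              · rw [norm_zero]
                exact zero_le_one)
            hω
            (by
              intro h r s1 s2 hne
              exact hγ2 h r s1 s2 (hne' h r s1 s2 hne).2)
            (by
              intro h r s1 s2 hne
              obtain ⟨⟨hc1, hc2⟩, hne2⟩ := hne' h r s1 s2 hne
              obtain ⟨hp1, hp2, -⟩ := hγ2 h r s1 s2 hne2
              exact ⟨(hLp.1 (r, s1) hp1).1, (hLp.1 (r, s1) hp1).2.1, (hLp.1 (r, s2) hp2).2.1,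
                hb1 r s1 hp1 hc1, hb2 r s2 hp2 hc2⟩)
          refine (pow_le_pow_iff_left₀ (norm_nonneg _) (by positivity) two_ne_zero).1 (hsq.trans ?_)
          rw [mul_pow (2 ^ i) F 2, hF2]
          have hi1 : (1 : ℝ) ≤ 2 ^ i := one_le_pow₀ (by norm_num)
          have hA : 0 ≤ (Y0 : ℝ) / ((V : ℝ) ^ 2 * (g : ℝ) ^ 3) := by positivity
          have h5 : ((2 ^ i * Y0 : ℕ) : ℝ) / ((V : ℝ) ^ 2 * (g : ℝ) ^ 3) +
              (((2 ^ i * Y0 : ℕ) : ℝ) / g) ^ 2 * E0 ≤ (2 ^ i) ^ 2 * W := by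
            have e1 : ((2 ^ i * Y0 : ℕ) : ℝ) / ((V : ℝ) ^ 2 * (g : ℝ) ^ 3) =
                2 ^ i * ((Y0 : ℝ) / ((V : ℝ) ^ 2 * (g : ℝ) ^ 3)) := by
              push_cast
              ring
            have e2 : (((2 ^ i * Y0 : ℕ) : ℝ) / g) ^ 2 * E0 = (2 ^ i) ^ 2 * (((Y0 : ℝ) / g) ^ 2 * E0) := by
              push_cast
              ring
            have e3 : (2 : ℝ) ^ i * ((Y0 : ℝ) / ((V : ℝ) ^ 2 * (g : ℝ) ^ 3)) ≤
                (2 ^ i) ^ 2 * ((Y0 : ℝ) / ((V : ℝ) ^ 2 * (g : ℝ) ^ 3)) := by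
              refine mul_le_mul_of_nonneg_right ?_ hA
              nlinarith only [hi1]
            rw [e1, e2, hW, mul_add]
            linarith only [e3]
          have h6 : 0 ≤ D * ((S : ℝ) ^ 2 * (N : ℝ) ^ 2) ^ 2 := by positivity
          have h7 := mul_le_mul_of_nonneg_left h5 h6
          have h8 : D * ((S : ℝ) ^ 2 * (N : ℝ) ^ 2) ^ 2 * ((2 ^ i) ^ 2 * W) =
              (2 ^ i) ^ 2 * (D * ((S : ℝ) ^ 2 * (N : ℝ) ^ 2) ^ 2 * W) := by ring
          exact h7.trans (le_of_eq h8))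
      refine hbd.trans (le_of_eq (by ring)))
  refine key.trans (le_of_eq ?_)
  rw [Bga_root hVR hgR, ← hW, hF]
  field_simp

end Pool.Agent.Lib.SLB
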