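import Pool.Agent.Lib.SLB.SpecB

/-!
MP_00e23e_nt, project SL, chapter B: the bound of the sums TG in case I.
-/

set_option autoImplicit false

namespace Pool.Agent.Lib.SLB

open Finset Pool.Agent.Lib.EH3 Pool.Agent.Lib.TB Pool.Agent.Results.MP_00e23e_nt Pool.Agent.Lib.MI
open Pool.Agent.Lib.MX (Bd Mz Bd_nonneg Bd_mono rp_le rn_le log_le_T Tau_x)

theorem tBia (h1 : T0Stmt) (h2 : BnaStmt) : BiaStmt := by
  intro δ κ l ε hPar
  obtain ⟨C, hC, A, hT0⟩ := h1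
  obtain ⟨C0, x0, hC0, hx0, hB⟩ := h2 δ κ l ε hPar
  refine ⟨C, C0, x0, A, hC, hC0, ?_⟩
  intro x T a ρ v g M N R S R0 V Hm P hx hT hBlk hR hR0R hV hVS hVx hlR0 hg hsz H' Hs γ ω b1 b2
    hH1 hHm hHs hγ hω hsup hLt
  have hx1 : 1 ≤ x := hx0.trans hx
  have hbr := hB x M N R S R0 V hx hBlk hR hVx hlR0
  obtain ⟨-, hN, -, -, hS, hRN, -, -, -⟩ := id hBlk
  have hxp : 0 < x := lt_of_lt_of_le one_pos hx1
  have hR01 : 1 ≤ R0 := by
    have h3 : 0 < x ^ l := Real.rpow_pos_of_pos hxp l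
    have h4 : (0 : ℝ) < (R0 : ℝ) := by linarith
    exact_mod_cast h4
  have hRN' : R ≤ N := by
    have h3 : x ^ (-ε) ≤ 1 := Real.rpow_le_one_of_one_le_of_nonpos hx1 (by
      have := hPar.2.2.1
      linarith)
    have h4 : (R : ℝ) ≤ N := hRN.trans (mul_le_of_le_one_right (Nat.cast_nonneg N) h3)
    exact_mod_cast h4
  have hsz' : (2 * (R : ℝ) * (S : ℝ) ^ 2 * N * H') ^ 12 ≤ x ^ (30 : ℝ) := by
    refine le_trans ?_ hsz
    have h3 : (H' : ℝ) ≤ Hm := by exact_mod_cast hHm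
    gcongr
  have key := hT0 (x ^ (30 : ℝ)) T a b1 b2 ρ v g R S N H' R0 V Hs γ ω
    ⟨hT, ⟨hg, hR, hS, hR.trans hRN', hH1, hR01, hV, hR0R, hVS, hRN'⟩, hsz', hHs, hγ, hω,
      fun h r s1 s2 hne h2g => (hsup h r s1 s2 hne).2.2 h2g⟩ hLt
  refine key.trans ?_
  have hT1 : 0 ≤ T := zero_le_one.trans hT.1
  gcongr

end Pool.Agent.Lib.SLB
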