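import Pool.Agent.Lib.SLB.SpecTw

/-!
MP_00e23e_nt, project SL, chapter B: the bound of the sums TG in case II (84 δ + 48 κ ≤ 1).
-/

set_option autoImplicit false

namespace Pool.Agent.Lib.SLB

open Finset Pool.Agent.Lib.EH3 Pool.Agent.Lib.TB Pool.Agent.Results.MP_00e23e_nt Pool.Agent.Lib.MI
open Pool.Agent.Lib.MX (Bd Mz Bd_nonneg Bd_mono rp_le rn_le log_le_T Tau_x)

/-- the divisor -/
private theorem Bicw_div (h3 : MI.BgrStmt) {x κ : ℝ} (hx : 1 ≤ x) (hκ : 0 < κ) {S V L t : ℕ}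
    (hV : 1 ≤ V) (hL : 1 ≤ L) (hLc : L = 1 ∨ (L : ℝ) * (2 * V) ≤ S) (ht : S < t * (2 * V))
    (hp : ∀ p : ℕ, p.Prime → p ∣ t → (p : ℝ) ≤ x ^ κ) :
    ∃ f : ℕ, f ∣ t ∧ L ≤ f ∧ f ≤ ⌊(L : ℝ) * x ^ κ⌋₊ := by
  have hxk : 1 ≤ x ^ κ := Real.one_le_rpow hx hκ.le
  have ht1 : 1 ≤ t := by
    rcases Nat.eq_zero_or_pos t with h | h
    · rw [h] at ht
      simp at ht
    · exact h
  have hVr : (0 : ℝ) < V := by exact_mod_cast hV
  have hL1 : (1 : ℝ) ≤ L := by exact_mod_cast hL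
  have hLt : L ≤ t := by
    rcases hLc with h | h
    · rw [h]
      exact ht1
    · have h4 : (S : ℝ) < t * (2 * V) := by exact_mod_cast ht
      have h5 : (L : ℝ) * (2 * V) < t * (2 * V) := h.trans_lt h4
      have h6 : (L : ℝ) < t := lt_of_mul_lt_mul_right h5 (by positivity)
      exact_mod_cast h6.le
  rcases le_or_gt (t : ℝ) ((L : ℝ) * x ^ κ) with h4 | h4
  · exact ⟨t, dvd_rfl, hLt, Nat.le_floor h4⟩
  · have hZ : (((1 : ℕ) : ℕ) : ℝ) ≤ (L : ℝ) * x ^ κ := by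
      push_cast
      nlinarith
    obtain ⟨f, -, hf, hf1, hf2⟩ := h3 t 1 ((L : ℝ) * x ^ κ) (x ^ κ) ht1 (one_dvd t) hZ h4
      (fun p hpp hpd => hp p hpp (by rwa [Nat.div_one] at hpd))
    refine ⟨f, hf, ?_, Nat.le_floor hf1⟩
    have h5 : (L : ℝ) < f := lt_of_mul_lt_mul_right hf2 (by linarith)
    exact_mod_cast h5.le

theorem tBicw (h1 : TwStmt) (h2 : BnwStmt) (h3 : MI.BgrStmt) : BicwStmt := by
  classical
  intro δ κ ε hδ hκ hε hε1 hE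
  obtain ⟨C, hC, A, hTw⟩ := h1
  obtain ⟨x0, hx0, hB⟩ := h2 δ κ ε hδ hκ hε hε1 hE
  refine ⟨C, 5, x0, A, hC, by norm_num, ?_⟩
  intro x T a v g M N R S V Hm P hx hT hBlk hR hV hVS hw1 hw2 hg hgx hsz hP H' Hs γ ω b1 b2
    hH1 hHm hHs hγ hω hsup hLt
  have hx1 : 1 ≤ x := hx0.trans hx
  obtain ⟨-, hN, -, -, hS, hRN, -, -, -⟩ := id hBlk
  obtain ⟨k1, k2, k3, k4, k5⟩ := hB x M N R S V hx hBlk hR hV hVS hw1 hw2
  obtain ⟨L, hL⟩ : ∃ L : ℕ, L = LW δ κ ε x R S N V := ⟨_, rfl⟩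
  rw [← hL] at k1 k2 k4 k5
  have hRN' : R ≤ N := by
    have h3 : x ^ (-ε) ≤ 1 := Real.rpow_le_one_of_one_le_of_nonpos hx1 (by linarith)
    have h4 : (R : ℝ) ≤ N := hRN.trans (mul_le_of_le_one_right (Nat.cast_nonneg N) h3)
    exact_mod_cast h4
  have hsz' : (2 * (R : ℝ) * (S : ℝ) ^ 2 * N * H') ^ 12 ≤ x ^ (30 : ℝ) := by
    refine le_trans ?_ hsz
    have h3 : (H' : ℝ) ≤ Hm := by exact_mod_cast hHm
    gcongr
  obtain ⟨L', hL'⟩ : ∃ L' : ℕ, L' = ⌊(L : ℝ) * x ^ κ⌋₊ := ⟨_, rfl⟩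
  rw [← hL'] at k2 k5
  obtain ⟨F, hF⟩ : ∃ F : ℕ → ℕ → ℕ, ∀ r t, (∃ f : ℕ, f ∣ t ∧ L ≤ f ∧ f ≤ L') →
      F r t ∣ t ∧ L ≤ F r t ∧ F r t ≤ L' := by
    refine ⟨fun _ t => if h : ∃ f : ℕ, f ∣ t ∧ L ≤ f ∧ f ≤ L' then h.choose else 1, ?_⟩
    intro r t h
    simp only [h, dif_pos]
    exact h.choose_spec
  have key := hTw (x ^ (30 : ℝ)) T a b1 b2 v F g R S N H' V L L' Hs γ ω
    ⟨hT, ⟨hg, hR, hS, hR.trans hRN', hH1, hR, hV, le_rfl, hVS, hRN'⟩, hsz', hHs, hγ, hω,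
      fun h r s1 s2 hne h2g => (hsup h r s1 s2 hne).2.2 h2g⟩ hLt k1 k2 k3 (by
        intro h r s1 s2 hne
        apply hF
        obtain ⟨-, -, ⟨c1, c2, c3⟩, -, -⟩ := hLt h r s1 s2 hne
        obtain ⟨-, p2, -⟩ := hsup h r s1 s2 hne
        obtain ⟨-, -, d1, -, -, d2⟩ := hP (r, s2) p2
        have e1 : s2 / v r s2 * v r s2 = s2 := Nat.div_mul_cancel c1
        rw [hL']
        refine Bicw_div h3 hx1 hκ hV k1 k4 ?_ ?_
        · calc S < s2 := d1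
            _ = s2 / v r s2 * v r s2 := e1.symm
            _ ≤ s2 / v r s2 * (2 * V) := Nat.mul_le_mul_left _ c3
        · intro p hp hpd
          exact d2 p hp (hpd.trans (Nat.div_dvd_of_dvd c1)))
  refine key.trans ?_
  have hT1 : 0 ≤ T := zero_le_one.trans hT.1
  gcongr

end Pool.Agent.Lib.SLB
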