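import Pool.Agent.Lib.SLB.SpecB

set_option autoImplicit false

namespace Pool.Agent.Lib.SLB

open Finset Pool.Agent.Lib.EH3 Pool.Agent.Lib.TB Pool.Agent.Results.MP_00e23e_nt Pool.Agent.Lib.MI
open Pool.Agent.Lib.MX (Bd Mz Bd_nonneg Bd_mono rp_le rn_le log_le_T Tau_x)

/-- `R0^(3/2) ≥ x^(3l/2)/3` -/
private theorem Bna_W {x l R0 : ℝ} (hx : 0 < x) (h : x ^ l ≤ 2 * R0) :
    x ^ (3 * l / 2) / 3 ≤ R0 * Real.sqrt R0 := by
  have h0 : 0 < x ^ (l / 2) := Real.rpow_pos_of_pos hx _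
  have h1 : x ^ l = x ^ (l / 2) * x ^ (l / 2) := by
    rw [← Real.rpow_add hx]; congr 1; ring
  have h2 : x ^ (3 * l / 2) = x ^ l * x ^ (l / 2) := by
    rw [← Real.rpow_add hx]; congr 1; ring
  have h3 : 0 < x ^ l := Real.rpow_pos_of_pos hx _
  have hR : 0 < R0 := by linarith
  have h4 : 2 / 3 * x ^ (l / 2) ≤ Real.sqrt R0 := by
    apply Real.le_sqrt_of_sq_le
    nlinarith
  have h5 : x ^ l / 2 ≤ R0 := by linarith
  calc x ^ (3 * l / 2) / 3 = (x ^ l / 2) * (2 / 3 * x ^ (l / 2)) := by rw [h2]; ring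
    _ ≤ R0 * Real.sqrt R0 := by
        apply mul_le_mul h5 h4 (by positivity) hR.le

theorem tBna : BnaStmt := by
  intro δ κ l ε hP
  obtain ⟨hδ, hκ, hε, hε1, h84, hl⟩ := hP
  refine ⟨11, 1, by norm_num, le_rfl, ?_⟩
  intro x M N R S R0 V hx hB hR hV hR0
  obtain ⟨hNM, hN, -, hMN, hS, hRN, -, hRS, -⟩ := hB
  have hx0 : 0 < x := by linarith
  have hN0 : (0 : ℝ) < N := lt_of_lt_of_le (Real.rpow_pos_of_pos hx0 _) hN
  have hR0' : (0 : ℝ) < R0 := by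
    have := Real.rpow_pos_of_pos hx0 l
    linarith
  have hRp : (0 : ℝ) < R := by exact_mod_cast hR
  have hSp : (0 : ℝ) < S := by exact_mod_cast hS
  -- N ≤ x^(1/2)
  have hNh : (N : ℝ) ≤ x ^ ((1 : ℝ) / 2) := by
    rw [← Real.sqrt_eq_rpow]
    apply Real.le_sqrt_of_sq_le
    have : (N : ℝ) ≤ M := by exact_mod_cast hNM
    nlinarith
  obtain ⟨W, hWd⟩ : ∃ W : ℝ, W = (R0 : ℝ) * Real.sqrt R0 := ⟨_, rfl⟩
  have hW : x ^ (3 * l / 2) / 3 ≤ W := by rw [hWd]; exact Bna_W hx0 hR0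
  have hWp : 0 < W := lt_of_lt_of_le (by positivity) hW
  have hWi : 1 / W ≤ 3 * x ^ (-(3 * l / 2)) := by
    rw [Real.rpow_neg hx0.le, div_le_iff₀ hWp]
    have h1 : 0 < x ^ (3 * l / 2) := Real.rpow_pos_of_pos hx0 _
    calc (1 : ℝ) = 3 * (x ^ (3 * l / 2))⁻¹ * (x ^ (3 * l / 2) / 3) := by field_simp
      _ ≤ 3 * (x ^ (3 * l / 2))⁻¹ * W := by gcongr
  have hR0i : 1 / (R0 : ℝ) ≤ 2 * x ^ (-l) := by
    rw [Real.rpow_neg hx0.le, div_le_iff₀ hR0']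
    have h1 : 0 < x ^ l := Real.rpow_pos_of_pos hx0 _
    calc (1 : ℝ) = 2 * (x ^ l)⁻¹ * (x ^ l / 2) := by field_simp
      _ ≤ 2 * (x ^ l)⁻¹ * R0 := by
        gcongr
        linarith
  have hρ : (R : ℝ) / N ≤ x ^ (-ε) := by
    rw [div_le_iff₀ hN0, mul_comm]; exact hRN
  have hρ0 : 0 ≤ (R : ℝ) / N := by positivity
  have pos : ∀ t : ℝ, 0 < x ^ t := fun t => Real.rpow_pos_of_pos hx0 t
  have mono : ∀ s t : ℝ, s ≤ t → x ^ s ≤ x ^ t := fun s t h =>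
    Real.rpow_le_rpow_of_exponent_le hx h
  have hhd : hh δ κ ε = 4 * δ + 2 * κ + 10 * ε := rfl
  have hvd : vv δ κ ε = δ + κ / 2 + 7 / 2 * ε := rfl
  rw [← hWd]
  -- (1)
  have t1 : (R : ℝ) ^ 3 * S * V / (W * (N : ℝ) ^ 2) ≤ 3 * x ^ (-hh δ κ ε) := by
    have e1 : (R : ℝ) ^ 3 * S * V / (W * (N : ℝ) ^ 2) =
        ((R : ℝ) * S) * V * (((R : ℝ) / N) * ((R : ℝ) / N)) * (1 / W) := by field_simp
    have e2 : ((R : ℝ) * S) * V * (((R : ℝ) / N) * ((R : ℝ) / N)) * (1 / W) ≤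
        x ^ (1 / 2 + δ) * x ^ (vv δ κ ε + κ) * (x ^ (-ε) * x ^ (-ε)) * (3 * x ^ (-(3 * l / 2))) := by
      gcongr
    have e3 : x ^ (1 / 2 + δ) * x ^ (vv δ κ ε + κ) * (x ^ (-ε) * x ^ (-ε)) *
        (3 * x ^ (-(3 * l / 2))) =
        3 * x ^ ((1 / 2 + δ) + (vv δ κ ε + κ) + ((-ε) + (-ε)) + (-(3 * l / 2))) := by
      rw [Real.rpow_add hx0 ((1 / 2 + δ) + (vv δ κ ε + κ) + ((-ε) + (-ε))),
        Real.rpow_add hx0 ((1 / 2 + δ) + (vv δ κ ε + κ)), Real.rpow_add hx0 (1 / 2 + δ),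
        Real.rpow_add hx0 (-ε)]
      ring
    rw [e1]
    refine e2.trans ?_
    rw [e3]
    apply mul_le_mul_of_nonneg_left _ (by norm_num)
    apply mono
    rw [hhd, hvd]
    linarith
  -- (2)
  have t2 : (R : ℝ) ^ 2 / (W * N) ≤ 3 * x ^ (-hh δ κ ε) := by
    have e1 : (R : ℝ) ^ 2 / (W * N) =
        (N : ℝ) * (((R : ℝ) / N) * ((R : ℝ) / N)) * (1 / W) := by field_simp
    have e2 : (N : ℝ) * (((R : ℝ) / N) * ((R : ℝ) / N)) * (1 / W) ≤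
        x ^ ((1 : ℝ) / 2) * (x ^ (-ε) * x ^ (-ε)) * (3 * x ^ (-(3 * l / 2))) := by
      gcongr
    have e3 : x ^ ((1 : ℝ) / 2) * (x ^ (-ε) * x ^ (-ε)) * (3 * x ^ (-(3 * l / 2))) =
        3 * x ^ ((1 : ℝ) / 2 + ((-ε) + (-ε)) + (-(3 * l / 2))) := by
      rw [Real.rpow_add hx0 ((1 : ℝ) / 2 + ((-ε) + (-ε))), Real.rpow_add hx0 ((1 : ℝ) / 2),
        Real.rpow_add hx0 (-ε)]
      ring
    rw [e1]
    refine e2.trans ?_
    rw [e3]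
    apply mul_le_mul_of_nonneg_left _ (by norm_num)
    apply mono
    rw [hhd]
    linarith
  -- (3)
  have t3 : (R : ℝ) * Real.sqrt R * Real.sqrt ((S : ℝ) * V) / ((R0 : ℝ) * N) ≤
      2 * x ^ (-hh δ κ ε) := by
    have e0 : Real.sqrt R * Real.sqrt ((S : ℝ) * V) = Real.sqrt (((R : ℝ) * S) * V) := by
      rw [← Real.sqrt_mul hRp.le, mul_assoc]
    have e1 : (R : ℝ) * Real.sqrt R * Real.sqrt ((S : ℝ) * V) / ((R0 : ℝ) * N) =
        ((R : ℝ) / N) * Real.sqrt (((R : ℝ) * S) * V) * (1 / R0) := by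
      rw [← e0]; field_simp
    have e4 : Real.sqrt (((R : ℝ) * S) * V) ≤ x ^ (((1 / 2 + δ) + (vv δ κ ε + κ)) / 2) := by
      have h1 : ((R : ℝ) * S) * V ≤ x ^ ((1 / 2 + δ) + (vv δ κ ε + κ)) := by
        rw [Real.rpow_add hx0]
        gcongr
      have h2 : Real.sqrt (x ^ ((1 / 2 + δ) + (vv δ κ ε + κ))) =
          x ^ (((1 / 2 + δ) + (vv δ κ ε + κ)) / 2) := by
        rw [Real.sqrt_eq_rpow, ← Real.rpow_mul hx0.le]
        congr 1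
        ring
      rw [← h2]
      exact Real.sqrt_le_sqrt h1
    have e2 : ((R : ℝ) / N) * Real.sqrt (((R : ℝ) * S) * V) * (1 / R0) ≤
        x ^ (-ε) * x ^ (((1 / 2 + δ) + (vv δ κ ε + κ)) / 2) * (2 * x ^ (-l)) := by
      gcongr
    have e3 : x ^ (-ε) * x ^ (((1 / 2 + δ) + (vv δ κ ε + κ)) / 2) * (2 * x ^ (-l)) =
        2 * x ^ ((-ε) + (((1 / 2 + δ) + (vv δ κ ε + κ)) / 2) + (-l)) := by
      rw [Real.rpow_add hx0 ((-ε) + (((1 / 2 + δ) + (vv δ κ ε + κ)) / 2)),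
        Real.rpow_add hx0 (-ε)]
      ring
    rw [e1]
    refine e2.trans ?_
    rw [e3]
    apply mul_le_mul_of_nonneg_left _ (by norm_num)
    apply mono
    rw [hhd, hvd]
    linarith
  -- (4)
  have t4 : (R : ℝ) / W ≤ 3 * x ^ (-hh δ κ ε) := by
    have e1 : (R : ℝ) / W = (N : ℝ) * ((R : ℝ) / N) * (1 / W) := by field_simp
    have e2 : (N : ℝ) * ((R : ℝ) / N) * (1 / W) ≤
        x ^ ((1 : ℝ) / 2) * x ^ (-ε) * (3 * x ^ (-(3 * l / 2))) := by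
      gcongr
    have e3 : x ^ ((1 : ℝ) / 2) * x ^ (-ε) * (3 * x ^ (-(3 * l / 2))) =
        3 * x ^ ((1 : ℝ) / 2 + (-ε) + (-(3 * l / 2))) := by
      rw [Real.rpow_add hx0 ((1 : ℝ) / 2 + (-ε)), Real.rpow_add hx0 ((1 : ℝ) / 2)]
      ring
    rw [e1]
    refine e2.trans ?_
    rw [e3]
    apply mul_le_mul_of_nonneg_left _ (by norm_num)
    apply mono
    rw [hhd]
    linarith
  linarith

end Pool.Agent.Lib.SLB

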