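import Pool.Agent.Lib.SLB.SpecB

/-!
MP_00e23e_nt, project SL: the numbers of the dispersion.
-/

set_option autoImplicit false

namespace Pool.Agent.Lib.SLB

open Finset Pool.Agent.Lib.EH3 Pool.Agent.Lib.TB Pool.Agent.Results.MP_00e23e_nt Pool.Agent.Lib.MI
open Pool.Agent.Lib.MX (Bd Mz Bd_nonneg Bd_mono rp_le rn_le log_le_T Tau_x)

private theorem Bnc_gap {x a b c : ℝ} (hx : 1 ≤ x) (h64 : 64 ≤ x ^ ((1 : ℝ) / 4))
    (hab : a + 1 / 4 ≤ b) (hc : c ≤ 64) : c * x ^ a ≤ x ^ b := by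
  have h0 : 0 ≤ x ^ a := Real.rpow_nonneg (by linarith) a
  calc c * x ^ a ≤ x ^ ((1 : ℝ) / 4) * x ^ a := mul_le_mul_of_nonneg_right (hc.trans h64) h0
    _ = x ^ ((1 : ℝ) / 4 + a) := (Real.rpow_add (by linarith) _ _).symm
    _ ≤ x ^ b := Real.rpow_le_rpow_of_exponent_le hx (by linarith)

private theorem Bnc_fl {t : ℝ} (ht : 1 ≤ t) : t ≤ 2 * (⌊t⌋₊ : ℝ) := by
  have h1 := Nat.lt_floor_add_one t
  have h2 : 1 ≤ ⌊t⌋₊ := Nat.le_floor (by simpa using ht)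
  have h3 : (1 : ℝ) ≤ (⌊t⌋₊ : ℝ) := by exact_mod_cast h2
  linarith

/-- the facts about the block -/
private theorem Bnc_facts {δ κ l ε x : ℝ} {M N R S : ℕ} (hp : Par δ κ l ε) (hx : 1 ≤ x)
    (h64 : 64 ≤ x ^ ((1 : ℝ) / 4)) (hb : Blk δ κ ε x M N R S) :
    (64 : ℝ) ≤ N ∧ (N : ℝ) ≤ x ^ ((1 : ℝ) / 2) ∧ 5 * x ^ hh δ κ ε ≤ 2 * (R : ℝ) ∧ 1 ≤ R ∧
      x ^ (ε / 2) ≤ 4 * (S : ℝ) ∧ (R : ℝ) * (S : ℝ) ^ 2 ≤ 2 * x ^ (2 * δ + κ + 2 * ε) * M ∧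
      2 * x ^ (2 * δ + κ + 2 * ε) ≤ N := by
  obtain ⟨hδ, hκ, hε, hε1, hpar, -⟩ := hp
  obtain ⟨b1, b2, b3, b4, b5, b6, b7, b8, b9⟩ := hb
  have hx0 : 0 < x := by linarith
  have hN0 : (0 : ℝ) ≤ N := Nat.cast_nonneg _
  have hM0 : (0 : ℝ) ≤ M := Nat.cast_nonneg _
  have hR0 : (0 : ℝ) ≤ R := Nat.cast_nonneg _
  have hS1 : (1 : ℝ) ≤ S := by exact_mod_cast b5
  have hNM : (N : ℝ) ≤ M := by exact_mod_cast b1
  have f1 : (64 : ℝ) ≤ N := by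
    have h1 := Bnc_gap (a := 0) (b := 1 / 3 - ε) (c := 64) hx h64 (by linarith) le_rfl
    rw [Real.rpow_zero, mul_one] at h1
    exact h1.trans b2
  have f2 : (N : ℝ) ≤ x ^ ((1 : ℝ) / 2) := by
    rw [← Real.sqrt_eq_rpow]
    apply Real.le_sqrt_of_sq_le
    nlinarith
  have f4 : (R : ℝ) ≤ x ^ (1 / 2 - ε) := by
    calc (R : ℝ) ≤ N * x ^ (-ε) := b6
      _ ≤ x ^ ((1 : ℝ) / 2) * x ^ (-ε) :=
        mul_le_mul_of_nonneg_right f2 (Real.rpow_nonneg hx0.le _)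
      _ = x ^ (1 / 2 - ε) := by rw [← Real.rpow_add hx0]; ring_nf
  have f5 : x ^ (1 / 3 - 2 * ε - κ) ≤ 2 * (R : ℝ) := by
    calc x ^ (1 / 3 - 2 * ε - κ) = x ^ ((1 : ℝ) / 3 - ε) * x ^ (-ε - κ) := by
          rw [← Real.rpow_add hx0]; ring_nf
      _ ≤ N * x ^ (-ε - κ) := mul_le_mul_of_nonneg_right b2 (Real.rpow_nonneg hx0.le _)
      _ ≤ 2 * R := b7
  have f3 : 5 * x ^ hh δ κ ε ≤ 2 * (R : ℝ) :=
    (Bnc_gap hx h64 (by unfold hh; linarith) (by norm_num)).trans f5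
  have f6 : 1 ≤ R := by
    have h1 : (0 : ℝ) < x ^ hh δ κ ε := Real.rpow_pos_of_pos hx0 _
    have h2 : (0 : ℝ) < R := by linarith
    exact_mod_cast h2
  have hRpos : (0 : ℝ) < R := by exact_mod_cast f6
  have f7 : x ^ (ε / 2) ≤ 4 * (S : ℝ) := by
    have h1 : x ^ (1 / 2 - ε) * x ^ (ε / 2) = x ^ (1 / 2 - ε / 2) := by
      rw [← Real.rpow_add hx0]; ring_nf
    have h2 : (0 : ℝ) < x ^ (1 / 2 - ε) := Real.rpow_pos_of_pos hx0 _
    have h3 : x ^ (1 / 2 - ε) * x ^ (ε / 2) ≤ x ^ (1 / 2 - ε) * (4 * (S : ℝ)) := by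
      rw [h1]
      nlinarith
    exact le_of_mul_le_mul_left h3 h2
  have f8 : (R : ℝ) * (S : ℝ) ^ 2 ≤ 2 * x ^ (2 * δ + κ + 2 * ε) * M := by
    have h1 : x ^ (1 - 2 * ε - κ) ≤ 2 * ((R : ℝ) * M) := by
      calc x ^ (1 - 2 * ε - κ) = x ^ (1 - ε) * x ^ (-ε - κ) := by
            rw [← Real.rpow_add hx0]; ring_nf
        _ ≤ ((M : ℝ) * N) * x ^ (-ε - κ) := mul_le_mul_of_nonneg_right b3 (Real.rpow_nonneg hx0.le _)
        _ = M * (N * x ^ (-ε - κ)) := by ring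
        _ ≤ M * (2 * R) := mul_le_mul_of_nonneg_left b7 hM0
        _ = 2 * ((R : ℝ) * M) := by ring
    have h2 : ((R : ℝ) * S) ^ 2 ≤ x ^ (1 + 2 * δ) := by
      calc ((R : ℝ) * S) ^ 2 ≤ (x ^ (1 / 2 + δ)) ^ 2 := by
            apply pow_le_pow_left₀ (by positivity) b8
        _ = x ^ (1 + 2 * δ) := by
            rw [pow_two, ← Real.rpow_add hx0]; ring_nf
    have h3 : (0 : ℝ) < x ^ (1 - 2 * ε - κ) := Real.rpow_pos_of_pos hx0 _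
    have h4 : x ^ (1 - 2 * ε - κ) * x ^ (2 * δ + κ + 2 * ε) = x ^ (1 + 2 * δ) := by
      rw [← Real.rpow_add hx0]; ring_nf
    have h5 : x ^ (1 - 2 * ε - κ) * ((R : ℝ) * (S : ℝ) ^ 2) ≤
        x ^ (1 - 2 * ε - κ) * (2 * x ^ (2 * δ + κ + 2 * ε) * M) := by
      calc x ^ (1 - 2 * ε - κ) * ((R : ℝ) * (S : ℝ) ^ 2) ≤
            (2 * ((R : ℝ) * M)) * ((R : ℝ) * (S : ℝ) ^ 2) :=
              mul_le_mul_of_nonneg_right h1 (by positivity)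
        _ = 2 * M * ((R : ℝ) * S) ^ 2 := by ring
        _ ≤ 2 * M * x ^ (1 + 2 * δ) := mul_le_mul_of_nonneg_left h2 (by positivity)
        _ = x ^ (1 - 2 * ε - κ) * (2 * x ^ (2 * δ + κ + 2 * ε) * M) := by rw [← h4]; ring
    exact le_of_mul_le_mul_left h5 h3
  have f9 : 2 * x ^ (2 * δ + κ + 2 * ε) ≤ N :=
    (Bnc_gap hx h64 (by linarith) (by norm_num)).trans b2
  exact ⟨f1, f2, f3, f6, f7, f8, f9⟩

/-- the sizes -/
private theorem Bnc_size {x u w : ℝ} {M N R S H : ℕ} (hx : 64 ≤ x) (hu : 1 ≤ u) (huw : u ≤ w)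
    (hw : 11 * w ≤ x ^ ((1 : ℝ) / 2)) (hH : (H : ℝ) ≤ w) (hM : 0 < M) (hMN : (M : ℝ) * N ≤ x)
    (hN : (N : ℝ) ≤ x ^ ((1 : ℝ) / 2)) (hRS : (R : ℝ) * (S : ℝ) ^ 2 ≤ 2 * u * M)
    (huN : 2 * u ≤ N) :
    100 * (M : ℝ) ^ 2 * (N : ℝ) ^ 2 * (R : ℝ) ^ 2 * (S : ℝ) ^ 4 ≤ x ^ (30 : ℝ) ∧
      R * S ^ 2 ≤ M * N ∧
      (2 * (R : ℝ) * (S : ℝ) ^ 2 * N * ((2 * H + (4 * (R * S ^ 2) / M + 1) : ℕ) : ℝ)) ^ 12 ≤
        x ^ (30 : ℝ) := by
  have hM0 : (0 : ℝ) < M := by exact_mod_cast hM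
  have hx30 : x ^ (30 : ℝ) = x ^ 30 := by exact_mod_cast Real.rpow_natCast x 30
  have h1 : (R : ℝ) * (S : ℝ) ^ 2 ≤ M * N := by
    calc (R : ℝ) * (S : ℝ) ^ 2 ≤ 2 * u * M := hRS
      _ ≤ N * M := mul_le_mul_of_nonneg_right huN hM0.le
      _ = M * N := mul_comm _ _
  have h2 : (R : ℝ) * (S : ℝ) ^ 2 ≤ x := h1.trans hMN
  have h3 : x ^ ((1 : ℝ) / 2) * x ^ ((1 : ℝ) / 2) = x := by
    rw [← Real.rpow_add (by linarith)]
    norm_num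
  refine ⟨?_, by exact_mod_cast h1, ?_⟩
  · rw [hx30]
    have h4 : (M : ℝ) ^ 2 * (N : ℝ) ^ 2 * (R : ℝ) ^ 2 * (S : ℝ) ^ 4 ≤ x ^ 4 := by
      calc (M : ℝ) ^ 2 * (N : ℝ) ^ 2 * (R : ℝ) ^ 2 * (S : ℝ) ^ 4 =
            ((M : ℝ) * N) ^ 2 * ((R : ℝ) * (S : ℝ) ^ 2) ^ 2 := by ring
        _ ≤ x ^ 2 * x ^ 2 := by gcongr
        _ = x ^ 4 := by ring
    calc 100 * (M : ℝ) ^ 2 * (N : ℝ) ^ 2 * (R : ℝ) ^ 2 * (S : ℝ) ^ 4 =
          100 * ((M : ℝ) ^ 2 * (N : ℝ) ^ 2 * (R : ℝ) ^ 2 * (S : ℝ) ^ 4) := by ring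
      _ ≤ 64 ^ 26 * x ^ 4 := by gcongr; norm_num
      _ ≤ x ^ 26 * x ^ 4 := by gcongr
      _ = x ^ 30 := by ring
  · rw [hx30]
    have h4 : ((2 * H + (4 * (R * S ^ 2) / M + 1) : ℕ) : ℝ) ≤ x ^ ((1 : ℝ) / 2) := by
      have h5 : ((4 * (R * S ^ 2) / M : ℕ) : ℝ) ≤ 8 * u := by
        refine Nat.cast_div_le.trans ?_
        rw [div_le_iff₀ hM0]
        push_cast
        linarith
      push_cast at h5 ⊢
      linarith
    have h6 : 2 * (R : ℝ) * (S : ℝ) ^ 2 * N * ((2 * H + (4 * (R * S ^ 2) / M + 1) : ℕ) : ℝ) ≤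
        2 * x ^ 2 := by
      calc 2 * (R : ℝ) * (S : ℝ) ^ 2 * N * ((2 * H + (4 * (R * S ^ 2) / M + 1) : ℕ) : ℝ) =
            2 * ((R : ℝ) * (S : ℝ) ^ 2) *
              (N * ((2 * H + (4 * (R * S ^ 2) / M + 1) : ℕ) : ℝ)) := by ring
        _ ≤ 2 * x * (x ^ ((1 : ℝ) / 2) * x ^ ((1 : ℝ) / 2)) := by gcongr
        _ = 2 * x ^ 2 := by rw [h3]; ring
    calc (2 * (R : ℝ) * (S : ℝ) ^ 2 * N * ((2 * H + (4 * (R * S ^ 2) / M + 1) : ℕ) : ℝ)) ^ 12 ≤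
          (2 * x ^ 2) ^ 12 := by gcongr
      _ = 2 ^ 12 * x ^ 24 := by ring
      _ ≤ 64 ^ 6 * x ^ 24 := by gcongr; norm_num
      _ ≤ x ^ 6 * x ^ 24 := by gcongr
      _ = x ^ 30 := by ring

/-- the terms without `D` -/
private theorem Bnc_terms {x t b m n r s g h : ℝ} (hx : 0 < x) (ht : 1 ≤ t) (hb : 1 ≤ b)
    (hm : 0 < m) (hn : 0 < n) (hr : 0 < r) (hs : 0 < s) (hg : 0 < g) (hh : 0 < h)
    (hnm : n ≤ m) (hmn : m * n ≤ x) (hrn : r * t ^ 8 ≤ n) (hst : t ^ 4 ≤ 4 * s)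
    (hy : r * s ^ 2 ≤ 2 * (b ^ 2 * t ^ 16) * m) (hgc : b * t ^ 28 ≤ 2 * g ∨ g = s)
    (hhc : b ^ 4 * t ^ 80 ≤ 2 * h) :
    r * m ^ 2 * n + m ^ 2 * n ^ 2 / g + r * m * n ^ 2 * s ^ 2 / g ^ 2 +
      r ^ 2 * s ^ 4 * n ^ 2 / h ≤ 21 * (x ^ 2 * t⁻¹) := by
  have ht0 : 0 < t := by linarith
  have hb0 : 0 < b := by linarith
  have hmn2 : (m * n) ^ 2 ≤ x ^ 2 := pow_le_pow_left₀ (by positivity) hmn 2
  have hpt : ∀ k : ℕ, 1 ≤ t ^ k := fun k => one_le_pow₀ ht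
  have e1 : r * m ^ 2 * n ≤ x ^ 2 * t⁻¹ := by
    rw [← div_eq_mul_inv, le_div_iff₀ ht0]
    have h1 : r * t ≤ n := by
      refine le_trans ?_ hrn
      have h2 : t ≤ t ^ 8 := le_self_pow₀ ht (by norm_num)
      exact mul_le_mul_of_nonneg_left h2 hr.le
    calc r * m ^ 2 * n * t = (r * t) * (m ^ 2 * n) := by ring
      _ ≤ n * (m ^ 2 * n) := mul_le_mul_of_nonneg_right h1 (by positivity)
      _ = (m * n) ^ 2 := by ring
      _ ≤ x ^ 2 := hmn2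
  have hgt : t ≤ 4 * g := by
    rcases hgc with h1 | h1
    · have h2 : t ≤ t ^ 28 := le_self_pow₀ ht (by norm_num)
      have h3 : t ^ 28 ≤ b * t ^ 28 := le_mul_of_one_le_left (by positivity) hb
      linarith
    · have h2 : t ≤ t ^ 4 := le_self_pow₀ ht (by norm_num)
      rw [h1]
      linarith
  have e2 : m ^ 2 * n ^ 2 / g ≤ 4 * (x ^ 2 * t⁻¹) := by
    rw [div_le_iff₀ hg]
    have h1 : 1 ≤ 4 * t⁻¹ * g := by
      rw [mul_comm 4 t⁻¹, mul_assoc, inv_mul_eq_div, le_div_iff₀ ht0, one_mul]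
      exact hgt
    calc m ^ 2 * n ^ 2 = (m * n) ^ 2 := by ring
      _ ≤ x ^ 2 := hmn2
      _ ≤ x ^ 2 * (4 * t⁻¹ * g) := le_mul_of_one_le_right (by positivity) h1
      _ = 4 * (x ^ 2 * t⁻¹) * g := by ring
  have e3 : r * m * n ^ 2 * s ^ 2 / g ^ 2 ≤ 8 * (x ^ 2 * t⁻¹) := by
    rw [div_le_iff₀ (by positivity), ← div_eq_mul_inv, mul_div_assoc', div_mul_eq_mul_div,
      le_div_iff₀ ht0]
    rcases hgc with h1 | h1
    · have h2 : (b * t ^ 28) ^ 2 ≤ (2 * g) ^ 2 := pow_le_pow_left₀ (by positivity) h1 2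
      calc r * m * n ^ 2 * s ^ 2 * t = (r * s ^ 2) * (m * n ^ 2 * t) := by ring
        _ ≤ (2 * (b ^ 2 * t ^ 16) * m) * (m * n ^ 2 * t) :=
            mul_le_mul_of_nonneg_right hy (by positivity)
        _ = 2 * (m * n) ^ 2 * (b ^ 2 * t ^ 17) := by ring
        _ ≤ 2 * x ^ 2 * (b ^ 2 * t ^ 56) := by
            have h3 : t ^ 17 ≤ t ^ 56 := pow_le_pow_right₀ ht (by norm_num)
            gcongr
        _ = 2 * x ^ 2 * (b * t ^ 28) ^ 2 := by ring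
        _ ≤ 2 * x ^ 2 * (2 * g) ^ 2 := by gcongr
        _ = 8 * x ^ 2 * g ^ 2 := by ring
    · rw [h1]
      have h2 : r * t ≤ n := by
        refine le_trans ?_ hrn
        have h2 : t ≤ t ^ 8 := le_self_pow₀ ht (by norm_num)
        exact mul_le_mul_of_nonneg_left h2 hr.le
      calc r * m * n ^ 2 * s ^ 2 * t = (r * t) * (m * n ^ 2) * s ^ 2 := by ring
        _ ≤ n * (m * n ^ 2) * s ^ 2 := by gcongr
        _ = n * (m * n) * n * s ^ 2 := by ring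
        _ ≤ m * (m * n) * n * s ^ 2 := by gcongr
        _ = (m * n) ^ 2 * s ^ 2 := by ring
        _ ≤ x ^ 2 * s ^ 2 := by gcongr
        _ ≤ 8 * x ^ 2 * s ^ 2 := by nlinarith [mul_pos (pow_pos hx 2) (pow_pos hs 2)]
  have e4 : r ^ 2 * s ^ 4 * n ^ 2 / h ≤ 8 * (x ^ 2 * t⁻¹) := by
    rw [div_le_iff₀ hh, ← div_eq_mul_inv, mul_div_assoc', div_mul_eq_mul_div, le_div_iff₀ ht0]
    calc r ^ 2 * s ^ 4 * n ^ 2 * t = (r * s ^ 2) ^ 2 * (n ^ 2 * t) := by ring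
      _ ≤ (2 * (b ^ 2 * t ^ 16) * m) ^ 2 * (n ^ 2 * t) := by gcongr
      _ = 4 * (m * n) ^ 2 * (b ^ 4 * t ^ 33) := by ring
      _ ≤ 4 * x ^ 2 * (b ^ 4 * t ^ 80) := by
          have h3 : t ^ 33 ≤ t ^ 80 := pow_le_pow_right₀ ht (by norm_num)
          gcongr
      _ ≤ 4 * x ^ 2 * (2 * h) := by gcongr
      _ = 8 * x ^ 2 * h := by ring
  linarith

/-- the last term -/
private theorem Bnc_last {x t b m n r s g v k D E0 C0 : ℝ} (hx : 0 < x) (ht : 1 ≤ t) (hb : 1 ≤ b)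
    (hm : 0 < m) (hn : 0 < n) (hr : 0 < r) (hs : 0 < s) (hg : 0 < g) (hv : 0 < v)
    (hC0 : 0 ≤ C0)
    (hnm : n ≤ m) (hmn : m * n ≤ x) (hrn : r * t ^ 8 ≤ n) (hst : t ^ 4 ≤ 4 * s)
    (hy : r * s ^ 2 ≤ 2 * (b ^ 2 * t ^ 16) * m) (hgs : g ≤ s) (hgb : g ≤ b * t ^ 28)
    (hvc : b * t ^ 28 ≤ 2 * v ∨ v = s) (hE : E0 ≤ C0 * (b ^ 4 * t ^ 80)⁻¹) (hK : k ^ 2 ≤ 4 * t) :
    Real.sqrt D * k ^ 2 * (m ^ 2 * n ^ 2) *
        ((Real.sqrt (4 * (r * s ^ 2) / m) + Real.sqrt g) / v +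
          (4 * (r * s ^ 2) / m + g) * Real.sqrt E0) ≤
      (32 + 36 * Real.sqrt C0) * Real.sqrt D * (x ^ 2 * t⁻¹) := by
  have ht0 : 0 < t := by linarith
  have hb0 : 0 < b := by linarith
  have hmn2 : m ^ 2 * n ^ 2 ≤ x ^ 2 := by
    rw [← mul_pow]
    exact pow_le_pow_left₀ (by positivity) hmn 2
  have hD := Real.sqrt_nonneg D
  have hC := Real.sqrt_nonneg C0
  have hy4 : 4 * (r * s ^ 2) / m ≤ 8 * (b ^ 2 * t ^ 16) := by
    rw [div_le_iff₀ hm]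
    linarith
  have hy0 : 0 ≤ 4 * (r * s ^ 2) / m := by positivity
  -- first part
  have p1 : (Real.sqrt (4 * (r * s ^ 2) / m) + Real.sqrt g) / v ≤ 8 * (t⁻¹) ^ 2 := by
    rw [div_le_iff₀ hv, inv_pow, ← div_eq_mul_inv, div_mul_eq_mul_div, le_div_iff₀ (by positivity)]
    rcases hvc with h1 | h1
    · have h2 : Real.sqrt (4 * (r * s ^ 2) / m) ≤ 3 * (b * t ^ 8) := by
        apply Real.sqrt_le_iff.mpr
        refine ⟨by positivity, hy4.trans ?_⟩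
        have h3 : 0 ≤ b ^ 2 * t ^ 16 := by positivity
        nlinarith
      have h3 : Real.sqrt g ≤ b * t ^ 26 := by
        apply Real.sqrt_le_iff.mpr
        refine ⟨by positivity, hgb.trans ?_⟩
        have h4 : b * t ^ 28 ≤ b ^ 2 * t ^ 52 := by
          have h5 : b ≤ b ^ 2 := le_self_pow₀ hb (by norm_num)
          have h6 : t ^ 28 ≤ t ^ 52 := pow_le_pow_right₀ ht (by norm_num)
          gcongr
        calc b * t ^ 28 ≤ b ^ 2 * t ^ 52 := h4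
          _ = (b * t ^ 26) ^ 2 := by ring
      have h4 : t ^ 8 * t ^ 2 ≤ t ^ 28 := by
        rw [← pow_add]
        exact pow_le_pow_right₀ ht (by norm_num)
      calc (Real.sqrt (4 * (r * s ^ 2) / m) + Real.sqrt g) * t ^ 2 ≤
            (3 * (b * t ^ 8) + b * t ^ 26) * t ^ 2 := by gcongr
        _ = 3 * (b * (t ^ 8 * t ^ 2)) + b * t ^ 28 := by ring
        _ ≤ 3 * (b * t ^ 28) + b * t ^ 28 := by gcongr
        _ ≤ 8 * v := by linarith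
    · rw [h1]
      have h2 : Real.sqrt (4 * (r * s ^ 2) / m) * t ^ 2 ≤ 2 * s := by
        have h3 : 4 * (r * s ^ 2) / m ≤ (2 * s / t ^ 4) ^ 2 := by
          rw [div_le_iff₀ hm, div_pow, div_mul_eq_mul_div, le_div_iff₀ (by positivity)]
          have h4 : r * t ^ 8 ≤ m := hrn.trans hnm
          calc 4 * (r * s ^ 2) * (t ^ 4) ^ 2 = 4 * s ^ 2 * (r * t ^ 8) := by ring
            _ ≤ 4 * s ^ 2 * m := by gcongr
            _ = (2 * s) ^ 2 * m := by ring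
        have h5 : Real.sqrt (4 * (r * s ^ 2) / m) ≤ 2 * s / t ^ 4 :=
          Real.sqrt_le_iff.mpr ⟨by positivity, h3⟩
        calc Real.sqrt (4 * (r * s ^ 2) / m) * t ^ 2 ≤ 2 * s / t ^ 4 * t ^ 2 := by gcongr
          _ ≤ 2 * s := by
            rw [div_mul_eq_mul_div, div_le_iff₀ (by positivity)]
            have h6 : t ^ 2 ≤ t ^ 4 := pow_le_pow_right₀ ht (by norm_num)
            gcongr
      have h3 : Real.sqrt g * t ^ 2 ≤ 2 * s := by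
        have h4 : Real.sqrt g ≤ Real.sqrt s := Real.sqrt_le_sqrt hgs
        have h5 : t ^ 2 ≤ 2 * Real.sqrt s := by
          have h6 : t ^ 2 = Real.sqrt (t ^ 4) := by
            rw [show t ^ 4 = (t ^ 2) ^ 2 by ring, Real.sqrt_sq (by positivity)]
          have h7 : 2 * Real.sqrt s = Real.sqrt (4 * s) := by
            rw [Real.sqrt_mul (by norm_num), show (4 : ℝ) = 2 ^ 2 by norm_num,
              Real.sqrt_sq (by norm_num)]
          rw [h6, h7]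
          exact Real.sqrt_le_sqrt hst
        calc Real.sqrt g * t ^ 2 ≤ Real.sqrt s * (2 * Real.sqrt s) := by gcongr
          _ = 2 * (Real.sqrt s * Real.sqrt s) := by ring
          _ = 2 * s := by rw [Real.mul_self_sqrt hs.le]
      rw [add_mul]
      linarith
  -- second part
  have p2 : (4 * (r * s ^ 2) / m + g) * Real.sqrt E0 ≤ 9 * Real.sqrt C0 * (t⁻¹) ^ 2 := by
    have h1 : Real.sqrt E0 ≤ Real.sqrt C0 * (b ^ 2 * t ^ 40)⁻¹ := by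
      calc Real.sqrt E0 ≤ Real.sqrt (C0 * (b ^ 4 * t ^ 80)⁻¹) := Real.sqrt_le_sqrt hE
        _ = Real.sqrt C0 * Real.sqrt ((b ^ 4 * t ^ 80)⁻¹) := Real.sqrt_mul hC0 _
        _ = Real.sqrt C0 * (b ^ 2 * t ^ 40)⁻¹ := by
            rw [Real.sqrt_inv, show b ^ 4 * t ^ 80 = (b ^ 2 * t ^ 40) ^ 2 by ring,
              Real.sqrt_sq (by positivity)]
    have h2 : 4 * (r * s ^ 2) / m + g ≤ 9 * (b ^ 2 * t ^ 28) := by
      have h3 : b ^ 2 * t ^ 16 ≤ b ^ 2 * t ^ 28 := by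
        have h6 : t ^ 16 ≤ t ^ 28 := pow_le_pow_right₀ ht (by norm_num)
        gcongr
      have h4 : b * t ^ 28 ≤ b ^ 2 * t ^ 28 := by
        have h5 : b ≤ b ^ 2 := le_self_pow₀ hb (by norm_num)
        gcongr
      linarith
    calc (4 * (r * s ^ 2) / m + g) * Real.sqrt E0 ≤
          (9 * (b ^ 2 * t ^ 28)) * (Real.sqrt C0 * (b ^ 2 * t ^ 40)⁻¹) := by gcongr
      _ = 9 * Real.sqrt C0 * (t⁻¹) ^ 12 := by
          field_simp
      _ ≤ 9 * Real.sqrt C0 * (t⁻¹) ^ 2 := by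
          have h5 : (t⁻¹) ^ 12 ≤ (t⁻¹) ^ 2 :=
            pow_le_pow_of_le_one (by positivity) (inv_le_one_of_one_le₀ ht) (by norm_num)
          gcongr
  calc Real.sqrt D * k ^ 2 * (m ^ 2 * n ^ 2) *
        ((Real.sqrt (4 * (r * s ^ 2) / m) + Real.sqrt g) / v +
          (4 * (r * s ^ 2) / m + g) * Real.sqrt E0) ≤
        Real.sqrt D * (4 * t) * x ^ 2 * (8 * (t⁻¹) ^ 2 + 9 * Real.sqrt C0 * (t⁻¹) ^ 2) := by
        gcongr
    _ = (32 + 36 * Real.sqrt C0) * Real.sqrt D * (x ^ 2 * t⁻¹) := by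
        field_simp
        ring

theorem tBnc : BncStmt := by
  intro δ κ l ε C0 hp hC0
  refine ⟨53 + 36 * Real.sqrt C0, 64 ^ 4, by positivity, by norm_num, ?_⟩
  intro x z D E0 K M N R S V H G hx hz hD hE0 hE0' hb hK hV hVc hH hG
  have hp' := hp
  obtain ⟨hδ, hκ, hε, hε1, hpar, -⟩ := hp
  have hx1 : 1 ≤ x := le_trans (by norm_num) hx
  have hx0 : 0 < x := by linarith
  have hx64 : 64 ≤ x := le_trans (by norm_num) hx
  have h64 : 64 ≤ x ^ ((1 : ℝ) / 4) := by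
    have h1 : ((64 : ℝ) ^ (4 : ℕ)) ^ ((1 : ℝ) / 4) ≤ x ^ ((1 : ℝ) / 4) :=
      Real.rpow_le_rpow (by norm_num) hx (by norm_num)
    have h2 : ((64 : ℝ) ^ (4 : ℕ)) ^ ((1 : ℝ) / 4) = 64 := by
      rw [← Real.rpow_natCast, ← Real.rpow_mul (by norm_num)]
      norm_num
    rwa [h2] at h1
  obtain ⟨f1, f2, f3, f4, f5, f6, f7⟩ := Bnc_facts hp' hx1 h64 hb
  obtain ⟨b1, b2, b3, b4, b5, b6, b7, b8, b9⟩ := hb
  have hNM : (N : ℝ) ≤ M := by exact_mod_cast b1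
  have hN64 : 64 ≤ N := by exact_mod_cast f1
  -- the units
  obtain ⟨t, ht⟩ : ∃ t, t = x ^ (ε / 8) := ⟨_, rfl⟩
  obtain ⟨b, hbb⟩ : ∃ b, b = x ^ (δ + κ / 2) := ⟨_, rfl⟩
  have ht1 : 1 ≤ t := by
    rw [ht]
    exact Real.one_le_rpow hx1 (by linarith)
  have hb1 : 1 ≤ b := by
    rw [hbb]
    exact Real.one_le_rpow hx1 (by linarith)
  have htk : ∀ k : ℕ, t ^ k = x ^ (ε / 8 * k) := by
    intro k
    rw [ht, Real.rpow_mul hx0.le, Real.rpow_natCast]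
  have hbk : ∀ k : ℕ, b ^ k = x ^ ((δ + κ / 2) * k) := by
    intro k
    rw [hbb, Real.rpow_mul hx0.le, Real.rpow_natCast]
  have hu : x ^ (2 * δ + κ + 2 * ε) = b ^ 2 * t ^ 16 := by
    rw [htk, hbk, ← Real.rpow_add hx0]
    congr 1
    push_cast
    ring
  have hvv : x ^ vv δ κ ε = b * t ^ 28 := by
    rw [htk, hbb, ← Real.rpow_add hx0]
    congr 1
    unfold vv
    push_cast
    ring
  have hhh : x ^ hh δ κ ε = b ^ 4 * t ^ 80 := by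
    rw [htk, hbk, ← Real.rpow_add hx0]
    congr 1
    unfold hh
    push_cast
    ring
  have hhn : x ^ (-hh δ κ ε) = (b ^ 4 * t ^ 80)⁻¹ := by
    rw [Real.rpow_neg hx0.le, hhh]
  have htn : x ^ (-(ε / 8)) = t⁻¹ := by
    rw [Real.rpow_neg hx0.le, ht]
  have hen : x ^ (-ε) * t ^ 8 = 1 := by
    rw [htk, ← Real.rpow_add hx0]
    have h1 : -ε + ε / 8 * ((8 : ℕ) : ℝ) = 0 := by
      push_cast
      ring
    rw [h1, Real.rpow_zero]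
  have he2 : x ^ (ε / 2) = t ^ 4 := by
    rw [htk]
    congr 1
    push_cast
    ring
  have ht0 : 0 < t := by linarith
  have hb0 : 0 < b := by linarith
  have hrn : (R : ℝ) * t ^ 8 ≤ N := by
    calc (R : ℝ) * t ^ 8 ≤ (N * x ^ (-ε)) * t ^ 8 := by gcongr
      _ = N * (x ^ (-ε) * t ^ 8) := by ring
      _ = N := by rw [hen, mul_one]
  have hv1 : 1 ≤ x ^ vv δ κ ε := Real.one_le_rpow hx1 (by unfold vv; linarith)
  have hh1 : 1 ≤ x ^ hh δ κ ε := Real.one_le_rpow hx1 (by unfold hh; linarith)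
  have hu1 : 1 ≤ x ^ (2 * δ + κ + 2 * ε) := Real.one_le_rpow hx1 (by linarith)
  have hH1 : 1 ≤ H := by
    rw [hH]
    exact Nat.le_floor (by simpa using hh1)
  have hHle : (H : ℝ) ≤ x ^ hh δ κ ε := by
    rw [hH]
    exact Nat.floor_le (by linarith)
  have hG1 : 1 ≤ G := by
    rw [hG]
    exact le_min (Nat.le_floor (by simpa using hv1)) b5
  have hGS : G ≤ S := by
    rw [hG]
    exact min_le_right _ _
  have hGv : (G : ℝ) ≤ x ^ vv δ κ ε := by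
    have h1 : G ≤ ⌊x ^ vv δ κ ε⌋₊ := by
      rw [hG]
      exact min_le_left _ _
    have h2 : (G : ℝ) ≤ (⌊x ^ vv δ κ ε⌋₊ : ℝ) := by exact_mod_cast h1
    exact h2.trans (Nat.floor_le (by linarith))
  have hGc : b * t ^ 28 ≤ 2 * (G : ℝ) ∨ (G : ℝ) = S := by
    rcases le_total ⌊x ^ vv δ κ ε⌋₊ S with h1 | h1
    · left
      rw [hG, min_eq_left h1, ← hvv]
      exact Bnc_fl hv1
    · right
      rw [hG, min_eq_right h1]
  have hHc : b ^ 4 * t ^ 80 ≤ 2 * (H : ℝ) := by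
    rw [hH, ← hhh]
    exact Bnc_fl hh1
  have hVc' : b * t ^ 28 ≤ 2 * (V : ℝ) ∨ (V : ℝ) = S := by
    rcases hVc with h1 | h1
    · left
      rw [← hvv]
      exact h1
    · right
      rw [h1]
  have hKK : (K : ℝ) ^ 2 ≤ 4 * t := by
    have h1 : (K : ℝ) ^ 2 ≤ (2 * x ^ (ε / 16)) ^ 2 := pow_le_pow_left₀ (Nat.cast_nonneg _) hK 2
    have h2 : (2 * x ^ (ε / 16)) ^ 2 = 4 * t := by
      rw [mul_pow, pow_two (x ^ (ε / 16)), ← Real.rpow_add hx0, ht]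
      norm_num
      ring_nf
    rwa [h2] at h1
  have hM8 : 8 ≤ M := by omega
  have hMr : (0 : ℝ) < M := by
    have : 0 < M := by omega
    exact_mod_cast this
  have hNr : (0 : ℝ) < N := by linarith
  have hRr : (0 : ℝ) < R := by exact_mod_cast f4
  have hSr : (0 : ℝ) < S := by exact_mod_cast b5
  have hGr : (0 : ℝ) < G := by exact_mod_cast hG1
  have hHr : (0 : ℝ) < H := by exact_mod_cast hH1
  have hVr : (0 : ℝ) < V := by exact_mod_cast hV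
  have hGSr : (G : ℝ) ≤ S := by exact_mod_cast hGS
  obtain ⟨s1, s2, s3⟩ := Bnc_size (x := x) (u := x ^ (2 * δ + κ + 2 * ε)) (w := x ^ hh δ κ ε)
    (M := M) (N := N) (R := R) (S := S) (H := H) hx64 hu1
    (Real.rpow_le_rpow_of_exponent_le hx1 (by unfold hh; linarith))
    (Bnc_gap hx1 h64 (by unfold hh; linarith) (by norm_num)) hHle (by omega) b4 f2 f6 f7
  refine ⟨⟨f4, by omega, hM8, hH1, hG1, hGS, hGv, ?_, ?_, s1, s2, s3⟩, ?_⟩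
  · have h1 : (R : ℝ) ≤ N := by
      refine le_trans ?_ hrn
      exact le_mul_of_one_le_right hRr.le (one_le_pow₀ ht1)
    exact_mod_cast h1
  · have h1 : (2 : ℝ) * H < R := by linarith
    exact_mod_cast h1
  · rw [htn]
    have e1 := Bnc_terms (x := x) (t := t) (b := b) (m := M) (n := N) (r := R) (s := S) (g := G)
      (h := H) hx0 ht1 hb1 hMr hNr hRr hSr hGr hHr hNM b4 hrn (by rw [← he2]; exact f5)
      (by rw [← hu]; exact f6) hGc hHc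
    have e2 := Bnc_last (x := x) (t := t) (b := b) (m := M) (n := N) (r := R) (s := S) (g := G)
      (v := V) (k := K) (D := D) (E0 := E0) (C0 := C0) hx0 ht1 hb1 hMr hNr hRr hSr hGr hVr
      hC0 hNM b4 hrn (by rw [← he2]; exact f5) (by rw [← hu]; exact f6) hGSr
      (by rw [← hvv]; exact hGv) hVc' (by rw [← hhn]; exact hE0') hKK
    have e3 : (M : ℝ) ^ 2 * (N : ℝ) ^ 2 / z ≤ x ^ 2 * (1 / z) := by
      rw [mul_one_div]
      have h1 : (M : ℝ) ^ 2 * (N : ℝ) ^ 2 ≤ x ^ 2 := by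
        rw [← mul_pow]
        exact pow_le_pow_left₀ (by positivity) b4 2
      gcongr
    have hz0 : 0 < z := by linarith
    have a1 : 0 ≤ x ^ 2 * t⁻¹ := by positivity
    have a2 : 0 ≤ x ^ 2 * (1 / z) := by positivity
    have a3 := Real.sqrt_nonneg D
    have a4 := Real.sqrt_nonneg C0
    have a5 : 0 ≤ Real.sqrt D * (x ^ 2 * t⁻¹) := by positivity
    have a6 : 0 ≤ Real.sqrt D * (x ^ 2 * (1 / z)) := by positivity
    have a7 : 0 ≤ Real.sqrt C0 * (x ^ 2 * t⁻¹) := by positivity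
    have a8 : 0 ≤ Real.sqrt C0 * (x ^ 2 * (1 / z)) := by positivity
    have a9 : 0 ≤ Real.sqrt C0 * (Real.sqrt D * (x ^ 2 * (1 / z))) := by positivity
    have a10 : (53 + 36 * Real.sqrt C0) * (1 + Real.sqrt D) * (x ^ 2 * (t⁻¹ + 1 / z)) =
        53 * (x ^ 2 * t⁻¹) + 53 * (x ^ 2 * (1 / z)) + 53 * (Real.sqrt D * (x ^ 2 * t⁻¹)) +
        53 * (Real.sqrt D * (x ^ 2 * (1 / z))) + 36 * (Real.sqrt C0 * (x ^ 2 * t⁻¹)) +
        36 * (Real.sqrt C0 * (x ^ 2 * (1 / z))) +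
        36 * Real.sqrt C0 * Real.sqrt D * (x ^ 2 * t⁻¹) +
        36 * (Real.sqrt C0 * (Real.sqrt D * (x ^ 2 * (1 / z)))) := by ring
    rw [a10]
    have a11 : (32 + 36 * Real.sqrt C0) * Real.sqrt D * (x ^ 2 * t⁻¹) =
        32 * (Real.sqrt D * (x ^ 2 * t⁻¹)) + 36 * Real.sqrt C0 * Real.sqrt D * (x ^ 2 * t⁻¹) := by
      ring
    rw [a11] at e2
    linarith

end Pool.Agent.Lib.SLB
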