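import Pool.Agent.Lib.SLB.SpecTw

/-!
MP_00e23e_nt, project SL: the numbers of case II in the form with 84 δ + 48 κ ≤ 1.
-/

set_option autoImplicit false

namespace Pool.Agent.Lib.SLB

open Finset Pool.Agent.Lib.EH3 Pool.Agent.Lib.TB Pool.Agent.Results.MP_00e23e_nt Pool.Agent.Lib.MI
open Pool.Agent.Lib.MX (Bd Mz Bd_nonneg Bd_mono rp_le rn_le log_le_T Tau_x)

private theorem Bnw_small {x ε t : ℝ} (hx : 1 ≤ x) (h64 : 64 ≤ x ^ ε) (ht : t ≤ -ε) :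
    x ^ t ≤ 1 / 64 := by
  calc x ^ t ≤ x ^ (-ε) := Real.rpow_le_rpow_of_exponent_le hx ht
    _ = (x ^ ε)⁻¹ := Real.rpow_neg (by linarith) _
    _ ≤ 64⁻¹ := inv_anti₀ (by norm_num) h64
    _ = 1 / 64 := by norm_num

private theorem Bnw_pw {x a c d : ℝ} (hx : 0 < x) (k : ℕ) (ha : 0 ≤ a) (h : a ≤ x ^ c)
    (hd : d = c * k) : a ^ k ≤ x ^ d := by
  rw [hd, Real.rpow_mul hx.le, Real.rpow_natCast]
  exact pow_le_pow_left₀ ha h k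

/-- the monomials -/
private theorem Bnw_mon {δ κ ε h w x ρ ν σ q v u : ℝ} (hx : 1 ≤ x) (hδ : 0 ≤ δ) (hκ : 0 < κ)
    (hε : 0 < ε) (hE : 84 * δ + 48 * κ + 400 * ε ≤ 1) (hh : h = 4 * δ + 2 * κ + 10 * ε)
    (hw : w = δ + κ / 2 + 7 / 2 * ε) (ρ0 : 0 ≤ ρ) (ν0 : 0 ≤ ν) (σ0 : 0 ≤ σ) (q0 : 0 ≤ q)
    (v0 : 0 ≤ v) (u0 : 0 ≤ u) (hρ : ρ ≤ x ^ (-ε)) (hν : ν ≤ x ^ (ε - 1 / 3))
    (hσ : σ ≤ 2 * x ^ (2 * ε + κ - 1 / 3)) (hq : q ≤ x ^ (1 / 2 + δ)) (hv : v ≤ x ^ (w + κ))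
    (hu : u ≤ 2 * x ^ (-w)) :
    x ^ (4 * h) * ρ ^ 3 * v ^ 4 * ν ≤ x ^ (-ε) ∧
    x ^ (4 * h) * ρ * v ^ 2 * ν ≤ x ^ (-ε) ∧
    x ^ (κ + 4 * h) * q ^ 2 * v ^ 2 * ν ^ 4 ≤ x ^ (-(2 * h)) ∧
    x ^ (κ + 4 * h) * q ^ 2 * σ ^ 2 * ν ^ 2 ≤ 4 * x ^ (-(2 * h)) ∧
    x ^ κ * q * σ ^ 2 * u ≤ 8 * x ^ (-(2 * h)) ∧
    ρ * v ^ 2 * ν ≤ x ^ (-(4 * h)) ∧
    x ^ (κ + 4 * h) * q * ρ * v ^ 3 * ν ^ 3 ≤ x ^ (-(4 * h)) ∧
    x ^ (κ + 4 * h) * q * v * ν ^ 2 * σ ≤ 2 * x ^ (-(4 * h)) ∧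
    x ^ κ * σ ≤ 2 * x ^ (-(4 * h)) ∧
    q * σ ^ 2 ≤ 4 * x ^ (-ε) := by
  have hx0 : 0 < x := by linarith
  have mono : ∀ s t : ℝ, s ≤ t → x ^ s ≤ x ^ t := fun s t h =>
    Real.rpow_le_rpow_of_exponent_le hx h
  have ρ3 : ρ ^ 3 ≤ x ^ (-(3 * ε)) := Bnw_pw hx0 3 ρ0 hρ (by push_cast; ring)
  have v2 : v ^ 2 ≤ x ^ (2 * (w + κ)) := Bnw_pw hx0 2 v0 hv (by push_cast; ring)
  have v3 : v ^ 3 ≤ x ^ (3 * (w + κ)) := Bnw_pw hx0 3 v0 hv (by push_cast; ring)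
  have v4 : v ^ 4 ≤ x ^ (4 * (w + κ)) := Bnw_pw hx0 4 v0 hv (by push_cast; ring)
  have ν2 : ν ^ 2 ≤ x ^ (2 * (ε - 1 / 3)) := Bnw_pw hx0 2 ν0 hν (by push_cast; ring)
  have ν3 : ν ^ 3 ≤ x ^ (3 * (ε - 1 / 3)) := Bnw_pw hx0 3 ν0 hν (by push_cast; ring)
  have ν4 : ν ^ 4 ≤ x ^ (4 * (ε - 1 / 3)) := Bnw_pw hx0 4 ν0 hν (by push_cast; ring)
  have q2 : q ^ 2 ≤ x ^ (2 * (1 / 2 + δ)) := Bnw_pw hx0 2 q0 hq (by push_cast; ring)
  have σ2 : σ ^ 2 ≤ 4 * x ^ (2 * (2 * ε + κ - 1 / 3)) := by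
    calc σ ^ 2 ≤ (2 * x ^ (2 * ε + κ - 1 / 3)) ^ 2 := pow_le_pow_left₀ σ0 hσ 2
      _ = 4 * (x ^ (2 * ε + κ - 1 / 3)) ^ 2 := by ring
      _ ≤ 4 * x ^ (2 * (2 * ε + κ - 1 / 3)) := by
        have := Bnw_pw (a := x ^ (2 * ε + κ - 1 / 3)) (c := 2 * ε + κ - 1 / 3)
          (d := 2 * (2 * ε + κ - 1 / 3)) hx0 2 (by positivity) le_rfl (by push_cast; ring)
        linarith
  refine ⟨?_, ?_, ?_, ?_, ?_, ?_, ?_, ?_, ?_, ?_⟩
  · calc x ^ (4 * h) * ρ ^ 3 * v ^ 4 * ν ≤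
          x ^ (4 * h) * x ^ (-(3 * ε)) * x ^ (4 * (w + κ)) * x ^ (ε - 1 / 3) := by gcongr
      _ = x ^ (4 * h + -(3 * ε) + 4 * (w + κ) + (ε - 1 / 3)) := by
        rw [Real.rpow_add hx0, Real.rpow_add hx0, Real.rpow_add hx0]
      _ ≤ x ^ (-ε) := mono _ _ (by rw [hh, hw]; linarith)
  · calc x ^ (4 * h) * ρ * v ^ 2 * ν ≤
          x ^ (4 * h) * x ^ (-ε) * x ^ (2 * (w + κ)) * x ^ (ε - 1 / 3) := by gcongr
      _ = x ^ (4 * h + -ε + 2 * (w + κ) + (ε - 1 / 3)) := by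
        rw [Real.rpow_add hx0, Real.rpow_add hx0, Real.rpow_add hx0]
      _ ≤ x ^ (-ε) := mono _ _ (by rw [hh, hw]; linarith)
  · calc x ^ (κ + 4 * h) * q ^ 2 * v ^ 2 * ν ^ 4 ≤
          x ^ (κ + 4 * h) * x ^ (2 * (1 / 2 + δ)) * x ^ (2 * (w + κ)) *
            x ^ (4 * (ε - 1 / 3)) := by gcongr
      _ = x ^ ((κ + 4 * h) + 2 * (1 / 2 + δ) + 2 * (w + κ) + 4 * (ε - 1 / 3)) := by
        rw [Real.rpow_add hx0 (κ + 4 * h + 2 * (1 / 2 + δ) + 2 * (w + κ)),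
          Real.rpow_add hx0 (κ + 4 * h + 2 * (1 / 2 + δ)), Real.rpow_add hx0 (κ + 4 * h)]
      _ ≤ x ^ (-(2 * h)) := mono _ _ (by rw [hh, hw]; linarith)
  · calc x ^ (κ + 4 * h) * q ^ 2 * σ ^ 2 * ν ^ 2 ≤
          x ^ (κ + 4 * h) * x ^ (2 * (1 / 2 + δ)) * (4 * x ^ (2 * (2 * ε + κ - 1 / 3))) *
            x ^ (2 * (ε - 1 / 3)) := by gcongr
      _ = 4 * (x ^ (κ + 4 * h) * x ^ (2 * (1 / 2 + δ)) * x ^ (2 * (2 * ε + κ - 1 / 3)) *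
            x ^ (2 * (ε - 1 / 3))) := by ring
      _ = 4 * x ^ ((κ + 4 * h) + 2 * (1 / 2 + δ) + 2 * (2 * ε + κ - 1 / 3) +
            2 * (ε - 1 / 3)) := by
        rw [Real.rpow_add hx0 (κ + 4 * h + 2 * (1 / 2 + δ) + 2 * (2 * ε + κ - 1 / 3)),
          Real.rpow_add hx0 (κ + 4 * h + 2 * (1 / 2 + δ)), Real.rpow_add hx0 (κ + 4 * h)]
      _ ≤ 4 * x ^ (-(2 * h)) :=
        mul_le_mul_of_nonneg_left (mono _ _ (by rw [hh]; linarith)) (by norm_num)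
  · calc x ^ κ * q * σ ^ 2 * u ≤
          x ^ κ * x ^ (1 / 2 + δ) * (4 * x ^ (2 * (2 * ε + κ - 1 / 3))) *
            (2 * x ^ (-w)) := by gcongr
      _ = 8 * (x ^ κ * x ^ (1 / 2 + δ) * x ^ (2 * (2 * ε + κ - 1 / 3)) * x ^ (-w)) := by ring
      _ = 8 * x ^ (κ + (1 / 2 + δ) + 2 * (2 * ε + κ - 1 / 3) + -w) := by
        rw [Real.rpow_add hx0 (κ + (1 / 2 + δ) + 2 * (2 * ε + κ - 1 / 3)),
          Real.rpow_add hx0 (κ + (1 / 2 + δ)), Real.rpow_add hx0 κ]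
      _ ≤ 8 * x ^ (-(2 * h)) :=
        mul_le_mul_of_nonneg_left (mono _ _ (by rw [hh, hw]; linarith)) (by norm_num)
  · calc ρ * v ^ 2 * ν ≤ x ^ (-ε) * x ^ (2 * (w + κ)) * x ^ (ε - 1 / 3) := by gcongr
      _ = x ^ (-ε + 2 * (w + κ) + (ε - 1 / 3)) := by
        rw [Real.rpow_add hx0, Real.rpow_add hx0]
      _ ≤ x ^ (-(4 * h)) := mono _ _ (by rw [hh, hw]; linarith)
  · calc x ^ (κ + 4 * h) * q * ρ * v ^ 3 * ν ^ 3 ≤
          x ^ (κ + 4 * h) * x ^ (1 / 2 + δ) * x ^ (-ε) * x ^ (3 * (w + κ)) *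
            x ^ (3 * (ε - 1 / 3)) := by gcongr
      _ = x ^ ((κ + 4 * h) + (1 / 2 + δ) + -ε + 3 * (w + κ) + 3 * (ε - 1 / 3)) := by
        rw [Real.rpow_add hx0 (κ + 4 * h + (1 / 2 + δ) + -ε + 3 * (w + κ)),
          Real.rpow_add hx0 (κ + 4 * h + (1 / 2 + δ) + -ε),
          Real.rpow_add hx0 (κ + 4 * h + (1 / 2 + δ)), Real.rpow_add hx0 (κ + 4 * h)]
      _ ≤ x ^ (-(4 * h)) := mono _ _ (by rw [hh, hw]; linarith)
  · calc x ^ (κ + 4 * h) * q * v * ν ^ 2 * σ ≤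
          x ^ (κ + 4 * h) * x ^ (1 / 2 + δ) * x ^ (w + κ) * x ^ (2 * (ε - 1 / 3)) *
            (2 * x ^ (2 * ε + κ - 1 / 3)) := by gcongr
      _ = 2 * (x ^ (κ + 4 * h) * x ^ (1 / 2 + δ) * x ^ (w + κ) * x ^ (2 * (ε - 1 / 3)) *
            x ^ (2 * ε + κ - 1 / 3)) := by ring
      _ = 2 * x ^ ((κ + 4 * h) + (1 / 2 + δ) + (w + κ) + 2 * (ε - 1 / 3) +
            (2 * ε + κ - 1 / 3)) := by
        rw [Real.rpow_add hx0 (κ + 4 * h + (1 / 2 + δ) + (w + κ) + 2 * (ε - 1 / 3)),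
          Real.rpow_add hx0 (κ + 4 * h + (1 / 2 + δ) + (w + κ)),
          Real.rpow_add hx0 (κ + 4 * h + (1 / 2 + δ)), Real.rpow_add hx0 (κ + 4 * h)]
      _ ≤ 2 * x ^ (-(4 * h)) :=
        mul_le_mul_of_nonneg_left (mono _ _ (by rw [hh, hw]; linarith)) (by norm_num)
  · calc x ^ κ * σ ≤ x ^ κ * (2 * x ^ (2 * ε + κ - 1 / 3)) := by gcongr
      _ = 2 * (x ^ κ * x ^ (2 * ε + κ - 1 / 3)) := by ring
      _ = 2 * x ^ (κ + (2 * ε + κ - 1 / 3)) := by rw [Real.rpow_add hx0 κ]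
      _ ≤ 2 * x ^ (-(4 * h)) :=
        mul_le_mul_of_nonneg_left (mono _ _ (by rw [hh]; linarith)) (by norm_num)
  · calc q * σ ^ 2 ≤ x ^ (1 / 2 + δ) * (4 * x ^ (2 * (2 * ε + κ - 1 / 3))) := by gcongr
      _ = 4 * (x ^ (1 / 2 + δ) * x ^ (2 * (2 * ε + κ - 1 / 3))) := by ring
      _ = 4 * x ^ ((1 / 2 + δ) + 2 * (2 * ε + κ - 1 / 3)) := by
        rw [Real.rpow_add hx0 (1 / 2 + δ)]
      _ ≤ 4 * x ^ (-ε) :=
        mul_le_mul_of_nonneg_left (mono _ _ (by linarith)) (by norm_num)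

/-- real form of the statement -/
private theorem Bnw_core {δ κ ε h w x n r s v y l l' : ℝ} (hx : 1 ≤ x) (hδ : 0 ≤ δ) (hκ : 0 < κ)
    (hε : 0 < ε) (hE : 84 * δ + 48 * κ + 400 * ε ≤ 1) (h64 : 64 ≤ x ^ ε)
    (hh : h = 4 * δ + 2 * κ + 10 * ε) (hw : w = δ + κ / 2 + 7 / 2 * ε) (hn : 0 < n) (hr : 0 < r)
    (hs : 0 < s) (hv : 0 < v) (F1 : x ^ ((1 : ℝ) / 3 - ε) ≤ n) (F3 : r ≤ n * x ^ (-ε))
    (F4 : n * x ^ (-ε - κ) ≤ 2 * r) (F5 : r * s ≤ x ^ (1 / 2 + δ)) (F6 : x ^ w ≤ 2 * v)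
    (F7 : v ≤ x ^ (w + κ))
    (hy : y = x ^ (4 * h) * (r ^ 3 * s * v ^ 3 / n ^ 4 + r * s * v / n ^ 2)) (hl : y ≤ l)
    (hl1 : l ≤ y + 1) (hl0 : 0 < l) (hl' : l' ≤ l * x ^ κ) :
    4 * s ≤ r ∧ 4 * v * y ≤ s ∧ l' ≤ r ∧
      s * l' / (v * r) + r * Real.sqrt r * Real.sqrt s * (v * Real.sqrt v) /
        (Real.sqrt l * n ^ 2) + Real.sqrt (r * s * v / l) / n + Real.sqrt r * v / n +
        Real.sqrt (l' / r) ≤ 25 * x ^ (-(2 * h)) := by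
  have hx0 : 0 < x := by linarith
  have c1 : 1 / n ≤ x ^ (ε - 1 / 3) := by
    rw [div_le_iff₀ hn]
    calc (1 : ℝ) = x ^ (ε - 1 / 3) * x ^ ((1 : ℝ) / 3 - ε) := by
          rw [← Real.rpow_add hx0, show ε - 1 / 3 + (1 / 3 - ε) = 0 by ring, Real.rpow_zero]
      _ ≤ x ^ (ε - 1 / 3) * n := by gcongr
  have c2 : r / n ≤ x ^ (-ε) := by
    rw [div_le_iff₀ hn, mul_comm]
    exact F3
  have c3 : 1 / r ≤ 2 * x ^ (2 * ε + κ - 1 / 3) := by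
    rw [div_le_iff₀ hr]
    calc (1 : ℝ) = x ^ (2 * ε + κ - 1 / 3) * (x ^ ((1 : ℝ) / 3 - ε) * x ^ (-ε - κ)) := by
          rw [← Real.rpow_add hx0, ← Real.rpow_add hx0,
            show 2 * ε + κ - 1 / 3 + (1 / 3 - ε + (-ε - κ)) = 0 by ring, Real.rpow_zero]
      _ ≤ x ^ (2 * ε + κ - 1 / 3) * (n * x ^ (-ε - κ)) := by gcongr
      _ ≤ x ^ (2 * ε + κ - 1 / 3) * (2 * r) := by gcongr
      _ = 2 * x ^ (2 * ε + κ - 1 / 3) * r := by ring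
  have c4 : 1 / v ≤ 2 * x ^ (-w) := by
    rw [div_le_iff₀ hv]
    calc (1 : ℝ) = x ^ (-w) * x ^ w := by
          rw [← Real.rpow_add hx0, neg_add_cancel, Real.rpow_zero]
      _ ≤ x ^ (-w) * (2 * v) := by gcongr
      _ = 2 * x ^ (-w) * v := by ring
  obtain ⟨m1, m2, m3, m4, m5, m6, m7, m8, m9, m10⟩ :=
    Bnw_mon (q := r * s) (v := v) hx hδ hκ hε hE hh hw (by positivity : 0 ≤ r / n)
      (by positivity : 0 ≤ 1 / n) (by positivity : 0 ≤ 1 / r) (by positivity) hv.le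
      (by positivity : 0 ≤ 1 / v) c2 c1 c3 F5 F7 c4
  have z1 : x ^ (-ε) ≤ 1 / 64 := Bnw_small hx h64 le_rfl
  have z2 : x ^ (-(4 * h)) ≤ 1 / 64 := Bnw_small hx h64 (by rw [hh]; linarith)
  have hxh : 0 < x ^ (4 * h) := Real.rpow_pos_of_pos hx0 _
  have hxk : 0 < x ^ κ := Real.rpow_pos_of_pos hx0 _
  have hA : 0 < r ^ 3 * s * v ^ 3 / n ^ 4 := by positivity
  have hB : 0 < r * s * v / n ^ 2 := by positivity
  have hy0 : 0 < y := by rw [hy]; positivity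
  have ekh : x ^ (κ + 4 * h) = x ^ κ * x ^ (4 * h) := Real.rpow_add hx0 _ _
  -- the fourth power
  have e4h : x ^ (-(4 * h)) = x ^ (-(2 * h)) * x ^ (-(2 * h)) := by
    rw [← Real.rpow_add hx0]
    congr 1
    ring
  have e4h' : x ^ (4 * h) * x ^ (-(4 * h)) = 1 := by
    rw [← Real.rpow_add hx0, add_neg_cancel, Real.rpow_zero]
  have h2p : 0 < x ^ (-(2 * h)) := Real.rpow_pos_of_pos hx0 _
  have h4p : 0 < x ^ (-(4 * h)) := Real.rpow_pos_of_pos hx0 _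
  have g1 : 4 * s ≤ r := by
    have e1 : s = r * (r * s * (1 / r) ^ 2) := by field_simp
    have e2 : r * s * (1 / r) ^ 2 ≤ 1 / 16 := by linarith
    calc 4 * s = 4 * (r * (r * s * (1 / r) ^ 2)) := by rw [← e1]
      _ ≤ 4 * (r * (1 / 16)) := by gcongr
      _ ≤ r := by linarith
  have g2 : 4 * v * y ≤ s := by
    have e1 : 4 * v * y = 4 * s * (x ^ (4 * h) * (r / n) ^ 3 * v ^ 4 * (1 / n) +
        x ^ (4 * h) * (r / n) * v ^ 2 * (1 / n)) := by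
      rw [hy]
      field_simp
    rw [e1]
    calc 4 * s * (x ^ (4 * h) * (r / n) ^ 3 * v ^ 4 * (1 / n) +
        x ^ (4 * h) * (r / n) * v ^ 2 * (1 / n)) ≤ 4 * s * (1 / 64 + 1 / 64) := by
          gcongr
          · exact m1.trans z1
          · exact m2.trans z1
      _ ≤ s := by linarith
  have hl2 : l' ≤ (y + 1) * x ^ κ := hl'.trans (by gcongr)
  -- l'/r
  have g3 : l' / r ≤ 5 * x ^ (-(4 * h)) := by
    rw [div_le_iff₀ hr]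
    refine hl2.trans ?_
    have e1 : (y + 1) * x ^ κ = (x ^ (κ + 4 * h) * (r * s) * (r / n) * v ^ 3 * (1 / n) ^ 3 +
        x ^ (κ + 4 * h) * (r * s) * v * (1 / n) ^ 2 * (1 / r) + x ^ κ * (1 / r)) * r := by
      rw [hy, ekh]
      field_simp
      try ring
    rw [e1]
    gcongr
    linarith
  have g4 : l' ≤ r := by
    have e1 : l' / r ≤ 1 := by linarith
    rw [div_le_iff₀ hr] at e1
    linarith
  refine ⟨g1, g2, g4, ?_⟩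
  have t1 : s * l' / (v * r) ≤ 13 * x ^ (-(2 * h)) := by
    have e1 : s * ((y + 1) * x ^ κ) / (v * r) =
        x ^ (κ + 4 * h) * (r * s) ^ 2 * v ^ 2 * (1 / n) ^ 4 +
        x ^ (κ + 4 * h) * (r * s) ^ 2 * (1 / r) ^ 2 * (1 / n) ^ 2 +
        x ^ κ * (r * s) * (1 / r) ^ 2 * (1 / v) := by
      rw [hy, ekh]
      field_simp
      try ring
    calc s * l' / (v * r) ≤ s * ((y + 1) * x ^ κ) / (v * r) := by gcongr
      _ ≤ 13 * x ^ (-(2 * h)) := by rw [e1]; linarith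
  have e2h : x ^ (2 * h) * x ^ (-(2 * h)) = 1 := by
    rw [← Real.rpow_add hx0, add_neg_cancel, Real.rpow_zero]
  have e22 : x ^ (2 * h) * x ^ (2 * h) = x ^ (4 * h) := by
    rw [← Real.rpow_add hx0]
    congr 1
    ring
  have h2q : 0 < x ^ (2 * h) := Real.rpow_pos_of_pos hx0 _
  have t2 : r * Real.sqrt r * Real.sqrt s * (v * Real.sqrt v) / (Real.sqrt l * n ^ 2) ≤
      x ^ (-(2 * h)) := by
    have hr2 := Real.mul_self_sqrt hr.le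
    have hs2 := Real.mul_self_sqrt hs.le
    have hv2 := Real.mul_self_sqrt hv.le
    have hsl : 0 < Real.sqrt l := Real.sqrt_pos.mpr hl0
    obtain ⟨Q, hQ⟩ : ∃ Q, Q = r * Real.sqrt r * Real.sqrt s * (v * Real.sqrt v) := ⟨_, rfl⟩
    have hQ0 : 0 ≤ Q := by rw [hQ]; positivity
    have hQ2 : Q ^ 2 = r ^ 3 * s * v ^ 3 := by
      rw [hQ]
      calc (r * Real.sqrt r * Real.sqrt s * (v * Real.sqrt v)) ^ 2 =
            r ^ 2 * (Real.sqrt r * Real.sqrt r) * (Real.sqrt s * Real.sqrt s) *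
              (v ^ 2 * (Real.sqrt v * Real.sqrt v)) := by ring
        _ = r ^ 3 * s * v ^ 3 := by rw [hr2, hs2, hv2]; ring
    have e1 : x ^ (2 * h) * (Q / n ^ 2) ≤ Real.sqrt l := by
      apply Real.le_sqrt_of_sq_le
      calc (x ^ (2 * h) * (Q / n ^ 2)) ^ 2 = (x ^ (2 * h) * x ^ (2 * h)) * (Q ^ 2 / n ^ 4) := by
            rw [mul_pow, div_pow, pow_two (x ^ (2 * h))]
            ring
        _ = x ^ (4 * h) * (r ^ 3 * s * v ^ 3 / n ^ 4) := by rw [e22, hQ2]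
        _ ≤ y := by
            rw [hy]
            gcongr
            linarith
        _ ≤ l := hl
    rw [← hQ, div_le_iff₀ (by positivity)]
    have e3 : x ^ (2 * h) * Q ≤ Real.sqrt l * n ^ 2 := by
      have e4 := mul_le_mul_of_nonneg_right e1 (by positivity : 0 ≤ n ^ 2)
      have e5 : x ^ (2 * h) * (Q / n ^ 2) * n ^ 2 = x ^ (2 * h) * Q := by field_simp
      rw [e5] at e4
      exact e4
    calc Q = (x ^ (2 * h) * x ^ (-(2 * h))) * Q := by rw [e2h, one_mul]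
      _ = x ^ (-(2 * h)) * (x ^ (2 * h) * Q) := by ring
      _ ≤ x ^ (-(2 * h)) * (Real.sqrt l * n ^ 2) := by gcongr
  have t3 : Real.sqrt (r * s * v / l) / n ≤ x ^ (-(2 * h)) := by
    rw [div_le_iff₀ hn]
    apply Real.sqrt_le_iff.mpr
    refine ⟨by positivity, ?_⟩
    rw [div_le_iff₀ hl0]
    have e1 : x ^ (4 * h) * (r * s * v / n ^ 2) ≤ l := by
      refine le_trans ?_ hl
      rw [hy]
      gcongr
      linarith
    calc r * s * v = (x ^ (4 * h) * x ^ (-(4 * h))) * ((r * s * v / n ^ 2) * n ^ 2) := by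
          rw [e4h', one_mul]
          field_simp
      _ = (x ^ (-(4 * h)) * n ^ 2) * (x ^ (4 * h) * (r * s * v / n ^ 2)) := by ring
      _ ≤ (x ^ (-(4 * h)) * n ^ 2) * l := by gcongr
      _ = (x ^ (-(2 * h)) * n) ^ 2 * l := by rw [e4h]; ring
  have t4 : Real.sqrt r * v / n ≤ x ^ (-(2 * h)) := by
    have e1 : Real.sqrt r * v / n = Real.sqrt ((r / n) * v ^ 2 * (1 / n)) := by
      symm
      apply Real.sqrt_eq_iff_mul_self_eq_of_pos (by positivity) |>.mpr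
      calc Real.sqrt r * v / n * (Real.sqrt r * v / n) =
            (Real.sqrt r * Real.sqrt r) * v ^ 2 / n ^ 2 := by ring
        _ = r / n * v ^ 2 * (1 / n) := by
            rw [Real.mul_self_sqrt hr.le]
            field_simp
    rw [e1]
    apply Real.sqrt_le_iff.mpr
    refine ⟨h2p.le, ?_⟩
    rw [pow_two (x ^ (-(2 * h))), ← e4h]
    exact m6
  have t5 : Real.sqrt (l' / r) ≤ 3 * x ^ (-(2 * h)) := by
    apply Real.sqrt_le_iff.mpr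
    refine ⟨by positivity, g3.trans ?_⟩
    rw [e4h]
    nlinarith [mul_pos h2p h2p]
  linarith

theorem tBnw : BnwStmt := by
  intro δ κ ε hδ hκ hε hε1 hE
  refine ⟨64 ^ (1 / ε), Real.one_le_rpow (by norm_num) (by positivity), ?_⟩
  intro x M N R S V hx0' hb hR hV hVS hw1 hw2
  have h641 : (1 : ℝ) ≤ 64 ^ (1 / ε) := Real.one_le_rpow (by norm_num) (by positivity)
  have hx : 1 ≤ x := h641.trans hx0'
  have hx0 : 0 < x := by linarith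
  have h64 : 64 ≤ x ^ ε := by
    calc (64 : ℝ) = (64 ^ (1 / ε)) ^ ε := by
          rw [← Real.rpow_mul (by norm_num), one_div_mul_cancel hε.ne', Real.rpow_one]
      _ ≤ x ^ ε := Real.rpow_le_rpow (by positivity) hx0' hε.le
  obtain ⟨b1, b2, b3, b4, b5, b6, b7, b8, b9⟩ := hb
  have hSr : (0 : ℝ) < S := by exact_mod_cast b5
  have hRr : (0 : ℝ) < R := by exact_mod_cast hR
  have hVr : (0 : ℝ) < V := by exact_mod_cast hV
  have hNr : (0 : ℝ) < N := lt_of_lt_of_le (Real.rpow_pos_of_pos hx0 _) b2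
  obtain ⟨y, hy⟩ : ∃ y : ℝ, y = x ^ (4 * hh δ κ ε) *
      ((R : ℝ) ^ 3 * S * (V : ℝ) ^ 3 / (N : ℝ) ^ 4 + (R : ℝ) * S * V / (N : ℝ) ^ 2) := ⟨_, rfl⟩
  have hy0 : 0 < y := by
    rw [hy]
    have := Real.rpow_pos_of_pos hx0 (4 * hh δ κ ε)
    positivity
  obtain ⟨L, hL⟩ : ∃ L : ℕ, L = ⌈y⌉₊ := ⟨_, rfl⟩
  have hLW : LW δ κ ε x R S N V = L := by
    rw [hL, hy]
    rfl
  rw [hLW]
  have hL1 : 1 ≤ L := by
    rw [hL]
    exact Nat.one_le_iff_ne_zero.mpr (Nat.ceil_pos.mpr hy0).ne'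
  have hyL : y ≤ L := by
    rw [hL]
    exact Nat.le_ceil y
  have hLy : (L : ℝ) < y + 1 := by
    rw [hL]
    exact Nat.ceil_lt_add_one hy0.le
  have hLr : (0 : ℝ) < L := by exact_mod_cast hL1
  have hxk : 0 < x ^ κ := Real.rpow_pos_of_pos hx0 _
  obtain ⟨L', hL'⟩ : ∃ L' : ℕ, L' = ⌊(L : ℝ) * x ^ κ⌋₊ := ⟨_, rfl⟩
  rw [← hL']
  have hLL : (L' : ℝ) ≤ L * x ^ κ := by
    rw [hL']
    exact Nat.floor_le (by positivity)
  obtain ⟨g1, g2, g3, g4⟩ := Bnw_core (h := hh δ κ ε) (w := vv δ κ ε) hx hδ hκ hε hE h64 rfl rfl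
    hNr hRr hSr hVr b2 b6 b7 b8 hw1 hw2 hy hyL hLy.le hLr hLL
  refine ⟨hL1, by exact_mod_cast g3, by exact_mod_cast g1, ?_, ?_⟩
  · rcases le_or_gt y 1 with h1 | h1
    · left
      rw [hL]
      apply le_antisymm
      · exact Nat.ceil_le.mpr (by simpa using h1)
      · rw [← hL]
        exact hL1
    · right
      calc (L : ℝ) * (2 * V) ≤ (2 * y) * (2 * V) := by
            gcongr
            linarith
        _ = 4 * V * y := by ring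
        _ ≤ S := g2
  · have e1 : EW R S N V L L' ≤ 25 * x ^ (-(2 * hh δ κ ε)) := g4
    apply Real.sqrt_le_iff.mpr
    have h2 := Real.rpow_pos_of_pos hx0 (-hh δ κ ε)
    refine ⟨by positivity, e1.trans (le_of_eq ?_)⟩
    rw [mul_pow, pow_two (x ^ (-hh δ κ ε)), ← Real.rpow_add hx0]
    norm_num
    ring_nf

end Pool.Agent.Lib.SLB
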