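import Pool.Agent.Lib.SLB.SpecB

/-!
MP_00e23e_nt, project SL, chapter B, module Bsg (helper40): the sum over g of the square roots.
-/

set_option autoImplicit false

namespace Pool.Agent.Lib.SLB

open Finset Pool.Agent.Lib.EH3 Pool.Agent.Lib.TB Pool.Agent.Results.MP_00e23e_nt Pool.Agent.Lib.MI
open Pool.Agent.Lib.MX (Bd Mz Bd_nonneg Bd_mono rp_le rn_le log_le_T Tau_x)

/-- the harmonic sum -/
private lemma Bsg_harm {X T : ℝ} (hT : Tau X T) (D : ℕ) (hD1 : 1 ≤ D) (hD : (D : ℝ) ≤ X) :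
    ∑ s ∈ Icc 1 D, 1 / (s : ℝ) ≤ T := by
  have h2 := harmonic_le_one_add_log D
  rw [harmonic_eq_sum_Icc] at h2
  push_cast at h2
  have hD0 : (0 : ℝ) < D := by exact_mod_cast hD1
  have h3 : Real.log D ≤ Real.log X := Real.log_le_log hD0 hD
  have h4 : ∑ s ∈ Icc 1 D, 1 / (s : ℝ) = ∑ s ∈ Icc 1 D, (s : ℝ)⁻¹ :=
    Finset.sum_congr rfl fun s _ => one_div _
  rw [h4]
  linarith [hT.2.1]

/-- the sum of the inverse square roots -/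
private lemma Bsg_root (G : ℕ) : ∑ g ∈ Icc 1 G, 1 / Real.sqrt (g : ℝ) ≤ 2 * Real.sqrt (G : ℝ) := by
  induction G with
  | zero => simp
  | succ n ih =>
    rw [Finset.sum_Icc_succ_top (by omega)]
    have h0 : (0 : ℝ) ≤ (n : ℝ) := Nat.cast_nonneg n
    have hc : ((n + 1 : ℕ) : ℝ) = (n : ℝ) + 1 := by push_cast; ring
    rw [hc]
    have hs1 : 0 < Real.sqrt ((n : ℝ) + 1) := Real.sqrt_pos.2 (by linarith)
    have hs0 : 0 ≤ Real.sqrt (n : ℝ) := Real.sqrt_nonneg _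
    have hq1 : Real.sqrt ((n : ℝ) + 1) * Real.sqrt ((n : ℝ) + 1) = (n : ℝ) + 1 :=
      Real.mul_self_sqrt (by linarith)
    have hq0 : Real.sqrt (n : ℝ) * Real.sqrt (n : ℝ) = (n : ℝ) := Real.mul_self_sqrt h0
    have hle : Real.sqrt (n : ℝ) ≤ Real.sqrt ((n : ℝ) + 1) := Real.sqrt_le_sqrt (by linarith)
    have h1 : 1 / Real.sqrt ((n : ℝ) + 1) ≤
        2 * (Real.sqrt ((n : ℝ) + 1) - Real.sqrt (n : ℝ)) := by
      rw [div_le_iff₀ hs1]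
      nlinarith
    linarith

private lemma Bsg_add (a b : ℝ) (ha : 0 ≤ a) (hb : 0 ≤ b) :
    Real.sqrt (a + b) ≤ Real.sqrt a + Real.sqrt b := by
  have h1 : 0 ≤ Real.sqrt a * Real.sqrt b := mul_nonneg (Real.sqrt_nonneg a) (Real.sqrt_nonneg b)
  have h2 := Real.sq_sqrt ha
  have h3 := Real.sq_sqrt hb
  rw [Real.sqrt_le_left (add_nonneg (Real.sqrt_nonneg a) (Real.sqrt_nonneg b))]
  nlinarith

/-- one term -/
private lemma Bsg_term (y E : ℝ) (V g Y : ℕ) (hy : 0 ≤ y) (hE : 0 ≤ E) (hg : 1 ≤ g) (hV : 1 ≤ V)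
    (hY : (Y : ℝ) ≤ y / g + 1) :
    Real.sqrt ((Y : ℝ) / ((V : ℝ) ^ 2 * g) + (Y : ℝ) ^ 2 * E) ≤
      (Real.sqrt y * (1 / (g : ℝ)) + 1 / Real.sqrt (g : ℝ)) / V + (y * (1 / (g : ℝ)) + 1) * Real.sqrt E := by
  have hg0 : (0 : ℝ) < g := by exact_mod_cast hg
  have hV0 : (0 : ℝ) < V := by exact_mod_cast hV
  have hY0 : (0 : ℝ) ≤ Y := Nat.cast_nonneg Y
  have hsg : 0 < Real.sqrt (g : ℝ) := Real.sqrt_pos.2 hg0
  have hsy : 0 ≤ Real.sqrt y := Real.sqrt_nonneg y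
  have hqg : Real.sqrt (g : ℝ) ^ 2 = g := Real.sq_sqrt hg0.le
  have hqy : Real.sqrt y ^ 2 = y := Real.sq_sqrt hy
  have hA : Real.sqrt ((Y : ℝ) / ((V : ℝ) ^ 2 * g)) ≤
      (Real.sqrt y * (1 / (g : ℝ)) + 1 / Real.sqrt (g : ℝ)) / V := by
    have hn : 0 ≤ (Real.sqrt y * (1 / (g : ℝ)) + 1 / Real.sqrt (g : ℝ)) / V := by positivity
    rw [Real.sqrt_le_left hn]
    have h1 : (Y : ℝ) / ((V : ℝ) ^ 2 * g) ≤ (y / g + 1) / ((V : ℝ) ^ 2 * g) := by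
      gcongr
    have h2 : (y / g + 1) / ((V : ℝ) ^ 2 * g) = (y * (1 / (g : ℝ)) ^ 2 + 1 / (g : ℝ)) / (V : ℝ) ^ 2 := by
      field_simp
    have h3 : (1 / Real.sqrt (g : ℝ)) ^ 2 = 1 / (g : ℝ) := by
      rw [div_pow, one_pow, hqg]
    have h4 : ((Real.sqrt y * (1 / (g : ℝ)) + 1 / Real.sqrt (g : ℝ)) / V) ^ 2 =
        (y * (1 / (g : ℝ)) ^ 2 + 1 / (g : ℝ) +
          2 * (Real.sqrt y * (1 / (g : ℝ)) * (1 / Real.sqrt (g : ℝ)))) / (V : ℝ) ^ 2 := by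
      rw [div_pow, add_sq, mul_pow, hqy, h3]
      ring
    rw [h4]
    refine h1.trans ?_
    rw [h2]
    have h5 : 0 ≤ 2 * (Real.sqrt y * (1 / (g : ℝ)) * (1 / Real.sqrt (g : ℝ))) := by positivity
    refine div_le_div_of_nonneg_right ?_ (by positivity)
    linarith
  have hB : Real.sqrt ((Y : ℝ) ^ 2 * E) ≤ (y * (1 / (g : ℝ)) + 1) * Real.sqrt E := by
    rw [Real.sqrt_mul (by positivity), Real.sqrt_sq hY0]
    have h1 : (Y : ℝ) ≤ y * (1 / (g : ℝ)) + 1 := by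
      rw [mul_one_div]
      exact hY
    exact mul_le_mul_of_nonneg_right h1 (Real.sqrt_nonneg E)
  have hC := Bsg_add ((Y : ℝ) / ((V : ℝ) ^ 2 * g)) ((Y : ℝ) ^ 2 * E) (by positivity) (by positivity)
  linarith

theorem tBsg : BsgStmt := by
  intro X T y E G V Y hT hGX hy hE hG hV hY
  have hT1 := hT.1
  have hV0 : (0 : ℝ) < V := by exact_mod_cast hV
  have h1 : ∑ g ∈ Icc 1 G, Real.sqrt ((Y g : ℝ) / ((V : ℝ) ^ 2 * g) + (Y g : ℝ) ^ 2 * E) ≤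
      ∑ g ∈ Icc 1 G, ((Real.sqrt y * (1 / (g : ℝ)) + 1 / Real.sqrt (g : ℝ)) / V +
        (y * (1 / (g : ℝ)) + 1) * Real.sqrt E) := by
    refine Finset.sum_le_sum fun g hg => ?_
    exact Bsg_term y E V g (Y g) hy hE (mem_Icc.1 hg).1 hV (hY g hg)
  have h2 : ∑ g ∈ Icc 1 G, ((Real.sqrt y * (1 / (g : ℝ)) + 1 / Real.sqrt (g : ℝ)) / V +
        (y * (1 / (g : ℝ)) + 1) * Real.sqrt E) =
      (Real.sqrt y * ∑ g ∈ Icc 1 G, 1 / (g : ℝ) + ∑ g ∈ Icc 1 G, 1 / Real.sqrt (g : ℝ)) / V +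
        (y * ∑ g ∈ Icc 1 G, 1 / (g : ℝ) + G) * Real.sqrt E := by
    rw [Finset.sum_add_distrib, ← Finset.sum_div, ← Finset.sum_mul, Finset.sum_add_distrib,
      Finset.sum_add_distrib, ← Finset.mul_sum, ← Finset.mul_sum, Finset.sum_const, Nat.card_Icc,
      Nat.add_sub_cancel, nsmul_eq_mul, mul_one]
  have hH := Bsg_harm hT G hG hGX
  have hR := Bsg_root G
  have hsy : 0 ≤ Real.sqrt y := Real.sqrt_nonneg y
  have hsG : 0 ≤ Real.sqrt (G : ℝ) := Real.sqrt_nonneg _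
  have hsE : 0 ≤ Real.sqrt E := Real.sqrt_nonneg E
  have hG0 : (0 : ℝ) ≤ G := Nat.cast_nonneg G
  have hH0 : 0 ≤ ∑ g ∈ Icc 1 G, 1 / (g : ℝ) := Finset.sum_nonneg fun g _ => by positivity
  have h3 : (Real.sqrt y * ∑ g ∈ Icc 1 G, 1 / (g : ℝ) + ∑ g ∈ Icc 1 G, 1 / Real.sqrt (g : ℝ)) / V ≤
      2 * T * ((Real.sqrt y + Real.sqrt G) / V) := by
    rw [mul_div_assoc']
    refine div_le_div_of_nonneg_right ?_ hV0.le
    have e1 : Real.sqrt y * ∑ g ∈ Icc 1 G, 1 / (g : ℝ) ≤ Real.sqrt y * T :=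
      mul_le_mul_of_nonneg_left hH hsy
    have e2 : Real.sqrt (G : ℝ) ≤ T * Real.sqrt (G : ℝ) := by nlinarith
    have e3 : 0 ≤ Real.sqrt y * T := mul_nonneg hsy (by linarith)
    nlinarith
  have h4 : (y * ∑ g ∈ Icc 1 G, 1 / (g : ℝ) + G) * Real.sqrt E ≤
      2 * T * ((y + G) * Real.sqrt E) := by
    rw [← mul_assoc]
    refine mul_le_mul_of_nonneg_right ?_ hsE
    have e1 : y * ∑ g ∈ Icc 1 G, 1 / (g : ℝ) ≤ y * T := mul_le_mul_of_nonneg_left hH hy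
    have e2 : (G : ℝ) ≤ T * G := by nlinarith
    have e3 : 0 ≤ y * T := mul_nonneg hy (by linarith)
    nlinarith
  calc _ ≤ _ := h1
    _ = _ := h2
    _ ≤ 2 * T * ((Real.sqrt y + Real.sqrt G) / V) + 2 * T * ((y + G) * Real.sqrt E) :=
        add_le_add h3 h4
    _ = _ := by ring

end Pool.Agent.Lib.SLB
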