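import Pool.Agent.Lib.MI.Bgr
import Pool.Agent.Lib.MI.Bid
import Pool.Agent.Lib.MI.Bph
import Pool.Agent.Lib.MI.LAll
import Pool.Agent.Lib.ML.Blg
import Pool.Agent.Lib.MK.Fsp
import Pool.Agent.Lib.SL.AllD
import Pool.Agent.Lib.SL.Brg
import Pool.Agent.Lib.SL.Bge
import Pool.Agent.Lib.SLB.AllT
import Pool.Agent.Lib.SLB.Bcs
import Pool.Agent.Lib.SLB.Bdh
import Pool.Agent.Lib.SLB.Bga
import Pool.Agent.Lib.SLB.Bsg
import Pool.Agent.Lib.SLB.Bdi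
import Pool.Agent.Lib.SLB.Bna
import Pool.Agent.Lib.SLB.Bia
import Pool.Agent.Lib.SLB.Bnc
import Pool.Agent.Lib.SLB.Bbb
import Pool.Agent.Lib.SLB.Bdr
import Pool.Agent.Lib.SLB.Bds
import Pool.Agent.Lib.SLB.Bfi
import Pool.Agent.Lib.SLB.Bnw
import Pool.Agent.Lib.SLB.Bicw
import Pool.Agent.Lib.SLA.AllA

/-! MP_00e23e_nt, directory Lib/SLB (THEOREM SL, single lock): chapter B from the van der Corput step EwStmt. -/

namespace Pool.Agent.Lib.SLB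

open Pool.Agent.Lib.TB

theorem aBdi : BdiStmt := tBdi SL.tDsp (tBga tBdh tBcs) tBsg

theorem aBds : BdsStmt := tBds (tBdr (tBbb (tBia aT0 tBna) aBdi tBnc)) MI.tBgr MK.tFsp

theorem aBge : SL.BgeStmt := SL.tBge MI.tBid (SL.tBrg MI.tBph) (ML.tBlg MI.tLrgAll) MI.tLrgAll

/-- chapter B -/
theorem aBfi : BfiStmt := tBfi aBds aBge MI.tBgr

/-- case II for the parameters of SpecB -/
theorem aBii (h : SL.EwStmt) {δ κ : ℝ} (hδ : 0 ≤ δ) (hκ : 0 < κ) (hp : 84 * δ + 48 * κ < 1) :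
    ∃ ε1 : ℝ, 0 < ε1 ∧ ∀ ε : ℝ, 0 < ε → ε ≤ ε1 → BiiStmt δ κ ε := by
  refine ⟨min ((1 - 84 * δ - 48 * κ) / 400) (1 / 200), lt_min (by linarith) (by norm_num), fun ε hε hε1 => ?_⟩
  have h1 : ε ≤ (1 - 84 * δ - 48 * κ) / 400 := hε1.trans (min_le_left _ _)
  have h2 : ε ≤ 1 / 200 := hε1.trans (min_le_right _ _)
  exact tBicw (aTw h) tBnw MI.tBgr δ κ ε hδ hκ hε (by linarith) (by linarith)

/-- THEOREM SL in display form, from the van der Corput step -/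
theorem aSlPc (h : SL.EwStmt) {δ μ κ l l' : ℝ} (hδ : 0 ≤ δ) (hμ : μ < 1 / 3) (hκ : 0 < κ) (hp : 84 * δ + 48 * κ < 1)
    (hl : 1 / 3 + 4 * δ + 7 / 3 * κ < l) (hl' : l' + δ + 3 / 2 * κ < 1 / 2) : SLA.SlPc δ μ κ l l' := by
  obtain ⟨ε, τ, hε, hε1, hτ, hτ1, hB⟩ := aBfi δ μ κ l l' hδ hμ hκ hp hl hl' (aBii h hδ hκ hp)
  have hδ1 : δ ≤ 1 / 10 := by linarith
  exact SLA.tPrg MX.tMer (by linarith) (SLA.tFigAll δ μ κ l l' τ hδ hδ1 hτ hτ1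
    (SLA.tAAll (SLA.Lkm μ κ l l') (1 / 2 + δ) τ ε hε hε1 (by linarith) hτ.le hτ1 hB))

end Pool.Agent.Lib.SLB
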