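import Pool.Agent.Lib.SL.WPgn
import Pool.Agent.Lib.SL.WDif
import Pool.Agent.Lib.SL.WEw
import Pool.Agent.Lib.SL.VVdc
import Pool.Agent.Lib.SL.VCnt
import Pool.Agent.Lib.SL.VPha
import Pool.Agent.Lib.SLB.AllB

/-! MP_00e23e_nt, directory Lib/SLB: THEOREM SL (single lock), phase 1, without hypotheses. -/

namespace Pool.Agent.Lib.SLB

/-- the van der Corput step -/
theorem aEw : SL.EwStmt := SL.tWEw SL.tWPgn SL.tWDif SL.tVVdc SL.tVCnt SL.tVPha aWCor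

/-- THEOREM SL in display form: Σ over all pairs (r, q) -/
theorem tSl : ∀ δ μ κ l l' : ℝ, 0 ≤ δ → μ < 1 / 3 → 0 < κ → 84 * δ + 48 * κ < 1 →
    1 / 3 + 4 * δ + 7 / 3 * κ < l → l' + δ + 3 / 2 * κ < 1 / 2 → SLA.SlPc δ μ κ l l' :=
  fun _ _ _ _ _ h1 h2 h3 h4 h5 h6 => aSlPc aEw h1 h2 h3 h4 h5 h6

end Pool.Agent.Lib.SLB
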