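import Pool.Agent.Lib.SLB.SpecK

/-!
MP_00e23e_nt, project SL, phase 2, chapter B: one block.
-/

set_option autoImplicit false

namespace Pool.Agent.Lib.SLB

open Finset Pool.Agent.Lib.EH3 Pool.Agent.Lib.TB Pool.Agent.Results.MP_00e23e_nt Pool.Agent.Lib.MI
open Pool.Agent.Lib.MX (Bd Mz Bd_nonneg Bd_mono rp_le rn_le log_le_T Tau_x)

/-- the square root -/
private lemma BbbK_rt {s x z ε C T : ℝ} {A : ℕ} (hs : 0 ≤ s) (hx : 0 ≤ x) (hz : 1 ≤ z) (hC : 0 ≤ C) (hT : 1 ≤ T)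
    (h : s ^ 2 ≤ C * T ^ A * (x ^ 2 * (1 / z ^ ε))) : s ≤ Bd (Real.sqrt C) A (ε / 2) x T z := by
  have hz0 : 0 < z := by linarith
  have h1 : 0 < z ^ (ε / 2) := Real.rpow_pos_of_pos hz0 _
  have h2 : z ^ ε = z ^ (ε / 2) * z ^ (ε / 2) := by
    rw [← Real.rpow_add hz0]
    ring_nf
  have h3 : (1 : ℝ) ≤ T ^ A := one_le_pow₀ hT
  unfold MX.Bd
  refine (pow_le_pow_iff_left₀ hs (by positivity) (by norm_num : 2 ≠ 0)).1 ?_
  refine h.trans ?_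
  have h4 : (Real.sqrt C * T ^ A * (x / z ^ (ε / 2))) ^ 2 = C * T ^ A * (x ^ 2 * (1 / z ^ ε)) * T ^ A := by
    rw [mul_pow, mul_pow, Real.sq_sqrt hC, h2, div_pow]
    ring
  rw [h4]
  refine le_mul_of_one_le_right ?_ h3
  positivity

/-- the square root of D -/
private lemma BbbK_sq {C T : ℝ} {A : ℕ} (hC : 0 ≤ C) (hT : 1 ≤ T) : 1 + Real.sqrt (C * T ^ A) ≤ (2 + C) * T ^ A := by
  have h1 : (1 : ℝ) ≤ T ^ A := one_le_pow₀ hT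
  have h2 : Real.sqrt (C * T ^ A) ≤ (1 + C) * T ^ A := by
    rw [Real.sqrt_le_left (by positivity)]
    have h3 : C ≤ (1 + C) ^ 2 := by nlinarith
    have h4 : T ^ A ≤ (T ^ A) ^ 2 := by nlinarith
    calc C * T ^ A ≤ (1 + C) ^ 2 * (T ^ A) ^ 2 := by gcongr
      _ = _ := by ring
  nlinarith

/-- the final estimate of the square -/
private lemma BbbK_fin {s x z ε B C1 C2 C3 T : ℝ} {A1 A2 : ℕ} (hx : 1 ≤ x) (hz : 1 ≤ z) (hzx : z ≤ x)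
    (hε0 : 0 < ε) (hε : ε < 1 / 100) (hC1 : 0 ≤ C1) (hC2 : 0 ≤ C2) (hC3 : 0 ≤ C3) (hT : 1 ≤ T)
    (h1 : s ^ 2 ≤ C2 * T ^ A2 * B)
    (h2 : B ≤ C3 * (1 + Real.sqrt (C1 * T ^ A1)) * (x ^ 2 * (x ^ (-(ε / 8)) + 1 / z))) :
    s ^ 2 ≤ (C2 * (2 * (C3 * (2 + C1)))) * T ^ (A2 + A1) * (x ^ 2 * (1 / z ^ (ε / 8))) := by
  have hz0 : 0 < z := by linarith
  have hzε : 0 < z ^ (ε / 8) := Real.rpow_pos_of_pos hz0 _
  obtain ⟨q, hq⟩ : ∃ q : ℝ, q = 1 / z ^ (ε / 8) := ⟨_, rfl⟩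
  have hq0 : 0 < q := by
    rw [hq]
    positivity
  rw [← hq]
  have hxε : x ^ (-(ε / 8)) ≤ q := by
    rw [hq]
    exact rn_le hz hzx (by linarith)
  have hzq : 1 / z ≤ q := by
    rw [hq]
    refine div_le_div_of_nonneg_left zero_le_one hzε ?_
    calc z ^ (ε / 8) ≤ z ^ (1 : ℝ) := Real.rpow_le_rpow_of_exponent_le hz (by linarith)
      _ = z := Real.rpow_one z
  have h3 : x ^ 2 * (x ^ (-(ε / 8)) + 1 / z) ≤ x ^ 2 * (2 * q) :=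
    mul_le_mul_of_nonneg_left (by linarith) (by positivity)
  have hT0 : 0 < T := by linarith
  have h4 : B ≤ C3 * ((2 + C1) * T ^ A1) * (x ^ 2 * (2 * q)) := by
    refine h2.trans ?_
    have h5 : 0 ≤ x ^ (-(ε / 8)) + 1 / z := by positivity
    exact mul_le_mul (mul_le_mul_of_nonneg_left (BbbK_sq hC1 hT) hC3) h3 (by positivity) (by positivity)
  calc s ^ 2 ≤ C2 * T ^ A2 * B := h1
    _ ≤ C2 * T ^ A2 * (C3 * ((2 + C1) * T ^ A1) * (x ^ 2 * (2 * q))) :=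
        mul_le_mul_of_nonneg_left h4 (by positivity)
    _ = _ := by
        rw [pow_add]
        ring

/-- one block, from the bounds HgK -/
private lemma BbbK_core (h2 : BdiKStmt) (h3 : BncKStmt) {c δ κ l ε C1 C0 : ℝ} {A1 : ℕ} (hPar : ParK c δ κ l ε)
    (hC1 : 0 ≤ C1) (hC0 : 0 ≤ C0) : ∃ (C x0 : ℝ) (A0 : ℕ), 0 ≤ C ∧ 1 ≤ x0 ∧
    ∀ (x T z E0 : ℝ) (a : ℕ → ℕ → ℤ) (ρ : ℕ → ℕ) (v col : ℕ → ℕ → ℕ) (K M N R S R0 V : ℕ) (P : Finset (ℕ × ℕ))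
    (f g : ℕ → ℂ), x0 ≤ x → Tau (x ^ (30 : ℝ)) T → 1 ≤ z → z ≤ x → 0 ≤ E0 →
    (1 + (R : ℝ) * (S : ℝ) ^ 2 / M) ^ 2 * E0 ≤ C0 * x ^ (-(2 * c + 3 * ε)) → BlkK c δ κ ε x M N R S →
    (K : ℝ) ≤ 2 * x ^ (c + ε / 16) → 1 ≤ V →
    (x ^ va c δ κ ε ≤ 2 * (V : ℝ) ∨ V = S ∨ (x ^ vb c δ κ ε ≤ 2 * (V : ℝ) ∧ (N : ℝ) ≤ x ^ (1 / 2 - 2 * c))) →
    SL.Pr a R S z P → Lp a ρ v col K R0 V P → (∀ m, ‖f m‖ ≤ 1) → (∀ n, ‖g n‖ ≤ 1) →
    (∀ k Hm : ℕ, 1 ≤ R → 1 ≤ N → R ≤ N → 1 ≤ k →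
      (2 * (R : ℝ) * (S : ℝ) ^ 2 * N * Hm) ^ 12 ≤ x ^ (30 : ℝ) →
      HgK a ρ v col K k R S N R0 V Hm P (C1 * T ^ A1 * (K : ℝ) ^ 2) E0) →
    ∑ w ∈ P, ‖∑ m ∈ Ioc M (2 * M), ∑ n ∈ Ioc N (2 * N), f m * g n * Dl (a w.1 w.2) w.1 w.2 (m * n)‖ ≤
      Bd C A0 (ε / 16) x T z := by
  obtain ⟨C2, hC2, A2, hD⟩ := h2
  obtain ⟨C3, x0, hC3, hx0, hN⟩ := h3 c δ κ l ε C0 hPar hC0
  refine ⟨Real.sqrt (C2 * (2 * (C3 * (2 + C1)))), x0, A2 + A1, Real.sqrt_nonneg _, hx0, ?_⟩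
  intro x T z E0 a ρ v col K M N R S R0 V P f g hx hT hz hzx hE0 hEy hBlk hK hV hVc hPr hLp hf hg hHg
  have hx1 : 1 ≤ x := hx0.trans hx
  have hx00 : 0 < x := by linarith
  have hT1 : 1 ≤ T := hT.1
  have hD0 : 0 ≤ C1 * T ^ A1 := mul_nonneg hC1 (by positivity)
  obtain ⟨⟨b1, b2, b3, b4, b5, b6, b7, b8, b9, b10, b11⟩, b12⟩ :=
    hN x z (C1 * T ^ A1) E0 K M N R S V ⌊x ^ ha c δ κ ε⌋₊
      (min ⌊(1 + Real.sqrt ((R : ℝ) * (S : ℝ) ^ 2 / M)) * x ^ ε⌋₊ S) hx hz hD0 hE0 hEy hBlk hK hV hVc rfl rfl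
  have hS : 1 ≤ S := b5.trans b6
  have key := hD (x ^ (30 : ℝ)) T z (C1 * T ^ A1 * (K : ℝ) ^ 2) E0 a ρ v col K R S M N ⌊x ^ ha c δ κ ε⌋₊
    (min ⌊(1 + Real.sqrt ((R : ℝ) * (S : ℝ) ^ 2 / M)) * x ^ ε⌋₊ S) R0 V P f g hT hz
    (mul_nonneg hD0 (by positivity)) hE0 b1 hS b2 b3 b4 b5 b6 hV b7 b8 b9 b10 hPr hLp
    (fun k hk => by
      obtain ⟨hk1, hk2⟩ := Finset.mem_Icc.1 hk
      exact hHg k _ b1 b2 b7 hk1 b11) hf hg
  have key2 := BbbK_fin hx1 hz hzx hPar.1.2.2.2.1 hPar.1.2.2.2.2 hC1 hC2.le hC3 hT1 key b12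
  have key3 := BbbK_rt (Finset.sum_nonneg fun w _ => norm_nonneg _) hx00.le hz (by positivity) hT1 key2
  have h16 : ε / 8 / 2 = ε / 16 := by ring
  rw [h16] at key3
  exact key3

/-- the factor (1 + y)^2 in case II -/
private lemma BbbK_y {c δ κ ε x Y M C : ℝ} (hx : 1 ≤ x) (hM : 0 < M) (hC : 0 ≤ C) (hδ : 0 ≤ δ) (hκ : 0 < κ)
    (hε : 0 < ε) (hY0 : 0 ≤ Y) (hY : Y ≤ 2 * x ^ (2 * δ + κ + 2 * ε) * M) :
    (1 + Y / M) ^ 2 * (C * x ^ (-hb c δ κ ε)) ≤ 9 * C * x ^ (-(2 * c + 3 * ε)) := by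
  have hx0 : 0 < x := by linarith
  have h1 : Y / M ≤ 2 * x ^ (2 * δ + κ + 2 * ε) := by
    rw [div_le_iff₀ hM]
    exact hY
  have h2 : (1 : ℝ) ≤ x ^ (2 * δ + κ + 2 * ε) := Real.one_le_rpow hx (by linarith)
  have h0 : 0 ≤ Y / M := by positivity
  have h3 : (1 + Y / M) ^ 2 ≤ (3 * x ^ (2 * δ + κ + 2 * ε)) ^ 2 := by
    refine pow_le_pow_left₀ (by linarith) (by linarith) 2
  have h4 : (3 * x ^ (2 * δ + κ + 2 * ε)) ^ 2 = 9 * x ^ (4 * δ + 2 * κ + 4 * ε) := by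
    rw [mul_pow, ← Real.rpow_natCast (x ^ (2 * δ + κ + 2 * ε)) 2, ← Real.rpow_mul hx0.le]
    norm_num
    ring_nf
  have h5 : x ^ (4 * δ + 2 * κ + 4 * ε) * x ^ (-hb c δ κ ε) ≤ x ^ (-(2 * c + 3 * ε)) := by
    rw [← Real.rpow_add hx0]
    refine Real.rpow_le_rpow_of_exponent_le hx ?_
    unfold hb
    linarith
  have h6 : 0 ≤ x ^ (-hb c δ κ ε) := (Real.rpow_pos_of_pos hx0 _).le
  calc (1 + Y / M) ^ 2 * (C * x ^ (-hb c δ κ ε)) ≤ (9 * x ^ (4 * δ + 2 * κ + 4 * ε)) * (C * x ^ (-hb c δ κ ε)) := by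
        rw [← h4]
        exact mul_le_mul_of_nonneg_right h3 (mul_nonneg hC h6)
    _ = 9 * C * (x ^ (4 * δ + 2 * κ + 4 * ε) * x ^ (-hb c δ κ ε)) := by ring
    _ ≤ _ := mul_le_mul_of_nonneg_left h5 (by positivity)

theorem tBbbK (h1 : BiaKStmt) (h2 : BdiKStmt) (h3 : BfaKStmt) (h4 : BnaKStmt) (h5 : BncKStmt) : BbbKStmt := by
  intro c δ κ l ε hPar hBii
  obtain ⟨C1, A1, hC1, hI⟩ := h1
  obtain ⟨C2, C02, x2, A2, hC2, hC02, hII⟩ := hBii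
  obtain ⟨C01, x1, hC01, hx1, hna⟩ := h4 c δ κ l ε hPar
  obtain ⟨x3, hx3, hx3', hfa⟩ := h3 c δ κ l ε hPar
  obtain ⟨Ca, xa, Aa, hCa, hxa, hA⟩ := BbbK_core h2 h5 (A1 := A1) hPar hC1.le hC01
  obtain ⟨Cb, xb, Ab, hCb, hxb, hB⟩ := BbbK_core h2 h5 (A1 := A2) hPar hC2.le
    (by positivity : (0 : ℝ) ≤ 9 * C02)
  have hε : 0 < ε := hPar.1.2.2.2.1
  refine ⟨ε / 16, Ca + Cb, max (max (max x1 x2) x3) (max xa xb), Aa + Ab, by linarith, by linarith, ?_⟩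
  intro x T z a ρ v col K M N R S R0 V P f g hx hT hz hzx hBlk hK1 hK hR0R hVS hCs hPr hLp hf hg
  have hx1 : x1 ≤ x := (le_max_left _ _).trans ((le_max_left _ _).trans ((le_max_left _ _).trans hx))
  have hx2 : x2 ≤ x := (le_max_right _ _).trans ((le_max_left _ _).trans ((le_max_left _ _).trans hx))
  have hx3x : x3 ≤ x := (le_max_right _ _).trans ((le_max_left _ _).trans hx)
  have hxa' : xa ≤ x := (le_max_left _ _).trans ((le_max_right _ _).trans hx)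
  have hxb' : xb ≤ x := (le_max_right _ _).trans ((le_max_right _ _).trans hx)
  have hx1' : 1 ≤ x := hxa.trans hxa'
  have hx00 : 0 < x := by linarith
  have hVpos : ∀ u : ℝ, x ^ u ≤ 2 * (V : ℝ) → 1 ≤ V := by
    intro u h
    have h5 : 0 < x ^ u := Real.rpow_pos_of_pos hx00 _
    have h4 : (0 : ℝ) < (V : ℝ) := by linarith
    exact_mod_cast h4
  have hS : 1 ≤ S := hBlk.2.2.2.2.1
  rcases hCs with ⟨hl, hc, hVx⟩ | ⟨hR0, hNc, hc, hVx, hsm⟩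
  · have hV1 : 1 ≤ V := by
      rcases hc with h | h
      · exact hVpos _ h
      · rw [h]
        exact hS
    have hR01 : 1 ≤ R0 := by
      have h5 : 0 < x ^ l := Real.rpow_pos_of_pos hx00 _
      have h4 : (0 : ℝ) < (R0 : ℝ) := by linarith
      exact_mod_cast h4
    have hE0 : 0 ≤ EI R S N R0 V := by
      unfold EI
      positivity
    have hVc : x ^ va c δ κ ε ≤ 2 * (V : ℝ) ∨ V = S ∨
        (x ^ vb c δ κ ε ≤ 2 * (V : ℝ) ∧ (N : ℝ) ≤ x ^ (1 / 2 - 2 * c)) := by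
      rcases hc with h | h
      · exact Or.inl h
      · exact Or.inr (Or.inl h)
    have key := hA x T z (EI R S N R0 V) a ρ v col K M N R S R0 V P f g hxa' hT hz hzx hE0
      (hna x M N R S R0 V hx1 hBlk hVx hl) hBlk hK hV1 hVc hPr hLp hf hg
      (fun k Hm hR hN hRN hk hsz =>
        hI x T a ρ v col K k R S N R0 V Hm P hT hK1 hk hR hS hN hR01 hV1 hR0R hVS hRN hsz)
    exact key.trans (Bd_mono hCa (by linarith) (by omega) le_rfl hT.1 hx00.le hz)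
  · subst hR0
    have hV1 : 1 ≤ V := hVpos _ hc
    have hLp' : Lp a (fun r => r) v col K R0 V P := by
      obtain ⟨p1, p2⟩ := hLp
      refine ⟨fun w hw => ?_, fun w hw w' hw' he1 he2 he3 => ?_⟩
      · have h5 := p1 w hw
        rw [(hsm w hw).1] at h5
        exact h5
      · have h5 := p2 w hw w' hw'
        rw [(hsm w hw).1, (hsm w' hw').1] at h5
        exact h5 he1 he2 he3
    have hNm : Nm c x N = (N : ℝ) := min_eq_left hNc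
    have hBlk' : Blk δ κ ε x M N R0 S := by
      have h6 := hBlk
      unfold BlkK at h6
      rw [hNm] at h6
      exact h6
    obtain ⟨-, -, -, -, -, -, hf7, -, -⟩ := hfa x M N R0 S hx3x hBlk
    have hM0 : (0 : ℝ) < (M : ℝ) := by
      have h7 : x ^ (1 - ε) ≤ (M : ℝ) * N := hBlk.2.2.1
      have h8 : 0 < x ^ (1 - ε) := Real.rpow_pos_of_pos hx00 _
      have h9 : (0 : ℝ) < (M : ℝ) * N := by linarith
      exact pos_of_mul_pos_left h9 (Nat.cast_nonneg N)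
    have hE0 : 0 ≤ C02 * x ^ (-hb c δ κ ε) := mul_nonneg hC02 (Real.rpow_pos_of_pos hx00 _).le
    have key := hB x T z (C02 * x ^ (-hb c δ κ ε)) a (fun r => r) v col K M N R0 S R0 V P f g hxb' hT hz hzx hE0
      (BbbK_y hx1' hM0 hC02 hPar.1.2.1 hPar.1.2.2.1 hε (by positivity) (hf7 hNc)) hBlk hK hV1
      (Or.inr (Or.inr ⟨hc, hNc⟩)) hPr hLp' hf hg
      (fun k Hm hR hN hRN hk hsz => hII x T a v col K k M N R0 S V Hm P hx2 hT hBlk' hK1 hR hV1 hVS hc hVx hk hsz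
        (fun w hw => by
          obtain ⟨q1, q2, q3, q4, q5, -, -⟩ := hPr w hw
          exact ⟨q1, q2, q3, q4, q5, (hsm w hw).2⟩))
    exact key.trans (Bd_mono hCb (by linarith) (by omega) le_rfl hT.1 hx00.le hz)

end Pool.Agent.Lib.SLB
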