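import Pool.Agent.Lib.SLB.SpecK

/-!
MP_00e23e_nt, project SL, phase 2, chapter B for x^c classes, module BclK: classes and colours.
-/

set_option autoImplicit false

namespace Pool.Agent.Lib.SLB

open Finset Pool.Agent.Lib.EH3 Pool.Agent.Lib.TB Pool.Agent.Results.MP_00e23e_nt Pool.Agent.Lib.MI
open Pool.Agent.Lib.MX (Bd Mz Bd_nonneg Bd_mono rp_le rn_le log_le_T Tau_x)

theorem tBclK : BclKStmt := by
  classical
  intro a w F B hB
  have hmem : ∀ q ∈ F, a q % ((w q : ℕ) : ℤ) ∈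
      (F.filter (fun q' => w q' = w q)).image (fun q' => a q' % ((w q : ℕ) : ℤ)) := fun q hq =>
    Finset.mem_image.2 ⟨q, Finset.mem_filter.2 ⟨hq, rfl⟩, rfl⟩
  refine ⟨fun q => if h : q ∈ F then (Finset.equivFin
    ((F.filter (fun q' => w q' = w q)).image (fun q' => a q' % ((w q : ℕ) : ℤ)))
      ⟨a q % ((w q : ℕ) : ℤ), hmem q h⟩ : ℕ) else 0, ?_, ?_⟩
  · intro q hq
    simp only [dif_pos hq]
    exact lt_of_lt_of_le (Fin.is_lt _) (hB (w q))
  · intro q hq q' hq' hw hidx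
    simp only [dif_pos hq, dif_pos hq'] at hidx
    have key : ∀ r : ℕ, ∀ (h1 : a q % (r : ℤ) ∈
        (F.filter (fun q' => w q' = r)).image (fun q' => a q' % (r : ℤ)))
        (h2 : a q' % (r : ℤ) ∈ (F.filter (fun q' => w q' = r)).image (fun q' => a q' % (r : ℤ))),
        ((Finset.equivFin ((F.filter (fun q' => w q' = r)).image (fun q' => a q' % (r : ℤ)))
          ⟨a q % (r : ℤ), h1⟩ : ℕ)) =
        ((Finset.equivFin ((F.filter (fun q' => w q' = r)).image (fun q' => a q' % (r : ℤ)))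
          ⟨a q' % (r : ℤ), h2⟩ : ℕ)) → (r : ℤ) ∣ a q - a q' := by
      intro r h1 h2 h
      have h3 := (Finset.equivFin _).injective (Fin.ext h)
      have h4 : a q % (r : ℤ) = a q' % (r : ℤ) := congrArg Subtype.val h3
      exact Int.ModEq.dvd (show a q' ≡ a q [ZMOD (r : ℤ)] from h4.symm)
    have h2 : a q' % ((w q : ℕ) : ℤ) ∈
        (F.filter (fun q' => w q' = w q)).image (fun q' => a q' % ((w q : ℕ) : ℤ)) :=
      Finset.mem_image.2 ⟨q', Finset.mem_filter.2 ⟨hq', hw.symm⟩, rfl⟩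
    refine key (w q) (hmem q hq) h2 ?_
    rw [hidx]
    have hgen : ∀ (r : ℕ) (_ : r = w q) (h3 : a q' % (r : ℤ) ∈
        (F.filter (fun q' => w q' = r)).image (fun q' => a q' % (r : ℤ))),
        ((Finset.equivFin ((F.filter (fun q' => w q' = r)).image (fun q' => a q' % (r : ℤ)))
          ⟨a q' % (r : ℤ), h3⟩ : ℕ)) =
        ((Finset.equivFin ((F.filter (fun q' => w q' = w q)).image
          (fun q' => a q' % ((w q : ℕ) : ℤ))) ⟨a q' % ((w q : ℕ) : ℤ), h2⟩ : ℕ)) := by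
      intro r hr h3
      subst hr
      rfl
    exact hgen (w q') hw.symm (hmem q' hq')

end Pool.Agent.Lib.SLB
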