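import Pool.Agent.Lib.SLB.SpecK

/-!
MP_00e23e_nt, project SL (THEOREM SL, single lock), directory Lib/SLB, phase 2, module BdrK (helper57): all blocks (copy of Bdr.lean).
-/

set_option autoImplicit false

namespace Pool.Agent.Lib.SLB

open Finset Pool.Agent.Lib.EH3 Pool.Agent.Lib.TB Pool.Agent.Results.MP_00e23e_nt Pool.Agent.Lib.MI
open Pool.Agent.Lib.MX (Bd Mz Bd_nonneg Bd_mono rp_le rn_le log_le_T Tau_x)

private lemma BdrK_lt {x s A B : ℝ} (hx : 0 < x) (h : x ^ A < s * x ^ B) : x ^ (A - B) < s := by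
  rw [Real.rpow_sub hx, div_lt_iff₀ (Real.rpow_pos_of_pos hx B)]
  exact h

private lemma BdrK_log {r : ℕ} (hr : 2 ≤ r) :
    2 ^ Nat.log 2 (r - 1) < r ∧ r ≤ 2 * 2 ^ Nat.log 2 (r - 1) := by
  have h1 := Nat.pow_log_le_self 2 (show r - 1 ≠ 0 by omega)
  have h2 := Nat.lt_pow_succ_log_self (show 1 < 2 by norm_num) (r - 1)
  rw [pow_succ] at h2
  constructor <;> omega

private lemma BdrK_mono {r s : ℕ} (h : r ∣ s) (hs : 2 ≤ s) :
    2 ^ Nat.log 2 (r - 1) ≤ 2 ^ Nat.log 2 (s - 1) := by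
  have h1 : r ≤ s := Nat.le_of_dvd (by omega) h
  exact Nat.pow_le_pow_right (by norm_num) (Nat.log_mono_right (by omega))

private lemma BdrK_J {x : ℝ} {r : ℕ} (hx : (r : ℝ) ≤ x) :
    Nat.log 2 (r - 1) ∈ range (2 * (Nat.log 2 ⌊x⌋₊ + 1)) := by
  have h1 : r ≤ ⌊x⌋₊ := Nat.le_floor hx
  have h2 : Nat.log 2 (r - 1) ≤ Nat.log 2 ⌊x⌋₊ := Nat.log_mono_right (by omega)
  exact mem_range.2 (by omega)

private lemma BdrK_Jle {x : ℝ} (hx : 3 ≤ x) :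
    ((2 * (Nat.log 2 ⌊x⌋₊ + 1) : ℕ) : ℝ) ≤ 6 * Real.log x := by
  have h0 : ⌊x⌋₊ ≠ 0 := by
    have : 3 ≤ ⌊x⌋₊ := Nat.le_floor (by exact_mod_cast hx)
    omega
  have h1 := Nat.pow_log_le_self 2 h0
  have h2 : ((2 : ℝ) ^ Nat.log 2 ⌊x⌋₊) ≤ x :=
    le_trans (by exact_mod_cast h1) (Nat.floor_le (by linarith))
  have h3 := Real.log_le_log (by positivity) h2
  rw [Real.log_pow] at h3
  have h4 := Real.log_two_gt_d9
  have h5 : 1 ≤ Real.log x := by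
    rw [Real.le_log_iff_exp_le (by linarith)]
    exact le_trans Real.exp_one_lt_d9.le (by linarith)
  have h6 : (0 : ℝ) ≤ (Nat.log 2 ⌊x⌋₊ : ℝ) := Nat.cast_nonneg _
  have h7 : (Nat.log 2 ⌊x⌋₊ : ℝ) * 0.5 ≤ (Nat.log 2 ⌊x⌋₊ : ℝ) * Real.log 2 :=
    mul_le_mul_of_nonneg_left (by linarith) h6
  push_cast
  linarith

private lemma BdrK_fib (F : Finset ℕ) (w : ℕ → ℝ) (φ : ℕ → ℕ × ℕ × ℕ × ℕ) (J : ℕ) (B : ℝ)
    (h1 : ∀ q ∈ F, φ q ∈ range J ×ˢ (range J ×ˢ (range J ×ˢ range J)))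
    (h2 : ∀ k, ∑ q ∈ F.filter (fun q => φ q = k), w q ≤ B) :
    ∑ q ∈ F, w q ≤ (J : ℝ) ^ 4 * B := by
  rw [← sum_fiberwise_of_maps_to h1 w]
  refine (sum_le_card_nsmul _ _ B fun k _ => h2 k).trans ?_
  rw [card_product, card_product, card_product, card_range, nsmul_eq_mul]
  push_cast
  apply le_of_eq
  ring

/-- the facts for one modulus -/
private lemma BdrK_q {c κ ε x : ℝ} (hc : 2 * c ≤ 1 / 6) (hε : 0 < ε) (hx : 3 ≤ x) {M N : ℕ}
    (hNM : N ≤ M) (hN : x ^ ((1 : ℝ) / 3 - ε) ≤ N) (hMN : (M : ℝ) * N ≤ x) {q r : ℕ}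
    (hq : x ^ (1 / 2 - ε / 2) < (q : ℝ)) (hrq : r ∣ q) (hrZ : (r : ℝ) ≤ Nm c x N * x ^ (-ε))
    (hZr : Nm c x N * x ^ (-ε) < (r : ℝ) * x ^ κ) :
    x ^ ((1 : ℝ) / 3 - 2 * ε - κ) < (r : ℝ) ∧ x ^ (ε / 2) < ((q / r : ℕ) : ℝ) := by
  have hx0 : 0 < x := by linarith
  have hNx : (N : ℝ) ≤ x ^ ((1 : ℝ) / 2) := by
    rw [← Real.sqrt_eq_rpow]
    apply Real.le_sqrt_of_sq_le
    have h1 : (N : ℝ) ≤ M := by exact_mod_cast hNM
    have h2 : (0 : ℝ) ≤ N := Nat.cast_nonneg _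
    nlinarith
  have hm1 : x ^ ((1 : ℝ) / 3 - ε) ≤ Nm c x N := by
    refine le_min hN (Real.rpow_le_rpow_of_exponent_le (by linarith) (by linarith))
  have hm2 : Nm c x N ≤ x ^ ((1 : ℝ) / 2) := (min_le_left _ _).trans hNx
  have hxe : 0 < x ^ (-ε) := Real.rpow_pos_of_pos hx0 _
  have hZ1 : x ^ ((1 : ℝ) / 3 - 2 * ε) ≤ Nm c x N * x ^ (-ε) := by
    have h1 : x ^ ((1 : ℝ) / 3 - 2 * ε) = x ^ ((1 : ℝ) / 3 - ε) * x ^ (-ε) := by
      rw [← Real.rpow_add hx0]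
      congr 1
      ring
    rw [h1]
    exact mul_le_mul_of_nonneg_right hm1 hxe.le
  have hZ2 : Nm c x N * x ^ (-ε) ≤ x ^ (1 / 2 - ε) := by
    have h1 : x ^ (1 / 2 - ε) = x ^ ((1 : ℝ) / 2) * x ^ (-ε) := by
      rw [← Real.rpow_add hx0]
      congr 1
    rw [h1]
    exact mul_le_mul_of_nonneg_right hm2 hxe.le
  have hsr : ((q / r : ℕ) : ℝ) * (r : ℝ) = q := by
    exact_mod_cast Nat.div_mul_cancel hrq
  have hs0 : (0 : ℝ) ≤ ((q / r : ℕ) : ℝ) := Nat.cast_nonneg _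
  have h5 : x ^ (1 / 2 - ε / 2) < ((q / r : ℕ) : ℝ) * (Nm c x N * x ^ (-ε)) := by
    refine lt_of_lt_of_le hq ?_
    rw [← hsr]
    exact mul_le_mul_of_nonneg_left hrZ hs0
  have h6 : x ^ (1 / 2 - ε / 2) < ((q / r : ℕ) : ℝ) * x ^ (1 / 2 - ε) :=
    lt_of_lt_of_le h5 (mul_le_mul_of_nonneg_left hZ2 hs0)
  have h7 := BdrK_lt hx0 h6
  have h8 := BdrK_lt hx0 (lt_of_le_of_lt hZ1 hZr)
  refine ⟨h8, ?_⟩
  have h9 : ε / 2 = 1 / 2 - ε / 2 - (1 / 2 - ε) := by ring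
  rw [h9]
  exact h7

/-- the blocks -/
private lemma BdrK_blk {c δ κ ε x : ℝ} (hx : 3 ≤ x) {M N q r R S : ℕ} (hNM : N ≤ M)
    (hN : x ^ ((1 : ℝ) / 3 - ε) ≤ N) (hMN1 : x ^ (1 - ε) ≤ (M : ℝ) * N) (hMN : (M : ℝ) * N ≤ x)
    (hrq : r ∣ q) (hrZ : (r : ℝ) ≤ Nm c x N * x ^ (-ε)) (hZr : Nm c x N * x ^ (-ε) < (r : ℝ) * x ^ κ)
    (hq : x ^ (1 / 2 - ε / 2) < (q : ℝ)) (hq2 : (q : ℝ) ≤ x ^ (1 / 2 + δ))
    (hR1 : R < r) (hR2 : r ≤ 2 * R) (hS0 : 1 ≤ S) (hS1 : S < q / r) (hS2 : q / r ≤ 2 * S) :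
    BlkK c δ κ ε x M N R S := by
  have hx0 : 0 < x := by linarith
  have hR1' : (R : ℝ) ≤ r := by exact_mod_cast hR1.le
  have hR2' : (r : ℝ) ≤ 2 * R := by exact_mod_cast hR2
  have hS1' : (S : ℝ) ≤ ((q / r : ℕ) : ℝ) := by exact_mod_cast hS1.le
  have hS2' : ((q / r : ℕ) : ℝ) ≤ 2 * S := by exact_mod_cast hS2
  have hrs : (r : ℝ) * ((q / r : ℕ) : ℝ) = q := by
    exact_mod_cast Nat.mul_div_cancel' hrq
  have hR0 : (0 : ℝ) ≤ R := Nat.cast_nonneg _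
  have hr0 : (0 : ℝ) ≤ r := Nat.cast_nonneg _
  have hS0' : (0 : ℝ) ≤ S := Nat.cast_nonneg _
  have hs0 : (0 : ℝ) ≤ ((q / r : ℕ) : ℝ) := Nat.cast_nonneg _
  refine ⟨hNM, hN, hMN1, hMN, hS0, hR1'.trans hrZ, ?_, ?_, ?_⟩
  · have h1 : x ^ (-ε - κ) = x ^ (-ε) / x ^ κ := Real.rpow_sub hx0 _ _
    have hk : 0 < x ^ κ := Real.rpow_pos_of_pos hx0 _
    rw [h1, ← mul_div_assoc, div_le_iff₀ hk]
    exact hZr.le.trans (mul_le_mul_of_nonneg_right hR2' hk.le)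
  · refine le_trans ?_ hq2
    rw [← hrs]
    exact mul_le_mul hR1' hS1' hS0' hr0
  · refine hq.le.trans ?_
    rw [← hrs]
    calc (r : ℝ) * ((q / r : ℕ) : ℝ) ≤ (2 * R) * (2 * S) := mul_le_mul hR2' hS2' hs0 (by positivity)
      _ = 4 * ((R : ℝ) * S) := by ring

/-- the sum over a set of moduli as a sum over pairs -/
private lemma BdrK_img (F : Finset ℕ) (r : ℕ → ℕ) (G : ℕ × ℕ → ℝ) (h : ∀ q ∈ F, r q ∣ q) :
    ∑ q ∈ F, G (r q, q / r q) = ∑ w ∈ F.image (fun q => (r q, q / r q)), G w := by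
  rw [sum_image]
  intro q hq q' hq' he
  have h1 := congrArg Prod.fst he
  have h2 := congrArg Prod.snd he
  have h3 := Nat.mul_div_cancel' (h q hq)
  have h4 := Nat.mul_div_cancel' (h q' hq')
  simp only at h1 h2
  calc q = r q * (q / r q) := h3.symm
    _ = r q' * (q' / r q') := by rw [h2, h1]
    _ = q' := h4

/-- Uses: BbbKStmt. -/
theorem tBdrK (hb : BbbKStmt) : BdrKStmt := by
  classical
  intro cc δ κ l ε hP hBii
  obtain ⟨η, C, x1, A1, hη, hC, hT1⟩ := hb cc δ κ l ε hP hBii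
  refine ⟨η, 1296 * C, max 3 x1, A1 + 4, hη, by linarith, ?_⟩
  intro x T z a M N K f g F r ρ v col hx hTau hz1 hzx hNM hN hMN1 hMN2 hK hK2 hf hg hD hCase hρc hlock
  obtain ⟨⟨hcc, hδ, hκ, hε, hε1⟩, hp1, hl⟩ := hP
  have hTone : 1 ≤ T := hTau.1
  have hx3 : 3 ≤ x := (le_max_left _ _).trans hx
  have hxx1 : x1 ≤ x := (le_max_right _ _).trans hx
  have hx0 : 0 < x := by linarith
  have hx1 : 1 < x := by linarith
  have hva : va cc δ κ ε = δ + 2 * cc + κ / 2 + 7 / 2 * ε := rfl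
  have hvb : vb cc δ κ ε = δ + cc + κ / 2 + 7 / 2 * ε := rfl
  have hva0 : 0 < va cc δ κ ε := by
    rw [hva]
    linarith
  have hvb0 : 0 < vb cc δ κ ε := by
    rw [hvb]
    linarith
  have hrs : ∀ q ∈ F, x ^ ((1 : ℝ) / 3 - 2 * ε - κ) < (r q : ℝ) ∧ x ^ (ε / 2) < ((q / r q : ℕ) : ℝ) := by
    intro q hq
    obtain ⟨⟨b1, b2, b3, b4⟩, ⟨c1, c2, c3, c4⟩, _⟩ := hD q hq
    exact BdrK_q (c := cc) (by linarith) hε hx3 hNM hN hMN2 b4 c1 c2 c3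
  have hq1 : ∀ q ∈ F, 1 ≤ q := fun q hq => Nat.one_le_iff_ne_zero.2 (hD q hq).1.1.ne_zero
  have hqx : ∀ q ∈ F, (q : ℝ) ≤ x := by
    intro q hq
    refine (hD q hq).1.2.2.1.trans ?_
    calc x ^ (1 / 2 + δ) ≤ x ^ (1 : ℝ) := Real.rpow_le_rpow_of_exponent_le hx1.le (by linarith)
      _ = x := Real.rpow_one x
  have hr2 : ∀ q ∈ F, 2 ≤ r q := by
    intro q hq
    have h2 : (1 : ℝ) < r q := lt_of_le_of_lt (Real.one_le_rpow hx1.le (by linarith)) (hrs q hq).1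
    exact_mod_cast h2
  have hs2 : ∀ q ∈ F, 2 ≤ q / r q := by
    intro q hq
    have h2 : (1 : ℝ) < ((q / r q : ℕ) : ℝ) :=
      lt_of_le_of_lt (Real.one_le_rpow hx1.le (by linarith)) (hrs q hq).2
    exact_mod_cast h2
  have hρ2 : ∀ q ∈ F, 2 ≤ ρ q := by
    intro q hq
    rcases hCase with h | h
    · have h2 : (1 : ℝ) < ρ q := lt_of_lt_of_le (Real.one_lt_rpow hx1 (by linarith)) (h q hq).1
      exact_mod_cast h2
    · rw [(h.2 q hq).1]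
      exact hr2 q hq
  have hv2 : ∀ q ∈ F, 2 ≤ v q := by
    intro q hq
    have h1 : ∀ e : ℝ, 0 < e → x ^ e < (v q : ℝ) → 2 ≤ v q := by
      intro e he h
      have h2 : (1 : ℝ) < v q := lt_of_le_of_lt (Real.one_le_rpow hx1.le he.le) h
      exact_mod_cast h2
    rcases hCase with h | h
    · rcases (h q hq).2.1 with h3 | h3
      · exact h1 _ hva0 h3
      · rw [h3]
        exact hs2 q hq
    · exact h1 _ hvb0 (h.2 q hq).2.1
  have hle : ∀ q ∈ F, ∀ e : ℕ, e ∣ q → (e : ℝ) ≤ x := by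
    intro q hq e he
    refine le_trans ?_ (hqx q hq)
    exact_mod_cast Nat.le_of_dvd (hq1 q hq) he
  have hsq : ∀ q ∈ F, q / r q ∣ q := fun q hq => Nat.div_dvd_of_dvd (hD q hq).2.1.1
  -- the functions of the pairs
  obtain ⟨A, hA⟩ : ∃ A : ℕ → ℕ → ℤ, ∀ n m, A n m = a (n * m) := ⟨fun n m => a (n * m), fun _ _ => rfl⟩
  obtain ⟨ν, hν⟩ : ∃ ν : ℕ → ℕ → ℕ, ∀ n m, ν n m = v (n * m) := ⟨fun n m => v (n * m), fun _ _ => rfl⟩
  obtain ⟨c, hc⟩ : ∃ c : ℕ → ℕ → ℕ, ∀ n m, c n m = col (n * m) := ⟨fun n m => col (n * m), fun _ _ => rfl⟩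
  obtain ⟨ρ', hρ'⟩ : ∃ ρ' : ℕ → ℕ, ∀ q ∈ F, ρ' (r q) = ρ q := by
    refine ⟨fun n => if h : ∃ q ∈ F, r q = n then ρ h.choose else 0, ?_⟩
    intro q hq
    have h : ∃ q' ∈ F, r q' = r q := ⟨q, hq, rfl⟩
    have e1 : (if h : ∃ q' ∈ F, r q' = r q then ρ h.choose else 0) = ρ h.choose := dif_pos h
    exact e1.trans (hρc _ h.choose_spec.1 q hq h.choose_spec.2)
  have hmul : ∀ q ∈ F, r q * (q / r q) = q := fun q hq => Nat.mul_div_cancel' (hD q hq).2.1.1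
  set G : ℕ × ℕ → ℝ := fun w =>
    ‖∑ m ∈ Ioc M (2 * M), ∑ n ∈ Ioc N (2 * N), f m * g n * Dl (A w.1 w.2) w.1 w.2 (m * n)‖ with hG
  have hsum : ∑ q ∈ F, ‖∑ m ∈ Ioc M (2 * M), ∑ n ∈ Ioc N (2 * N),
      f m * g n * Dl (a q) (r q) (q / r q) (m * n)‖ = ∑ q ∈ F, G (r q, q / r q) := by
    refine sum_congr rfl fun q hq => ?_
    change _ = ‖∑ m ∈ Ioc M (2 * M), ∑ n ∈ Ioc N (2 * N),
      f m * g n * Dl (A (r q) (q / r q)) (r q) (q / r q) (m * n)‖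
    rw [hA, hmul q hq]
  have hB0 : 0 ≤ Bd C A1 η x T z := Bd_nonneg hC hTone hx0.le hz1
  have hmain : ∑ q ∈ F, G (r q, q / r q) ≤
      ((2 * (Nat.log 2 ⌊x⌋₊ + 1) : ℕ) : ℝ) ^ 4 * Bd C A1 η x T z := by
    refine BdrK_fib F _ (fun q => (Nat.log 2 (r q - 1), Nat.log 2 (q / r q - 1), Nat.log 2 (ρ q - 1),
      Nat.log 2 (v q - 1))) _ _ ?_ ?_
    · intro q hq
      obtain ⟨_, ⟨c1, _, _, _⟩, d1, d2, _⟩ := hD q hq
      exact mem_product.2 ⟨BdrK_J (hle q hq _ c1), mem_product.2 ⟨BdrK_J (hle q hq _ (hsq q hq)),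
        mem_product.2 ⟨BdrK_J (hle q hq _ (d1.trans c1)), BdrK_J (hle q hq _ (d2.trans (hsq q hq)))⟩⟩⟩
    · intro k
      rcases (F.filter fun q => (Nat.log 2 (r q - 1), Nat.log 2 (q / r q - 1), Nat.log 2 (ρ q - 1),
        Nat.log 2 (v q - 1)) = k).eq_empty_or_nonempty with h0 | ⟨q0, hq0⟩
      · rw [h0, sum_empty]
        exact hB0
      · set F' := F.filter fun q => (Nat.log 2 (r q - 1), Nat.log 2 (q / r q - 1), Nat.log 2 (ρ q - 1),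
          Nat.log 2 (v q - 1)) = k with hF'
        have hk : ∀ q ∈ F', q ∈ F ∧ 2 ^ k.1 = 2 ^ Nat.log 2 (r q - 1) ∧
            2 ^ k.2.1 = 2 ^ Nat.log 2 (q / r q - 1) ∧ 2 ^ k.2.2.1 = 2 ^ Nat.log 2 (ρ q - 1) ∧
            2 ^ k.2.2.2 = 2 ^ Nat.log 2 (v q - 1) := by
          intro q hq
          obtain ⟨h1, h2⟩ := mem_filter.1 hq
          rw [← h2]
          exact ⟨h1, rfl, rfl, rfl, rfl⟩
        obtain ⟨R, hR⟩ : ∃ R : ℕ, R = 2 ^ k.1 := ⟨_, rfl⟩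
        obtain ⟨S, hS⟩ : ∃ S : ℕ, S = 2 ^ k.2.1 := ⟨_, rfl⟩
        obtain ⟨R0, hR0⟩ : ∃ R0 : ℕ, R0 = 2 ^ k.2.2.1 := ⟨_, rfl⟩
        obtain ⟨V, hV⟩ : ∃ V : ℕ, V = 2 ^ k.2.2.2 := ⟨_, rfl⟩
        rw [← hR, ← hS, ← hR0, ← hV] at hk
        have hb1 : ∀ q ∈ F', (R < r q ∧ r q ≤ 2 * R) ∧ (S < q / r q ∧ q / r q ≤ 2 * S) ∧
            (R0 < ρ q ∧ ρ q ≤ 2 * R0) ∧ (V < v q ∧ v q ≤ 2 * V) := by
          intro q hq
          obtain ⟨k0, k1, k2, k3, k4⟩ := hk q hq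
          rw [k1, k2, k3, k4]
          exact ⟨BdrK_log (hr2 q k0), BdrK_log (hs2 q k0), BdrK_log (hρ2 q k0), BdrK_log (hv2 q k0)⟩
        have hS1 : 1 ≤ S := by
          rw [hS]
          exact Nat.one_le_two_pow
        have hR0R : R0 ≤ R := by
          obtain ⟨k0, k1, k2, k3, k4⟩ := hk q0 hq0
          rw [k1, k3]
          exact BdrK_mono (hD q0 k0).2.2.1 (hr2 q0 k0)
        have hVS : V ≤ S := by
          obtain ⟨k0, k1, k2, k3, k4⟩ := hk q0 hq0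
          rw [k2, k4]
          exact BdrK_mono (hD q0 k0).2.2.2.1 (hs2 q0 k0)
        have hBlk : BlkK cc δ κ ε x M N R S := by
          obtain ⟨k0, _⟩ := hk q0 hq0
          obtain ⟨⟨b1, b2, b3, b4⟩, ⟨c1, c2, c3, c4⟩, _⟩ := hD q0 k0
          obtain ⟨e1, e2, _⟩ := hb1 q0 hq0
          exact BdrK_blk hx3 hNM hN hMN1 hMN2 c1 c2 c3 b4 b3 e1.1 e1.2 hS1 e2.1 e2.2
        have hVv : (V : ℝ) ≤ (v q0 : ℝ) := by
          exact_mod_cast (hb1 q0 hq0).2.2.2.1.le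
        have hV2 : ∀ e : ℝ, x ^ e < (v q0 : ℝ) → x ^ e ≤ 2 * (V : ℝ) := by
          intro e h
          refine h.le.trans ?_
          exact_mod_cast (hb1 q0 hq0).2.2.2.2
        have hCs : CsK cc δ κ l ε x ρ' N R S R0 V (F'.image fun q => (r q, q / r q)) := by
          obtain ⟨k0, k1, k2, k3, k4⟩ := hk q0 hq0
          rcases hCase with h | h
          · left
            obtain ⟨m1, m2, m3⟩ := h q0 k0
            refine ⟨?_, ?_, hVv.trans m3⟩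
            · refine m1.trans ?_
              exact_mod_cast (hb1 q0 hq0).2.2.1.2
            · rcases m2 with h3 | h3
              · left
                exact hV2 _ h3
              · right
                rw [k4, k2, h3]
          · right
            obtain ⟨m1, m2, m3, m4⟩ := h.2 q0 k0
            refine ⟨?_, h.1, hV2 _ m2, hVv.trans m3, ?_⟩
            · rw [k1, k3, m1]
            · intro w hw
              obtain ⟨q, hq, rfl⟩ := mem_image.1 hw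
              have k0' := (hk q hq).1
              obtain ⟨n1, n2, n3, n4⟩ := h.2 q k0'
              refine ⟨?_, n4⟩
              change ρ' (r q) = r q
              rw [hρ' q k0', n1]
        have hPr : SL.Pr A R S z (F'.image fun q => (r q, q / r q)) := by
          intro w hw
          obtain ⟨q, hq, rfl⟩ := mem_image.1 hw
          have k0 := (hk q hq).1
          obtain ⟨⟨b1, b2, b3, b4⟩, ⟨c1, c2, c3, c4⟩, _⟩ := hD q k0
          obtain ⟨e1, e2, _⟩ := hb1 q hq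
          refine ⟨e1.1, e1.2, e2.1, e2.2, ?_, ?_, c4⟩
          · change Squarefree (r q * (q / r q))
            rw [hmul q k0]
            exact b1
          · change Int.gcd (A (r q) (q / r q)) ((r q * (q / r q) : ℕ) : ℤ) = 1
            rw [hA, hmul q k0]
            exact b2
        have hLp : Lp A ρ' ν c K R0 V (F'.image fun q => (r q, q / r q)) := by
          refine ⟨?_, ?_⟩
          · intro w hw
            obtain ⟨q, hq, rfl⟩ := mem_image.1 hw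
            have k0 := (hk q hq).1
            obtain ⟨_, _, d1, d2, d4⟩ := hD q k0
            obtain ⟨_, _, e3, e4⟩ := hb1 q hq
            change (ρ' (r q) ∣ r q ∧ R0 < ρ' (r q) ∧ ρ' (r q) ≤ 2 * R0) ∧
              (ν (r q) (q / r q) ∣ q / r q ∧ V < ν (r q) (q / r q) ∧ ν (r q) (q / r q) ≤ 2 * V) ∧
              c (r q) (q / r q) < K
            rw [hρ' q k0, hν, hc, hmul q k0]
            exact ⟨⟨d1, e3.1, e3.2⟩, ⟨d2, e4.1, e4.2⟩, d4⟩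
          · intro w hw w' hw'
            obtain ⟨q, hq, rfl⟩ := mem_image.1 hw
            obtain ⟨q', hq', rfl⟩ := mem_image.1 hw'
            have k0 := (hk q hq).1
            have k0' := (hk q' hq').1
            change ρ' (r q) = ρ' (r q') → (q / r q) / ν (r q) (q / r q) = (q' / r q') / ν (r q') (q' / r q') →
              c (r q) (q / r q) = c (r q') (q' / r q') →
              ((ρ' (r q) : ℕ) : ℤ) ∣ A (r q) (q / r q) - A (r q') (q' / r q')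
            rw [hρ' q k0, hρ' q' k0', hν, hν, hc, hc, hA, hA, hmul q k0, hmul q' k0']
            exact hlock q k0 q' k0'
        rw [BdrK_img _ r G fun q hq => (hD q (hk q hq).1).2.1.1]
        exact hT1 x T z A ρ' ν c K M N R S R0 V _ f g hxx1 hTau hz1 hzx hBlk hK hK2 hR0R hVS hCs hPr
          hLp hf hg
  rw [hsum]
  refine hmain.trans ?_
  have hJ := BdrK_Jle hx3
  have hlT : Real.log x ≤ T := by
    have h1 := log_le_T hx1.le hTau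
    linarith
  have hJ2 : ((2 * (Nat.log 2 ⌊x⌋₊ + 1) : ℕ) : ℝ) ≤ 6 * T := hJ.trans (by linarith)
  have hJ3 : ((2 * (Nat.log 2 ⌊x⌋₊ + 1) : ℕ) : ℝ) ^ 4 ≤ (6 * T) ^ 4 :=
    pow_le_pow_left₀ (Nat.cast_nonneg _) hJ2 4
  calc ((2 * (Nat.log 2 ⌊x⌋₊ + 1) : ℕ) : ℝ) ^ 4 * Bd C A1 η x T z
      ≤ (6 * T) ^ 4 * Bd C A1 η x T z := mul_le_mul_of_nonneg_right hJ3 hB0
    _ = Bd (1296 * C) (A1 + 4) η x T z := by
        unfold MX.Bd
        rw [pow_add]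
        ring

end Pool.Agent.Lib.SLB
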