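import Pool.Agent.Lib.SLB.SpecK

/-!
MP_00e23e_nt, project SL, phase 2, chapter B, module BfaK: the facts of a block.
-/

set_option autoImplicit false

namespace Pool.Agent.Lib.SLB

open Finset Pool.Agent.Lib.EH3 Pool.Agent.Lib.TB Pool.Agent.Results.MP_00e23e_nt Pool.Agent.Lib.MI
open Pool.Agent.Lib.MX (Bd Mz Bd_nonneg Bd_mono rp_le rn_le log_le_T Tau_x)

/-- the square of R S -/
private theorem BfaK_sq {δ x : ℝ} {R S : ℕ} (hx0 : 0 < x) (b8 : (R : ℝ) * S ≤ x ^ (1 / 2 + δ)) :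
    ((R : ℝ) * S) ^ 2 ≤ x ^ (1 + 2 * δ) := by
  calc ((R : ℝ) * S) ^ 2 ≤ (x ^ (1 / 2 + δ)) ^ 2 := by
        apply pow_le_pow_left₀ (by positivity) b8
    _ = x ^ (1 + 2 * δ) := by
        rw [pow_two, ← Real.rpow_add hx0]; ring_nf

/-- the bound for R S^2 -/
private theorem BfaK_rs {δ κ ε x e N' : ℝ} {M N R S : ℕ} (hx0 : 0 < x)
    (b3 : x ^ (1 - ε) ≤ (M : ℝ) * N) (b7 : N' * x ^ (-ε - κ) ≤ 2 * R)
    (b8 : (R : ℝ) * S ≤ x ^ (1 / 2 + δ)) (hN : (N : ℝ) ≤ N' * x ^ e) :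
    (R : ℝ) * (S : ℝ) ^ 2 ≤ 2 * x ^ (2 * δ + e + κ + 2 * ε) * M := by
  have hM0 : (0 : ℝ) ≤ M := Nat.cast_nonneg _
  have hR0 : (0 : ℝ) ≤ R := Nat.cast_nonneg _
  have he : x ^ e * x ^ (-e - ε - κ) = x ^ (-ε - κ) := by
    rw [← Real.rpow_add hx0]; ring_nf
  have h1 : x ^ (1 - e - 2 * ε - κ) ≤ 2 * ((R : ℝ) * M) := by
    calc x ^ (1 - e - 2 * ε - κ) = x ^ (1 - ε) * x ^ (-e - ε - κ) := by
          rw [← Real.rpow_add hx0]; ring_nf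
      _ ≤ ((M : ℝ) * N) * x ^ (-e - ε - κ) :=
          mul_le_mul_of_nonneg_right b3 (Real.rpow_nonneg hx0.le _)
      _ ≤ ((M : ℝ) * (N' * x ^ e)) * x ^ (-e - ε - κ) :=
          mul_le_mul_of_nonneg_right (mul_le_mul_of_nonneg_left hN hM0) (Real.rpow_nonneg hx0.le _)
      _ = M * (N' * (x ^ e * x ^ (-e - ε - κ))) := by ring
      _ = M * (N' * x ^ (-ε - κ)) := by rw [he]
      _ ≤ M * (2 * R) := mul_le_mul_of_nonneg_left b7 hM0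
      _ = 2 * ((R : ℝ) * M) := by ring
  have h2 : ((R : ℝ) * S) ^ 2 ≤ x ^ (1 + 2 * δ) := BfaK_sq hx0 b8
  have h3 : (0 : ℝ) < x ^ (1 - e - 2 * ε - κ) := Real.rpow_pos_of_pos hx0 _
  have h4 : x ^ (1 - e - 2 * ε - κ) * x ^ (2 * δ + e + κ + 2 * ε) = x ^ (1 + 2 * δ) := by
    rw [← Real.rpow_add hx0]; ring_nf
  have h5 : x ^ (1 - e - 2 * ε - κ) * ((R : ℝ) * (S : ℝ) ^ 2) ≤
      x ^ (1 - e - 2 * ε - κ) * (2 * x ^ (2 * δ + e + κ + 2 * ε) * M) := by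
    calc x ^ (1 - e - 2 * ε - κ) * ((R : ℝ) * (S : ℝ) ^ 2) ≤
          (2 * ((R : ℝ) * M)) * ((R : ℝ) * (S : ℝ) ^ 2) :=
            mul_le_mul_of_nonneg_right h1 (by positivity)
      _ = 2 * M * ((R : ℝ) * S) ^ 2 := by ring
      _ ≤ 2 * M * x ^ (1 + 2 * δ) := mul_le_mul_of_nonneg_left h2 (by positivity)
      _ = x ^ (1 - e - 2 * ε - κ) * (2 * x ^ (2 * δ + e + κ + 2 * ε) * M) := by rw [← h4]; ring
  exact le_of_mul_le_mul_left h5 h3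

theorem tBfaK : BfaKStmt := by
  rintro c δ κ l ε ⟨⟨hc, hδ, hκ, hε, hε1⟩, hpar, -⟩
  have h64 : ((64 : ℝ) ^ (8 : ℕ)) ^ ((1 : ℝ) / 8) = 64 := by
    rw [← Real.rpow_natCast, ← Real.rpow_mul (by norm_num)]
    norm_num
  refine ⟨(64 : ℝ) ^ (8 : ℕ), by norm_num, h64.ge, ?_⟩
  intro x M N R S hx0x hb
  obtain ⟨b1, b2, b3, b4, b5, b6, b7, b8, b9⟩ := hb
  have hx1 : 1 ≤ x := le_trans (by norm_num) hx0x
  have hx0 : 0 < x := by linarith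
  have hx64 : 64 ≤ x ^ ((1 : ℝ) / 8) := by
    rw [← h64]
    exact Real.rpow_le_rpow (by norm_num) hx0x (by norm_num)
  have hN0 : (0 : ℝ) ≤ N := Nat.cast_nonneg _
  have hM0 : (0 : ℝ) ≤ M := Nat.cast_nonneg _
  have hR0 : (0 : ℝ) ≤ R := Nat.cast_nonneg _
  have hS1 : (1 : ℝ) ≤ S := by exact_mod_cast b5
  have hNM : (N : ℝ) ≤ M := by exact_mod_cast b1
  have f1 : (64 : ℝ) ≤ N :=
    hx64.trans ((Real.rpow_le_rpow_of_exponent_le hx1 (by linarith)).trans b2)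
  have f2 : (N : ℝ) ≤ x ^ ((1 : ℝ) / 2) := by
    rw [← Real.sqrt_eq_rpow]
    apply Real.le_sqrt_of_sq_le
    nlinarith
  have hm1 : Nm c x N ≤ N := min_le_left _ _
  have hm2 : Nm c x N ≤ x ^ (1 / 2 - 2 * c) := min_le_right _ _
  have hm3 : x ^ ((1 : ℝ) / 3 - ε) ≤ Nm c x N :=
    le_min b2 (Real.rpow_le_rpow_of_exponent_le hx1 (by linarith))
  have f3 : x ^ ((1 : ℝ) / 3 - 2 * ε - κ) ≤ 2 * (R : ℝ) := by
    calc x ^ ((1 : ℝ) / 3 - 2 * ε - κ) = x ^ ((1 : ℝ) / 3 - ε) * x ^ (-ε - κ) := by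
          rw [← Real.rpow_add hx0]; ring_nf
      _ ≤ Nm c x N * x ^ (-ε - κ) :=
          mul_le_mul_of_nonneg_right hm3 (Real.rpow_nonneg hx0.le _)
      _ ≤ 2 * R := b7
  have f4 : (R : ℝ) ≤ N * x ^ (-ε) :=
    b6.trans (mul_le_mul_of_nonneg_right hm1 (Real.rpow_nonneg hx0.le _))
  have f5 : (R : ℝ) ≤ x ^ (1 / 2 - 2 * c - ε) := by
    calc (R : ℝ) ≤ Nm c x N * x ^ (-ε) := b6
      _ ≤ x ^ (1 / 2 - 2 * c) * x ^ (-ε) :=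
        mul_le_mul_of_nonneg_right hm2 (Real.rpow_nonneg hx0.le _)
      _ = x ^ (1 / 2 - 2 * c - ε) := by rw [← Real.rpow_add hx0]; ring_nf
  have f6 : 1 ≤ R := by
    have h1 : (0 : ℝ) < x ^ ((1 : ℝ) / 3 - 2 * ε - κ) := Real.rpow_pos_of_pos hx0 _
    have h2 : (0 : ℝ) < R := by linarith
    exact_mod_cast h2
  have f7 : R ≤ N := by
    have h1 : x ^ (-ε) ≤ 1 := Real.rpow_le_one_of_one_le_of_nonpos hx1 (by linarith)
    have h2 : (R : ℝ) ≤ N := f4.trans (mul_le_of_le_one_right hN0 h1)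
    exact_mod_cast h2
  have f8 : x ^ (2 * c + ε / 2) ≤ 4 * (S : ℝ) := by
    have h1 : x ^ (1 / 2 - 2 * c - ε) * x ^ (2 * c + ε / 2) = x ^ (1 / 2 - ε / 2) := by
      rw [← Real.rpow_add hx0]; ring_nf
    have h2 : (0 : ℝ) < x ^ (1 / 2 - 2 * c - ε) := Real.rpow_pos_of_pos hx0 _
    have h3 : x ^ (1 / 2 - 2 * c - ε) * x ^ (2 * c + ε / 2) ≤
        x ^ (1 / 2 - 2 * c - ε) * (4 * (S : ℝ)) := by
      rw [h1]
      calc x ^ (1 / 2 - ε / 2) ≤ 4 * ((R : ℝ) * S) := b9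
        _ = (R : ℝ) * (4 * S) := by ring
        _ ≤ x ^ (1 / 2 - 2 * c - ε) * (4 * (S : ℝ)) :=
          mul_le_mul_of_nonneg_right f5 (by positivity)
    exact le_of_mul_le_mul_left h3 h2
  have f9 : (R : ℝ) * (S : ℝ) ^ 2 ≤ 2 * x ^ (2 * δ + 2 * c + κ + 2 * ε) * M := by
    refine BfaK_rs hx0 b3 b7 b8 ?_
    have h1 : 1 ≤ x ^ (2 * c) := Real.one_le_rpow hx1 (by linarith)
    rcases min_choice (N : ℝ) (x ^ (1 / 2 - 2 * c)) with h2 | h2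
    · have h3 : Nm c x N = N := h2
      rw [h3]
      exact le_mul_of_one_le_right hN0 h1
    · have h3 : Nm c x N = x ^ (1 / 2 - 2 * c) := h2
      rw [h3, ← Real.rpow_add hx0]
      have h4 : (1 : ℝ) / 2 - 2 * c + 2 * c = 1 / 2 := by ring
      rw [h4]
      exact f2
  have f10 : (N : ℝ) ≤ x ^ (1 / 2 - 2 * c) →
      (R : ℝ) * (S : ℝ) ^ 2 ≤ 2 * x ^ (2 * δ + κ + 2 * ε) * M := by
    intro h
    have h3 : Nm c x N = N := min_eq_left h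
    have h4 := BfaK_rs (e := 0) hx0 b3 b7 b8 (by rw [h3, Real.rpow_zero, mul_one])
    rw [add_zero] at h4
    exact h4
  have f11 : (R : ℝ) * (S : ℝ) ^ 2 * R ≤ x ^ (2 * δ + ε) * (M * N) := by
    calc (R : ℝ) * (S : ℝ) ^ 2 * R = ((R : ℝ) * S) ^ 2 := by ring
      _ ≤ x ^ (1 + 2 * δ) := BfaK_sq hx0 b8
      _ = x ^ (2 * δ + ε) * x ^ (1 - ε) := by rw [← Real.rpow_add hx0]; ring_nf
      _ ≤ x ^ (2 * δ + ε) * (M * N) :=
        mul_le_mul_of_nonneg_left b3 (Real.rpow_nonneg hx0.le _)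
  have f12 : (R : ℝ) ≤ x ^ (-(2 * c) - ε / 2) * M := by
    have h1 : x ^ (1 / 2 - ε / 2) ≤ (M : ℝ) := by
      have h2 : (x ^ (1 / 2 - ε / 2)) ^ 2 ≤ (M : ℝ) ^ 2 := by
        calc (x ^ (1 / 2 - ε / 2)) ^ 2 = x ^ (1 - ε) := by
              rw [pow_two, ← Real.rpow_add hx0]; ring_nf
          _ ≤ (M : ℝ) * N := b3
          _ ≤ (M : ℝ) ^ 2 := by nlinarith
      exact le_of_sq_le_sq h2 hM0
    calc (R : ℝ) ≤ x ^ (1 / 2 - 2 * c - ε) := f5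
      _ = x ^ (-(2 * c) - ε / 2) * x ^ (1 / 2 - ε / 2) := by
        rw [← Real.rpow_add hx0]; ring_nf
      _ ≤ x ^ (-(2 * c) - ε / 2) * M := mul_le_mul_of_nonneg_left h1 (Real.rpow_nonneg hx0.le _)
  exact ⟨⟨f1, f2, f6, f7⟩, f3, f4, f5, f8, f9, f10, f11, f12⟩

end Pool.Agent.Lib.SLB
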