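import Pool.Agent.Lib.SLB.SpecK

/-!
MP_00e23e_nt, project SL, chapter B with colours: the bound of the sums TG in case I.
-/

set_option autoImplicit false

namespace Pool.Agent.Lib.SLB

open Finset Pool.Agent.Lib.EH3 Pool.Agent.Lib.TB Pool.Agent.Results.MP_00e23e_nt Pool.Agent.Lib.MI
open Pool.Agent.Lib.MX (Bd Mz Bd_nonneg Bd_mono rp_le rn_le log_le_T Tau_x)

theorem tBiaK (h1 : T0KStmt) : BiaKStmt := by
  obtain ⟨C, hC, A, hT0⟩ := h1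
  refine ⟨C, A, hC, ?_⟩
  intro x T a ρ v col K g R S N R0 V Hm P hT hK hg hR hS hN hR0 hV hR0R hVS hRN hsz H' Hs γ ω b
    hH1 hHm hHs hγ hω hsup hLt
  have hsz' : (2 * (R : ℝ) * (S : ℝ) ^ 2 * N * H') ^ 12 ≤ x ^ (30 : ℝ) := by
    refine le_trans ?_ hsz
    have h3 : (H' : ℝ) ≤ Hm := by exact_mod_cast hHm
    gcongr
  exact hT0 (x ^ (30 : ℝ)) T a b ρ v col K g R S N H' R0 V Hs γ ω hK
    ⟨hT, ⟨hg, hR, hS, hN, hH1, hR0, hV, hR0R, hVS, hRN⟩, hsz', hHs, hγ, hω,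
      fun h r s1 s2 hne h2g => (hsup h r s1 s2 hne).2.2 h2g⟩ hLt

end Pool.Agent.Lib.SLB
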