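import Pool.Agent.Lib.SLB.SpecB
import Pool.Agent.Lib.SLB.StmW

/-!
MP_00e23e_nt, project SL (THEOREM SL, single lock), chapter W, module Bic (helper91): BiiStmt from TwStmt, 84 δ + 48 κ + 400 ε ≤ 1.
The divisor of s2/v has the size Y = max (R^3 S V^3 x^(4 hh)/N^4, R S V x^(4 hh)/N^2) (L = L' = 1 if Y ≤ 1): the second and the third
term of EW are then at most x^(-2 hh) up to a constant, and the first one is ≤ x^(-1/3 + 20 δ + 12 κ + 51 ε).
-/

namespace Pool.Agent.Lib.SLB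

open Finset Pool.Agent.Lib.EH3 Pool.Agent.Lib.TB Pool.Agent.Results.MP_00e23e_nt Pool.Agent.Lib.MI

theorem Bic_log {A c x α : ℝ} (hA : 0 < A) (hc : 0 < c) (hx : 0 < x)
    (h : Real.log A ≤ Real.log c + α * Real.log x) : A ≤ c * x ^ α := by
  have h1 : 0 < x ^ α := Real.rpow_pos_of_pos hx α
  rw [← Real.log_le_log_iff hA (mul_pos hc h1), Real.log_mul hc.ne' h1.ne', Real.log_rpow hx]
  exact h

theorem Bic_log' {A B : ℝ} (hA : 0 < A) (hAB : A ≤ B) : Real.log A ≤ Real.log B :=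
  Real.log_le_log hA hAB

theorem Bic_le {A B : ℝ} (hA : 0 < A) (hB : 0 < B) (h : Real.log A ≤ Real.log B) : A ≤ B :=
  (Real.log_le_log_iff hA hB).1 h

/-- the logarithms of the five terms -/
theorem Bic_EW (x α : ℝ) (hx : 0 < x) (R S N V L L' : ℕ) (hR : 1 ≤ R) (hS : 1 ≤ S) (hN : 1 ≤ N) (hV : 1 ≤ V) (hL : 1 ≤ L)
    (hL' : 1 ≤ L')
    (h1 : Real.log S + Real.log L' - Real.log V - Real.log R ≤ 3 * Real.log 2 + α * Real.log x)
    (h2 : 3 / 2 * Real.log R + 1 / 2 * Real.log S + 3 / 2 * Real.log V - 1 / 2 * Real.log L - 2 * Real.log N ≤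
      3 * Real.log 2 + α * Real.log x)
    (h3 : 1 / 2 * (Real.log R + Real.log S + Real.log V - Real.log L) - Real.log N ≤ 3 * Real.log 2 + α * Real.log x)
    (h4 : 1 / 2 * Real.log R + Real.log V - Real.log N ≤ 3 * Real.log 2 + α * Real.log x)
    (h5 : 1 / 2 * (Real.log L' - Real.log R) ≤ 3 * Real.log 2 + α * Real.log x) :
    EW R S N V L L' ≤ 40 * x ^ α := by
  have pR : (0 : ℝ) < R := by exact_mod_cast hR
  have pS : (0 : ℝ) < S := by exact_mod_cast hS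
  have pN : (0 : ℝ) < N := by exact_mod_cast hN
  have pV : (0 : ℝ) < V := by exact_mod_cast hV
  have pL : (0 : ℝ) < L := by exact_mod_cast hL
  have pL' : (0 : ℝ) < L' := by exact_mod_cast hL'
  have l8 : Real.log 8 = 3 * Real.log 2 := by
    rw [show (8 : ℝ) = 2 ^ 3 by norm_num, Real.log_pow]
    norm_num
  have sR : 0 < Real.sqrt R := Real.sqrt_pos.2 pR
  have sS : 0 < Real.sqrt S := Real.sqrt_pos.2 pS
  have sV : 0 < Real.sqrt V := Real.sqrt_pos.2 pV
  have sL : 0 < Real.sqrt L := Real.sqrt_pos.2 pL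
  have t1 : (S : ℝ) * L' / ((V : ℝ) * R) ≤ 8 * x ^ α := by
    refine Bic_log (by positivity) (by norm_num) hx ?_
    rw [l8, Real.log_div (by positivity) (by positivity), Real.log_mul pS.ne' pL'.ne', Real.log_mul pV.ne' pR.ne']
    linarith
  have t2 : (R : ℝ) * Real.sqrt R * Real.sqrt S * ((V : ℝ) * Real.sqrt V) / (Real.sqrt L * (N : ℝ) ^ 2) ≤ 8 * x ^ α := by
    refine Bic_log (by positivity) (by norm_num) hx ?_
    rw [l8, Real.log_div (by positivity) (by positivity), Real.log_mul (by positivity) (by positivity),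
      Real.log_mul (by positivity) (by positivity), Real.log_mul (by positivity) (by positivity),
      Real.log_mul (by positivity) (by positivity), Real.log_mul (by positivity) (by positivity),
      Real.log_sqrt pR.le, Real.log_sqrt pS.le, Real.log_sqrt pV.le, Real.log_sqrt pL.le, Real.log_pow]
    push_cast
    linarith
  have t3 : Real.sqrt ((R : ℝ) * S * V / L) / N ≤ 8 * x ^ α := by
    refine Bic_log (by positivity) (by norm_num) hx ?_
    rw [l8, Real.log_div (by positivity) (by positivity), Real.log_sqrt (by positivity),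
      Real.log_div (by positivity) (by positivity), Real.log_mul (by positivity) (by positivity),
      Real.log_mul (by positivity) (by positivity)]
    linarith
  have t4 : Real.sqrt R * V / N ≤ 8 * x ^ α := by
    refine Bic_log (by positivity) (by norm_num) hx ?_
    rw [l8, Real.log_div (by positivity) (by positivity), Real.log_mul (by positivity) (by positivity), Real.log_sqrt pR.le]
    linarith
  have t5 : Real.sqrt ((L' : ℝ) / R) ≤ 8 * x ^ α := by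
    refine Bic_log (by positivity) (by norm_num) hx ?_
    rw [l8, Real.log_sqrt (by positivity), Real.log_div (by positivity) (by positivity)]
    linarith
  rw [EW]
  linarith

/-- linear arithmetic for the logarithms: l = log x, w = log 2, n, r, s, v the logarithms of N, R, S, V, y the one of Y -/
theorem Bic_lin (δ κ ε l w n r s v : ℝ) (hw : 0 < w) (hl : 100 * w ≤ l) (e1 : 0 ≤ δ * l) (e2 : 0 < κ * l) (e3 : 0 < ε * l)
    (e4 : (84 * δ + 48 * κ + 400 * ε) * l ≤ 1 * l) (H1 : (1 / 3 - ε) * l ≤ n) (H2 : r ≤ n + -ε * l)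
    (H3 : n + (-ε - κ) * l ≤ w + r) (H4 : r + s ≤ (1 / 2 + δ) * l)
    (H6 : (δ + κ / 2 + 7 / 2 * ε) * l ≤ w + v) (H7 : v ≤ (δ + κ / 2 + 7 / 2 * ε + κ) * l) :
    2 * w + s ≤ r ∧ s - v - r ≤ 3 * w + -(8 * δ + 4 * κ + 20 * ε) * l ∧
    1 / 2 * r + v - n ≤ 3 * w + -(8 * δ + 4 * κ + 20 * ε) * l ∧
    1 / 2 * (0 - r) ≤ 3 * w + -(8 * δ + 4 * κ + 20 * ε) * l := by
  refine ⟨by linarith, by linarith, by linarith, by linarith⟩

theorem Bic_liy (δ κ ε l w n r s v y : ℝ) (hw : 0 < w) (hl : 100 * w ≤ l) (e1 : 0 ≤ δ * l) (e2 : 0 < κ * l) (e3 : 0 < ε * l)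
    (e4 : (84 * δ + 48 * κ + 400 * ε) * l ≤ 1 * l) (H1 : (1 / 3 - ε) * l ≤ n) (H2 : r ≤ n + -ε * l)
    (H3 : n + (-ε - κ) * l ≤ w + r) (H4 : r + s ≤ (1 / 2 + δ) * l)
    (H7 : v ≤ (δ + κ / 2 + 7 / 2 * ε + κ) * l)
    (hy : y = 3 * r + s + 3 * v + (16 * δ + 8 * κ + 40 * ε) * l - 4 * n ∨
      y = r + s + v + (16 * δ + 8 * κ + 40 * ε) * l - 2 * n) :
    y + κ * l ≤ r ∧ s + (y + κ * l) - v - r ≤ 3 * w + -(8 * δ + 4 * κ + 20 * ε) * l ∧
    1 / 2 * (y + κ * l - r) ≤ 3 * w + -(8 * δ + 4 * κ + 20 * ε) * l ∧ w + v + (y + κ * l) < s := by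
  rcases hy with hy | hy
  · refine ⟨by linarith, by linarith, by linarith, by linarith⟩
  · refine ⟨by linarith, by linarith, by linarith, by linarith⟩

/-- the numbers -/
theorem Bic_num (hB : BgrStmt) (δ κ ε : ℝ) (hδ : 0 ≤ δ) (hκ : 0 < κ) (hε : 0 < ε)
    (hs : 84 * δ + 48 * κ + 400 * ε ≤ 1) (x : ℝ) (M N R S V : ℕ) (hx : (2 : ℝ) ^ 100 ≤ x) (hb : Blk δ κ ε x M N R S)
    (hR : 1 ≤ R) (hV0 : 1 ≤ V) (hV1 : x ^ vv δ κ ε ≤ 2 * (V : ℝ)) (hV2 : (V : ℝ) ≤ x ^ (vv δ κ ε + κ)) :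
    4 * S ≤ R ∧ R ≤ N ∧ 1 ≤ N ∧ 1 ≤ S ∧ ∃ L L' : ℕ, 1 ≤ L ∧ L' ≤ R ∧
      Real.sqrt (EW R S N V L L') ≤ 7 * x ^ (-hh δ κ ε) ∧
      ∀ t : ℕ, 1 ≤ t → (S : ℝ) ≤ t * (2 * V) → (∀ p : ℕ, p.Prime → p ∣ t → (p : ℝ) ≤ x ^ κ) →
        ∃ F, F ∣ t ∧ L ≤ F ∧ F ≤ L' := by
  obtain ⟨-, hN1, -, -, hS, hR1, hR2, hRS, -⟩ := hb
  have hx1 : (1 : ℝ) < x := lt_of_lt_of_le (by norm_num) hx
  have hx0 : (0 : ℝ) < x := zero_lt_one.trans hx1
  have pR : (0 : ℝ) < R := by exact_mod_cast hR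
  have pS : (0 : ℝ) < S := by exact_mod_cast hS
  have pV : (0 : ℝ) < V := by exact_mod_cast hV0
  have pN : (0 : ℝ) < N := lt_of_lt_of_le (Real.rpow_pos_of_pos hx0 _) hN1
  have hN : 1 ≤ N := by exact_mod_cast pN
  have l2 : 0 < Real.log 2 := Real.log_pos (by norm_num)
  have hℓ : 100 * Real.log 2 ≤ Real.log x := by
    have h := Bic_log' (by positivity) hx
    rw [Real.log_pow] at h
    exact_mod_cast h
  have l4 : Real.log 4 = 2 * Real.log 2 := by
    rw [show (4 : ℝ) = 2 ^ 2 by norm_num, Real.log_pow]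
    norm_num
  have hℓ0 : 0 < Real.log x := by linarith
  have e1 : 0 ≤ δ * Real.log x := mul_nonneg hδ hℓ0.le
  have e2 : 0 < κ * Real.log x := mul_pos hκ hℓ0
  have e3 : 0 < ε * Real.log x := mul_pos hε hℓ0
  have e4 : (84 * δ + 48 * κ + 400 * ε) * Real.log x ≤ 1 * Real.log x := mul_le_mul_of_nonneg_right hs hℓ0.le
  have H1 : (1 / 3 - ε) * Real.log x ≤ Real.log N := by
    have h := Bic_log' (Real.rpow_pos_of_pos hx0 _) hN1
    rwa [Real.log_rpow hx0] at h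
  have H2 : Real.log R ≤ Real.log N + -ε * Real.log x := by
    have h := Bic_log' pR hR1
    rwa [Real.log_mul pN.ne' (Real.rpow_pos_of_pos hx0 _).ne', Real.log_rpow hx0] at h
  have H3 : Real.log N + (-ε - κ) * Real.log x ≤ Real.log 2 + Real.log R := by
    have h := Bic_log' (mul_pos pN (Real.rpow_pos_of_pos hx0 _)) hR2
    rwa [Real.log_mul pN.ne' (Real.rpow_pos_of_pos hx0 _).ne', Real.log_rpow hx0, Real.log_mul (by norm_num) pR.ne'] at h
  have H4 : Real.log R + Real.log S ≤ (1 / 2 + δ) * Real.log x := by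
    have h := Bic_log' (mul_pos pR pS) hRS
    rwa [Real.log_mul pR.ne' pS.ne', Real.log_rpow hx0] at h
  have H6 : (δ + κ / 2 + 7 / 2 * ε) * Real.log x ≤ Real.log 2 + Real.log V := by
    have h := Bic_log' (Real.rpow_pos_of_pos hx0 _) hV1
    rwa [Real.log_rpow hx0, Real.log_mul (by norm_num) pV.ne', vv] at h
  have H7 : Real.log V ≤ (δ + κ / 2 + 7 / 2 * ε + κ) * Real.log x := by
    have h := Bic_log' pV hV2
    rwa [Real.log_rpow hx0, vv] at h
  obtain ⟨B1, B2, B3, B4⟩ := Bic_lin δ κ ε _ _ _ _ _ _ l2 hℓ e1 e2 e3 e4 H1 H2 H3 H4 H6 H7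
  have hRN : R ≤ N := by
    have h : (R : ℝ) ≤ N := Bic_le pR pN (by linarith)
    exact_mod_cast h
  have h4S : 4 * S ≤ R := by
    have h : 4 * (S : ℝ) ≤ R := by
      refine Bic_le (by positivity) pR ?_
      rw [Real.log_mul (by norm_num) pS.ne', l4]
      exact B1
    exact_mod_cast h
  refine ⟨h4S, hRN, hN, hS, ?_⟩
  -- from EW to its square root
  have hsq : ∀ L L' : ℕ, EW R S N V L L' ≤ 40 * x ^ (-(8 * δ + 4 * κ + 20 * ε)) →
      Real.sqrt (EW R S N V L L') ≤ 7 * x ^ (-hh δ κ ε) := by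
    intro L L' h
    have h1 : 0 < x ^ (-hh δ κ ε) := Real.rpow_pos_of_pos hx0 _
    rw [Real.sqrt_le_left (by positivity)]
    refine h.trans ?_
    have h2 : x ^ (-(8 * δ + 4 * κ + 20 * ε)) = (x ^ (-hh δ κ ε)) ^ 2 := by
      rw [← Real.rpow_natCast, ← Real.rpow_mul hx0.le, hh]
      congr 1
      push_cast
      ring
    rw [h2, mul_pow]
    have h3 : 0 ≤ (x ^ (-hh δ κ ε)) ^ 2 := by positivity
    linarith
  -- the size of the divisor
  have hxp : 0 < x ^ (16 * δ + 8 * κ + 40 * ε) := Real.rpow_pos_of_pos hx0 _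
  obtain ⟨Y, hYpos, hY2, hY3, hYup⟩ : ∃ Y : ℝ, 0 < Y ∧
      3 * Real.log R + Real.log S + 3 * Real.log V + (16 * δ + 8 * κ + 40 * ε) * Real.log x - 4 * Real.log N ≤ Real.log Y ∧
      Real.log R + Real.log S + Real.log V + (16 * δ + 8 * κ + 40 * ε) * Real.log x - 2 * Real.log N ≤ Real.log Y ∧
      (Real.log Y =
        3 * Real.log R + Real.log S + 3 * Real.log V + (16 * δ + 8 * κ + 40 * ε) * Real.log x - 4 * Real.log N ∨
      Real.log Y =
        Real.log R + Real.log S + Real.log V + (16 * δ + 8 * κ + 40 * ε) * Real.log x - 2 * Real.log N) := by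
    refine ⟨Real.exp (max
      (3 * Real.log R + Real.log S + 3 * Real.log V + (16 * δ + 8 * κ + 40 * ε) * Real.log x - 4 * Real.log N)
      (Real.log R + Real.log S + Real.log V + (16 * δ + 8 * κ + 40 * ε) * Real.log x - 2 * Real.log N)),
      Real.exp_pos _, ?_⟩
    rw [Real.log_exp]
    exact ⟨le_max_left _ _, le_max_right _ _, max_choice _ _⟩
  obtain ⟨A1, A2, A3, A4⟩ := Bic_liy δ κ ε _ _ _ _ _ _ _ l2 hℓ e1 e2 e3 e4 H1 H2 H3 H4 H7 hYup
  rcases le_or_gt Y 1 with hY1 | hY1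
  · -- no divisor
    have h0 : Real.log Y ≤ 0 := Real.log_nonpos hYpos.le hY1
    refine ⟨1, 1, le_rfl, hR, hsq 1 1 ?_, fun t _ _ _ => ⟨1, one_dvd _, le_rfl, le_rfl⟩⟩
    refine Bic_EW x _ hx0 R S N V 1 1 hR hS hN hV0 le_rfl le_rfl ?_ ?_ ?_ B3 ?_
    · rw [Nat.cast_one, Real.log_one]
      linarith
    · rw [Nat.cast_one, Real.log_one]
      linarith
    · rw [Nat.cast_one, Real.log_one]
      linarith
    · rw [Nat.cast_one, Real.log_one]
      exact B4
  · have hxκ : 1 < x ^ κ := Real.one_lt_rpow hx1 hκ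
    have hZpos : 0 < Y * x ^ κ := by positivity
    have hZ1 : 1 < Y * x ^ κ := by nlinarith
    have hlZ : Real.log (Y * x ^ κ) = Real.log Y + κ * Real.log x := by
      rw [Real.log_mul hYpos.ne' (by positivity), Real.log_rpow hx0]
    obtain ⟨L, hL⟩ : ∃ L : ℕ, L = ⌊Y⌋₊ := ⟨_, rfl⟩
    obtain ⟨L', hL'⟩ : ∃ L' : ℕ, L' = ⌊Y * x ^ κ⌋₊ := ⟨_, rfl⟩
    have hL1 : 1 ≤ L := by
      rw [hL]
      exact Nat.floor_pos.2 hY1.le
    have hL'1 : 1 ≤ L' := by
      rw [hL']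
      exact Nat.floor_pos.2 hZ1.le
    have pL : (0 : ℝ) < L := by exact_mod_cast hL1
    have pL' : (0 : ℝ) < L' := by exact_mod_cast hL'1
    have hLle : (L : ℝ) ≤ Y := by
      rw [hL]
      exact Nat.floor_le hYpos.le
    have hLge : Y ≤ 2 * (L : ℝ) := by
      have h := Nat.lt_floor_add_one Y
      rw [← hL] at h
      have h' : (1 : ℝ) ≤ L := by exact_mod_cast hL1
      linarith
    have hL'le : (L' : ℝ) ≤ Y * x ^ κ := by
      rw [hL']
      exact Nat.floor_le hZpos.le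
    have lL : Real.log Y ≤ Real.log 2 + Real.log L := by
      have h := Bic_log' hYpos hLge
      rwa [Real.log_mul (by norm_num) pL.ne'] at h
    have lL' : Real.log L' ≤ Real.log Y + κ * Real.log x := by
      have h := Bic_log' pL' hL'le
      rwa [hlZ] at h
    refine ⟨L, L', hL1, ?_, hsq L L' ?_, ?_⟩
    · have h : (L' : ℝ) ≤ R := Bic_le pL' pR (by linarith)
      exact_mod_cast h
    · refine Bic_EW x _ hx0 R S N V L L' hR hS hN hV0 hL1 hL'1 ?_ ?_ ?_ B3 ?_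
      · linarith
      · linarith
      · linarith
      · linarith
    · intro t ht hSt hp
      have pt : (0 : ℝ) < t := by exact_mod_cast ht
      have h1 : Y * x ^ κ < t := by
        rw [← Real.log_lt_log_iff hZpos pt, hlZ]
        have h := Bic_log' pS hSt
        rw [Real.log_mul pt.ne' (by positivity), Real.log_mul (by norm_num) pV.ne'] at h
        linarith
      obtain ⟨F, -, hF1, hF2, hF3⟩ := hB t 1 (Y * x ^ κ) (x ^ κ) ht (one_dvd _) (by rw [Nat.cast_one]; exact hZ1.le) h1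
        (fun p hp1 hp2 => hp p hp1 (by rwa [Nat.div_one] at hp2))
      refine ⟨F, hF1, ?_, ?_⟩
      · have h2 : Y < F := lt_of_mul_lt_mul_right hF3 (by positivity)
        have h3 : (L : ℝ) ≤ F := hLle.trans h2.le
        exact_mod_cast h3
      · rw [hL']
        exact Nat.le_floor hF2

/-- Module Bic: case II from TwStmt -/
theorem tBic (hTw : TwStmt) (hB : BgrStmt) : ∀ δ κ ε : ℝ, 0 ≤ δ → 0 < κ → 0 < ε → ε < 1 / 100 →
    84 * δ + 48 * κ + 400 * ε ≤ 1 → BiiStmt δ κ ε := by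
  classical
  obtain ⟨C, hC, A, hTw⟩ := hTw
  intro δ κ ε hδ hκ hε _ hs
  refine ⟨C, 7, 2 ^ 100, A, hC, by norm_num, ?_⟩
  intro x T a v g M N R S V Hm P hx hT hb hR hV hVS hV1 hV2 hg _ hsize hP
  obtain ⟨h4S, hRN, hN, hS, L, L', hL, hL'R, hEW, hF⟩ := Bic_num hB δ κ ε hδ hκ hε hs x M N R S V hx hb hR hV hV1 hV2
  intro H' Hs γ ω b1 b2 hH1 hH2 hhs hγ hω hsup hLt
  obtain ⟨f, hf⟩ : ∃ f : ℕ → ℕ → ℕ, ∀ r t : ℕ, (∃ F, F ∣ t ∧ L ≤ F ∧ F ≤ L') → f r t ∣ t ∧ L ≤ f r t ∧ f r t ≤ L' := by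
    refine ⟨fun _ t => if h : ∃ F, F ∣ t ∧ L ≤ F ∧ F ≤ L' then h.choose else 1, fun r t h => ?_⟩
    simp only [dif_pos h]
    exact h.choose_spec
  have hT0 : (0 : ℝ) ≤ T := by
    have := hT.1
    linarith
  have key := hTw (x ^ (30 : ℝ)) T a b1 b2 v f g R S N H' V L L' Hs γ ω ?_ hLt hL hL'R h4S ?_
  · refine key.trans ?_
    refine mul_le_mul_of_nonneg_left ?_ (by positivity)
    have h1 : ((H' : ℝ) / g) ^ 2 * Real.sqrt (EW R S N V L L') ≤ ((H' : ℝ) / g) ^ 2 * (7 * x ^ (-hh δ κ ε)) :=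
      mul_le_mul_of_nonneg_left hEW (by positivity)
    linarith
  · refine ⟨hT, ⟨hg, hR, hS, hN, hH1, hR, hV, le_rfl, hVS, hRN⟩, ?_, hhs, hγ, hω, fun h r s1 s2 h0 => (hsup h r s1 s2 h0).2.2⟩
    refine le_trans ?_ hsize
    refine pow_le_pow_left₀ (by positivity) ?_ 12
    have h1 : (H' : ℝ) ≤ Hm := by exact_mod_cast hH2
    exact mul_le_mul_of_nonneg_left h1 (by positivity)
  · intro h r s1 s2 h0
    obtain ⟨-, -, ⟨hv1, hv2, hv3⟩, -, -⟩ := hLt h r s1 s2 h0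
    obtain ⟨-, hP2, -⟩ := hsup h r s1 s2 h0
    obtain ⟨-, -, hs1, -, hsf, hsm⟩ := hP _ hP2
    simp only at hs1 hsf hsm
    have hvpos : 0 < v r s2 := by omega
    have hs2 : s2 / v r s2 * v r s2 = s2 := Nat.div_mul_cancel hv1
    have ht1 : 1 ≤ s2 / v r s2 := by
      rcases Nat.eq_zero_or_pos (s2 / v r s2) with h | h
      · rw [h, zero_mul] at hs2
        omega
      · exact h
    refine hf r (s2 / v r s2) (hF _ ht1 ?_ ?_)
    · have h1 : S ≤ s2 / v r s2 * (2 * V) := by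
        calc S ≤ s2 := hs1.le
          _ = s2 / v r s2 * v r s2 := hs2.symm
          _ ≤ s2 / v r s2 * (2 * V) := Nat.mul_le_mul_left _ hv3
      exact_mod_cast h1
    · intro p hp hpd
      exact hsm p hp (hpd.trans (Dvd.intro _ hs2))

end Pool.Agent.Lib.SLB
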