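import Pool.Agent.Lib.SLB.SpecK

set_option autoImplicit false

/-!
MP_00e23e_nt, project SL, phase 2, chapter B, module BnaK: numbers of case I (x^c classes).
-/

namespace Pool.Agent.Lib.SLB

open Finset Pool.Agent.Lib.EH3 Pool.Agent.Lib.TB Pool.Agent.Results.MP_00e23e_nt Pool.Agent.Lib.MI
open Pool.Agent.Lib.MX (Bd Mz Bd_nonneg Bd_mono rp_le rn_le log_le_T Tau_x)

private theorem BnaK_W {x l R0 : ℝ} (hx : 0 < x) (h : x ^ l ≤ 2 * R0) :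
    x ^ (3 * l / 2) / 3 ≤ R0 * Real.sqrt R0 := by
  have h0 : 0 < x ^ (l / 2) := Real.rpow_pos_of_pos hx _
  have h1 : x ^ l = x ^ (l / 2) * x ^ (l / 2) := by
    rw [← Real.rpow_add hx]; congr 1; ring
  have h2 : x ^ (3 * l / 2) = x ^ l * x ^ (l / 2) := by
    rw [← Real.rpow_add hx]; congr 1; ring
  have h3 : 0 < x ^ l := Real.rpow_pos_of_pos hx _
  have hR : 0 < R0 := by linarith
  have h4 : 2 / 3 * x ^ (l / 2) ≤ Real.sqrt R0 := by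
    apply Real.le_sqrt_of_sq_le
    nlinarith
  have h5 : x ^ l / 2 ≤ R0 := by linarith
  calc x ^ (3 * l / 2) / 3 = (x ^ l / 2) * (2 / 3 * x ^ (l / 2)) := by rw [h2]; ring
    _ ≤ R0 * Real.sqrt R0 := by
        apply mul_le_mul h5 h4 (by positivity) hR.le

theorem tBnaK (h1 : BfaKStmt) : BnaKStmt := by
  intro c δ κ l ε hP
  obtain ⟨x0, hx01, -, hfa⟩ := h1 c δ κ l ε hP
  obtain ⟨⟨hc, hδ, hκ, hε, hε1⟩, h84, hl⟩ := hP
  refine ⟨54, x0, by norm_num, hx01, ?_⟩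
  intro x M N R S R0 V hxx0 hB hV hR0
  obtain ⟨⟨hN64, hNh, hR, hRleN⟩, -, hRN, -, -, hRS2, -, hRSR, -⟩ := hfa x M N R S hxx0 hB
  obtain ⟨hNM, -, -, hMN, hS, -, -, hRS, -⟩ := hB
  have hx : 1 ≤ x := hx01.trans hxx0
  have hx0 : 0 < x := by linarith
  have hN0 : (0 : ℝ) < N := by linarith
  have hM0 : (0 : ℝ) < M := by
    have : (N : ℝ) ≤ M := by exact_mod_cast hNM
    linarith
  have hR0' : (0 : ℝ) < R0 := by
    have := Real.rpow_pos_of_pos hx0 l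
    linarith
  have hRp : (0 : ℝ) < R := by exact_mod_cast hR
  have hSp : (0 : ℝ) < S := by exact_mod_cast hS
  obtain ⟨W, hWd⟩ : ∃ W : ℝ, W = (R0 : ℝ) * Real.sqrt R0 := ⟨_, rfl⟩
  have hW : x ^ (3 * l / 2) / 3 ≤ W := by rw [hWd]; exact BnaK_W hx0 hR0
  have hWp : 0 < W := lt_of_lt_of_le (by positivity) hW
  have hWi : 1 / W ≤ 3 * x ^ (-(3 * l / 2)) := by
    rw [Real.rpow_neg hx0.le, div_le_iff₀ hWp]
    have h1 : 0 < x ^ (3 * l / 2) := Real.rpow_pos_of_pos hx0 _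
    calc (1 : ℝ) = 3 * (x ^ (3 * l / 2))⁻¹ * (x ^ (3 * l / 2) / 3) := by field_simp
      _ ≤ 3 * (x ^ (3 * l / 2))⁻¹ * W := by gcongr
  have hR0i : 1 / (R0 : ℝ) ≤ 2 * x ^ (-l) := by
    rw [Real.rpow_neg hx0.le, div_le_iff₀ hR0']
    have h1 : 0 < x ^ l := Real.rpow_pos_of_pos hx0 _
    calc (1 : ℝ) = 2 * (x ^ l)⁻¹ * (x ^ l / 2) := by field_simp
      _ ≤ 2 * (x ^ l)⁻¹ * R0 := by
        gcongr
        linarith
  have pos : ∀ t : ℝ, 0 < x ^ t := fun t => Real.rpow_pos_of_pos hx0 t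
  have mono : ∀ s t : ℝ, s ≤ t → x ^ s ≤ x ^ t := fun s t h =>
    Real.rpow_le_rpow_of_exponent_le hx h
  have one_le : ∀ t : ℝ, 0 ≤ t → 1 ≤ x ^ t := fun t h => by
    have := mono 0 t h
    rwa [Real.rpow_zero] at this
  obtain ⟨y, hyd⟩ : ∃ y : ℝ, y = (R : ℝ) * (S : ℝ) ^ 2 / M := ⟨_, rfl⟩
  have hy0 : 0 ≤ y := by rw [hyd]; positivity
  have hy1 : 1 + y ≤ 3 * x ^ (2 * δ + 2 * c + κ + 2 * ε) := by
    have e1 : y ≤ 2 * x ^ (2 * δ + 2 * c + κ + 2 * ε) := by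
      rw [hyd, div_le_iff₀ hM0]
      exact hRS2
    have e2 := one_le (2 * δ + 2 * c + κ + 2 * ε) (by linarith)
    linarith
  obtain ⟨A, hAd⟩ : ∃ A : ℝ, A = (1 + y) * ((R : ℝ) / N) := ⟨_, rfl⟩
  have hA0 : 0 ≤ A := by rw [hAd]; positivity
  have hA : A ≤ 2 * x ^ (2 * δ + ε) := by
    have e1 : (R : ℝ) / N ≤ 1 := by
      rw [div_le_one hN0]
      exact_mod_cast hRleN
    have e2 := one_le (2 * δ + ε) (by linarith)
    have e3 : y * ((R : ℝ) / N) ≤ x ^ (2 * δ + ε) := by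
      have e4 : y * ((R : ℝ) / N) = (R : ℝ) * (S : ℝ) ^ 2 * R / (M * N) := by
        rw [hyd]; field_simp
      rw [e4, div_le_iff₀ (by positivity)]
      exact hRSR
    rw [hAd]
    have e5 : (1 + y) * ((R : ℝ) / N) = (R : ℝ) / N + y * ((R : ℝ) / N) := by ring
    rw [e5]
    linarith
  have hvd : va c δ κ ε = δ + 2 * c + κ / 2 + 7 / 2 * ε := rfl
  have hEI : EI R S N R0 V = (R : ℝ) ^ 3 * S * V / (W * (N : ℝ) ^ 2) + (R : ℝ) ^ 2 / (W * N) +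
      R * Real.sqrt R * Real.sqrt ((S : ℝ) * V) / ((R0 : ℝ) * N) + R / W := by
    unfold EI
    rw [hWd]
  rw [hEI, ← hyd]
  -- (1)
  have t1 : (1 + y) ^ 2 * ((R : ℝ) ^ 3 * S * V / (W * (N : ℝ) ^ 2)) ≤ 12 * x ^ (-(2 * c + 3 * ε)) := by
    have e1 : (1 + y) ^ 2 * ((R : ℝ) ^ 3 * S * V / (W * (N : ℝ) ^ 2)) =
        ((R : ℝ) * S) * V * (A * A) * (1 / W) := by rw [hAd]; field_simp
    have e2 : ((R : ℝ) * S) * V * (A * A) * (1 / W) ≤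
        x ^ (1 / 2 + δ) * x ^ (va c δ κ ε + κ) * ((2 * x ^ (2 * δ + ε)) * (2 * x ^ (2 * δ + ε))) *
          (3 * x ^ (-(3 * l / 2))) := by
      gcongr
    have e3 : x ^ (1 / 2 + δ) * x ^ (va c δ κ ε + κ) * ((2 * x ^ (2 * δ + ε)) * (2 * x ^ (2 * δ + ε))) *
          (3 * x ^ (-(3 * l / 2))) =
        12 * x ^ ((1 / 2 + δ) + (va c δ κ ε + κ) + ((2 * δ + ε) + (2 * δ + ε)) + (-(3 * l / 2))) := by
      rw [Real.rpow_add hx0 ((1 / 2 + δ) + (va c δ κ ε + κ) + ((2 * δ + ε) + (2 * δ + ε))),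
        Real.rpow_add hx0 ((1 / 2 + δ) + (va c δ κ ε + κ)), Real.rpow_add hx0 (1 / 2 + δ),
        Real.rpow_add hx0 (2 * δ + ε)]
      ring
    rw [e1]
    refine e2.trans ?_
    rw [e3]
    apply mul_le_mul_of_nonneg_left _ (by norm_num)
    apply mono
    rw [hvd]
    linarith
  -- (2)
  have t2 : (1 + y) ^ 2 * ((R : ℝ) ^ 2 / (W * N)) ≤ 12 * x ^ (-(2 * c + 3 * ε)) := by
    have e1 : (1 + y) ^ 2 * ((R : ℝ) ^ 2 / (W * N)) =
        (N : ℝ) * (A * A) * (1 / W) := by rw [hAd]; field_simp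
    have e2 : (N : ℝ) * (A * A) * (1 / W) ≤
        x ^ ((1 : ℝ) / 2) * ((2 * x ^ (2 * δ + ε)) * (2 * x ^ (2 * δ + ε))) * (3 * x ^ (-(3 * l / 2))) := by
      gcongr
    have e3 : x ^ ((1 : ℝ) / 2) * ((2 * x ^ (2 * δ + ε)) * (2 * x ^ (2 * δ + ε))) *
          (3 * x ^ (-(3 * l / 2))) =
        12 * x ^ ((1 : ℝ) / 2 + ((2 * δ + ε) + (2 * δ + ε)) + (-(3 * l / 2))) := by
      rw [Real.rpow_add hx0 ((1 : ℝ) / 2 + ((2 * δ + ε) + (2 * δ + ε))), Real.rpow_add hx0 ((1 : ℝ) / 2),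
        Real.rpow_add hx0 (2 * δ + ε)]
      ring
    rw [e1]
    refine e2.trans ?_
    rw [e3]
    apply mul_le_mul_of_nonneg_left _ (by norm_num)
    apply mono
    linarith
  -- (3)
  have t3 : (1 + y) ^ 2 * ((R : ℝ) * Real.sqrt R * Real.sqrt ((S : ℝ) * V) / ((R0 : ℝ) * N)) ≤
      12 * x ^ (-(2 * c + 3 * ε)) := by
    have e0 : Real.sqrt R * Real.sqrt ((S : ℝ) * V) = Real.sqrt (((R : ℝ) * S) * V) := by
      rw [← Real.sqrt_mul hRp.le, mul_assoc]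
    have e1 : (1 + y) ^ 2 * ((R : ℝ) * Real.sqrt R * Real.sqrt ((S : ℝ) * V) / ((R0 : ℝ) * N)) =
        (1 + y) * A * Real.sqrt (((R : ℝ) * S) * V) * (1 / R0) := by
      rw [← e0, hAd]; field_simp
    have e4 : Real.sqrt (((R : ℝ) * S) * V) ≤ x ^ (((1 / 2 + δ) + (va c δ κ ε + κ)) / 2) := by
      have h1 : ((R : ℝ) * S) * V ≤ x ^ ((1 / 2 + δ) + (va c δ κ ε + κ)) := by
        rw [Real.rpow_add hx0]
        gcongr
      have h2 : Real.sqrt (x ^ ((1 / 2 + δ) + (va c δ κ ε + κ))) =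
          x ^ (((1 / 2 + δ) + (va c δ κ ε + κ)) / 2) := by
        rw [Real.sqrt_eq_rpow, ← Real.rpow_mul hx0.le]
        congr 1
        ring
      rw [← h2]
      exact Real.sqrt_le_sqrt h1
    have e2 : (1 + y) * A * Real.sqrt (((R : ℝ) * S) * V) * (1 / R0) ≤
        (3 * x ^ (2 * δ + 2 * c + κ + 2 * ε)) * (2 * x ^ (2 * δ + ε)) *
          x ^ (((1 / 2 + δ) + (va c δ κ ε + κ)) / 2) * (2 * x ^ (-l)) := by
      gcongr
    have e3 : (3 * x ^ (2 * δ + 2 * c + κ + 2 * ε)) * (2 * x ^ (2 * δ + ε)) *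
          x ^ (((1 / 2 + δ) + (va c δ κ ε + κ)) / 2) * (2 * x ^ (-l)) =
        12 * x ^ ((2 * δ + 2 * c + κ + 2 * ε) + (2 * δ + ε) +
          (((1 / 2 + δ) + (va c δ κ ε + κ)) / 2) + (-l)) := by
      rw [Real.rpow_add hx0 ((2 * δ + 2 * c + κ + 2 * ε) + (2 * δ + ε) +
          (((1 / 2 + δ) + (va c δ κ ε + κ)) / 2)),
        Real.rpow_add hx0 ((2 * δ + 2 * c + κ + 2 * ε) + (2 * δ + ε)),
        Real.rpow_add hx0 (2 * δ + 2 * c + κ + 2 * ε)]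
      ring
    rw [e1]
    refine e2.trans ?_
    rw [e3]
    apply mul_le_mul_of_nonneg_left _ (by norm_num)
    apply mono
    rw [hvd]
    linarith
  -- (4)
  have t4 : (1 + y) ^ 2 * ((R : ℝ) / W) ≤ 18 * x ^ (-(2 * c + 3 * ε)) := by
    have e1 : (1 + y) ^ 2 * ((R : ℝ) / W) = (N : ℝ) * ((1 + y) * A) * (1 / W) := by
      rw [hAd]; field_simp
    have e2 : (N : ℝ) * ((1 + y) * A) * (1 / W) ≤
        x ^ ((1 : ℝ) / 2) * ((3 * x ^ (2 * δ + 2 * c + κ + 2 * ε)) * (2 * x ^ (2 * δ + ε))) *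
          (3 * x ^ (-(3 * l / 2))) := by
      gcongr
    have e3 : x ^ ((1 : ℝ) / 2) * ((3 * x ^ (2 * δ + 2 * c + κ + 2 * ε)) * (2 * x ^ (2 * δ + ε))) *
          (3 * x ^ (-(3 * l / 2))) =
        18 * x ^ ((1 : ℝ) / 2 + ((2 * δ + 2 * c + κ + 2 * ε) + (2 * δ + ε)) + (-(3 * l / 2))) := by
      rw [Real.rpow_add hx0 ((1 : ℝ) / 2 + ((2 * δ + 2 * c + κ + 2 * ε) + (2 * δ + ε))),
        Real.rpow_add hx0 ((1 : ℝ) / 2), Real.rpow_add hx0 (2 * δ + 2 * c + κ + 2 * ε)]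
      ring
    rw [e1]
    refine e2.trans ?_
    rw [e3]
    apply mul_le_mul_of_nonneg_left _ (by norm_num)
    apply mono
    linarith
  have hsum : (1 + y) ^ 2 * ((R : ℝ) ^ 3 * S * V / (W * (N : ℝ) ^ 2) + (R : ℝ) ^ 2 / (W * N) +
      R * Real.sqrt R * Real.sqrt ((S : ℝ) * V) / ((R0 : ℝ) * N) + R / W) =
      (1 + y) ^ 2 * ((R : ℝ) ^ 3 * S * V / (W * (N : ℝ) ^ 2)) + (1 + y) ^ 2 * ((R : ℝ) ^ 2 / (W * N)) +
      (1 + y) ^ 2 * ((R : ℝ) * Real.sqrt R * Real.sqrt ((S : ℝ) * V) / ((R0 : ℝ) * N)) +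
      (1 + y) ^ 2 * ((R : ℝ) / W) := by ring
  rw [hsum]
  linarith

end Pool.Agent.Lib.SLB
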