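import Pool.Agent.Lib.SLB.SpecK

/-!
MP_00e23e_nt, project SL, phase 2: the numbers of the dispersion.
-/

set_option autoImplicit false

namespace Pool.Agent.Lib.SLB

open Finset Pool.Agent.Lib.EH3 Pool.Agent.Lib.TB Pool.Agent.Results.MP_00e23e_nt Pool.Agent.Lib.MI
open Pool.Agent.Lib.MX (Bd Mz Bd_nonneg Bd_mono rp_le rn_le log_le_T Tau_x)

private theorem BncK_gap {x a b c : ℝ} (hx : 1 ≤ x) (h64 : 64 ≤ x ^ ((1 : ℝ) / 8))
    (hab : a + 1 / 8 ≤ b) (hc : c ≤ 64) : c * x ^ a ≤ x ^ b := by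
  have h0 : 0 ≤ x ^ a := Real.rpow_nonneg (by linarith) a
  calc c * x ^ a ≤ x ^ ((1 : ℝ) / 8) * x ^ a := mul_le_mul_of_nonneg_right (hc.trans h64) h0
    _ = x ^ ((1 : ℝ) / 8 + a) := (Real.rpow_add (by linarith) _ _).symm
    _ ≤ x ^ b := Real.rpow_le_rpow_of_exponent_le hx (by linarith)

private theorem BncK_fl {t : ℝ} (ht : 1 ≤ t) : t ≤ 2 * (⌊t⌋₊ : ℝ) := by
  have h1 := Nat.lt_floor_add_one t
  have h2 : 1 ≤ ⌊t⌋₊ := Nat.le_floor (by simpa using ht)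
  have h3 : (1 : ℝ) ≤ (⌊t⌋₊ : ℝ) := by exact_mod_cast h2
  linarith

/-- the sizes -/
private theorem BncK_size {x u w : ℝ} {M N R S H : ℕ} (hx : 64 ≤ x) (hu : 1 ≤ u) (huw : u ≤ w)
    (hw : 11 * w ≤ x ^ ((1 : ℝ) / 2)) (hH : (H : ℝ) ≤ w) (hM : 0 < M) (hMN : (M : ℝ) * N ≤ x)
    (hN : (N : ℝ) ≤ x ^ ((1 : ℝ) / 2)) (hRS : (R : ℝ) * (S : ℝ) ^ 2 ≤ 2 * u * M)
    (huN : 2 * u ≤ N) :
    100 * (M : ℝ) ^ 2 * (N : ℝ) ^ 2 * (R : ℝ) ^ 2 * (S : ℝ) ^ 4 ≤ x ^ (30 : ℝ) ∧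
      R * S ^ 2 ≤ M * N ∧
      (2 * (R : ℝ) * (S : ℝ) ^ 2 * N * ((2 * H + (4 * (R * S ^ 2) / M + 1) : ℕ) : ℝ)) ^ 12 ≤
        x ^ (30 : ℝ) := by
  have hM0 : (0 : ℝ) < M := by exact_mod_cast hM
  have hx30 : x ^ (30 : ℝ) = x ^ 30 := by exact_mod_cast Real.rpow_natCast x 30
  have h1 : (R : ℝ) * (S : ℝ) ^ 2 ≤ M * N := by
    calc (R : ℝ) * (S : ℝ) ^ 2 ≤ 2 * u * M := hRS
      _ ≤ N * M := mul_le_mul_of_nonneg_right huN hM0.le
      _ = M * N := mul_comm _ _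
  have h2 : (R : ℝ) * (S : ℝ) ^ 2 ≤ x := h1.trans hMN
  have h3 : x ^ ((1 : ℝ) / 2) * x ^ ((1 : ℝ) / 2) = x := by
    rw [← Real.rpow_add (by linarith)]
    norm_num
  refine ⟨?_, by exact_mod_cast h1, ?_⟩
  · rw [hx30]
    have h4 : (M : ℝ) ^ 2 * (N : ℝ) ^ 2 * (R : ℝ) ^ 2 * (S : ℝ) ^ 4 ≤ x ^ 4 := by
      calc (M : ℝ) ^ 2 * (N : ℝ) ^ 2 * (R : ℝ) ^ 2 * (S : ℝ) ^ 4 =
            ((M : ℝ) * N) ^ 2 * ((R : ℝ) * (S : ℝ) ^ 2) ^ 2 := by ring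
        _ ≤ x ^ 2 * x ^ 2 := by gcongr
        _ = x ^ 4 := by ring
    calc 100 * (M : ℝ) ^ 2 * (N : ℝ) ^ 2 * (R : ℝ) ^ 2 * (S : ℝ) ^ 4 =
          100 * ((M : ℝ) ^ 2 * (N : ℝ) ^ 2 * (R : ℝ) ^ 2 * (S : ℝ) ^ 4) := by ring
      _ ≤ 64 ^ 26 * x ^ 4 := by gcongr; norm_num
      _ ≤ x ^ 26 * x ^ 4 := by gcongr
      _ = x ^ 30 := by ring
  · rw [hx30]
    have h4 : ((2 * H + (4 * (R * S ^ 2) / M + 1) : ℕ) : ℝ) ≤ x ^ ((1 : ℝ) / 2) := by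
      have h5 : ((4 * (R * S ^ 2) / M : ℕ) : ℝ) ≤ 8 * u := by
        refine Nat.cast_div_le.trans ?_
        rw [div_le_iff₀ hM0]
        push_cast
        linarith
      push_cast at h5 ⊢
      linarith
    have h6 : 2 * (R : ℝ) * (S : ℝ) ^ 2 * N * ((2 * H + (4 * (R * S ^ 2) / M + 1) : ℕ) : ℝ) ≤
        2 * x ^ 2 := by
      calc 2 * (R : ℝ) * (S : ℝ) ^ 2 * N * ((2 * H + (4 * (R * S ^ 2) / M + 1) : ℕ) : ℝ) =
            2 * ((R : ℝ) * (S : ℝ) ^ 2) *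
              (N * ((2 * H + (4 * (R * S ^ 2) / M + 1) : ℕ) : ℝ)) := by ring
        _ ≤ 2 * x * (x ^ ((1 : ℝ) / 2) * x ^ ((1 : ℝ) / 2)) := by gcongr
        _ = 2 * x ^ 2 := by rw [h3]; ring
    calc (2 * (R : ℝ) * (S : ℝ) ^ 2 * N * ((2 * H + (4 * (R * S ^ 2) / M + 1) : ℕ) : ℝ)) ^ 12 ≤
          (2 * x ^ 2) ^ 12 := by gcongr
      _ = 2 ^ 12 * x ^ 24 := by ring
      _ ≤ 64 ^ 6 * x ^ 24 := by gcongr; norm_num
      _ ≤ x ^ 6 * x ^ 24 := by gcongr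
      _ = x ^ 30 := by ring

/-- the terms without `D`; here `t = x^(ε/8)` -/
private theorem BncK_terms {x t m n r s g h : ℝ} (hx : 0 < x) (ht : 1 ≤ t)
    (hm : 0 < m) (hn : 0 < n) (hr : 0 < r) (hs : 0 < s) (hg : 0 < g) (hh : 0 < h)
    (hnm : n ≤ m) (hmn : m * n ≤ x) (hrn : r * t ^ 8 ≤ n) (hgt : t ≤ 4 * g)
    (hgc : (1 + Real.sqrt (r * s ^ 2 / m)) * t ^ 8 ≤ 2 * g ∨ g = s)
    (hhc : (r * s ^ 2) ^ 2 * t ≤ 8 * m ^ 2 * h) :
    r * m ^ 2 * n + m ^ 2 * n ^ 2 / g + r * m * n ^ 2 * s ^ 2 / g ^ 2 +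
      r ^ 2 * s ^ 4 * n ^ 2 / h ≤ 21 * (x ^ 2 * t⁻¹) := by
  have ht0 : 0 < t := by linarith
  have hmn2 : (m * n) ^ 2 ≤ x ^ 2 := pow_le_pow_left₀ (by positivity) hmn 2
  have h1t : r * t ≤ n := by
    refine le_trans ?_ hrn
    have h2 : t ≤ t ^ 8 := le_self_pow₀ ht (by norm_num)
    exact mul_le_mul_of_nonneg_left h2 hr.le
  have e1 : r * m ^ 2 * n ≤ x ^ 2 * t⁻¹ := by
    rw [← div_eq_mul_inv, le_div_iff₀ ht0]
    calc r * m ^ 2 * n * t = (r * t) * (m ^ 2 * n) := by ring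
      _ ≤ n * (m ^ 2 * n) := mul_le_mul_of_nonneg_right h1t (by positivity)
      _ = (m * n) ^ 2 := by ring
      _ ≤ x ^ 2 := hmn2
  have e2 : m ^ 2 * n ^ 2 / g ≤ 4 * (x ^ 2 * t⁻¹) := by
    rw [div_le_iff₀ hg]
    have h1 : 1 ≤ 4 * t⁻¹ * g := by
      rw [mul_comm 4 t⁻¹, mul_assoc, inv_mul_eq_div, le_div_iff₀ ht0, one_mul]
      exact hgt
    calc m ^ 2 * n ^ 2 = (m * n) ^ 2 := by ring
      _ ≤ x ^ 2 := hmn2
      _ ≤ x ^ 2 * (4 * t⁻¹ * g) := le_mul_of_one_le_right (by positivity) h1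
      _ = 4 * (x ^ 2 * t⁻¹) * g := by ring
  have e3 : r * m * n ^ 2 * s ^ 2 / g ^ 2 ≤ 8 * (x ^ 2 * t⁻¹) := by
    rw [div_le_iff₀ (by positivity), ← div_eq_mul_inv, mul_div_assoc', div_mul_eq_mul_div,
      le_div_iff₀ ht0]
    rcases hgc with h1 | h1
    · have hy0 : 0 ≤ r * s ^ 2 / m := by positivity
      have hsq := Real.sqrt_nonneg (r * s ^ 2 / m)
      have h2 : ((1 + Real.sqrt (r * s ^ 2 / m)) * t ^ 8) ^ 2 ≤ (2 * g) ^ 2 :=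
        pow_le_pow_left₀ (by positivity) h1 2
      have h3 : r * s ^ 2 / m ≤ (1 + Real.sqrt (r * s ^ 2 / m)) ^ 2 := by
        have h4 := Real.sq_sqrt hy0
        nlinarith
      have h5 : r * s ^ 2 / m * t ≤ (2 * g) ^ 2 := by
        have h6 : t ≤ t ^ 16 := le_self_pow₀ ht (by norm_num)
        calc r * s ^ 2 / m * t ≤ (1 + Real.sqrt (r * s ^ 2 / m)) ^ 2 * t ^ 16 := by gcongr
          _ = ((1 + Real.sqrt (r * s ^ 2 / m)) * t ^ 8) ^ 2 := by ring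
          _ ≤ (2 * g) ^ 2 := h2
      calc r * m * n ^ 2 * s ^ 2 * t = (m * n) ^ 2 * (r * s ^ 2 / m * t) := by
            field_simp
        _ ≤ x ^ 2 * (2 * g) ^ 2 := by gcongr
        _ = 4 * x ^ 2 * g ^ 2 := by ring
        _ ≤ 8 * x ^ 2 * g ^ 2 := by nlinarith [mul_pos (pow_pos hx 2) (pow_pos hg 2)]
    · rw [h1]
      calc r * m * n ^ 2 * s ^ 2 * t = (r * t) * (m * n ^ 2) * s ^ 2 := by ring
        _ ≤ n * (m * n ^ 2) * s ^ 2 := by gcongr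
        _ = n * (m * n) * n * s ^ 2 := by ring
        _ ≤ m * (m * n) * n * s ^ 2 := by gcongr
        _ = (m * n) ^ 2 * s ^ 2 := by ring
        _ ≤ x ^ 2 * s ^ 2 := by gcongr
        _ ≤ 8 * x ^ 2 * s ^ 2 := by nlinarith [mul_pos (pow_pos hx 2) (pow_pos hs 2)]
  have e4 : r ^ 2 * s ^ 4 * n ^ 2 / h ≤ 8 * (x ^ 2 * t⁻¹) := by
    rw [div_le_iff₀ hh, ← div_eq_mul_inv, mul_div_assoc', div_mul_eq_mul_div, le_div_iff₀ ht0]
    calc r ^ 2 * s ^ 4 * n ^ 2 * t = ((r * s ^ 2) ^ 2 * t) * n ^ 2 := by ring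
      _ ≤ (8 * m ^ 2 * h) * n ^ 2 := by gcongr
      _ = 8 * (m * n) ^ 2 * h := by ring
      _ ≤ 8 * x ^ 2 * h := by gcongr
  linarith

/-- the first part of the last term; here `t = x^(ε/16)` -/
private theorem BncK_l1 {t e m r s g v k : ℝ} (ht : 1 ≤ t) (he : 1 ≤ e)
    (hm : 0 < m) (hr : 0 < r) (hs : 0 < s) (hg : 0 < g) (hv : 0 < v)
    (hrm : r * (e ^ 2 * t ^ 8) ≤ m) (hst : e ^ 2 * t ^ 8 ≤ 4 * s) (hgs : g ≤ s)
    (hgb : g ≤ (1 + Real.sqrt (r * s ^ 2 / m)) * t ^ 16)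
    (hvc : (∃ b, 1 ≤ b ∧ r * s ^ 2 ≤ 2 * (b ^ 2 * t ^ 32) * m ∧ b * e * t ^ 56 ≤ 2 * v) ∨ v = s)
    (hK : k ≤ 2 * (e * t)) :
    k * ((Real.sqrt (4 * (r * s ^ 2) / m) + Real.sqrt g) / v) ≤ 20 * (t ^ 2)⁻¹ := by
  have ht0 : 0 < t := by linarith
  have he0 : 0 < e := by linarith
  rw [mul_div_assoc', div_le_iff₀ hv, ← div_eq_mul_inv, div_mul_eq_mul_div,
    le_div_iff₀ (by positivity)]
  rcases hvc with ⟨b, hb, h1, h2⟩ | h1
  · have hb0 : 0 < b := by linarith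
    have h3 : Real.sqrt (4 * (r * s ^ 2) / m) ≤ 3 * (b * t ^ 16) := by
      apply Real.sqrt_le_iff.mpr
      refine ⟨by positivity, ?_⟩
      rw [div_le_iff₀ hm]
      have h4 : 0 ≤ b ^ 2 * t ^ 32 * m := by positivity
      calc 4 * (r * s ^ 2) ≤ 4 * (2 * (b ^ 2 * t ^ 32) * m) := by gcongr
        _ = 8 * (b ^ 2 * t ^ 32 * m) := by ring
        _ ≤ 9 * (b ^ 2 * t ^ 32 * m) := by linarith
        _ = (3 * (b * t ^ 16)) ^ 2 * m := by ring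
    have h4 : Real.sqrt (r * s ^ 2 / m) ≤ 2 * (b * t ^ 16) := by
      apply Real.sqrt_le_iff.mpr
      refine ⟨by positivity, ?_⟩
      rw [div_le_iff₀ hm]
      have h4 : 0 ≤ b ^ 2 * t ^ 32 * m := by positivity
      calc r * s ^ 2 ≤ 2 * (b ^ 2 * t ^ 32) * m := h1
        _ = 2 * (b ^ 2 * t ^ 32 * m) := by ring
        _ ≤ 4 * (b ^ 2 * t ^ 32 * m) := by linarith
        _ = (2 * (b * t ^ 16)) ^ 2 * m := by ring
    have h5 : Real.sqrt g ≤ 2 * (b * t ^ 16) := by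
      apply Real.sqrt_le_iff.mpr
      refine ⟨by positivity, hgb.trans ?_⟩
      have h6 : 1 ≤ b * t ^ 16 := one_le_mul_of_one_le_of_one_le hb (one_le_pow₀ ht)
      have h7 : t ^ 16 ≤ b * t ^ 16 := le_mul_of_one_le_left (by positivity) hb
      calc (1 + Real.sqrt (r * s ^ 2 / m)) * t ^ 16 ≤
            (b * t ^ 16 + 2 * (b * t ^ 16)) * (b * t ^ 16) := by gcongr
        _ = 3 * (b * t ^ 16) ^ 2 := by ring
        _ ≤ (2 * (b * t ^ 16)) ^ 2 := by nlinarith [sq_nonneg (b * t ^ 16)]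
    have h6 : t ^ 17 * t ^ 2 ≤ t ^ 56 := by
      rw [← pow_add]
      exact pow_le_pow_right₀ ht (by norm_num)
    calc k * (Real.sqrt (4 * (r * s ^ 2) / m) + Real.sqrt g) * t ^ 2 ≤
          (2 * (e * t)) * (3 * (b * t ^ 16) + 2 * (b * t ^ 16)) * t ^ 2 := by gcongr
      _ = 10 * (b * e * (t ^ 17 * t ^ 2)) := by ring
      _ ≤ 10 * (b * e * t ^ 56) := by gcongr
      _ ≤ 10 * (2 * v) := by gcongr
      _ = 20 * v := by ring
  · rw [h1]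
    have h3 : Real.sqrt (4 * (r * s ^ 2) / m) * (e * t ^ 4) ≤ 2 * s := by
      have h4 : Real.sqrt (4 * (r * s ^ 2) / m) ≤ 2 * s / (e * t ^ 4) := by
        apply Real.sqrt_le_iff.mpr
        refine ⟨by positivity, ?_⟩
        rw [div_le_iff₀ hm, div_pow, div_mul_eq_mul_div, le_div_iff₀ (by positivity)]
        calc 4 * (r * s ^ 2) * (e * t ^ 4) ^ 2 = 4 * s ^ 2 * (r * (e ^ 2 * t ^ 8)) := by ring
          _ ≤ 4 * s ^ 2 * m := by gcongr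
          _ = (2 * s) ^ 2 * m := by ring
      rwa [le_div_iff₀ (by positivity)] at h4
    have h5 : Real.sqrt g * (e * t ^ 4) ≤ 2 * s := by
      have h6 : Real.sqrt g ≤ Real.sqrt s := Real.sqrt_le_sqrt hgs
      have h7 : e * t ^ 4 ≤ 2 * Real.sqrt s := by
        have h8 : 2 * Real.sqrt s = Real.sqrt (4 * s) := by
          rw [Real.sqrt_mul (by norm_num), show (4 : ℝ) = 2 ^ 2 by norm_num,
            Real.sqrt_sq (by norm_num)]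
        rw [h8]
        apply Real.le_sqrt_of_sq_le
        calc (e * t ^ 4) ^ 2 = e ^ 2 * t ^ 8 := by ring
          _ ≤ 4 * s := hst
      calc Real.sqrt g * (e * t ^ 4) ≤ Real.sqrt s * (2 * Real.sqrt s) := by gcongr
        _ = 2 * (Real.sqrt s * Real.sqrt s) := by ring
        _ = 2 * s := by rw [Real.mul_self_sqrt hs.le]
    have h8 : e * t * t ^ 2 ≤ e * t ^ 4 := by
      calc e * t * t ^ 2 = e * t ^ 3 := by ring
        _ ≤ e * t ^ 4 := by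
          have h9 : t ^ 3 ≤ t ^ 4 := pow_le_pow_right₀ ht (by norm_num)
          gcongr
    have h9 : 0 ≤ Real.sqrt (4 * (r * s ^ 2) / m) + Real.sqrt g :=
      add_nonneg (Real.sqrt_nonneg _) (Real.sqrt_nonneg _)
    calc k * (Real.sqrt (4 * (r * s ^ 2) / m) + Real.sqrt g) * t ^ 2 ≤
          (2 * (e * t)) * (Real.sqrt (4 * (r * s ^ 2) / m) + Real.sqrt g) * t ^ 2 := by gcongr
      _ = 2 * ((Real.sqrt (4 * (r * s ^ 2) / m) + Real.sqrt g) * (e * t * t ^ 2)) := by ring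
      _ ≤ 2 * ((Real.sqrt (4 * (r * s ^ 2) / m) + Real.sqrt g) * (e * t ^ 4)) := by gcongr
      _ = 2 * (Real.sqrt (4 * (r * s ^ 2) / m) * (e * t ^ 4) + Real.sqrt g * (e * t ^ 4)) := by
          ring
      _ ≤ 2 * (2 * s + 2 * s) := by gcongr
      _ ≤ 20 * s := by linarith

/-- the second part of the last term; here `t = x^(ε/16)` -/
private theorem BncK_l2 {t e y g k E0 C0 : ℝ} (ht : 1 ≤ t) (he : 1 ≤ e) (hy : 0 ≤ y)
    (hg : 0 < g) (hC0 : 0 ≤ C0) (hgb : g ≤ (1 + Real.sqrt y) * t ^ 16)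
    (hE : (1 + y) ^ 2 * E0 ≤ C0 * (e ^ 2 * t ^ 48)⁻¹) (hK : k ≤ 2 * (e * t)) :
    k * ((4 * y + g) * Real.sqrt E0) ≤ 12 * Real.sqrt C0 * (t ^ 2)⁻¹ := by
  have ht0 : 0 < t := by linarith
  have he0 : 0 < e := by linarith
  have h1 : (1 + y) * Real.sqrt E0 ≤ Real.sqrt C0 * (e * t ^ 24)⁻¹ := by
    calc (1 + y) * Real.sqrt E0 = Real.sqrt ((1 + y) ^ 2) * Real.sqrt E0 := by
          rw [Real.sqrt_sq (by linarith)]
      _ = Real.sqrt ((1 + y) ^ 2 * E0) := (Real.sqrt_mul (by positivity) _).symm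
      _ ≤ Real.sqrt (C0 * (e ^ 2 * t ^ 48)⁻¹) := Real.sqrt_le_sqrt hE
      _ = Real.sqrt C0 * Real.sqrt ((e ^ 2 * t ^ 48)⁻¹) := Real.sqrt_mul hC0 _
      _ = Real.sqrt C0 * (e * t ^ 24)⁻¹ := by
          rw [Real.sqrt_inv, show e ^ 2 * t ^ 48 = (e * t ^ 24) ^ 2 by ring,
            Real.sqrt_sq (by positivity)]
  have h2 : Real.sqrt y ≤ 1 + y := by
    apply Real.sqrt_le_iff.mpr
    exact ⟨by linarith, by nlinarith⟩
  have h3 : 4 * y + g ≤ 6 * (1 + y) * t ^ 16 := by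
    have h4 : 1 ≤ t ^ 16 := one_le_pow₀ ht
    have h5 : 4 * y ≤ 4 * (1 + y) * t ^ 16 := by
      calc 4 * y ≤ 4 * (1 + y) := by linarith
        _ ≤ 4 * (1 + y) * t ^ 16 := le_mul_of_one_le_right (by positivity) h4
    have h6 : g ≤ 2 * (1 + y) * t ^ 16 := by
      refine hgb.trans ?_
      have h7 : 1 + Real.sqrt y ≤ 2 * (1 + y) := by linarith
      gcongr
    linarith
  have hs0 := Real.sqrt_nonneg E0
  have hc0 := Real.sqrt_nonneg C0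
  calc k * ((4 * y + g) * Real.sqrt E0) ≤
        (2 * (e * t)) * ((6 * (1 + y) * t ^ 16) * Real.sqrt E0) := by gcongr
    _ = 12 * e * t ^ 17 * ((1 + y) * Real.sqrt E0) := by ring
    _ ≤ 12 * e * t ^ 17 * (Real.sqrt C0 * (e * t ^ 24)⁻¹) := by gcongr
    _ = 12 * Real.sqrt C0 * (t ^ 7)⁻¹ := by
        field_simp
    _ ≤ 12 * Real.sqrt C0 * (t ^ 2)⁻¹ := by
        have h5 : (t ^ 7)⁻¹ ≤ (t ^ 2)⁻¹ :=
          inv_anti₀ (by positivity) (pow_le_pow_right₀ ht (by norm_num))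
        gcongr

/-- the last term; here `t = x^(ε/16)` -/
private theorem BncK_last {x t e m n r s g v k D E0 C0 : ℝ} (hx : 0 < x) (ht : 1 ≤ t) (he : 1 ≤ e)
    (hm : 0 < m) (hn : 0 < n) (hr : 0 < r) (hs : 0 < s) (hg : 0 < g) (hv : 0 < v) (hk : 0 ≤ k)
    (hC0 : 0 ≤ C0) (hmn : m * n ≤ x)
    (hrm : r * (e ^ 2 * t ^ 8) ≤ m) (hst : e ^ 2 * t ^ 8 ≤ 4 * s) (hgs : g ≤ s)
    (hgb : g ≤ (1 + Real.sqrt (r * s ^ 2 / m)) * t ^ 16)
    (hvc : (∃ b, 1 ≤ b ∧ r * s ^ 2 ≤ 2 * (b ^ 2 * t ^ 32) * m ∧ b * e * t ^ 56 ≤ 2 * v) ∨ v = s)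
    (hE : (1 + r * s ^ 2 / m) ^ 2 * E0 ≤ C0 * (e ^ 2 * t ^ 48)⁻¹) (hK : k ≤ 2 * (e * t)) :
    Real.sqrt D * k * (m ^ 2 * n ^ 2) *
        ((Real.sqrt (4 * (r * s ^ 2) / m) + Real.sqrt g) / v +
          (4 * (r * s ^ 2) / m + g) * Real.sqrt E0) ≤
      (20 + 12 * Real.sqrt C0) * Real.sqrt D * (x ^ 2 * (t ^ 2)⁻¹) := by
  have ht0 : 0 < t := by linarith
  have hmn2 : m ^ 2 * n ^ 2 ≤ x ^ 2 := by
    rw [← mul_pow]
    exact pow_le_pow_left₀ (by positivity) hmn 2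
  have hD := Real.sqrt_nonneg D
  have hC := Real.sqrt_nonneg C0
  have p1 := BncK_l1 ht he hm hr hs hg hv hrm hst hgs hgb hvc hK
  have p2 := BncK_l2 (y := r * s ^ 2 / m) ht he (by positivity) hg hC0 hgb hE hK
  have h1 : 4 * (r * s ^ 2) / m = 4 * (r * s ^ 2 / m) := mul_div_assoc _ _ _
  have p3 : k * ((4 * (r * s ^ 2) / m + g) * Real.sqrt E0) ≤
      12 * Real.sqrt C0 * (t ^ 2)⁻¹ := by
    rw [h1]
    exact p2
  have h2 : 0 ≤ k * ((Real.sqrt (4 * (r * s ^ 2) / m) + Real.sqrt g) / v) :=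
    mul_nonneg hk (div_nonneg (add_nonneg (Real.sqrt_nonneg _) (Real.sqrt_nonneg _)) hv.le)
  have h3 : 0 ≤ k * ((4 * (r * s ^ 2) / m + g) * Real.sqrt E0) :=
    mul_nonneg hk (mul_nonneg (by positivity) (Real.sqrt_nonneg _))
  calc Real.sqrt D * k * (m ^ 2 * n ^ 2) *
        ((Real.sqrt (4 * (r * s ^ 2) / m) + Real.sqrt g) / v +
          (4 * (r * s ^ 2) / m + g) * Real.sqrt E0) =
        Real.sqrt D * (m ^ 2 * n ^ 2) *
          (k * ((Real.sqrt (4 * (r * s ^ 2) / m) + Real.sqrt g) / v) +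
            k * ((4 * (r * s ^ 2) / m + g) * Real.sqrt E0)) := by ring
    _ ≤ Real.sqrt D * x ^ 2 * (20 * (t ^ 2)⁻¹ + 12 * Real.sqrt C0 * (t ^ 2)⁻¹) := by
        gcongr
    _ = (20 + 12 * Real.sqrt C0) * Real.sqrt D * (x ^ 2 * (t ^ 2)⁻¹) := by ring

theorem tBncK (h1 : BfaKStmt) : BncKStmt := by
  intro c δ κ l ε C0 hp hC0
  obtain ⟨x0, hx01, hx064, hfa⟩ := h1 c δ κ l ε hp
  refine ⟨41 + 12 * Real.sqrt C0, x0, by positivity, hx01, ?_⟩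
  intro x z D E0 K M N R S V H G hx hz hD hE0 hE0' hb hK hV hVc hH hG
  obtain ⟨⟨f1, f2, f3, f4⟩, f5, f6, f7, f8, f9, f10, f11, f12⟩ := hfa x M N R S hx hb
  obtain ⟨⟨hc, hδ, hκ, hε, hε1⟩, hpar, -⟩ := hp
  have hx1 : 1 ≤ x := hx01.trans hx
  have hx0 : 0 < x := by linarith
  have h64 : 64 ≤ x ^ ((1 : ℝ) / 8) :=
    hx064.trans (Real.rpow_le_rpow (by linarith) hx (by norm_num))
  have hx64 : 64 ≤ x := by
    refine h64.trans ?_
    calc x ^ ((1 : ℝ) / 8) ≤ x ^ (1 : ℝ) :=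
          Real.rpow_le_rpow_of_exponent_le hx1 (by norm_num)
      _ = x := Real.rpow_one x
  obtain ⟨b1, b2, b3, b4, b5, b6, b7, b8, b9⟩ := hb
  have hNM : (N : ℝ) ≤ M := by exact_mod_cast b1
  have hN64 : 64 ≤ N := by exact_mod_cast f1
  -- the units
  obtain ⟨t, ht⟩ : ∃ t, t = x ^ (ε / 16) := ⟨_, rfl⟩
  obtain ⟨e, he⟩ : ∃ e, e = x ^ c := ⟨_, rfl⟩
  obtain ⟨b, hbb⟩ : ∃ b, b = x ^ (δ + κ / 2) := ⟨_, rfl⟩
  have ht1 : 1 ≤ t := by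
    rw [ht]
    exact Real.one_le_rpow hx1 (by linarith)
  have he1 : 1 ≤ e := by
    rw [he]
    exact Real.one_le_rpow hx1 hc
  have hb1 : 1 ≤ b := by
    rw [hbb]
    exact Real.one_le_rpow hx1 (by linarith)
  have htk : ∀ k : ℕ, t ^ k = x ^ (ε / 16 * k) := by
    intro k
    rw [ht, Real.rpow_mul hx0.le, Real.rpow_natCast]
  have hek : ∀ k : ℕ, e ^ k = x ^ (c * k) := by
    intro k
    rw [he, Real.rpow_mul hx0.le, Real.rpow_natCast]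
  have hbk : ∀ k : ℕ, b ^ k = x ^ ((δ + κ / 2) * k) := by
    intro k
    rw [hbb, Real.rpow_mul hx0.le, Real.rpow_natCast]
  have hu : x ^ (2 * δ + 2 * c + κ + 2 * ε) = (b * e) ^ 2 * t ^ 32 := by
    rw [mul_pow, htk, hbk, hek, ← Real.rpow_add hx0, ← Real.rpow_add hx0]
    congr 1
    push_cast
    ring
  have hu' : x ^ (2 * δ + κ + 2 * ε) = b ^ 2 * t ^ 32 := by
    rw [htk, hbk, ← Real.rpow_add hx0]
    congr 1
    push_cast
    ring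
  have hva : x ^ va c δ κ ε = b * e * e * t ^ 56 := by
    rw [htk, hbb, he, ← Real.rpow_add hx0, ← Real.rpow_add hx0, ← Real.rpow_add hx0]
    congr 1
    unfold va
    push_cast
    ring
  have hvb : x ^ vb c δ κ ε = b * e * t ^ 56 := by
    rw [htk, hbb, he, ← Real.rpow_add hx0, ← Real.rpow_add hx0]
    congr 1
    unfold vb
    push_cast
    ring
  have hhh : x ^ ha c δ κ ε = (b * e) ^ 4 * t ^ 160 := by
    rw [mul_pow, htk, hbk, hek, ← Real.rpow_add hx0, ← Real.rpow_add hx0]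
    congr 1
    unfold ha
    push_cast
    ring
  have hen' : x ^ (-(2 * c + 3 * ε)) = (e ^ 2 * t ^ 48)⁻¹ := by
    rw [Real.rpow_neg hx0.le, htk, hek, ← Real.rpow_add hx0]
    congr 2
    push_cast
    ring
  have htn : x ^ (-(ε / 8)) = (t ^ 2)⁻¹ := by
    rw [Real.rpow_neg hx0.le, htk]
    congr 2
    push_cast
    ring
  have hen : x ^ (-ε) * t ^ 16 = 1 := by
    rw [htk, ← Real.rpow_add hx0]
    have h1 : -ε + ε / 16 * ((16 : ℕ) : ℝ) = 0 := by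
      push_cast
      ring
    rw [h1, Real.rpow_zero]
  have hee : x ^ ε = t ^ 16 := by
    rw [htk]
    congr 1
    push_cast
    ring
  have he2 : x ^ (2 * c + ε / 2) = e ^ 2 * t ^ 8 := by
    rw [htk, hek, ← Real.rpow_add hx0]
    congr 1
    push_cast
    ring
  have hem : x ^ (-(2 * c) - ε / 2) * (e ^ 2 * t ^ 8) = 1 := by
    rw [← he2, ← Real.rpow_add hx0]
    have h1 : -(2 * c) - ε / 2 + (2 * c + ε / 2) = 0 := by ring
    rw [h1, Real.rpow_zero]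
  have hKe : x ^ (c + ε / 16) = e * t := by
    rw [Real.rpow_add hx0, he, ht]
  have ht0 : 0 < t := by linarith
  have he0 : 0 < e := by linarith
  have hb0 : 0 < b := by linarith
  have hMr : (0 : ℝ) < M := by
    have : 0 < M := by omega
    exact_mod_cast this
  have hNr : (0 : ℝ) < N := by linarith
  have hRr : (0 : ℝ) < R := by exact_mod_cast f3
  have hSr : (0 : ℝ) < S := by exact_mod_cast b5
  have hrn : (R : ℝ) * t ^ 16 ≤ N := by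
    calc (R : ℝ) * t ^ 16 ≤ (N * x ^ (-ε)) * t ^ 16 := by gcongr
      _ = N * (x ^ (-ε) * t ^ 16) := by ring
      _ = N := by rw [hen, mul_one]
  have hrm : (R : ℝ) * (e ^ 2 * t ^ 8) ≤ M := by
    calc (R : ℝ) * (e ^ 2 * t ^ 8) ≤ (x ^ (-(2 * c) - ε / 2) * M) * (e ^ 2 * t ^ 8) := by gcongr
      _ = M * (x ^ (-(2 * c) - ε / 2) * (e ^ 2 * t ^ 8)) := by ring
      _ = M := by rw [hem, mul_one]
  have hh1 : 1 ≤ x ^ ha c δ κ ε := Real.one_le_rpow hx1 (by unfold ha; linarith)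
  have hu1 : 1 ≤ x ^ (2 * δ + 2 * c + κ + 2 * ε) := Real.one_le_rpow hx1 (by linarith)
  have hH1 : 1 ≤ H := by
    rw [hH]
    exact Nat.le_floor (by simpa using hh1)
  have hHle : (H : ℝ) ≤ x ^ ha c δ κ ε := by
    rw [hH]
    exact Nat.floor_le (by linarith)
  have hHc : (b * e) ^ 4 * t ^ 160 ≤ 2 * (H : ℝ) := by
    rw [hH, ← hhh]
    exact BncK_fl hh1
  have hHr : (0 : ℝ) < H := by exact_mod_cast hH1
  -- the number G
  obtain ⟨Γ, hΓ⟩ : ∃ Γ, Γ = (1 + Real.sqrt ((R : ℝ) * (S : ℝ) ^ 2 / M)) * x ^ ε := ⟨_, rfl⟩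
  rw [← hΓ] at hG
  rw [hee] at hΓ
  have hs0 := Real.sqrt_nonneg ((R : ℝ) * (S : ℝ) ^ 2 / M)
  have hΓt : t ^ 16 ≤ Γ := by
    rw [hΓ]
    exact le_mul_of_one_le_left (by positivity) (by linarith)
  have hΓ1 : 1 ≤ Γ := (one_le_pow₀ ht1).trans hΓt
  have hG1 : 1 ≤ G := by
    rw [hG]
    exact le_min (Nat.le_floor (by simpa using hΓ1)) b5
  have hGS : G ≤ S := by
    rw [hG]
    exact min_le_right _ _
  have hGr : (0 : ℝ) < G := by exact_mod_cast hG1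
  have hGSr : (G : ℝ) ≤ S := by exact_mod_cast hGS
  have hGv : (G : ℝ) ≤ Γ := by
    have h1 : G ≤ ⌊Γ⌋₊ := by
      rw [hG]
      exact min_le_left _ _
    have h2 : (G : ℝ) ≤ (⌊Γ⌋₊ : ℝ) := by exact_mod_cast h1
    exact h2.trans (Nat.floor_le (by linarith))
  have hGc : Γ ≤ 2 * (G : ℝ) ∨ (G : ℝ) = S := by
    rcases le_total ⌊Γ⌋₊ S with h1 | h1
    · left
      rw [hG, min_eq_left h1]
      exact BncK_fl hΓ1
    · right
      rw [hG, min_eq_right h1]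
  have hGt : t ^ 2 ≤ 4 * (G : ℝ) := by
    rcases hGc with h1 | h1
    · have h2 : t ^ 2 ≤ t ^ 16 := pow_le_pow_right₀ ht1 (by norm_num)
      linarith
    · rw [h1]
      have h2 : t ^ 2 ≤ t ^ 8 := pow_le_pow_right₀ ht1 (by norm_num)
      have h3 : t ^ 8 ≤ e ^ 2 * t ^ 8 := le_mul_of_one_le_left (by positivity) (one_le_pow₀ he1)
      have h4 : e ^ 2 * t ^ 8 ≤ 4 * (S : ℝ) := by rw [← he2]; exact f8
      linarith
  have hVr : (0 : ℝ) < V := by exact_mod_cast hV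
  have hVc' : (∃ b : ℝ, 1 ≤ b ∧ (R : ℝ) * (S : ℝ) ^ 2 ≤ 2 * (b ^ 2 * t ^ 32) * M ∧
      b * e * t ^ 56 ≤ 2 * V) ∨ (V : ℝ) = S := by
    rcases hVc with h1 | h1 | ⟨h1, h2⟩
    · left
      refine ⟨b * e, one_le_mul_of_one_le_of_one_le hb1 he1, ?_, ?_⟩
      · rw [← hu]
        exact f9
      · rw [← hva]
        exact h1
    · right
      rw [h1]
    · left
      refine ⟨b, hb1, ?_, ?_⟩
      · rw [← hu']
        exact f10 h2
      · rw [← hvb]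
        exact h1
  have hKK : (K : ℝ) ≤ 2 * (e * t) := by
    rw [← hKe]
    exact hK
  have hhc : ((R : ℝ) * (S : ℝ) ^ 2) ^ 2 * t ^ 2 ≤ 8 * (M : ℝ) ^ 2 * H := by
    rw [hu] at f9
    calc ((R : ℝ) * (S : ℝ) ^ 2) ^ 2 * t ^ 2 ≤
          (2 * ((b * e) ^ 2 * t ^ 32) * M) ^ 2 * t ^ 2 := by gcongr
      _ = 4 * (M : ℝ) ^ 2 * ((b * e) ^ 4 * t ^ 66) := by ring
      _ ≤ 4 * (M : ℝ) ^ 2 * ((b * e) ^ 4 * t ^ 160) := by
          have h3 : t ^ 66 ≤ t ^ 160 := pow_le_pow_right₀ ht1 (by norm_num)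
          gcongr
      _ ≤ 4 * (M : ℝ) ^ 2 * (2 * H) := by gcongr
      _ = 8 * (M : ℝ) ^ 2 * H := by ring
  obtain ⟨s1, s2, s3⟩ := BncK_size (x := x) (u := x ^ (2 * δ + 2 * c + κ + 2 * ε))
    (w := x ^ ha c δ κ ε) (M := M) (N := N) (R := R) (S := S) (H := H) hx64 hu1
    (Real.rpow_le_rpow_of_exponent_le hx1 (by unfold ha; linarith))
    (BncK_gap hx1 h64 (by unfold ha; linarith) (by norm_num)) hHle (by omega) b4 f2 f9
    ((BncK_gap hx1 h64 (by linarith) (by norm_num)).trans b2)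
  refine ⟨⟨f3, by omega, by omega, hH1, hG1, hGS, f4, ?_, s1, s2, s3⟩, ?_⟩
  · have h1 : 64 * x ^ ha c δ κ ε ≤ 2 * (R : ℝ) :=
      (BncK_gap hx1 h64 (by unfold ha; linarith) le_rfl).trans f5
    have h2 : (2 : ℝ) * H < R := by linarith
    exact_mod_cast h2
  · have hsD : Real.sqrt (D * (K : ℝ) ^ 2) = Real.sqrt D * K := by
      rw [Real.sqrt_mul hD, Real.sqrt_sq (Nat.cast_nonneg _)]
    rw [htn, hsD]
    have e1 := BncK_terms (x := x) (t := t ^ 2) (m := M) (n := N) (r := R) (s := S) (g := G)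
      (h := H) hx0 (one_le_pow₀ ht1) hMr hNr hRr hSr hGr hHr hNM b4
      (by rw [← pow_mul]; exact hrn) hGt
      (by rw [← pow_mul, ← hΓ]; exact hGc) hhc
    have e2 := BncK_last (x := x) (t := t) (e := e) (m := M) (n := N) (r := R) (s := S) (g := G)
      (v := V) (k := K) (D := D) (E0 := E0) (C0 := C0) hx0 ht1 he1 hMr hNr hRr hSr hGr hVr
      (Nat.cast_nonneg _) hC0 b4 hrm (by rw [← he2]; exact f8) hGSr
      (by rw [← hΓ]; exact hGv) hVc' (by rw [← hen']; exact hE0') hKK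
    have e3 : (M : ℝ) ^ 2 * (N : ℝ) ^ 2 / z ≤ x ^ 2 * (1 / z) := by
      rw [mul_one_div]
      have h1 : (M : ℝ) ^ 2 * (N : ℝ) ^ 2 ≤ x ^ 2 := by
        rw [← mul_pow]
        exact pow_le_pow_left₀ (by positivity) b4 2
      gcongr
    have hz0 : 0 < z := by linarith
    have a1 : 0 ≤ x ^ 2 * (t ^ 2)⁻¹ := by positivity
    have a2 : 0 ≤ x ^ 2 * (1 / z) := by positivity
    have a3 := Real.sqrt_nonneg D
    have a4 := Real.sqrt_nonneg C0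
    have a5 : 0 ≤ Real.sqrt D * (x ^ 2 * (t ^ 2)⁻¹) := by positivity
    have a6 : 0 ≤ Real.sqrt D * (x ^ 2 * (1 / z)) := by positivity
    have a7 : 0 ≤ Real.sqrt C0 * (x ^ 2 * (t ^ 2)⁻¹) := by positivity
    have a8 : 0 ≤ Real.sqrt C0 * (x ^ 2 * (1 / z)) := by positivity
    have a9 : 0 ≤ Real.sqrt C0 * (Real.sqrt D * (x ^ 2 * (1 / z))) := by positivity
    have a10 : (41 + 12 * Real.sqrt C0) * (1 + Real.sqrt D) * (x ^ 2 * ((t ^ 2)⁻¹ + 1 / z)) =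
        41 * (x ^ 2 * (t ^ 2)⁻¹) + 41 * (x ^ 2 * (1 / z)) + 41 * (Real.sqrt D * (x ^ 2 * (t ^ 2)⁻¹)) +
        41 * (Real.sqrt D * (x ^ 2 * (1 / z))) + 12 * (Real.sqrt C0 * (x ^ 2 * (t ^ 2)⁻¹)) +
        12 * (Real.sqrt C0 * (x ^ 2 * (1 / z))) +
        12 * Real.sqrt C0 * Real.sqrt D * (x ^ 2 * (t ^ 2)⁻¹) +
        12 * (Real.sqrt C0 * (Real.sqrt D * (x ^ 2 * (1 / z)))) := by ring
    rw [a10]
    have a11 : (20 + 12 * Real.sqrt C0) * Real.sqrt D * (x ^ 2 * (t ^ 2)⁻¹) =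
        20 * (Real.sqrt D * (x ^ 2 * (t ^ 2)⁻¹)) +
          12 * Real.sqrt C0 * Real.sqrt D * (x ^ 2 * (t ^ 2)⁻¹) := by
      ring
    rw [a11] at e2
    linarith

end Pool.Agent.Lib.SLB
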