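import Pool.Agent.Lib.SL.AllK
import Pool.Agent.Lib.SL.TzeroK
import Pool.Agent.Lib.SL.TtwK
import Pool.Agent.Lib.SLB.AllP
import Pool.Agent.Lib.SLB.BfaK
import Pool.Agent.Lib.SLB.BgaK
import Pool.Agent.Lib.SLB.BdiK
import Pool.Agent.Lib.SLB.BiaK
import Pool.Agent.Lib.SLB.BnaK
import Pool.Agent.Lib.SLB.BncK
import Pool.Agent.Lib.SLB.BclK
import Pool.Agent.Lib.SLB.BbbK
import Pool.Agent.Lib.SLB.BdrK
import Pool.Agent.Lib.SLB.BdsK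
import Pool.Agent.Lib.SLB.BfiK
import Pool.Agent.Lib.SLB.BicK
import Pool.Agent.Lib.SLA.Fik
import Pool.Agent.Lib.SLA.Prk

/-! MP_00e23e_nt, directory Lib/SLB: THEOREM SL (single lock), phase 2 (x^c classes for every r), without hypotheses. -/

namespace Pool.Agent.Lib.SLB

open Pool.Agent.Lib.TB

theorem aT0K : T0KStmt := SL.tTzeroK SL.tSecK SL.tPh aEk

theorem aTwK : TwKStmt := SL.tTtwK SL.tSecK SL.tPh aEw

theorem aBdsK : BdsKStmt :=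
  tBdsK (tBdrK (tBbbK (tBiaK aT0K) (tBdiK SL.tDsp (tBgaK tBdh) tBsg) tBfaK (tBnaK tBfaK) (tBncK tBfaK))) tBclK MI.tBgr MK.tFsp

/-- chapter B -/
theorem aBfiK : BfiKStmt := tBfiK aBdsK aBge MI.tBgr

/-- case II -/
theorem aBiiK {c δ κ : ℝ} (hc : 0 ≤ c) (hδ : 0 ≤ δ) (hκ : 0 < κ) (hp : 84 * δ + 42 * c + 48 * κ < 1) :
    ∃ ε1 : ℝ, 0 < ε1 ∧ ∀ ε : ℝ, 0 < ε → ε ≤ ε1 → BiiKStmt c δ κ ε := by
  refine ⟨min ((1 - 84 * δ - 42 * c - 48 * κ) / 400) (1 / 200), lt_min (by linarith) (by norm_num), fun ε hε hε1 => ?_⟩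
  have h1 : ε ≤ (1 - 84 * δ - 42 * c - 48 * κ) / 400 := hε1.trans (min_le_left _ _)
  have h2 : ε ≤ 1 / 200 := hε1.trans (min_le_right _ _)
  exact tBicK aTwK MI.tBgr c δ κ ε hc hδ hκ hε (by linarith) (by linarith)

/-- THEOREM SL in display form, x^c classes for every r -/
theorem tSlk : ∀ c δ μ κ l l' : ℝ, 0 ≤ c → 0 ≤ δ → μ < 1 / 3 → 0 < κ → 84 * δ + 42 * c + 48 * κ < 1 →
    1 / 3 + 4 * δ + 8 / 3 * c + κ < l → l' + δ + 2 * c + 3 / 2 * κ < 1 / 2 → SLA.SlPk c δ μ κ l l' := by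
  intro c δ μ κ l l' hc hδ hμ hκ hp hl hl'
  obtain ⟨ε, τ, hε, hε1, hτ, hτ1, hB⟩ := aBfiK c δ μ κ l l' hc hδ hμ hκ hp hl hl' (aBiiK hc hδ hκ hp)
  have hδ1 : δ ≤ 1 / 10 := by linarith
  exact SLA.tPrk MX.tMer (by linarith) (SLA.tFik SLA.tFpsAll MX.tWig SLA.tFbvAll SLA.tExeAll c δ μ κ l l' τ hδ hδ1 hτ hτ1
    (SLA.tAAll (SLA.Lkc c μ κ l l') (1 / 2 + δ) τ ε hε hε1 (by linarith) hτ.le hτ1 hB))

end Pool.Agent.Lib.SLB
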