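import Pool.Agent.Lib.SLB.SpecH

/-!
MP_00e23e_nt, project SL, P2 (a lock of arbitrarily small size), chapter B: one block.
-/

set_option autoImplicit false

namespace Pool.Agent.Lib.SLB

open Finset Pool.Agent.Lib.EH3 Pool.Agent.Lib.TB Pool.Agent.Results.MP_00e23e_nt Pool.Agent.Lib.MI
open Pool.Agent.Lib.MX (Bd Mz Bd_nonneg Bd_mono rp_le rn_le log_le_T Tau_x)

/-- the square root -/
private lemma BbbH_rt {s x z ε C T : ℝ} {A : ℕ} (hs : 0 ≤ s) (hx : 0 ≤ x) (hz : 1 ≤ z) (hC : 0 ≤ C) (hT : 1 ≤ T)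
    (h : s ^ 2 ≤ C * T ^ A * (x ^ 2 * (1 / z ^ ε))) : s ≤ Bd (Real.sqrt C) A (ε / 2) x T z := by
  have hz0 : 0 < z := by linarith
  have h1 : 0 < z ^ (ε / 2) := Real.rpow_pos_of_pos hz0 _
  have h2 : z ^ ε = z ^ (ε / 2) * z ^ (ε / 2) := by
    rw [← Real.rpow_add hz0]
    ring_nf
  have h3 : (1 : ℝ) ≤ T ^ A := one_le_pow₀ hT
  unfold MX.Bd
  refine (pow_le_pow_iff_left₀ hs (by positivity) (by norm_num : 2 ≠ 0)).1 ?_
  refine h.trans ?_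
  have h4 : (Real.sqrt C * T ^ A * (x / z ^ (ε / 2))) ^ 2 = C * T ^ A * (x ^ 2 * (1 / z ^ ε)) * T ^ A := by
    rw [mul_pow, mul_pow, Real.sq_sqrt hC, h2, div_pow]
    ring
  rw [h4]
  refine le_mul_of_one_le_right ?_ h3
  positivity

/-- the square root of D -/
private lemma BbbH_sq {C T : ℝ} {A : ℕ} (hC : 0 ≤ C) (hT : 1 ≤ T) : 1 + Real.sqrt (C * T ^ A) ≤ (2 + C) * T ^ A := by
  have h1 : (1 : ℝ) ≤ T ^ A := one_le_pow₀ hT
  have h2 : Real.sqrt (C * T ^ A) ≤ (1 + C) * T ^ A := by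
    rw [Real.sqrt_le_left (by positivity)]
    have h3 : C ≤ (1 + C) ^ 2 := by nlinarith
    have h4 : T ^ A ≤ (T ^ A) ^ 2 := by nlinarith
    calc C * T ^ A ≤ (1 + C) ^ 2 * (T ^ A) ^ 2 := by gcongr
      _ = _ := by ring
  nlinarith

/-- the final estimate of the square -/
private lemma BbbH_fin {s x z ε B C1 C2 C3 T : ℝ} {A1 A2 : ℕ} (hx : 1 ≤ x) (hz : 1 ≤ z) (hzx : z ≤ x)
    (hε0 : 0 < ε) (hε : ε < 1 / 100) (hC1 : 0 ≤ C1) (hC2 : 0 ≤ C2) (hC3 : 0 ≤ C3) (hT : 1 ≤ T)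
    (h1 : s ^ 2 ≤ C2 * T ^ A2 * B)
    (h2 : B ≤ C3 * (1 + Real.sqrt (C1 * T ^ A1)) * (x ^ 2 * (x ^ (-(ε / 8)) + 1 / z))) :
    s ^ 2 ≤ (C2 * (2 * (C3 * (2 + C1)))) * T ^ (A2 + A1) * (x ^ 2 * (1 / z ^ (ε / 8))) := by
  have hz0 : 0 < z := by linarith
  have hzε : 0 < z ^ (ε / 8) := Real.rpow_pos_of_pos hz0 _
  obtain ⟨q, hq⟩ : ∃ q : ℝ, q = 1 / z ^ (ε / 8) := ⟨_, rfl⟩
  have hq0 : 0 < q := by
    rw [hq]
    positivity
  rw [← hq]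
  have hxε : x ^ (-(ε / 8)) ≤ q := by
    rw [hq]
    exact rn_le hz hzx (by linarith)
  have hzq : 1 / z ≤ q := by
    rw [hq]
    refine div_le_div_of_nonneg_left zero_le_one hzε ?_
    calc z ^ (ε / 8) ≤ z ^ (1 : ℝ) := Real.rpow_le_rpow_of_exponent_le hz (by linarith)
      _ = z := Real.rpow_one z
  have h3 : x ^ 2 * (x ^ (-(ε / 8)) + 1 / z) ≤ x ^ 2 * (2 * q) :=
    mul_le_mul_of_nonneg_left (by linarith) (by positivity)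
  have hT0 : 0 < T := by linarith
  have h4 : B ≤ C3 * ((2 + C1) * T ^ A1) * (x ^ 2 * (2 * q)) := by
    refine h2.trans ?_
    have h5 : 0 ≤ x ^ (-(ε / 8)) + 1 / z := by positivity
    exact mul_le_mul (mul_le_mul_of_nonneg_left (BbbH_sq hC1 hT) hC3) h3 (by positivity) (by positivity)
  calc s ^ 2 ≤ C2 * T ^ A2 * B := h1
    _ ≤ C2 * T ^ A2 * (C3 * ((2 + C1) * T ^ A1) * (x ^ 2 * (2 * q))) :=
        mul_le_mul_of_nonneg_left h4 (by positivity)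
    _ = _ := by
        rw [pow_add]
        ring

/-- sizes: G ≤ H and Hm -/
private lemma BbbH_sz {c δ κ ε x R S M : ℝ} (hc : 0 ≤ c) (hδ : 0 ≤ δ) (hκ : 0 < κ) (hε : 0 < ε) (hx : 1 ≤ x)
    (hx11 : 11 ≤ x ^ ε) (hM : 0 < M) (hR : 0 ≤ R)
    (hy : R * S ^ 2 ≤ 2 * x ^ (2 * δ + 2 * c + κ + 2 * ε) * M) :
    1 + R * S ^ 2 / M ≤ 3 * x ^ (2 * δ + 2 * c + κ + 2 * ε) ∧
    (1 + Real.sqrt (R * S ^ 2 / M)) * x ^ ε ≤ x ^ ha c δ κ ε ∧
    2 * x ^ ha c δ κ ε + (4 * (R * S ^ 2) / M + 1) ≤ x ^ (ha c δ κ ε + ε) := by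
  have hx0 : 0 < x := by linarith
  have h1 : R * S ^ 2 / M ≤ 2 * x ^ (2 * δ + 2 * c + κ + 2 * ε) := by
    rw [div_le_iff₀ hM]
    exact hy
  have h0 : 0 ≤ R * S ^ 2 / M := by positivity
  have h2 : (1 : ℝ) ≤ x ^ (2 * δ + 2 * c + κ + 2 * ε) := Real.one_le_rpow hx (by linarith)
  refine ⟨by linarith, ?_, ?_⟩
  · have h3 : x ^ (2 * δ + 2 * c + κ + 2 * ε) = (x ^ (δ + c + κ / 2 + ε)) ^ 2 := by
      rw [← Real.rpow_natCast (x ^ (δ + c + κ / 2 + ε)) 2, ← Real.rpow_mul hx0.le]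
      norm_num
      ring_nf
    have h4 : (1 : ℝ) ≤ x ^ (δ + c + κ / 2 + ε) := Real.one_le_rpow hx (by linarith)
    have h5 : Real.sqrt (R * S ^ 2 / M) ≤ 2 * x ^ (δ + c + κ / 2 + ε) := by
      rw [Real.sqrt_le_left (by positivity)]
      rw [h3] at h1
      nlinarith [sq_nonneg (x ^ (δ + c + κ / 2 + ε))]
    have h6 : 0 < x ^ ε := Real.rpow_pos_of_pos hx0 _
    calc (1 + Real.sqrt (R * S ^ 2 / M)) * x ^ ε ≤ (3 * x ^ (δ + c + κ / 2 + ε)) * x ^ ε := by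
          gcongr
          linarith
      _ = 3 * (x ^ (δ + c + κ / 2 + ε) * x ^ ε) := by ring
      _ ≤ x ^ ε * (x ^ (δ + c + κ / 2 + ε) * x ^ ε) := by
          gcongr
          linarith
      _ = x ^ (δ + c + κ / 2 + 3 * ε) := by
          rw [← Real.rpow_add hx0, ← Real.rpow_add hx0]
          ring_nf
      _ ≤ x ^ ha c δ κ ε := by
          refine Real.rpow_le_rpow_of_exponent_le hx ?_
          unfold ha
          linarith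
  · have h7 : x ^ (2 * δ + 2 * c + κ + 2 * ε) ≤ x ^ ha c δ κ ε := by
      refine Real.rpow_le_rpow_of_exponent_le hx ?_
      unfold ha
      linarith
    have h8 : 4 * (R * S ^ 2) / M = 4 * (R * S ^ 2 / M) := by ring
    have h9 : 0 < x ^ ha c δ κ ε := Real.rpow_pos_of_pos hx0 _
    rw [Real.rpow_add hx0, h8]
    nlinarith

theorem tBbbH (h2 : BdiHStmt) (h3 : BfaKStmt) (h4 : BncKStmt) : BbbHStmt := by
  intro c δ κ l ε hPar hBi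
  obtain ⟨C1, C0, x1, A1, hC1, hC0, hI⟩ := hBi
  obtain ⟨C2, hC2, A2, hD⟩ := h2
  have hPK := hPar.parK
  obtain ⟨x2, hx2, hx2', hfa⟩ := h3 c δ κ (1 / 3 + 4 * δ + 8 / 3 * c + κ + 8 * ε) ε hPK
  obtain ⟨C3, x3, hC3, hx3, hN⟩ := h4 c δ κ (1 / 3 + 4 * δ + 8 / 3 * c + κ + 8 * ε) ε C0 hPK hC0
  have hc : 0 ≤ c := hPK.1.1
  have hδ : 0 ≤ δ := hPK.1.2.1
  have hκ : 0 < κ := hPK.1.2.2.1
  have hε : 0 < ε := hPK.1.2.2.2.1
  have hε1 : ε < 1 / 100 := hPK.1.2.2.2.2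
  refine ⟨ε / 16, Real.sqrt (C2 * (2 * (C3 * (2 + C1)))), max (max x1 x2) (max x3 ((11 : ℝ) ^ (1 / ε))), A2 + A1,
    by linarith, Real.sqrt_nonneg _, ?_⟩
  intro x T z a ρ v col K M N R S R0 V P f g hx hT hz hzx hBlk hK1 hK hR0R hVS hl hVc hVx hsm hPr hLp hf hg
  have hx1 : x1 ≤ x := (le_max_left _ _).trans ((le_max_left _ _).trans hx)
  have hx2x : x2 ≤ x := (le_max_right _ _).trans ((le_max_left _ _).trans hx)
  have hx3x : x3 ≤ x := (le_max_left _ _).trans ((le_max_right _ _).trans hx)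
  have hx4x : (11 : ℝ) ^ (1 / ε) ≤ x := (le_max_right _ _).trans ((le_max_right _ _).trans hx)
  have hx1' : 1 ≤ x := hx2.trans hx2x
  have hx0 : 0 < x := by linarith
  have hx11 : (11 : ℝ) ≤ x ^ ε := by
    calc (11 : ℝ) = ((11 : ℝ) ^ (1 / ε)) ^ ε := by
          rw [← Real.rpow_mul (by norm_num), one_div_mul_cancel hε.ne', Real.rpow_one]
      _ ≤ x ^ ε := Real.rpow_le_rpow (by positivity) hx4x hε.le
  have hT1 : 1 ≤ T := hT.1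
  have hS : 1 ≤ S := hBlk.2.2.2.2.1
  have hV1 : 1 ≤ V := by
    rcases hVc with h | h
    · have h5 : 0 < x ^ va c δ κ ε := Real.rpow_pos_of_pos hx0 _
      have h4 : (0 : ℝ) < (V : ℝ) := by linarith
      exact_mod_cast h4
    · rw [h]
      exact hS
  have hVc' : x ^ va c δ κ ε ≤ 2 * (V : ℝ) ∨ V = S ∨
      (x ^ vb c δ κ ε ≤ 2 * (V : ℝ) ∧ (N : ℝ) ≤ x ^ (1 / 2 - 2 * c)) := by
    rcases hVc with h | h
    · exact Or.inl h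
    · exact Or.inr (Or.inl h)
  have hM0 : (0 : ℝ) < (M : ℝ) := by
    have h7 : x ^ (1 - ε) ≤ (M : ℝ) * N := hBlk.2.2.1
    have h8 : 0 < x ^ (1 - ε) := Real.rpow_pos_of_pos hx0 _
    have h9 : (0 : ℝ) < (M : ℝ) * N := by linarith
    exact pos_of_mul_pos_left h9 (Nat.cast_nonneg N)
  obtain ⟨-, -, -, -, -, hf6, -, -, -⟩ := hfa x M N R S hx2x hBlk
  obtain ⟨hy3, hGam, hHm⟩ := BbbH_sz hc hδ hκ hε hx1' hx11 hM0 (Nat.cast_nonneg R) hf6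
  obtain ⟨H, hH⟩ : ∃ H : ℕ, H = ⌊x ^ ha c δ κ ε⌋₊ := ⟨_, rfl⟩
  obtain ⟨G, hG⟩ : ∃ G : ℕ, G = min ⌊(1 + Real.sqrt ((R : ℝ) * (S : ℝ) ^ 2 / M)) * x ^ ε⌋₊ S := ⟨_, rfl⟩
  have hD0 : 0 ≤ C1 * T ^ A1 := mul_nonneg hC1.le (by positivity)
  obtain ⟨⟨b1, b2, b3, b4, b5, b6, b7, b8, b9, b10, b11⟩, -⟩ :=
    hN x z (C1 * T ^ A1) 0 K M N R S V H G hx3x hz hD0 le_rfl
      (by rw [mul_zero]; exact mul_nonneg hC0 (Real.rpow_pos_of_pos hx0 _).le) hBlk hK hV1 hVc' hH hG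
  have hGH : G ≤ H := by
    rw [hG, hH]
    exact (min_le_left _ _).trans (Nat.floor_le_floor hGam)
  have hHx : (H : ℝ) ≤ x ^ ha c δ κ ε := by
    rw [hH]
    exact Nat.floor_le (Real.rpow_pos_of_pos hx0 _).le
  have hHmx : ((2 * H + (4 * (R * S ^ 2) / M + 1) : ℕ) : ℝ) ≤ x ^ (ha c δ κ ε + ε) := by
    have h5 : ((4 * (R * S ^ 2) / M : ℕ) : ℝ) ≤ 4 * ((R : ℝ) * (S : ℝ) ^ 2) / M := by
      refine Nat.cast_div_le.trans ?_
      push_cast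
      exact le_rfl
    push_cast
    linarith
  obtain ⟨E0, hE0, hEy, hg'⟩ := hI x T a ρ v col K M N R S R0 V (2 * H + (4 * (R * S ^ 2) / M + 1)) P hx1 hT hBlk hK1 b1
    b7 hR0R hV1 hVS hVx hl hHmx b11 hy3 hsm
  obtain ⟨-, b12⟩ :=
    hN x z (C1 * T ^ A1) E0 K M N R S V H G hx3x hz hD0 hE0 hEy hBlk hK hV1 hVc' hH hG
  rw [← hH] at hg'
  have key := hD (x ^ (30 : ℝ)) T z (C1 * T ^ A1 * (K : ℝ) ^ 2) E0 a ρ v col K R S M N H G R0 V P f g hT hz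
    (mul_nonneg hD0 (by positivity)) hE0 b1 hS b2 b3 b5 hGH b6 hV1 b7 b8 b9 b10 hPr hLp
    (fun k hk => by
      obtain ⟨hk1, hk2⟩ := Finset.mem_Icc.1 hk
      exact hg' k hk1 ((Nat.cast_le.2 (hk2.trans hGH)).trans hHx)) hf hg
  have key2 := BbbH_fin hx1' hz hzx hε hε1 hC1.le hC2.le hC3 hT1 key b12
  have key3 := BbbH_rt (Finset.sum_nonneg fun w _ => norm_nonneg _) hx0.le hz (by positivity) hT1 key2
  have h16 : ε / 8 / 2 = ε / 16 := by ring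
  rw [h16] at key3
  exact key3

end Pool.Agent.Lib.SLB
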