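import Pool.Agent.Lib.SLB.SpecB

/-!
MP_00e23e_nt, project SL, chapter B: module Bdi, dispersion with all g.
-/

set_option autoImplicit false

namespace Pool.Agent.Lib.SLB

open Finset Pool.Agent.Lib.EH3 Pool.Agent.Lib.TB Pool.Agent.Results.MP_00e23e_nt Pool.Agent.Lib.MI
open Pool.Agent.Lib.MX (Bd Mz Bd_nonneg Bd_mono rp_le rn_le log_le_T Tau_x)

private lemma Bdi_Hg (a : ℕ → ℕ → ℤ) (ρ : ℕ → ℕ) (v : ℕ → ℕ → ℕ) (g R S N R0 V Hm Hm' : ℕ)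
    (P : Finset (ℕ × ℕ)) (D E : ℝ) (hle : Hm ≤ Hm') (h : Hg a ρ v g R S N R0 V Hm' P D E) :
    Hg a ρ v g R S N R0 V Hm P D E := by
  intro H' Hs γ ω b1 b2 e1 e2
  exact h H' Hs γ ω b1 b2 e1 (e2.trans hle)

private lemma Bdi_size (X : ℝ) (R S M N G : ℕ) (hR : 1 ≤ R) (hS : 1 ≤ S) (hN : 1 ≤ N)
    (hM : 8 ≤ M) (hG : G ≤ S)
    (hX : 100 * (M : ℝ) ^ 2 * (N : ℝ) ^ 2 * (R : ℝ) ^ 2 * (S : ℝ) ^ 4 ≤ X) : (G : ℝ) ≤ X := by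
  have h1 : (1 : ℝ) ≤ R := by exact_mod_cast hR
  have h2 : (1 : ℝ) ≤ S := by exact_mod_cast hS
  have h3 : (1 : ℝ) ≤ N := by exact_mod_cast hN
  have h4 : (1 : ℝ) ≤ M := by exact_mod_cast (by omega : 1 ≤ M)
  have h5 : (G : ℝ) ≤ S := by exact_mod_cast hG
  have h6 : (S : ℝ) ≤ (S : ℝ) ^ 4 := le_self_pow₀ h2 (by norm_num)
  have h7 : 1 ≤ (M : ℝ) ^ 2 := one_le_pow₀ h4
  have h8 : 1 ≤ (N : ℝ) ^ 2 := one_le_pow₀ h3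
  have h9 : 1 ≤ (R : ℝ) ^ 2 := one_le_pow₀ h1
  have h10 : 1 ≤ 100 * (M : ℝ) ^ 2 * (N : ℝ) ^ 2 * (R : ℝ) ^ 2 := by
    have e1 : 1 ≤ (M : ℝ) ^ 2 * (N : ℝ) ^ 2 := one_le_mul_of_one_le_of_one_le h7 h8
    have e2 : 1 ≤ (M : ℝ) ^ 2 * (N : ℝ) ^ 2 * (R : ℝ) ^ 2 :=
      one_le_mul_of_one_le_of_one_le e1 h9
    have e3 : 100 * (M : ℝ) ^ 2 * (N : ℝ) ^ 2 * (R : ℝ) ^ 2 =
        100 * ((M : ℝ) ^ 2 * (N : ℝ) ^ 2 * (R : ℝ) ^ 2) := by ring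
    linarith
  have h11 : (S : ℝ) ^ 4 ≤ 100 * (M : ℝ) ^ 2 * (N : ℝ) ^ 2 * (R : ℝ) ^ 2 * (S : ℝ) ^ 4 :=
    le_mul_of_one_le_left (by positivity) h10
  linarith

/-- the chosen shift -/
private def Bdi_Y (R S M g : ℕ) : ℕ := 4 * (R * S ^ 2) / (M * g) + 1

private lemma Bdi_Y1 (R S M g : ℕ) (hM : 1 ≤ M) (hg : 1 ≤ g) :
    4 * (R * S ^ 2) ≤ M * g * Bdi_Y R S M g :=
  (Nat.lt_mul_div_succ _ (Nat.mul_pos hM hg)).le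

private lemma Bdi_Y2 (R S M g : ℕ) (hM : 1 ≤ M) (hg : 1 ≤ g) :
    Bdi_Y R S M g ≤ 4 * (R * S ^ 2) / M + 1 := by
  unfold Bdi_Y
  have : 4 * (R * S ^ 2) / (M * g) ≤ 4 * (R * S ^ 2) / M :=
    Nat.div_le_div_left (Nat.le_mul_of_pos_right M hg) hM
  omega

private lemma Bdi_Y3 (R S M g : ℕ) :
    (Bdi_Y R S M g : ℝ) ≤ 4 * (R * (S : ℝ) ^ 2) / M / g + 1 := by
  unfold Bdi_Y
  have h := Nat.cast_div_le (α := ℝ) (m := 4 * (R * S ^ 2)) (n := M * g)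
  push_cast at h ⊢
  rw [div_div]
  linarith

/-- the sum of the bounds -/
private lemma Bdi_sum (R M N K G : ℕ) (sD W T : ℝ) (F : ℕ → ℝ) (hR : 1 ≤ R) (hsD : 0 ≤ sD)
    (hF : ∑ g ∈ Icc 1 G, F g ≤ 2 * T * W) :
    (R : ℝ) * M * ∑ g ∈ Icc 1 G, 32 * sD * (K : ℝ) ^ 2 * ((M : ℝ) * (N : ℝ) ^ 2 / R) * F g ≤
      64 * T * (sD * (K : ℝ) ^ 2 * ((M : ℝ) ^ 2 * (N : ℝ) ^ 2) * W) := by
  have hR' : (R : ℝ) ≠ 0 := by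
    have : (1 : ℝ) ≤ R := by exact_mod_cast hR
    positivity
  rw [← mul_sum]
  have e1 : (R : ℝ) * M * (32 * sD * (K : ℝ) ^ 2 * ((M : ℝ) * (N : ℝ) ^ 2 / R) *
      ∑ g ∈ Icc 1 G, F g) = 32 * (sD * (K : ℝ) ^ 2 * ((M : ℝ) ^ 2 * (N : ℝ) ^ 2)) *
      ∑ g ∈ Icc 1 G, F g := by
    field_simp
  rw [e1]
  have e2 : 64 * T * (sD * (K : ℝ) ^ 2 * ((M : ℝ) ^ 2 * (N : ℝ) ^ 2) * W) =
      32 * (sD * (K : ℝ) ^ 2 * ((M : ℝ) ^ 2 * (N : ℝ) ^ 2)) * (2 * T * W) := by ring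
  rw [e2]
  exact mul_le_mul_of_nonneg_left hF (by positivity)

private lemma Bdi_fin (C T U Z L S1 : ℝ) (A : ℕ) (hC : 0 < C) (hT : 1 ≤ T) (hU : 0 ≤ U)
    (hL : L ≤ C * T ^ A * (U + S1)) (hS : S1 ≤ 64 * T * Z) :
    L ≤ 64 * C * T ^ (A + 1) * (U + Z) := by
  have hp : 0 < C * T ^ A := by positivity
  have h1 : U + S1 ≤ 64 * T * (U + Z) := by
    have : U ≤ 64 * T * U := by nlinarith
    nlinarith
  calc L ≤ C * T ^ A * (U + S1) := hL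
    _ ≤ C * T ^ A * (64 * T * (U + Z)) := mul_le_mul_of_nonneg_left h1 hp.le
    _ = 64 * C * T ^ (A + 1) * (U + Z) := by ring

theorem tBdi (h1 : SL.DspStmt) (h2 : BgaStmt) (h3 : BsgStmt) : BdiStmt := by
  obtain ⟨C, hC, A, hD⟩ := h1
  refine ⟨64 * C, by positivity, A + 1, ?_⟩
  intro X T z D E0 a ρ v col K R S M N H G R0 V P f k hT hz hD0 hE0 hR hS hN hM hH hG hGS hV hRN
    hHR hX hRS hPr hLp hHg hf hk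
  obtain ⟨B, hB⟩ : ∃ B : ℕ → ℝ, ∀ g, B g = 32 * Real.sqrt D * (K : ℝ) ^ 2 *
      ((M : ℝ) * (N : ℝ) ^ 2 / R) * Real.sqrt ((Bdi_Y R S M g : ℝ) / ((V : ℝ) ^ 2 * g) +
        (Bdi_Y R S M g : ℝ) ^ 2 * E0) := ⟨_, fun _ => rfl⟩
  have hB0 : ∀ g, 0 ≤ B g := by
    intro g
    rw [hB]
    positivity
  have key := hD X T z a R S M N H G P f k B hT hz hB0 hS hN hM hH hG hRN hHR hX hRS hPr hf hk
    (by
      intro g hg hgG γ ω hγ hω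
      rw [hB]
      refine h2 D E0 a ρ v col g K R S M N H (Bdi_Y R S M g) R0 V P γ ω hD0 hE0 hg hR hS
        (by omega) hN (Nat.succ_le_succ (Nat.zero_le _)) hV (Bdi_Y1 R S M g (by omega) hg) hγ hω
        hLp ?_
      exact Bdi_Hg a ρ v g R S N R0 V _ _ P D E0
        (Nat.add_le_add_left (Bdi_Y2 R S M g (by omega) hg) _) (hHg g (mem_Icc.mpr ⟨hg, hgG⟩)))
  have hs := h3 X T (4 * (R * (S : ℝ) ^ 2) / M) E0 G V (Bdi_Y R S M) hT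
    (Bdi_size X R S M N G hR hS hN hM hGS hX) (by positivity) hE0 hG hV
    (fun g _ => Bdi_Y3 R S M g)
  have hs' := Bdi_sum R M N K G (Real.sqrt D) _ T _ hR (Real.sqrt_nonneg D) hs
  have e1 : (R : ℝ) * M * ∑ g ∈ Icc 1 G, B g = (R : ℝ) * M * ∑ g ∈ Icc 1 G,
      32 * Real.sqrt D * (K : ℝ) ^ 2 * ((M : ℝ) * (N : ℝ) ^ 2 / R) *
        Real.sqrt ((Bdi_Y R S M g : ℝ) / ((V : ℝ) ^ 2 * g) + (Bdi_Y R S M g : ℝ) ^ 2 * E0) := by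
    congr 1
    exact sum_congr rfl fun g _ => hB g
  rw [e1] at key
  exact Bdi_fin C T _ _ _ _ A hC hT.1 (by positivity) key hs'

end Pool.Agent.Lib.SLB
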