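import Pool.Agent.Lib.SLB.SpecH

/-!
MP_00e23e_nt, project SL, P2, chapter B, module BdsH (helper90): choice of v and of the colours, splitting.
-/

set_option autoImplicit false

namespace Pool.Agent.Lib.SLB

open Finset Pool.Agent.Lib.EH3 Pool.Agent.Lib.TB Pool.Agent.Results.MP_00e23e_nt Pool.Agent.Lib.MI
open Pool.Agent.Lib.MX (Bd Mz Bd_nonneg Bd_mono rp_le rn_le log_le_T Tau_x)

/-- splitting by a divisor of m q -/
private lemma BdsH_split (h : MK.FspStmt) {x T B : ℝ} (hT : Tau x T) (hB : 0 ≤ B) (M : Finset ℕ) (s m : ℕ → ℕ)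
    (g : ℕ → ℝ) (hd : ∀ q ∈ M, s q ∣ m q ∧ 1 ≤ m q ∧ (m q : ℝ) ≤ x)
    (hG : ∀ G : Finset ℕ, G ⊆ M → (∀ q ∈ G, ∀ q' ∈ G, m q = m q' → s q = s q') → ∑ q ∈ G, g q ≤ B) :
    ∑ q ∈ M, g q ≤ T * B := by
  have hTpos : 0 ≤ T := by linarith [hT.1]
  refine h M (fun q => (s q : ℤ)) m T B g hTpos hB ?_ ?_
  · intro n
    rcases (M.filter (fun q => m q = n)).eq_empty_or_nonempty with h0 | ⟨q0, hq0⟩
    · rw [h0, Finset.image_empty, Finset.card_empty, Nat.cast_zero]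
      exact hTpos
    · rw [Finset.mem_filter] at hq0
      obtain ⟨d1, d2, d3⟩ := hd q0 hq0.1
      rw [hq0.2] at d2 d3
      refine le_trans ?_ (hT.2.2 n d2 d3)
      have hsub : (M.filter (fun q => m q = n)).image (fun q => (s q : ℤ)) ⊆
          n.divisors.image (fun d : ℕ => (d : ℤ)) := by
        intro b hb
        obtain ⟨q, hq, rfl⟩ := Finset.mem_image.1 hb
        rw [Finset.mem_filter] at hq
        refine Finset.mem_image.2 ⟨s q, ?_, rfl⟩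
        rw [Nat.mem_divisors, ← hq.2]
        exact ⟨(hd q hq.1).1, by have := (hd q hq.1).2.1; omega⟩
      exact_mod_cast (Finset.card_le_card hsub).trans Finset.card_image_le
  · intro G a' hGM ha'
    refine hG G hGM fun q hq q' hq' he => ?_
    have a1 := ha' q hq
    have a2 := ha' q' hq'
    rw [he, ← a2] at a1
    exact_mod_cast a1

/-- greedy divisors -/
private lemma BdsH_v (h : MI.BgrStmt) {x κ V : ℝ} {n : ℕ} (hn : 1 ≤ n) (hx : 1 ≤ x) (hV : 0 ≤ V + κ)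
    (hs : ∀ p : ℕ, p.Prime → p ∣ n → (p : ℝ) ≤ x ^ κ) (hlt : x ^ (V + κ) < n) :
    ∃ v : ℕ, v ∣ n ∧ (v : ℝ) ≤ x ^ (V + κ) ∧ x ^ V < (v : ℝ) := by
  have hx0 : 0 < x := by linarith
  have h1 : (1 : ℝ) ≤ x ^ (V + κ) := Real.one_le_rpow hx hV
  obtain ⟨v, -, v2, v3, v4⟩ := h n 1 (x ^ (V + κ)) (x ^ κ) hn (one_dvd n) (by exact_mod_cast h1) hlt (by
    intro p hp hpd
    rw [Nat.div_one] at hpd
    exact hs p hp hpd)
  refine ⟨v, v2, v3, ?_⟩
  have hk : 0 < x ^ κ := Real.rpow_pos_of_pos hx0 _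
  rw [Real.rpow_add hx0] at v4
  exact lt_of_mul_lt_mul_right v4 hk.le

/-- the lock modulo c = w k -/
private lemma BdsH_lock {w k c : ℕ} {a b : ℤ} (hc : w * k = c) (hsq : Squarefree c) (hw : (w : ℤ) ∣ a - b)
    (hcol : (a % (k : ℤ)).toNat = (b % (k : ℤ)).toNat) : (c : ℤ) ∣ a - b := by
  have hc0 : c ≠ 0 := hsq.ne_zero
  have hk0 : k ≠ 0 := by
    rintro rfl
    exact hc0 (by rw [← hc, mul_zero])
  have hkz : (0 : ℤ) < (k : ℤ) := by exact_mod_cast Nat.pos_of_ne_zero hk0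
  have e1 : a % (k : ℤ) = b % (k : ℤ) := by
    have n1 := Int.emod_nonneg a hkz.ne'
    have n2 := Int.emod_nonneg b hkz.ne'
    have := congrArg (fun n : ℕ => (n : ℤ)) hcol
    simp only [Int.toNat_of_nonneg n1, Int.toNat_of_nonneg n2] at this
    exact this
  have hk : (k : ℤ) ∣ a - b := Int.ModEq.dvd (show b ≡ a [ZMOD (k : ℤ)] from e1.symm)
  have hcop : IsCoprime (w : ℤ) (k : ℤ) := by
    rw [Int.isCoprime_iff_gcd_eq_one, Int.gcd_natCast_natCast]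
    rw [← hc] at hsq
    exact Nat.coprime_of_squarefree_mul hsq
  have := hcop.mul_dvd hw hk
  rw [← hc]
  push_cast
  exact this

private lemma BdsH_pr {z : ℝ} {q t r : ℕ} (hq : q ≠ 0) (htr : t ∣ r) (hrq : r ∣ q)
    (h : ∀ p : ℕ, p.Prime → p ∣ q / t → z < p) : ∀ p : ℕ, p.Prime → p ∣ q / r → z < p := by
  intro p hp hpd
  refine h p hp ?_
  obtain ⟨u, rfl⟩ := htr
  obtain ⟨s, rfl⟩ := hrq
  have ht : 0 < t := Nat.pos_of_ne_zero fun h0 => hq (by rw [h0, zero_mul, zero_mul])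
  have hu : 0 < t * u := Nat.pos_of_ne_zero fun h0 => hq (by rw [h0, zero_mul])
  rw [Nat.mul_div_cancel_left _ hu] at hpd
  rw [mul_assoc, Nat.mul_div_cancel_left _ ht]
  exact hpd.mul_left _

private lemma BdsH_col {i j i' j' J : ℕ} (hj : j < J) (hj' : j' < J) (h : i * J + j = i' * J + j') : i = i' ∧ j = j' := by
  have hJ : 0 < J := by omega
  have e1 : (i * J + j) / J = i := by
    rw [mul_comm, Nat.mul_add_div hJ, Nat.div_eq_of_lt hj, add_zero]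
  have e2 : (i' * J + j') / J = i' := by
    rw [mul_comm, Nat.mul_add_div hJ, Nat.div_eq_of_lt hj', add_zero]
  have e3 : i = i' := by rw [← e1, h, e2]
  refine ⟨e3, ?_⟩
  rw [e3] at h
  omega

theorem tBdsH (h1 : BdrHStmt) (h1c : BclKStmt) (h2 : MI.BgrStmt) (h3 : MK.FspStmt) : BdsHStmt := by
  classical
  intro c0 δ κ l l' ε hP hl' hB
  obtain ⟨η1, C1, x1, A1, hη1, hC1, hBdr⟩ := h1 c0 δ κ l ε hP hB
  obtain ⟨⟨hc0, hc1⟩, ⟨hδ, hδ1⟩, ⟨hκ, hκ1⟩, hε1, hl0, hl⟩ := id hP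
  have hε : 0 < ε := by linarith
  refine ⟨η1, 2 * C1, max x1 1, A1 + 2, hη1, by linarith, ?_⟩
  intro x T z a M N f g F t w r hx hT hz hzx hNM hN hMN hMNx hf hg hF hcls
  have hx1 : x1 ≤ x := (le_max_left _ _).trans hx
  have hx1' : 1 ≤ x := (le_max_right _ _).trans hx
  have hx0 : 0 < x := by linarith
  have hTx := Tau_x hx1' hT
  have hT1 : 1 ≤ T := hT.1
  have hT0 : 0 ≤ T := by linarith
  -- the divisors c, k and the colour
  set c : ℕ → ℕ := fun q => Nat.lcm (w q) (t q) with hc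
  set k : ℕ → ℕ := fun q => c q / w q with hk
  obtain ⟨idx, hidx1, hidx2⟩ := h1c a w F ⌊x ^ c0⌋₊ (fun r0 => Nat.le_floor (hcls r0))
  set jc : ℕ → ℕ := fun q => (a q % ((k q : ℕ) : ℤ)).toNat with hjc
  obtain ⟨J, hJ⟩ : ∃ J : ℕ, J = ⌊x ^ (ε / 16)⌋₊ + 1 := ⟨_, rfl⟩
  obtain ⟨K, hK⟩ : ∃ K : ℕ, K = ⌊x ^ c0⌋₊ * J := ⟨_, rfl⟩
  obtain ⟨col, hcol⟩ : ∃ col : ℕ → ℕ, ∀ q, col q = idx q * J + jc q := ⟨fun q => idx q * J + jc q, fun _ => rfl⟩
  have hxc1 : (1 : ℝ) ≤ x ^ c0 := Real.one_le_rpow hx1' hc0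
  have hK1 : 1 ≤ K := by
    rw [hK]
    have e1 : 1 ≤ ⌊x ^ c0⌋₊ := Nat.le_floor (by exact_mod_cast hxc1)
    have e2 : 1 ≤ J := by omega
    exact Nat.mul_pos e1 e2
  have hKx : (K : ℝ) ≤ 2 * x ^ (c0 + ε / 16) := by
    have e1 : (1 : ℝ) ≤ x ^ (ε / 16) := Real.one_le_rpow hx1' (by linarith)
    have e2 : ((⌊x ^ (ε / 16)⌋₊ : ℕ) : ℝ) ≤ x ^ (ε / 16) := Nat.floor_le (by linarith)
    have e3 : ((⌊x ^ c0⌋₊ : ℕ) : ℝ) ≤ x ^ c0 := Nat.floor_le (by linarith)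
    have e4 : (J : ℝ) ≤ 2 * x ^ (ε / 16) := by
      rw [hJ]
      push_cast
      linarith
    rw [hK, Nat.cast_mul, Real.rpow_add hx0]
    calc ((⌊x ^ c0⌋₊ : ℕ) : ℝ) * (J : ℝ) ≤ x ^ c0 * (2 * x ^ (ε / 16)) :=
          mul_le_mul e3 e4 (Nat.cast_nonneg _) (by linarith)
      _ = 2 * (x ^ c0 * x ^ (ε / 16)) := by ring
  have hq0 : ∀ q ∈ F, q ≠ 0 := fun q hq => (hF q hq).1.1.1.ne_zero
  have hqx : ∀ q ∈ F, (q : ℝ) ≤ x := by
    intro q hq
    have a1 := (hF q hq).1.1.2.2.1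
    have a2 : x ^ (1 / 2 + δ) ≤ x ^ (1 : ℝ) := Real.rpow_le_rpow_of_exponent_le hx1' (by linarith)
    rw [Real.rpow_one] at a2
    exact a1.trans a2
  have hwc : ∀ q, w q ∣ c q := fun q => Nat.dvd_lcm_left _ _
  have htc : ∀ q, t q ∣ c q := fun q => Nat.dvd_lcm_right _ _
  have hcq : ∀ q ∈ F, c q ∣ q := fun q hq => Nat.lcm_dvd (hF q hq).2.1.1 (hF q hq).1.1.2.1
  have hc0' : ∀ q ∈ F, c q ≠ 0 := fun q hq h0 => hq0 q hq (Nat.eq_zero_of_zero_dvd (h0 ▸ hcq q hq))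
  have hcsq : ∀ q ∈ F, Squarefree (c q) := fun q hq => (hF q hq).1.1.1.squarefree_of_dvd (hcq q hq)
  have hwk : ∀ q, w q * k q = c q := fun q => Nat.mul_div_cancel' (hwc q)
  have hkt : ∀ q ∈ F, k q ∣ t q := by
    intro q hq
    have hw0 : 0 < w q := Nat.pos_of_ne_zero fun h0 => hc0' q hq (by rw [← hwk q, h0, zero_mul])
    have e1 : c q ∣ w q * t q := Nat.lcm_dvd (dvd_mul_right _ _) (dvd_mul_left _ _)
    rw [← hwk q] at e1
    exact Nat.dvd_of_mul_dvd_mul_left hw0 e1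
  have ht0 : ∀ q ∈ F, 0 < t q := fun q hq =>
    Nat.pos_of_ne_zero fun h0 => hq0 q hq (Nat.eq_zero_of_zero_dvd (h0 ▸ (hF q hq).1.1.2.1))
  have hk1 : ∀ q ∈ F, 0 < k q := fun q hq => Nat.pos_of_dvd_of_pos (hkt q hq) (ht0 q hq)
  have htx : ∀ q ∈ F, (t q : ℝ) ≤ x ^ (ε / 16) := fun q hq => (hF q hq).1.1.2.2.2.1
  have hkx : ∀ q ∈ F, (k q : ℝ) ≤ x ^ (ε / 16) := by
    intro q hq
    have e1 : k q ≤ t q := Nat.le_of_dvd (ht0 q hq) (hkt q hq)
    exact le_trans (by exact_mod_cast e1) (htx q hq)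
  have hjJ : ∀ q ∈ F, jc q < J := by
    intro q hq
    have e1 : a q % ((k q : ℕ) : ℤ) < ((k q : ℕ) : ℤ) := Int.emod_lt_of_pos _ (by exact_mod_cast hk1 q hq)
    have e2 : jc q < k q := by
      have e3 := Int.emod_nonneg (a q) (show ((k q : ℕ) : ℤ) ≠ 0 by exact_mod_cast (hk1 q hq).ne')
      have e4 : ((jc q : ℕ) : ℤ) < ((k q : ℕ) : ℤ) := by
        rw [hjc]
        simp only
        rw [Int.toNat_of_nonneg e3]
        exact e1
      exact_mod_cast e4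
    have e5 : k q ≤ ⌊x ^ (ε / 16)⌋₊ := Nat.le_floor (hkx q hq)
    omega
  have hcolK : ∀ q ∈ F, col q < K := by
    intro q hq
    have e1 := hjJ q hq
    have e2 := hidx1 q hq
    rw [hcol, hK]
    calc idx q * J + jc q < idx q * J + J := by omega
      _ = (idx q + 1) * J := by ring
      _ ≤ ⌊x ^ c0⌋₊ * J := Nat.mul_le_mul_right _ e2
  -- the lock
  have hlock : ∀ q ∈ F, ∀ q' ∈ F, c q = c q' → w q = w q' → col q = col q' → ((c q : ℕ) : ℤ) ∣ a q - a q' := by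
    intro q hq q' hq' e1 e2 e3
    rw [hcol, hcol] at e3
    obtain ⟨e5, e6⟩ := BdsH_col (hjJ q hq) (hjJ q' hq') e3
    refine BdsH_lock (hwk q) (hcsq q hq) (hidx2 q hq q' hq' e2 e5) ?_
    have e4 : k q = k q' := by
      simp only [hk, e1, e2]
    simp only [hjc] at e6
    rw [← e4] at e6
    exact e6
  -- sizes of r
  have hrq : ∀ q ∈ F, r q ∣ q := fun q hq => (hF q hq).2.2.2.1
  have hr0 : ∀ q ∈ F, 0 < r q := fun q hq => Nat.pos_of_dvd_of_pos (hrq q hq) (Nat.pos_of_ne_zero (hq0 q hq))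
  have hrx : ∀ q ∈ F, (r q : ℝ) ≤ x := fun q hq =>
    le_trans (by exact_mod_cast Nat.le_of_dvd (Nat.pos_of_ne_zero (hq0 q hq)) (hrq q hq)) (hqx q hq)
  have hcx : ∀ q ∈ F, (c q : ℝ) ≤ x := fun q hq =>
    le_trans (by exact_mod_cast Nat.le_of_dvd (Nat.pos_of_ne_zero (hq0 q hq)) (hcq q hq)) (hqx q hq)
  have hvk : 0 ≤ va c0 δ κ ε + κ := by
    unfold va
    linarith
  have hsm : ∀ q ∈ F, ∀ n : ℕ, n ∣ q → ∀ p : ℕ, p.Prime → p ∣ q / n → (p : ℝ) ≤ x ^ κ := by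
    intro q hq n hnq p hp hpd
    exact (hF q hq).1.2.2.2 p hp (hpd.trans (Nat.div_dvd_of_dvd hnq))
  have hcl : ∀ q ∈ F, (c q : ℝ) ≤ x ^ (l' + ε / 16) := by
    intro q hq
    have : (c q : ℝ) = (w q : ℝ) * (k q : ℝ) := by exact_mod_cast (hwk q).symm
    rw [this, Real.rpow_add hx0]
    exact mul_le_mul (hF q hq).2.1.2.2 (hkx q hq) (Nat.cast_nonneg _) (Real.rpow_nonneg hx0.le _)
  -- v in the two cases
  have hex1 : ∀ q ∈ F, ∃ v : ℕ, v ∣ q / r q ∧ (v : ℝ) ≤ x ^ (va c0 δ κ ε + κ) ∧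
      (x ^ va c0 δ κ ε < (v : ℝ) ∨ v = q / r q) := by
    intro q hq
    by_cases hlt : x ^ (va c0 δ κ ε + κ) < ((q / r q : ℕ) : ℝ)
    · have hpos : 1 ≤ q / r q :=
        Nat.div_pos (Nat.le_of_dvd (Nat.pos_of_ne_zero (hq0 q hq)) (hrq q hq)) (hr0 q hq)
      obtain ⟨v, v1, v2, v3⟩ := BdsH_v h2 hpos hx1' hvk (hsm q hq (r q) (hrq q hq)) hlt
      exact ⟨v, v1, v2, Or.inl v3⟩
    · exact ⟨q / r q, dvd_rfl, not_lt.1 hlt, Or.inr rfl⟩
  have hex2 : ∀ q ∈ F, ∃ v : ℕ, v ∣ q / c q ∧ (v : ℝ) ≤ x ^ (va c0 δ κ ε + κ) ∧ x ^ va c0 δ κ ε < (v : ℝ) := by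
    intro q hq
    have hpos : 1 ≤ q / c q :=
      Nat.div_pos (Nat.le_of_dvd (Nat.pos_of_ne_zero (hq0 q hq)) (hcq q hq)) (Nat.pos_of_ne_zero (hc0' q hq))
    refine BdsH_v h2 hpos hx1' hvk (hsm q hq (c q) (hcq q hq)) ?_
    -- q / c > x^(vb+κ)
    have e1 : ((q / c q : ℕ) : ℝ) * (c q : ℝ) = q := by exact_mod_cast Nat.div_mul_cancel (hcq q hq)
    have e2 := hcl q hq
    have e3 : x ^ (1 / 2 - ε / 2) < (q : ℝ) := (hF q hq).1.2.2.1
    have e4 : (0 : ℝ) < x ^ (l' + ε / 16) := Real.rpow_pos_of_pos hx0 _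
    have e5 : x ^ (1 / 2 - ε / 2) < ((q / c q : ℕ) : ℝ) * x ^ (l' + ε / 16) := by
      refine lt_of_lt_of_le e3 ?_
      rw [← e1]
      exact mul_le_mul_of_nonneg_left e2 (Nat.cast_nonneg _)
    have e6 : x ^ (va c0 δ κ ε + κ) * x ^ (l' + ε / 16) ≤ x ^ (1 / 2 - ε / 2) := by
      rw [← Real.rpow_add hx0]
      refine Real.rpow_le_rpow_of_exponent_le hx1' ?_
      unfold va
      linarith
    exact lt_of_mul_lt_mul_right (lt_of_le_of_lt e6 e5) e4.le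
  choose! v1 hv1 using hex1
  choose! v2 hv2 using hex2
  have hDq : ∀ q ∈ F, ∀ ρ v : ℕ, ρ ∣ r q → v ∣ q / r q → DqK c0 δ κ ε x z N K (a q) q (r q) ρ v (col q) := by
    intro q hq ρ v hρ hv
    obtain ⟨⟨hMz, hg1, hlow, hsmq⟩, ⟨hw1, hw2, hw3⟩, htr, hrq', hrZ, hZr, hor⟩ := hF q hq
    exact ⟨⟨hMz.1, hg1, hMz.2.2.1, hlow⟩, ⟨hrq', hrZ, hZr,
      BdsH_pr (hq0 q hq) htr hrq' hMz.2.2.2.2⟩, hρ, hv, hcolK q hq⟩
  set Φ : ℕ → ℝ := fun q => ‖∑ m ∈ Ioc M (2 * M), ∑ n ∈ Ioc N (2 * N),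
    f m * g n * Dl (a q) (r q) (q / r q) (m * n)‖ with hΦ
  have hBd0 : 0 ≤ Bd C1 A1 η1 x T z := Bd_nonneg hC1 hT1 hx0.le hz
  have hrl : ∀ q ∈ F, x ^ l ≤ (r q : ℝ) := by
    intro q hq
    obtain ⟨⟨hMz, hg1, hlow, hsmq⟩, ⟨hw1, hw2, hw3⟩, htr, hrq', hrZ, hZr, hor⟩ := hF q hq
    have e1 : x ^ ((1 : ℝ) / 3 - ε) ≤ Nm c0 x N := by
      unfold Nm
      exact le_min hN (Real.rpow_le_rpow_of_exponent_le hx1' (by linarith))
    have e2 : x ^ (l + κ) ≤ Nm c0 x N * x ^ (-ε) := by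
      calc x ^ (l + κ) ≤ x ^ ((1 : ℝ) / 3 - ε + -ε) := Real.rpow_le_rpow_of_exponent_le hx1' (by linarith)
        _ = x ^ ((1 : ℝ) / 3 - ε) * x ^ (-ε) := Real.rpow_add hx0 _ _
        _ ≤ Nm c0 x N * x ^ (-ε) := mul_le_mul_of_nonneg_right e1 (Real.rpow_nonneg hx0.le _)
    have e3 : x ^ l * x ^ κ < (r q : ℝ) * x ^ κ := by
      rw [← Real.rpow_add hx0]
      exact lt_of_le_of_lt e2 hZr
    exact (lt_of_mul_lt_mul_right e3 (Real.rpow_nonneg hx0.le _)).le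
  -- first part
  have P1 : ∑ q ∈ F.filter (fun q => c q ∣ r q), Φ q ≤ T * (T * Bd C1 A1 η1 x T z) := by
    refine BdsH_split h3 hTx (mul_nonneg hT0 hBd0) _ c r Φ ?_ ?_
    · intro q hq
      rw [mem_filter] at hq
      exact ⟨hq.2, hr0 q hq.1, hrx q hq.1⟩
    · intro G hG hfun
      have hGF : ∀ q ∈ G, q ∈ F ∧ c q ∣ r q := fun q hq => mem_filter.1 (hG hq)
      refine BdsH_split h3 hTx hBd0 G w c Φ ?_ ?_
      · intro q hq
        exact ⟨hwc q, Nat.pos_of_ne_zero (hc0' q (hGF q hq).1), hcx q (hGF q hq).1⟩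
      · intro G' hG' hfun'
        have hG'F : ∀ q ∈ G', q ∈ F ∧ c q ∣ r q := fun q hq => hGF q (hG' hq)
        refine hBdr x T z a M N K f g G' r c v1 col hx1 hT hz hzx hNM hN hMN hMNx hK1 hKx hf hg ?_ ?_ ?_ ?_ ?_
        · intro q hq
          obtain ⟨i1, i2⟩ := hG'F q hq
          obtain ⟨j1, j2, j3⟩ := hv1 q i1
          exact hDq q i1 _ _ i2 j1
        · intro q hq
          obtain ⟨i1, i2⟩ := hG'F q hq
          obtain ⟨j1, j2, j3⟩ := hv1 q i1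
          refine ⟨(hF q i1).2.1.2.1.trans ?_, j3, j2⟩
          exact_mod_cast Nat.le_of_dvd (Nat.pos_of_ne_zero (hc0' q i1)) (hwc q)
        · intro q hq
          exact (hF q (hG'F q hq).1).1.2.2.2
        · intro q hq q' hq' he
          exact hfun q (hG' hq) q' (hG' hq') he
        · intro q hq q' hq' e1 _ e3
          exact hlock q (hG'F q hq).1 q' (hG'F q' hq').1 e1 (hfun' q hq q' hq' e1) e3
  -- second part
  have P2 : ∑ q ∈ F.filter (fun q => ¬ c q ∣ r q), Φ q ≤ T * (T * Bd C1 A1 η1 x T z) := by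
    have hrc : ∀ q ∈ F.filter (fun q => ¬ c q ∣ r q), q ∈ F ∧ r q ∣ c q := by
      intro q hq
      rw [mem_filter] at hq
      obtain ⟨⟨hMz, hg1, hlow, hsmq⟩, ⟨hw1, hw2, hw3⟩, htr, hrq', hrZ, hZr, hor⟩ := hF q hq.1
      rcases hor with h | h
      · exact absurd h hq.2
      · exact ⟨hq.1, h⟩
    -- q = c * (v * b), r * e = c
    have hfac : ∀ q ∈ F, r q ∣ c q → v2 q ∣ q / r q ∧ c q ∣ r q * (q / r q / v2 q) ∧
        1 ≤ r q * (q / r q / v2 q) ∧ (((r q * (q / r q / v2 q) : ℕ) : ℕ) : ℝ) ≤ x := by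
      intro q hq hrc'
      obtain ⟨j1, j2, j3⟩ := hv2 q hq
      obtain ⟨b, hb⟩ := j1
      obtain ⟨e, he⟩ := hrc'
      have hcq' : c q * (q / c q) = q := Nat.mul_div_cancel' (hcq q hq)
      have hqe : q = r q * (e * (v2 q * b)) := by
        calc q = c q * (q / c q) := hcq'.symm
          _ = (r q * e) * (v2 q * b) := by rw [hb, he]
          _ = r q * (e * (v2 q * b)) := by ring
      have hqr : q / r q = e * (v2 q * b) := Nat.div_eq_of_eq_mul_right (hr0 q hq) hqe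
      have hv0 : 0 < v2 q := by
        have : (0 : ℝ) < v2 q := lt_trans (Real.rpow_pos_of_pos hx0 _) j3
        exact_mod_cast this
      have hqv : q / r q / v2 q = e * b := by
        rw [hqr, show e * (v2 q * b) = v2 q * (e * b) by ring]
        exact Nat.mul_div_cancel_left _ hv0
      refine ⟨?_, ?_, ?_, ?_⟩
      · rw [hqr]
        exact ⟨e * b, by ring⟩
      · rw [hqv, he]
        exact ⟨b, by ring⟩
      · rw [hqv]
        refine Nat.mul_pos (hr0 q hq) (Nat.pos_of_ne_zero fun h0 => hq0 q hq ?_)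
        rw [hqe, show e * (v2 q * b) = v2 q * (e * b) by ring, h0, mul_zero, mul_zero]
      · refine le_trans ?_ (hqx q hq)
        have : r q * (q / r q / v2 q) ≤ q := by
          calc r q * (q / r q / v2 q) ≤ r q * (q / r q) := Nat.mul_le_mul_left _ (Nat.div_le_self _ _)
            _ ≤ q := Nat.mul_div_le _ _
        exact_mod_cast this
    refine BdsH_split h3 hTx (mul_nonneg hT0 hBd0) _ c (fun q => r q * (q / r q / v2 q)) Φ ?_ ?_
    · intro q hq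
      obtain ⟨i1, i2⟩ := hrc q hq
      obtain ⟨j1, j2, j3, j4⟩ := hfac q i1 i2
      exact ⟨j2, j3, j4⟩
    · intro G hG hfun
      have hGF : ∀ q ∈ G, q ∈ F ∧ r q ∣ c q := fun q hq => hrc q (hG hq)
      refine BdsH_split h3 hTx hBd0 G w c Φ ?_ ?_
      · intro q hq
        exact ⟨hwc q, Nat.pos_of_ne_zero (hc0' q (hGF q hq).1), hcx q (hGF q hq).1⟩
      · intro G' hG' hfun'
        have hG'F : ∀ q ∈ G', q ∈ F ∧ r q ∣ c q := fun q hq => hGF q (hG' hq)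
        refine hBdr x T z a M N K f g G' r r v2 col hx1 hT hz hzx hNM hN hMN hMNx hK1 hKx hf hg ?_ ?_ ?_ ?_ ?_
        · intro q hq
          obtain ⟨i1, i2⟩ := hG'F q hq
          obtain ⟨j1, j2, j3⟩ := hv2 q i1
          exact hDq q i1 _ _ dvd_rfl (hfac q i1 i2).1
        · intro q hq
          obtain ⟨i1, i2⟩ := hG'F q hq
          exact ⟨hrl q i1, Or.inl (hv2 q i1).2.2, (hv2 q i1).2.1⟩
        · intro q hq
          exact (hF q (hG'F q hq).1).1.2.2.2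
        · intro q _ q' _ he
          exact he
        · intro q hq q' hq' e1 e2 e3
          obtain ⟨i1, i2⟩ := hG'F q hq
          obtain ⟨i1', i2'⟩ := hG'F q' hq'
          have e4 : c q = c q' := hfun q (hG' hq) q' (hG' hq') (by rw [e2, e1])
          have e5 := hlock q i1 q' i1' e4 (hfun' q hq q' hq' e4) e3
          exact (Int.natCast_dvd_natCast.2 i2).trans e5
  have hsplit : ∑ q ∈ F, Φ q = ∑ q ∈ F.filter (fun q => c q ∣ r q), Φ q +
      ∑ q ∈ F.filter (fun q => ¬ c q ∣ r q), Φ q := (sum_filter_add_sum_filter_not F _ _).symm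
  rw [hsplit]
  refine (add_le_add P1 P2).trans (le_of_eq ?_)
  unfold MX.Bd
  ring

end Pool.Agent.Lib.SLB
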