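import Pool.Agent.Lib.SLB.SpecH

/-! MP_00e23e_nt, Lib/SLB, module BfiH: the bilinear theorem for smooth moduli and small locks (adapted from Lib/SLB/BfiK). -/

namespace Pool.Agent.Lib.SLB

open Finset Pool.Agent.Lib.EH3 Pool.Agent.Lib.TB Pool.Agent.Results.MP_00e23e_nt Pool.Agent.Lib.MI
open Pool.Agent.Lib.MX (Bd Mz Bd_nonneg Bd_mono rp_le rn_le log_le_T Tau_x)

/-- the divisor r of one modulus q -/
private lemma BfiH_div (h3 : MI.BgrStmt) {Z y : ℝ} {q t w : ℕ} (hq : 1 ≤ q) (hw : w ∣ q) (ht : t ∣ q)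
    (hZq : Z < (q : ℝ)) (htZ : (t : ℝ) ≤ Z) (hsm : ∀ p : ℕ, p.Prime → p ∣ q → (p : ℝ) ≤ y) :
    ∃ r : ℕ, t ∣ r ∧ r ∣ q ∧ (r : ℝ) ≤ Z ∧ Z < (r : ℝ) * y ∧ (Nat.lcm w t ∣ r ∨ r ∣ Nat.lcm w t) := by
  have hc : Nat.lcm w t ∣ q := Nat.lcm_dvd hw ht
  have htc : t ∣ Nat.lcm w t := Nat.dvd_lcm_right w t
  rcases le_or_gt ((Nat.lcm w t : ℕ) : ℝ) Z with hcZ | hcZ
  · obtain ⟨r, r1, r2, r3, r4⟩ := h3 q (Nat.lcm w t) Z y hq hc hcZ hZq (by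
      intro p hp hpd
      exact hsm p hp (hpd.trans (Nat.div_dvd_of_dvd hc)))
    exact ⟨r, htc.trans r1, r2, r3, r4, Or.inl r1⟩
  · have ht0 : 0 < t := Nat.pos_of_dvd_of_pos ht (by omega)
    have hw0 : 0 < w := Nat.pos_of_dvd_of_pos hw (by omega)
    obtain ⟨r, r1, r2, r3, r4⟩ := h3 (Nat.lcm w t) t Z y (Nat.lcm_pos hw0 ht0) htc htZ hcZ (by
      intro p hp hpd
      exact hsm p hp ((hpd.trans (Nat.div_dvd_of_dvd htc)).trans hc))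
    exact ⟨r, r1, r2.trans hc, r3, r4, Or.inr r2⟩

/-- exchange of the two variables -/
private lemma BfiH_swap (a : ℤ) (t q M N : ℕ) (f g : ℕ → ℂ) :
    ∑ m ∈ Ioc M (2 * M), ∑ n ∈ Ioc N (2 * N), f m * g n * Ek a t q (m * n) =
      ∑ n ∈ Ioc N (2 * N), ∑ m ∈ Ioc M (2 * M), g n * f m * Ek a t q (n * m) := by
  rw [sum_comm]
  refine sum_congr rfl fun n _ => sum_congr rfl fun m _ => ?_
  rw [mul_comm m n, mul_comm (f m) (g n)]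

/-- the bilinear theorem for N ≤ M -/
private lemma BfiH_core (h1 : BdsHStmt) (h2 : SL.BgeStmt) (h3 : MI.BgrStmt) {c δ κ l l' ε : ℝ}
    (hP : ParH c δ κ l ε) (hl : l' + 12 * ε ≤ 1 / 2) (hB : BiHStmt c δ κ l ε) : ∃ (η C x0 : ℝ) (A0 : ℕ), 0 < η ∧ 0 ≤ C ∧
    ∀ (x T z : ℝ) (a : ℕ → ℤ) (M N : ℕ) (f g : ℕ → ℂ) (F : Finset ℕ) (t : ℕ → ℕ), x0 ≤ x →
    Tau (x ^ (30 : ℝ)) T → 1 ≤ z → z ≤ x → N ≤ M → x ^ ((1 : ℝ) / 3 - ε) ≤ N →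
    x ^ (1 - ε) ≤ (M : ℝ) * N → (M : ℝ) * N ≤ x → (∀ m, ‖f m‖ ≤ 1) → (∀ n, ‖g n‖ ≤ 1) →
    (∀ q ∈ F, Mz (1 / 2 + δ) (ε / 16) z x (t q) q ∧ Int.gcd (a q) q = 1) → SLA.Lkc c 0 κ l l' x a t F →
    ∑ q ∈ F, ‖∑ m ∈ Ioc M (2 * M), ∑ n ∈ Ioc N (2 * N), f m * g n * Ek (a q) (t q) q (m * n)‖ ≤
      MX.Bd C A0 η x T z := by
  classical
  obtain ⟨⟨hc, hc1⟩, ⟨hδ, hδ1⟩, ⟨hκ, hκ1⟩, hp1, hp2, hp3⟩ := id hP
  have hε : 0 < ε := lt_of_lt_of_le hκ hκ1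
  have hε1 : ε < 1 / 100 := by linarith
  obtain ⟨ηd, Cd, xd, Ad, hηd, hCd, hds⟩ := h1 c δ κ l l' ε hP hl hB
  obtain ⟨Cg, xg, Ag, hCg, hge⟩ := h2 δ ε hδ (by linarith) hε hε1
  refine ⟨min ηd (ε / 2), Cd + Cg, max (max xd xg) 1, max Ad Ag, lt_min hηd (by linarith), by positivity, ?_⟩
  intro x T z a M N f g F t hx hT hz hzx hNM hN hMN1 hMN2 hf hg hF hΦ
  have hxd : xd ≤ x := ((le_max_left _ _).trans (le_max_left _ _)).trans hx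
  have hxg : xg ≤ x := ((le_max_right _ _).trans (le_max_left _ _)).trans hx
  have hx1 : 1 ≤ x := (le_max_right _ _).trans hx
  have hx0 : 0 < x := by linarith
  have hT1 : 1 ≤ T := hT.1
  obtain ⟨w, m, hwm, hcl⟩ := hΦ
  have hNpos : (0 : ℝ) < N := lt_of_lt_of_le (Real.rpow_pos_of_pos hx0 _) hN
  have hNMR : (N : ℝ) ≤ M := by exact_mod_cast hNM
  have hN2 : (N : ℝ) ≤ x ^ ((1 : ℝ) / 2) := by
    rw [← Real.sqrt_eq_rpow]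
    refine Real.le_sqrt_of_sq_le ?_
    nlinarith
  have hm1 : Nm c x N ≤ x ^ ((1 : ℝ) / 2) := (min_le_left _ _).trans hN2
  have hm2 : x ^ ((1 : ℝ) / 3 - ε) ≤ Nm c x N :=
    le_min hN (Real.rpow_le_rpow_of_exponent_le hx1 (by linarith))
  obtain ⟨Z, hZ⟩ : ∃ Z : ℝ, Z = Nm c x N * x ^ (-ε) := ⟨_, rfl⟩
  have hZ1 : Z ≤ x ^ (1 / 2 - ε / 2) := by
    rw [hZ]
    calc Nm c x N * x ^ (-ε) ≤ x ^ ((1 : ℝ) / 2) * x ^ (-ε) :=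
          mul_le_mul_of_nonneg_right hm1 (Real.rpow_nonneg hx0.le _)
      _ = x ^ ((1 : ℝ) / 2 + -ε) := (Real.rpow_add hx0 _ _).symm
      _ ≤ x ^ (1 / 2 - ε / 2) := Real.rpow_le_rpow_of_exponent_le hx1 (by linarith)
  have hZ3 : x ^ (ε / 16) ≤ Z := by
    rw [hZ]
    calc x ^ (ε / 16) ≤ x ^ ((1 : ℝ) / 3 - ε + -ε) :=
          Real.rpow_le_rpow_of_exponent_le hx1 (by linarith)
      _ = x ^ ((1 : ℝ) / 3 - ε) * x ^ (-ε) := Real.rpow_add hx0 _ _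
      _ ≤ Nm c x N * x ^ (-ε) := mul_le_mul_of_nonneg_right hm2 (Real.rpow_nonneg hx0.le _)
  have hsmo : ∀ q ∈ F, ∀ p : ℕ, p.Prime → p ∣ q → (p : ℝ) ≤ x ^ κ := by
    intro q hq p hp hpq
    obtain ⟨⟨e1, e2, e3, e4, e5⟩, e6⟩ := hF q hq
    obtain ⟨⟨d1, d2, d3⟩, d4, d5, d6⟩ := hwm q hq
    have hq0 : 0 < q := Nat.pos_of_ne_zero e1.ne_zero
    have hm0 : 0 < m q := Nat.pos_of_dvd_of_pos (d1.trans d4) hq0
    rw [Real.rpow_zero] at d2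
    have hm1 : m q ≤ 1 := by exact_mod_cast d2
    have hm : m q = 1 := le_antisymm hm1 hm0
    rw [hm, Nat.div_one] at d3
    exact d3 p hp hpq
  have hex : ∀ q : ℕ, ∃ r : ℕ, q ∈ F → x ^ (1 / 2 - ε / 2) < (q : ℝ) →
      (t q ∣ r ∧ r ∣ q ∧ (r : ℝ) ≤ Z ∧ Z < (r : ℝ) * x ^ κ ∧
        (Nat.lcm (w q) (t q) ∣ r ∨ r ∣ Nat.lcm (w q) (t q))) := by
    intro q
    by_cases hq : q ∈ F
    · by_cases hq2 : x ^ (1 / 2 - ε / 2) < (q : ℝ)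
      · obtain ⟨⟨e1, e2, e3, e4, e5⟩, e6⟩ := hF q hq
        obtain ⟨⟨d1, d2, d3⟩, d4, d5, d6⟩ := hwm q hq
        have hq1 : 1 ≤ q := Nat.one_le_iff_ne_zero.2 e1.ne_zero
        have hmt : (t q : ℝ) ≤ Z := e4.trans hZ3
        obtain ⟨r, hr⟩ := BfiH_div h3 hq1 d4 e2 (lt_of_le_of_lt hZ1 hq2) hmt (hsmo q hq)
        exact ⟨r, fun _ _ => hr⟩
      · exact ⟨0, fun _ h => absurd h hq2⟩
    · exact ⟨0, fun h => absurd h hq⟩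
  choose r hr using hex
  obtain ⟨F2, hF2⟩ : ∃ F2 : Finset ℕ, F2 = F.filter (fun q : ℕ => x ^ (1 / 2 - ε / 2) < (q : ℝ)) := ⟨_, rfl⟩
  have hF2m : ∀ q ∈ F2, q ∈ F ∧ x ^ (1 / 2 - ε / 2) < (q : ℝ) := by
    intro q hq
    rw [hF2, mem_filter] at hq
    exact hq
  have hge' := hge (ε / 16) x T z a M N f g F t (fun q => r q / t q) hxg hT hz hzx hNM hN hMN1 hMN2 hf hg hF (by
    intro q hq hq2
    obtain ⟨i2, i3, i4, i5, i6⟩ := hr q hq hq2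
    obtain ⟨⟨e1, e2, e3, e4, e5⟩, e6⟩ := hF q hq
    refine ⟨Nat.div_dvd_div i2 i3, ?_⟩
    rw [Nat.mul_div_cancel' i2]
    exact i4.trans hZ1)
  have hds' := hds x T z a M N f g F2 t w r hxd hT hz hzx hNM hN hMN1 hMN2 hf hg (by
    intro q hq
    obtain ⟨hq1, hq2⟩ := hF2m q hq
    obtain ⟨i2, i3, i4, i5, i6⟩ := hr q hq1 hq2
    obtain ⟨⟨d1, d2, d3⟩, d4, d5, d6⟩ := hwm q hq1
    rw [hZ] at i4 i5
    exact ⟨⟨(hF q hq1).1, (hF q hq1).2, hq2, hsmo q hq1⟩, ⟨d4, d5, d6⟩, i2, i3, i4, i5, i6⟩) (by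
    intro r0
    refine le_trans ?_ (hcl r0)
    have hsub : F2 ⊆ F := fun q hq => (hF2m q hq).1
    exact_mod_cast card_le_card (image_subset_image (filter_subset_filter _ hsub)))
  have hsum : ∑ q ∈ F.filter (fun q : ℕ => x ^ (1 / 2 - ε / 2) < (q : ℝ)), ‖∑ m ∈ Ioc M (2 * M), ∑ n ∈ Ioc N (2 * N),
      f m * g n * Dl (a q) (t q * (r q / t q)) (q / (t q * (r q / t q))) (m * n)‖ =
      ∑ q ∈ F2, ‖∑ m ∈ Ioc M (2 * M), ∑ n ∈ Ioc N (2 * N), f m * g n * Dl (a q) (r q) (q / r q) (m * n)‖ := by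
    rw [← hF2]
    refine sum_congr rfl fun q hq => ?_
    obtain ⟨hq1, hq2⟩ := hF2m q hq
    rw [Nat.mul_div_cancel' (hr q hq1 hq2).1]
  have hge2 := hge'
  rw [hsum] at hge2
  have c1 : MX.Bd Cd Ad ηd x T z ≤ MX.Bd Cd (max Ad Ag) (min ηd (ε / 2)) x T z :=
    Bd_mono hCd le_rfl (le_max_left _ _) (min_le_left _ _) hT1 hx0.le hz
  have c2 : MX.Bd Cg Ag (ε / 2) x T z ≤ MX.Bd Cg (max Ad Ag) (min ηd (ε / 2)) x T z :=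
    Bd_mono hCg le_rfl (le_max_right _ _) (min_le_right _ _) hT1 hx0.le hz
  calc _ ≤ MX.Bd Cd (max Ad Ag) (min ηd (ε / 2)) x T z + MX.Bd Cg (max Ad Ag) (min ηd (ε / 2)) x T z :=
        hge2.trans (add_le_add (hds'.trans c1) c2)
    _ = MX.Bd (Cd + Cg) (max Ad Ag) (min ηd (ε / 2)) x T z := by
        unfold MX.Bd
        ring

theorem tBfiH (h1 : BdsHStmt) (h2 : SL.BgeStmt) (h3 : MI.BgrStmt) : BfiHStmt := by
  intro c δ κ l l' ε hP hl hB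
  obtain ⟨η, C, x0, A0, hη, hC, h⟩ := BfiH_core h1 h2 h3 hP hl hB
  refine ⟨η, C, x0, A0, hη, hC, ?_⟩
  intro x T z a M N f g F t hx hT hz hzx hN hM hMN1 hMN2 hf hg hF hΦ
  rcases le_total N M with hNM | hNM
  · exact h x T z a M N f g F t hx hT hz hzx hNM hN hMN1 hMN2 hf hg hF hΦ
  · have := h x T z a N M g f F t hx hT hz hzx hNM hM (by rw [mul_comm]; exact hMN1)
      (by rw [mul_comm]; exact hMN2) hg hf hF hΦ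
    refine le_trans (le_of_eq ?_) this
    refine sum_congr rfl fun q _ => ?_
    rw [BfiH_swap]

end Pool.Agent.Lib.SLB
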