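import Pool.Agent.Lib.SLB.SpecH

set_option autoImplicit false

/-!
One g: admissible coefficients, weights supported on gcd(n1, n2) ≤ t0 (MODEL: Lib/SLB/BgaK.lean).
-/

namespace Pool.Agent.Lib.SLB

open Finset Pool.Agent.Lib.EH3 Pool.Agent.Lib.TB Pool.Agent.Results.MP_00e23e_nt Pool.Agent.Lib.MI
open Pool.Agent.Lib.MX (Bd Mz Bd_nonneg Bd_mono rp_le rn_le log_le_T Tau_x)

private theorem BgaH_b {a : ℕ → ℕ → ℤ} {ρ : ℕ → ℕ} {v col : ℕ → ℕ → ℕ} {K R0 V : ℕ} {P : Finset (ℕ × ℕ)}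
    (hLp : Lp a ρ v col K R0 V P) : ∃ b : ℕ → ℕ → ℕ → ℤ, ∀ r s, (r, s) ∈ P →
      ((ρ r : ℕ) : ℤ) ∣ a r s - b (ρ r) (s / v r s) (col r s) := by
  classical
  refine ⟨fun ρ' u c => if h : ∃ w ∈ P, ρ w.1 = ρ' ∧ w.2 / v w.1 w.2 = u ∧ col w.1 w.2 = c then
    a h.choose.1 h.choose.2 else 0, fun r s hrs => ?_⟩
  have hex : ∃ w ∈ P, ρ w.1 = ρ r ∧ w.2 / v w.1 w.2 = s / v r s ∧ col w.1 w.2 = col r s :=
    ⟨(r, s), hrs, rfl, rfl, rfl⟩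
  dsimp only
  rw [dif_pos hex]
  obtain ⟨h1, h2, h3, h4⟩ := hex.choose_spec
  exact hLp.2 (r, s) hrs hex.choose h1 h2.symm h3.symm h4.symm

private theorem BgaH_root {Y V g E0 : ℝ} (hV : 0 < V) (hg : 0 < g) :
    Real.sqrt (Y / (V ^ 2 * g) + Y ^ 2 * E0) = g * Real.sqrt (Y / (V ^ 2 * g ^ 3) + (Y / g) ^ 2 * E0) := by
  have h : Y / (V ^ 2 * g) + Y ^ 2 * E0 = g ^ 2 * (Y / (V ^ 2 * g ^ 3) + (Y / g) ^ 2 * E0) := by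
    field_simp
  rw [h, Real.sqrt_mul (sq_nonneg g), Real.sqrt_sq hg.le]

theorem tBgaH (h1 : BdhStmt) : BgaHStmt := by
  intro D E0 a ρ v col g K R S M N H Y0 R0 V t0 P γ ω hD hE0 hg hR hS hM hN hY0 hV h4 hCg hω ht hLp hHg
  have hgR : (0 : ℝ) < g := by exact_mod_cast hg
  have hVR : (0 : ℝ) < V := by exact_mod_cast hV
  have hRR : (0 : ℝ) < R := by exact_mod_cast hR
  have hSR : (0 : ℝ) < S := by exact_mod_cast hS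
  have hYR : (0 : ℝ) ≤ Y0 := Nat.cast_nonneg _
  obtain ⟨b, hb⟩ := BgaH_b hLp
  set W : ℝ := (Y0 : ℝ) / ((V : ℝ) ^ 2 * (g : ℝ) ^ 3) + ((Y0 : ℝ) / g) ^ 2 * E0 with hW
  have hW0 : 0 ≤ W := by positivity
  set F : ℝ := Real.sqrt D * ((S : ℝ) ^ 2 * (N : ℝ) ^ 2) * Real.sqrt W with hF
  have hF0 : 0 ≤ F := by positivity
  have hF2 : F ^ 2 = D * ((S : ℝ) ^ 2 * (N : ℝ) ^ 2) ^ 2 * W := by
    rw [hF, mul_pow, mul_pow, Real.sq_sqrt hD, Real.sq_sqrt hW0]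
  have key := h1 a g R S M N H Y0 P γ ω F hg hR hS hM hY0 h4 hF0 hCg
    (by
      intro i Hs γ' hi hHs hγ1 hγ2
      have hpos : 1 ≤ 2 ^ i * Y0 := Nat.mul_pos (Nat.two_pow_pos i) hY0
      have hsq := hHg (2 ^ i * Y0) Hs γ' ω b hpos hi hHs hγ1 hω ht hγ2
        (by
          intro h r s1 s2 hne
          obtain ⟨hp1, hp2, -⟩ := hγ2 h r s1 s2 hne
          exact ⟨(hLp.1 (r, s1) hp1).1, (hLp.1 (r, s1) hp1).2.1, (hLp.1 (r, s2) hp2).2.1,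
            ⟨(hLp.1 (r, s1) hp1).2.2, hb r s1 hp1⟩, ⟨(hLp.1 (r, s2) hp2).2.2, hb r s2 hp2⟩⟩)
      refine (pow_le_pow_iff_left₀ (norm_nonneg _) (by positivity) two_ne_zero).1 (hsq.trans ?_)
      rw [mul_pow (2 ^ i) F 2, hF2]
      have hi1 : (1 : ℝ) ≤ 2 ^ i := one_le_pow₀ (by norm_num)
      have hA : 0 ≤ (Y0 : ℝ) / ((V : ℝ) ^ 2 * (g : ℝ) ^ 3) := by positivity
      have h5 : ((2 ^ i * Y0 : ℕ) : ℝ) / ((V : ℝ) ^ 2 * (g : ℝ) ^ 3) +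
          (((2 ^ i * Y0 : ℕ) : ℝ) / g) ^ 2 * E0 ≤ (2 ^ i) ^ 2 * W := by
        have e1 : ((2 ^ i * Y0 : ℕ) : ℝ) / ((V : ℝ) ^ 2 * (g : ℝ) ^ 3) =
            2 ^ i * ((Y0 : ℝ) / ((V : ℝ) ^ 2 * (g : ℝ) ^ 3)) := by
          push_cast
          ring
        have e2 : (((2 ^ i * Y0 : ℕ) : ℝ) / g) ^ 2 * E0 = (2 ^ i) ^ 2 * (((Y0 : ℝ) / g) ^ 2 * E0) := by
          push_cast
          ring
        have e3 : (2 : ℝ) ^ i * ((Y0 : ℝ) / ((V : ℝ) ^ 2 * (g : ℝ) ^ 3)) ≤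
            (2 ^ i) ^ 2 * ((Y0 : ℝ) / ((V : ℝ) ^ 2 * (g : ℝ) ^ 3)) := by
          refine mul_le_mul_of_nonneg_right ?_ hA
          nlinarith only [hi1]
        rw [e1, e2, hW, mul_add]
        linarith only [e3]
      have h6 : 0 ≤ D * ((S : ℝ) ^ 2 * (N : ℝ) ^ 2) ^ 2 := by positivity
      have h7 := mul_le_mul_of_nonneg_left h5 h6
      have h8 : D * ((S : ℝ) ^ 2 * (N : ℝ) ^ 2) ^ 2 * ((2 ^ i) ^ 2 * W) =
          (2 ^ i) ^ 2 * (D * ((S : ℝ) ^ 2 * (N : ℝ) ^ 2) ^ 2 * W) := by ring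
      exact h7.trans (le_of_eq h8))
  refine key.trans (le_of_eq ?_)
  rw [BgaH_root hVR hgR, ← hW, hF]
  field_simp

end Pool.Agent.Lib.SLB
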