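import Pool.Agent.Lib.SLB.SpecB

/-!
MP_00e23e_nt, directory Lib/SLB, module Bnb: numbers of case II, one van der Corput step.
-/

set_option autoImplicit false

namespace Pool.Agent.Lib.SLB

open Finset Pool.Agent.Lib.EH3 Pool.Agent.Lib.TB Pool.Agent.Results.MP_00e23e_nt Pool.Agent.Lib.MI
open Pool.Agent.Lib.MX (Bd Mz Bd_nonneg Bd_mono rp_le rn_le log_le_T Tau_x)

private lemma Bnb_mul {x ε a b c : ℝ} (hx : 1 ≤ x) (h64 : 64 ≤ x ^ ε) (hc : c ≤ 64)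
    (hab : a + ε ≤ b) : c * x ^ a ≤ x ^ b := by
  have hx0 : 0 < x := by linarith
  have h1 : 0 < x ^ a := Real.rpow_pos_of_pos hx0 a
  calc c * x ^ a ≤ x ^ ε * x ^ a := by nlinarith
    _ = x ^ (a + ε) := by rw [← Real.rpow_add hx0, add_comm]
    _ ≤ x ^ b := Real.rpow_le_rpow_of_exponent_le hx hab

theorem tBnb : BnbStmt := by
  intro δ κ ε hδ hκ hε hε1 hpar
  have h64e : (64 : ℝ) ^ (1 / ε) ≥ 1 := Real.one_le_rpow (by norm_num) (by positivity)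
  refine ⟨(64 : ℝ) ^ (1 / ε), h64e, ?_⟩
  intro x M N R S V G hx0 hB hV hG
  have hx : 1 ≤ x := le_trans h64e hx0
  have hxp : 0 < x := by linarith
  have h64 : 64 ≤ x ^ ε := by
    have h1 : ((64 : ℝ) ^ (1 / ε)) ^ ε ≤ x ^ ε :=
      Real.rpow_le_rpow (by positivity) hx0 hε.le
    rw [← Real.rpow_mul (by norm_num), one_div, inv_mul_cancel₀ hε.ne', Real.rpow_one] at h1
    exact h1
  obtain ⟨hNM, hN, hMN1, hMN2, hS1, hR1, hR2, hRS, hRS4⟩ := hB
  have hhdef : hh δ κ ε = 4 * δ + 2 * κ + 10 * ε := rfl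
  have hvdef : vv δ κ ε = δ + κ / 2 + 7 / 2 * ε := rfl
  have hX : 64 ≤ x ^ (4 * hh δ κ ε) := by
    have := Bnb_mul (a := 0) (b := 4 * hh δ κ ε) (c := 64) hx h64 le_rfl
      (by rw [hhdef]; linarith)
    rwa [Real.rpow_zero, mul_one] at this
  have hNpos : (0 : ℝ) < N := lt_of_lt_of_le (Real.rpow_pos_of_pos hxp _) hN
  have hpos : ∀ a : ℝ, 0 < x ^ a := fun a => Real.rpow_pos_of_pos hxp a
  refine ⟨?_, ?_, ?_, ?_, ?_, ?_⟩
  · refine Nat.le_floor ?_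
    push_cast
    linarith
  · refine Nat.floor_mono (Real.rpow_le_rpow_of_exponent_le hx ?_)
    linarith
  · -- 16 L' S V ≤ N
    have hL : ((⌊x ^ (4 * hh δ κ ε + κ)⌋₊ : ℕ) : ℝ) ≤ x ^ (4 * hh δ κ ε + κ) :=
      Nat.floor_le (hpos _).le
    have hSN : (S : ℝ) * N ≤ 2 * x ^ (1 / 2 + δ + ε + κ) := by
      have h1 : (S : ℝ) * (N * x ^ (-ε - κ)) ≤ S * (2 * R) :=
        mul_le_mul_of_nonneg_left hR2 (Nat.cast_nonneg _)
      have h2 : (S : ℝ) * (N * x ^ (-ε - κ)) ≤ 2 * x ^ (1 / 2 + δ) := by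
        calc (S : ℝ) * (N * x ^ (-ε - κ)) ≤ S * (2 * R) := h1
          _ = 2 * ((R : ℝ) * S) := by ring
          _ ≤ 2 * x ^ (1 / 2 + δ) := by linarith
      have h3 : (S : ℝ) * N = (S : ℝ) * (N * x ^ (-ε - κ)) * x ^ (ε + κ) := by
        have : x ^ (-ε - κ) * x ^ (ε + κ) = 1 := by
          rw [← Real.rpow_add hxp]
          have : -ε - κ + (ε + κ) = 0 := by ring
          rw [this, Real.rpow_zero]
        calc (S : ℝ) * N = S * N * (x ^ (-ε - κ) * x ^ (ε + κ)) := by rw [this, mul_one]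
          _ = (S : ℝ) * (N * x ^ (-ε - κ)) * x ^ (ε + κ) := by ring
      rw [h3]
      calc (S : ℝ) * (N * x ^ (-ε - κ)) * x ^ (ε + κ) ≤ 2 * x ^ (1 / 2 + δ) * x ^ (ε + κ) :=
            mul_le_mul_of_nonneg_right h2 (hpos _).le
        _ = 2 * (x ^ (1 / 2 + δ) * x ^ (ε + κ)) := by ring
        _ = 2 * x ^ (1 / 2 + δ + ε + κ) := by
            rw [← Real.rpow_add hxp]
            congr 2
            ring
    have hN2 : x ^ (2 / 3 - 2 * ε) ≤ (N : ℝ) * N := by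
      have h1 : x ^ (2 / 3 - 2 * ε) = x ^ ((1 : ℝ) / 3 - ε) * x ^ ((1 : ℝ) / 3 - ε) := by
        rw [← Real.rpow_add hxp]
        congr 1
        ring
      rw [h1]
      exact mul_le_mul hN hN (hpos _).le hNpos.le
    have hall : ((16 * ⌊x ^ (4 * hh δ κ ε + κ)⌋₊ * S * V : ℕ) : ℝ) * N ≤ (N : ℝ) * N := by
      push_cast
      calc (16 : ℝ) * (⌊x ^ (4 * hh δ κ ε + κ)⌋₊ : ℕ) * S * V * N
          = 16 * ((⌊x ^ (4 * hh δ κ ε + κ)⌋₊ : ℕ) : ℝ) * (V : ℝ) * ((S : ℝ) * N) := by ring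
        _ ≤ 16 * x ^ (4 * hh δ κ ε + κ) * x ^ (vv δ κ ε + κ) * (2 * x ^ (1 / 2 + δ + ε + κ)) := by
            have h1 : 16 * ((⌊x ^ (4 * hh δ κ ε + κ)⌋₊ : ℕ) : ℝ) * (V : ℝ) ≤
                16 * x ^ (4 * hh δ κ ε + κ) * x ^ (vv δ κ ε + κ) :=
              mul_le_mul (by linarith) hV (Nat.cast_nonneg _) (by positivity)
            exact mul_le_mul h1 hSN (by positivity) (by positivity)
        _ = 32 * x ^ (4 * hh δ κ ε + κ + (vv δ κ ε + κ) + (1 / 2 + δ + ε + κ)) := by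
            rw [Real.rpow_add hxp (4 * hh δ κ ε + κ + (vv δ κ ε + κ)),
              Real.rpow_add hxp (4 * hh δ κ ε + κ)]
            ring
        _ ≤ x ^ (2 / 3 - 2 * ε) := by
            refine Bnb_mul hx h64 (by norm_num) ?_
            rw [hhdef, hvdef]
            linarith
        _ ≤ (N : ℝ) * N := hN2
    have h2 := le_of_mul_le_mul_right hall hNpos
    exact_mod_cast h2
  · -- G ^ 4 ≤ L
    refine Nat.le_floor ?_
    push_cast
    calc (G : ℝ) ^ 4 ≤ (x ^ vv δ κ ε) ^ 4 := pow_le_pow_left₀ (Nat.cast_nonneg _) hG 4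
      _ = x ^ (vv δ κ ε * 4) := by
          rw [← Real.rpow_natCast, ← Real.rpow_mul hxp.le]
          norm_num
      _ ≤ x ^ (4 * hh δ κ ε) := by
          refine Real.rpow_le_rpow_of_exponent_le hx ?_
          rw [hhdef, hvdef]
          linarith
  · -- the fourth root
    have hL : x ^ (4 * hh δ κ ε) / 16 ≤ ((⌊x ^ (4 * hh δ κ ε)⌋₊ : ℕ) : ℝ) := by
      have h1 := Nat.lt_floor_add_one (x ^ (4 * hh δ κ ε))
      linarith
    have h4 : (x ^ hh δ κ ε / 2) ^ 4 = x ^ (4 * hh δ κ ε) / 16 := by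
      rw [div_pow, ← Real.rpow_natCast, ← Real.rpow_mul hxp.le]
      norm_num
      congr 1
      ring
    have hp : 0 < x ^ hh δ κ ε / 2 := by
      have := hpos (hh δ κ ε)
      positivity
    have h5 : x ^ hh δ κ ε / 2 ≤ Real.sqrt (Real.sqrt (⌊x ^ (4 * hh δ κ ε)⌋₊ : ℕ)) := by
      refine Real.le_sqrt_of_sq_le (Real.le_sqrt_of_sq_le ?_)
      rw [← pow_mul]
      norm_num
      rw [h4]
      exact hL
    calc 1 / Real.sqrt (Real.sqrt (⌊x ^ (4 * hh δ κ ε)⌋₊ : ℕ)) ≤ 1 / (x ^ hh δ κ ε / 2) :=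
          one_div_le_one_div_of_le hp h5
      _ = 2 * x ^ (-hh δ κ ε) := by
          rw [Real.rpow_neg hxp.le, one_div_div]
          rfl
  · -- x ^ (4 hh + κ) < R
    have h1 : x ^ ((1 : ℝ) / 3 - ε) * x ^ (-ε - κ) ≤ 2 * R :=
      le_trans (mul_le_mul_of_nonneg_right hN (hpos _).le) hR2
    rw [← Real.rpow_add hxp] at h1
    have h2 : 64 * x ^ (4 * hh δ κ ε + κ) ≤ x ^ ((1 : ℝ) / 3 - ε + (-ε - κ)) := by
      refine Bnb_mul hx h64 le_rfl ?_
      rw [hhdef]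
      linarith
    have h3 := hpos (4 * hh δ κ ε + κ)
    linarith

end Pool.Agent.Lib.SLB
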