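import Pool.Agent.Lib.SLB.SpecK
import Pool.Agent.Lib.SLH.DefH

/-!
MP_00e23e_nt, project SL, P2 (a lock of arbitrarily small size l > 0), chapter B (helper90): from SLH.DspGStmt and the bound
BiHStmt of the sums TG to the bilinear theorem SLA.BlStmt (SLA.Lkc c 0 κ l l') (1/2+δ) (ε/16) ε for 0 < l ≤ 1/4, l' + 12 ε ≤ 1/2,
0 ≤ c, δ ≤ ε, 0 < κ ≤ ε ≤ 1/600; BiHStmt from SLH.THStmt for ε ≤ e0(l) (module BinH).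
RULES. Module X: file Pool/Agent/Lib/SLB/X.lean, first line `import Pool.Agent.Lib.SLB.SpecH`, then `namespace Pool.Agent.Lib.SLB`
and the two `open` lines below; private lemmas with names starting with X_, final theorem `theorem tX (h1 : AStmt) ... : XStmt`; the
statements listed under Uses are hypotheses of your theorem, in this order. The docstring contains a complete proof. MODEL file: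
copy it and change it. Never use congr!. Every module below 60 s.
Differences from SpecK: one case only (x^l ≤ 2 R0, exponent va), all primes of r s are ≤ x^κ, the weights ω are supported on
gcd(n1, n2) ≤ t0 = H. BfaK, BncK, BclK, Bdh, Bsg are used as they are (BfaK, BncK with l := 1/3 + 4δ + 8/3 c + κ + 8ε).
-/

namespace Pool.Agent.Lib.SLB

open Finset Pool.Agent.Lib.EH3 Pool.Agent.Lib.TB Pool.Agent.Results.MP_00e23e_nt Pool.Agent.Lib.MI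
open Pool.Agent.Lib.MX (Bd Mz Bd_nonneg Bd_mono rp_le rn_le log_le_T Tau_x)

/-- the parameters -/
def ParH (c δ κ l ε : ℝ) : Prop := (0 ≤ c ∧ c ≤ ε) ∧ (0 ≤ δ ∧ δ ≤ ε) ∧ (0 < κ ∧ κ ≤ ε) ∧ 600 * ε ≤ 1 ∧ 0 < l ∧ l ≤ 1 / 4

/-- ParH contains ParK for the lock exponent of phase 2 -/
theorem ParH.parK {c δ κ l ε : ℝ} (h : ParH c δ κ l ε) : ParK c δ κ (1 / 3 + 4 * δ + 8 / 3 * c + κ + 8 * ε) ε := by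
  obtain ⟨⟨h1, h2⟩, ⟨h3, h4⟩, ⟨h5, h6⟩, h7, h8, h9⟩ := h
  exact ⟨⟨h1, h3, h5, by linarith, by linarith⟩, by linarith, le_rfl⟩

/-- the hypothesis on the sums TG for one g, with colours and weights supported on gcd(n1, n2) ≤ t0 -/
def HgH (a : ℕ → ℕ → ℤ) (ρ : ℕ → ℕ) (v col : ℕ → ℕ → ℕ) (K g R S N R0 V Hm t0 : ℕ) (P : Finset (ℕ × ℕ)) (D E : ℝ) : Prop :=
  ∀ (H' : ℕ) (Hs : Finset ℤ) (γ : ℤ → ℕ → ℕ → ℕ → ℂ) (ω : ℕ → ℕ → ℂ) (b : ℕ → ℕ → ℕ → ℤ), 1 ≤ H' → H' ≤ Hm →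
  (∀ h ∈ Hs, h ≠ 0 ∧ |h| ≤ (H' : ℤ)) → (∀ h r s1 s2, ‖γ h r s1 s2‖ ≤ 1) → (∀ n1 n2, ‖ω n1 n2‖ ≤ 1) →
  (∀ n1 n2, ω n1 n2 ≠ 0 → Nat.gcd n1 n2 ≤ t0) →
  (∀ h r s1 s2, γ h r s1 s2 ≠ 0 → (r, s1) ∈ P ∧ (r, s2) ∈ P ∧ (2 ≤ g → SL.ND (a r s1) (a r s2) (r * g) N)) →
  LtK a b ρ v col K R0 V γ →
  ‖∑ h ∈ Hs, SL.TG a g h R S N (γ h) ω‖ ^ 2 ≤ D * ((S : ℝ) ^ 2 * (N : ℝ) ^ 2) ^ 2 *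
    ((H' : ℝ) / ((V : ℝ) ^ 2 * (g : ℝ) ^ 3) + ((H' : ℝ) / g) ^ 2 * E)

/-- Module BgaH (theorem tBgaH; one g, admissible coefficients). Uses: BdhStmt. MODEL: Lib/SLB/BgaK.lean (one more hypothesis on ω). -/
def BgaHStmt : Prop := ∀ (D E0 : ℝ) (a : ℕ → ℕ → ℤ) (ρ : ℕ → ℕ) (v col : ℕ → ℕ → ℕ) (g K R S M N H Y0 R0 V t0 : ℕ)
    (P : Finset (ℕ × ℕ)) (γ : ℤ → ℕ → ℕ → ℕ → ℂ) (ω : ℕ → ℕ → ℂ), 0 ≤ D → 0 ≤ E0 → 1 ≤ g → 1 ≤ R → 1 ≤ S → 1 ≤ M →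
  1 ≤ N → 1 ≤ Y0 → 1 ≤ V → 4 * (R * S ^ 2) ≤ M * g * Y0 → SL.Cg a P g R S M N γ → (∀ n1 n2, ‖ω n1 n2‖ ≤ 1) →
  (∀ n1 n2, ω n1 n2 ≠ 0 → Nat.gcd n1 n2 ≤ t0) →
  Lp a ρ v col K R0 V P → HgH a ρ v col K g R S N R0 V (2 * H + Y0) t0 P D E0 →
  ‖∑ h ∈ Icc (-(H : ℤ)) H, SL.TG a g h R S N (γ h) ω‖ ≤ 32 * Real.sqrt D * ((M : ℝ) * (N : ℝ) ^ 2 / R) *
    Real.sqrt ((Y0 : ℝ) / ((V : ℝ) ^ 2 * g) + (Y0 : ℝ) ^ 2 * E0)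

/-- Module BdiH (theorem tBdiH; dispersion with all g). Uses: SLH.DspGStmt, BgaHStmt, BsgStmt. MODEL: Lib/SLB/BdiK.lean (t0 = H,
one more hypothesis G ≤ H; 1 ≤ H is not needed). -/
def BdiHStmt : Prop := ∃ C : ℝ, 0 < C ∧ ∃ A : ℕ, ∀ (X T z D E0 : ℝ) (a : ℕ → ℕ → ℤ) (ρ : ℕ → ℕ) (v col : ℕ → ℕ → ℕ)
    (K R S M N H G R0 V : ℕ) (P : Finset (ℕ × ℕ)) (f k : ℕ → ℂ), Tau X T → 1 ≤ z → 0 ≤ D → 0 ≤ E0 → 1 ≤ R → 1 ≤ S →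
  1 ≤ N → 8 ≤ M → 1 ≤ G → G ≤ H → G ≤ S → 1 ≤ V → R ≤ N → 2 * H < R →
  100 * (M : ℝ) ^ 2 * (N : ℝ) ^ 2 * (R : ℝ) ^ 2 * (S : ℝ) ^ 4 ≤ X → R * S ^ 2 ≤ M * N → SL.Pr a R S z P →
  Lp a ρ v col K R0 V P →
  (∀ g ∈ Icc 1 G, HgH a ρ v col K g R S N R0 V (2 * H + (4 * (R * S ^ 2) / M + 1)) H P D E0) →
  (∀ m, ‖f m‖ ≤ 1) → (∀ n, ‖k n‖ ≤ 1) →
  (∑ w ∈ P, ‖∑ m ∈ Ioc M (2 * M), ∑ n ∈ Ioc N (2 * N), f m * k n * Dl (a w.1 w.2) w.1 w.2 (m * n)‖) ^ 2 ≤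
    C * T ^ A * ((R : ℝ) * (M : ℝ) ^ 2 * N + (M : ℝ) ^ 2 * (N : ℝ) ^ 2 / z + (M : ℝ) ^ 2 * (N : ℝ) ^ 2 / G +
      (R : ℝ) * M * (N : ℝ) ^ 2 * (S : ℝ) ^ 2 / (G : ℝ) ^ 2 + (R : ℝ) ^ 2 * (S : ℝ) ^ 4 * (N : ℝ) ^ 2 / H +
      Real.sqrt D * ((M : ℝ) ^ 2 * (N : ℝ) ^ 2) *
        ((Real.sqrt (4 * (R * (S : ℝ) ^ 2) / M) + Real.sqrt G) / V + (4 * (R * (S : ℝ) ^ 2) / M + G) * Real.sqrt E0))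

/-- the bound of the sums TG for all g, for the parameters c, δ, κ, l, ε; E0 does not depend on g -/
def BiHStmt (c δ κ l ε : ℝ) : Prop := ∃ (C C0 x0 : ℝ) (A : ℕ), 0 < C ∧ 0 ≤ C0 ∧
  ∀ (x T : ℝ) (a : ℕ → ℕ → ℤ) (ρ : ℕ → ℕ) (v col : ℕ → ℕ → ℕ) (K M N R S R0 V Hm : ℕ) (P : Finset (ℕ × ℕ)), x0 ≤ x →
  Tau (x ^ (30 : ℝ)) T → BlkK c δ κ ε x M N R S → 1 ≤ K → 1 ≤ R → R ≤ N → R0 ≤ R → 1 ≤ V → V ≤ S →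
  (V : ℝ) ≤ x ^ (va c δ κ ε + κ) → x ^ l ≤ 2 * (R0 : ℝ) → (Hm : ℝ) ≤ x ^ (ha c δ κ ε + ε) →
  (2 * (R : ℝ) * (S : ℝ) ^ 2 * N * Hm) ^ 12 ≤ x ^ (30 : ℝ) →
  1 + (R : ℝ) * (S : ℝ) ^ 2 / M ≤ 3 * x ^ (2 * δ + 2 * c + κ + 2 * ε) →
  (∀ w ∈ P, ∀ p : ℕ, p.Prime → p ∣ w.1 * w.2 → (p : ℝ) ≤ x ^ κ) →
  ∃ E0 : ℝ, 0 ≤ E0 ∧ (1 + (R : ℝ) * (S : ℝ) ^ 2 / M) ^ 2 * E0 ≤ C0 * x ^ (-(2 * c + 3 * ε)) ∧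
    ∀ g : ℕ, 1 ≤ g → (g : ℝ) ≤ x ^ ha c δ κ ε →
      HgH a ρ v col K g R S N R0 V Hm ⌊x ^ ha c δ κ ε⌋₊ P (C * T ^ A * (K : ℝ) ^ 2) E0

/-- Module BinH (theorem tBinH; numbers). Uses: SLH.THStmt.
Proof. k = ⌈16/l⌉ + 2, θ = (l/16)/2^(k+1), e0 = min(l/1000, θ/40). Note ha ≤ 20ε, va + κ ≤ 8ε, all ≤ small multiples of ε. THStmt with X = x^30, W = x^(l/4), Z = x^(l/16), y = x^κ, Δ = x^(-θ), t0 = ⌊x^ha⌋ ≥ 1, H = H' ≤ Hm; Z Δ^(2^(k+1)) = 1. C is the constant of THStmt, x large. R0 ≥ x^l/2 > 0, so R0 ≥ 1.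
(ii) 4 W^2 R^2 g ≤ R0 N^2: R ≤ N, 4 x^(l/2) x^(20ε) ≤ x^l/2. (iii) C (Z y)^2 W^2 g V^4 H^2 ≤ C x^(l/8+2κ+l/2+ha+4(va+κ)+2(ha+ε)) ≤ C x^(5l/8+96ε) ≤ C x^(3l/4) ≤ x^l/2 ≤ R0. (iv) C (Z y)^2 ≤ C x^(l/8+2κ) ≤ x^(l/4).
(v) (R S V)^2 ≤ x^(1+2δ+16ε) ≤ x^(3/2), W/(C Z y) = x^(l/4-l/16-κ)/C ≥ x^(l/8), its k-th power ≥ x^2 (k l ≥ 16), 64 x^(3/2) ≤ x^2. Primes of r s1 s2: (r, s1), (r, s2) ∈ P. E0 = Δ + 1/t0 + 1/W + t0 R^2/(R0 N^2) (independent of g), (1+y)^2 ≤ 9 x^(4δ+4c+2κ+4ε), and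
E0 ≤ x^(-θ) + 2 x^(-ha) + x^(-l/4) + 2 x^(ha-l) ≤ 6 x^(-(4δ+6c+2κ+7ε)) (19ε ≤ θ, ha = 4δ+4c+2κ+10ε and c ≤ ε, l/4 ≥ 19ε, l - 20ε ≥ 19ε). C0 = 54. -/
def BinHStmt : Prop := ∀ l : ℝ, 0 < l → l ≤ 1 / 4 → ∃ e0 : ℝ, 0 < e0 ∧ ∀ c δ κ ε : ℝ, ε ≤ e0 → ParH c δ κ l ε →
  BiHStmt c δ κ l ε

/-- Module BbbH (theorem tBbbH; one block). Uses: BdiHStmt, BfaKStmt, BncKStmt. MODEL: Lib/SLB/BbbK.lean (one case).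
Proof. H = ⌊x^ha⌋, G = min ⌊(1 + sqrt y) x^ε⌋ S, y = R S^2/M ≤ 2 x^(2δ+2c+κ+2ε) (BfaK with ParH.parK), 1 + y ≤ 3 x^(2δ+2c+κ+2ε), (1 + sqrt y) x^ε ≤ 3 x^(δ+c+κ/2+2ε) ≤ x^ha for large x, so G ≤ H and g ≤ x^ha for g ≤ G; Hm = 2H + (4 R S^2/M + 1) ≤ 11 x^ha ≤ x^(ha+ε) for large x.
1 ≤ V from x^va ≤ 2V or V = S. BiHStmt, BdiH with X = x^30, D = C1 T^A1 K^2; BncK with D := C1 T^A1; the end as in the MODEL, η = ε/16. -/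
def BbbHStmt : Prop := ∀ c δ κ l ε : ℝ, ParH c δ κ l ε → BiHStmt c δ κ l ε → ∃ (η C x0 : ℝ) (A0 : ℕ), 0 < η ∧ 0 ≤ C ∧
  ∀ (x T z : ℝ) (a : ℕ → ℕ → ℤ) (ρ : ℕ → ℕ) (v col : ℕ → ℕ → ℕ) (K M N R S R0 V : ℕ) (P : Finset (ℕ × ℕ))
    (f g : ℕ → ℂ), x0 ≤ x → Tau (x ^ (30 : ℝ)) T → 1 ≤ z → z ≤ x → BlkK c δ κ ε x M N R S → 1 ≤ K →
  (K : ℝ) ≤ 2 * x ^ (c + ε / 16) → R0 ≤ R → V ≤ S → x ^ l ≤ 2 * (R0 : ℝ) →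
  (x ^ va c δ κ ε ≤ 2 * (V : ℝ) ∨ V = S) → (V : ℝ) ≤ x ^ (va c δ κ ε + κ) →
  (∀ w ∈ P, ∀ p : ℕ, p.Prime → p ∣ w.1 * w.2 → (p : ℝ) ≤ x ^ κ) →
  SL.Pr a R S z P → Lp a ρ v col K R0 V P → (∀ m, ‖f m‖ ≤ 1) → (∀ n, ‖g n‖ ≤ 1) →
  ∑ w ∈ P, ‖∑ m ∈ Ioc M (2 * M), ∑ n ∈ Ioc N (2 * N), f m * g n * Dl (a w.1 w.2) w.1 w.2 (m * n)‖ ≤ Bd C A0 η x T z

/-- Module BdrH (theorem tBdrH; all blocks). Uses: BbbHStmt. MODEL: Lib/SLB/BdrK.lean (one case; the smoothness of r s = q). -/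
def BdrHStmt : Prop := ∀ c δ κ l ε : ℝ, ParH c δ κ l ε → BiHStmt c δ κ l ε → ∃ (η C x0 : ℝ) (A0 : ℕ), 0 < η ∧ 0 ≤ C ∧
  ∀ (x T z : ℝ) (a : ℕ → ℤ) (M N K : ℕ) (f g : ℕ → ℂ) (F : Finset ℕ) (r ρ v col : ℕ → ℕ), x0 ≤ x →
  Tau (x ^ (30 : ℝ)) T → 1 ≤ z → z ≤ x → N ≤ M → x ^ ((1 : ℝ) / 3 - ε) ≤ N →
  x ^ (1 - ε) ≤ (M : ℝ) * N → (M : ℝ) * N ≤ x → 1 ≤ K → (K : ℝ) ≤ 2 * x ^ (c + ε / 16) → (∀ m, ‖f m‖ ≤ 1) →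
  (∀ n, ‖g n‖ ≤ 1) → (∀ q ∈ F, DqK c δ κ ε x z N K (a q) q (r q) (ρ q) (v q) (col q)) →
  (∀ q ∈ F, x ^ l ≤ (ρ q : ℝ) ∧ (x ^ va c δ κ ε < (v q : ℝ) ∨ v q = q / r q) ∧ (v q : ℝ) ≤ x ^ (va c δ κ ε + κ)) →
  (∀ q ∈ F, ∀ p : ℕ, p.Prime → p ∣ q → (p : ℝ) ≤ x ^ κ) →
  (∀ q ∈ F, ∀ q' ∈ F, r q = r q' → ρ q = ρ q') →
  (∀ q ∈ F, ∀ q' ∈ F, ρ q = ρ q' → q / r q / v q = q' / r q' / v q' → col q = col q' →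
    ((ρ q : ℕ) : ℤ) ∣ a q - a q') →
  ∑ q ∈ F, ‖∑ m ∈ Ioc M (2 * M), ∑ n ∈ Ioc N (2 * N), f m * g n * Dl (a q) (r q) (q / r q) (m * n)‖ ≤ Bd C A0 η x T z

/-- the lock divisor lcm(w, t) and the modulus r of the first variable; q is smooth -/
def DwH (c δ κ l l' ε x z : ℝ) (N : ℕ) (a : ℤ) (q t w r : ℕ) : Prop :=
  (Mz (1 / 2 + δ) (ε / 16) z x t q ∧ Int.gcd a q = 1 ∧ x ^ (1 / 2 - ε / 2) < (q : ℝ) ∧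
    ∀ p : ℕ, p.Prime → p ∣ q → (p : ℝ) ≤ x ^ κ) ∧
  (w ∣ q ∧ x ^ l ≤ (w : ℝ) ∧ (w : ℝ) ≤ x ^ l') ∧
  t ∣ r ∧ r ∣ q ∧ (r : ℝ) ≤ Nm c x N * x ^ (-ε) ∧ Nm c x N * x ^ (-ε) < r * x ^ κ ∧
    (Nat.lcm w t ∣ r ∨ r ∣ Nat.lcm w t)

/-- Module BdsH (theorem tBdsH; choice of v and of the colours, splitting). Uses: BdrHStmt, BclKStmt, MI.BgrStmt, MK.FspStmt. MODEL: Lib/SLB/BdsK.lean.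
Proof. As the MODEL; F2 (r q ∣ C q): ρ = r, x^l ≤ r since r x^κ > Nm x^(-ε) ≥ x^(1/3-2ε) and l ≤ 1/4; v ∣ q/C q with x^va < v ≤ x^(va+κ) (q/C q > x^(1/2-ε/2-l'-ε/16) ≥ x^(va+κ), va + κ ≤ 8ε). -/
def BdsHStmt : Prop := ∀ c δ κ l l' ε : ℝ, ParH c δ κ l ε → l' + 12 * ε ≤ 1 / 2 →
  BiHStmt c δ κ l ε → ∃ (η C x0 : ℝ) (A0 : ℕ), 0 < η ∧ 0 ≤ C ∧
  ∀ (x T z : ℝ) (a : ℕ → ℤ) (M N : ℕ) (f g : ℕ → ℂ) (F : Finset ℕ) (t w r : ℕ → ℕ), x0 ≤ x →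
  Tau (x ^ (30 : ℝ)) T → 1 ≤ z → z ≤ x → N ≤ M → x ^ ((1 : ℝ) / 3 - ε) ≤ N →
  x ^ (1 - ε) ≤ (M : ℝ) * N → (M : ℝ) * N ≤ x → (∀ m, ‖f m‖ ≤ 1) → (∀ n, ‖g n‖ ≤ 1) →
  (∀ q ∈ F, DwH c δ κ l l' ε x z N (a q) q (t q) (w q) (r q)) →
  (∀ r0 : ℕ, (((F.filter (fun q => w q = r0)).image (fun q => a q % (r0 : ℤ))).card : ℝ) ≤ x ^ c) →
  ∑ q ∈ F, ‖∑ m ∈ Ioc M (2 * M), ∑ n ∈ Ioc N (2 * N), f m * g n * Dl (a q) (r q) (q / r q) (m * n)‖ ≤ Bd C A0 η x T z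

/-- Module BfiH (theorem tBfiH; the bilinear theorem). Uses: BdsHStmt, SL.BgeStmt, MI.BgrStmt. MODEL: Lib/SLB/BfiK.lean
(m = 1: m q ≤ x^0 and m q ∣ q, q ≥ 1; t ≤ x^(ε/16) ≤ x^(1/3-2ε) ≤ Nm x^(-ε)). -/
def BfiHStmt : Prop := ∀ c δ κ l l' ε : ℝ, ParH c δ κ l ε → l' + 12 * ε ≤ 1 / 2 → BiHStmt c δ κ l ε →
  SLA.BlStmt (SLA.Lkc c 0 κ l l') (1 / 2 + δ) (ε / 16) ε

end Pool.Agent.Lib.SLB
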