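import Pool.Agent.Lib.SLA.AllA
import Pool.Agent.Lib.SLA.Fik
import Pool.Agent.Lib.SLA.EndP
import Pool.Agent.Lib.SLB.SpecH

/-!
MP_00e23e_nt, project SL, P2 (a lock of size x^ε for every ε > 0): the display form from the bilinear theorem BfiHStmt and the
case bound for small parameters.
-/

namespace Pool.Agent.Lib.SLB

open Finset Pool.Agent.Lib.EH3 Pool.Agent.Lib.TB Pool.Agent.Results.MP_00e23e_nt Pool.Agent.Lib.MI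
open Pool.Agent.Lib.MX (Bd Mz Bd_nonneg Bd_mono rp_le rn_le log_le_T Tau_x)

/-- the display form of P2 -/
def SmallLock : Prop := ∀ ε : ℝ, 0 < ε → ∃ δ : ℝ, 0 < δ ∧ ∀ U : ℝ, 0 < U → ∃ C : ℝ,
    ∀ (x : ℝ) (P : Finset (ℕ × ℕ)) (B : ℕ → Finset ℤ) (a : ℕ × ℕ → ℤ) (y : ℕ × ℕ → ℝ), 3 ≤ x →
      (∀ r : ℕ, ((B r).card : ℝ) ≤ x ^ δ) →
      (∀ w ∈ P, (x ^ ε ≤ (w.1 : ℝ) ∧ (w.1 : ℝ) ≤ x ^ (1 / 2 - ε) ∧ Squarefree (w.1 * w.2) ∧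
          ((w.1 * w.2 : ℕ) : ℝ) ≤ x ^ (1 / 2 + δ) ∧ ∀ p : ℕ, p.Prime → p ∣ w.1 * w.2 → (p : ℝ) ≤ x ^ δ) ∧
        Int.gcd (a w) ((w.1 * w.2 : ℕ) : ℤ) = 1 ∧ (∃ b ∈ B w.1, (w.1 : ℤ) ∣ a w - b) ∧ 2 ≤ y w ∧ y w ≤ x) →
      ∑ w ∈ P, |resErr (y w) (w.1 * w.2) (a w)| ≤ C * (x / (Real.log x) ^ U)

theorem tEndH (h1 : BfiHStmt) (h2 : BinHStmt) : SmallLock := by
  intro ε hε
  obtain ⟨ε', hε'def⟩ : ∃ ε', ε' = min ε (1 / 8) := ⟨_, rfl⟩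
  have g1 : 0 < ε' := by rw [hε'def]; exact lt_min hε (by norm_num)
  have g2 : ε' ≤ ε := by rw [hε'def]; exact min_le_left _ _
  have g3 : ε' ≤ 1 / 8 := by rw [hε'def]; exact min_le_right _ _
  obtain ⟨e0, he0, hB⟩ := h2 ε' g1 (by linarith)
  obtain ⟨e, hedef⟩ : ∃ e, e = min e0 (min (ε' / 12) (1 / 600)) := ⟨_, rfl⟩
  have k1 : 0 < e := by rw [hedef]; exact lt_min he0 (lt_min (by linarith) (by norm_num))
  have k2 : e ≤ e0 := by rw [hedef]; exact min_le_left _ _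
  have k3 : e ≤ ε' / 12 := by rw [hedef]; exact (min_le_right _ _).trans (min_le_left _ _)
  have k4 : e ≤ 1 / 600 := by rw [hedef]; exact (min_le_right _ _).trans (min_le_right _ _)
  have hPar : ParH e e e ε' e := ⟨⟨k1.le, le_rfl⟩, ⟨k1.le, le_rfl⟩, ⟨k1, le_rfl⟩, by linarith, g1, by linarith⟩
  have hBl := h1 e e e ε' (1 / 2 - ε') e hPar (by linarith) (hB e e e e k2 hPar)
  have hSl : SLA.SlPk e e 0 e ε' (1 / 2 - ε') :=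
    SLA.tPrk MX.tMer (by linarith) (SLA.tFik SLA.tFpsAll MX.tWig SLA.tFbvAll SLA.tExeAll e e 0 e ε' (1 / 2 - ε') (e / 16)
      k1.le (by linarith) (by linarith) (by linarith)
      (SLA.tAAll (SLA.Lkc e 0 e ε' (1 / 2 - ε')) (1 / 2 + e) (e / 16) e k1 (by linarith) (by linarith) (by linarith)
        (by linarith) hBl))
  obtain ⟨δ, hδ, H⟩ := SLA.EndP_display k1 k1 k1 hSl
  refine ⟨δ, hδ, fun U hU => ?_⟩
  obtain ⟨C, hC⟩ := H U hU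
  refine ⟨C, fun x P B a y hx hBc hP => hC x P B a y hx hBc fun w hw => ?_⟩
  obtain ⟨⟨m1, m2, m3⟩, m4⟩ := hP w hw
  have hx1 : 1 ≤ x := by linarith
  exact ⟨⟨(Real.rpow_le_rpow_of_exponent_le hx1 g2).trans m1,
    m2.trans (Real.rpow_le_rpow_of_exponent_le hx1 (by linarith)), m3⟩, m4⟩

end Pool.Agent.Lib.SLB
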