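import Pool.Agent.Lib.SLB.StmT
import Pool.Agent.Lib.SLA.StmG
import Pool.Agent.Lib.SL.Bge

/-!
MP_00e23e_nt, project SL (THEOREM SL, single lock), directory Lib/SLB (helper90), chapter B: from SL.DspStmt and the T-statements
(T0Stmt, T1Stmt) to the bilinear theorem SLA.BlStmt (SLA.Lkm μ κ l l') (1/2+δ) τ ε.
RULES. Module X: file Pool/Agent/Lib/SLB/X.lean, first line `import Pool.Agent.Lib.SLB.SpecB`, then `namespace Pool.Agent.Lib.SLB`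
and the two `open` lines below; private lemmas with names starting with X_, final theorem `theorem tX (h1 : AStmt) ... : XStmt`; the
statements listed under Uses are hypotheses of your theorem, in this order. The docstring contains a complete proof. MODEL file:
copy it and change it. Never use congr!. Every module below 60 s. Parameters: y := 2δ+κ+3ε, vv = y/2 + 2ε = δ+κ/2+7ε/2,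
hh = 2y + 4ε = 4δ+2κ+10ε, ll = 4 hh = 16δ+8κ+40ε.
-/

namespace Pool.Agent.Lib.SLB

open Finset Pool.Agent.Lib.EH3 Pool.Agent.Lib.TB Pool.Agent.Results.MP_00e23e_nt Pool.Agent.Lib.MI
open Pool.Agent.Lib.MX (Bd Mz Bd_nonneg Bd_mono rp_le rn_le log_le_T Tau_x)

/-- the parameters -/
def Par (δ κ l ε : ℝ) : Prop := 0 ≤ δ ∧ 0 < κ ∧ 0 < ε ∧ ε < 1 / 100 ∧ 84 * δ + 48 * κ + 400 * ε ≤ 1 ∧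
  1 / 3 + 4 * δ + 7 / 3 * κ + 8 * ε ≤ l

/-- exponent of the divisor v of s -/
noncomputable def vv (δ κ ε : ℝ) : ℝ := δ + κ / 2 + 7 / 2 * ε

/-- exponent of H -/
noncomputable def hh (δ κ ε : ℝ) : ℝ := 4 * δ + 2 * κ + 10 * ε

/-- the lock data of the pairs (r, s) ∈ P: modulo ρ r the class depends only on ρ r, s / v r s and the colour -/
def Lp (a : ℕ → ℕ → ℤ) (ρ : ℕ → ℕ) (v col : ℕ → ℕ → ℕ) (K R0 V : ℕ) (P : Finset (ℕ × ℕ)) : Prop :=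
  (∀ w ∈ P, (ρ w.1 ∣ w.1 ∧ R0 < ρ w.1 ∧ ρ w.1 ≤ 2 * R0) ∧
    (v w.1 w.2 ∣ w.2 ∧ V < v w.1 w.2 ∧ v w.1 w.2 ≤ 2 * V) ∧ col w.1 w.2 < K) ∧
  ∀ w ∈ P, ∀ w' ∈ P, ρ w.1 = ρ w'.1 → w.2 / v w.1 w.2 = w'.2 / v w'.1 w'.2 → col w.1 w.2 = col w'.1 w'.2 →
    ((ρ w.1 : ℕ) : ℤ) ∣ a w.1 w.2 - a w'.1 w'.2

/-- the hypothesis on the sums TG for one g: for all finite sets Hs of h ≠ 0, |h| ≤ H' ≤ Hm, all coefficients γ bounded by 1 and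
supported on P and all b1, b2 with Lt -/
def Hg (a : ℕ → ℕ → ℤ) (ρ : ℕ → ℕ) (v : ℕ → ℕ → ℕ) (g R S N R0 V Hm : ℕ) (P : Finset (ℕ × ℕ)) (D E : ℝ) : Prop :=
  ∀ (H' : ℕ) (Hs : Finset ℤ) (γ : ℤ → ℕ → ℕ → ℕ → ℂ) (ω : ℕ → ℕ → ℂ) (b1 b2 : ℕ → ℕ → ℤ), 1 ≤ H' → H' ≤ Hm →
  (∀ h ∈ Hs, h ≠ 0 ∧ |h| ≤ (H' : ℤ)) → (∀ h r s1 s2, ‖γ h r s1 s2‖ ≤ 1) → (∀ n1 n2, ‖ω n1 n2‖ ≤ 1) →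
  (∀ h r s1 s2, γ h r s1 s2 ≠ 0 → (r, s1) ∈ P ∧ (r, s2) ∈ P ∧ (2 ≤ g → SL.ND (a r s1) (a r s2) (r * g) N)) →
  Lt a b1 b2 ρ v R0 V γ →
  ‖∑ h ∈ Hs, SL.TG a g h R S N (γ h) ω‖ ^ 2 ≤ D * ((S : ℝ) ^ 2 * (N : ℝ) ^ 2) ^ 2 *
    ((H' : ℝ) / ((V : ℝ) ^ 2 * (g : ℝ) ^ 3) + ((H' : ℝ) / g) ^ 2 * E)

/-- Module Bdh (theorem tBdh; dyadic decomposition in h). Uses: nothing. MODEL: Lib/MS/Bdh.lean (SL.TG in place of TE, M g in place of M). -/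
def BdhStmt : Prop := ∀ (a : ℕ → ℕ → ℤ) (g R S M N H Y0 : ℕ) (P : Finset (ℕ × ℕ)) (γ : ℤ → ℕ → ℕ → ℕ → ℂ)
    (ω : ℕ → ℕ → ℂ) (E : ℝ), 1 ≤ g → 1 ≤ R → 1 ≤ S → 1 ≤ M → 1 ≤ Y0 → 4 * (R * S ^ 2) ≤ M * g * Y0 → 0 ≤ E →
  SL.Cg a P g R S M N γ →
  (∀ (i : ℕ) (Hs : Finset ℤ) (γ' : ℤ → ℕ → ℕ → ℕ → ℂ), 2 ^ i * Y0 ≤ 2 * H + Y0 →
    (∀ h ∈ Hs, h ≠ 0 ∧ |h| ≤ ((2 ^ i * Y0 : ℕ) : ℤ)) → (∀ h r s1 s2, ‖γ' h r s1 s2‖ ≤ 1) →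
    (∀ h r s1 s2, γ' h r s1 s2 ≠ 0 → (r, s1) ∈ P ∧ (r, s2) ∈ P ∧ (2 ≤ g → SL.ND (a r s1) (a r s2) (r * g) N)) →
    ‖∑ h ∈ Hs, SL.TG a g h R S N (γ' h) ω‖ ≤ 2 ^ i * E) →
  ‖∑ h ∈ Icc (-(H : ℤ)) H, SL.TG a g h R S N (γ h) ω‖ ≤ 32 * ((M : ℝ) * g) * E / (R * (S : ℝ) ^ 2)

/-- Module Bcs (theorem tBcs; colours). Uses: nothing.
Proof. On the support of γ: γ h r s1 s2 = ∑_{c1 < K} ∑_{c2 < K} (if col r s1 = c1 ∧ col r s2 = c2 then γ h r s1 s2 else 0) (also true where γ = 0). SL.TG is additive in γ (unfold; mul_sum, sum_comm): the sum over h of TG is the sum over c1, c2 < K of the sums in the hypothesis; triangle inequality, K^2 terms. -/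
def BcsStmt : Prop := ∀ (a : ℕ → ℕ → ℤ) (g R S N K : ℕ) (col : ℕ → ℕ → ℕ) (Hs : Finset ℤ) (γ : ℤ → ℕ → ℕ → ℕ → ℂ)
    (ω : ℕ → ℕ → ℂ) (E : ℝ), 0 ≤ E → (∀ h r s1 s2, γ h r s1 s2 ≠ 0 → col r s1 < K ∧ col r s2 < K) →
  (∀ c1 c2 : ℕ, ‖∑ h ∈ Hs, SL.TG a g h R S N
    (fun r s1 s2 => if col r s1 = c1 ∧ col r s2 = c2 then γ h r s1 s2 else 0) ω‖ ≤ E) →
  ‖∑ h ∈ Hs, SL.TG a g h R S N (γ h) ω‖ ≤ (K : ℝ) ^ 2 * E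

/-- Module Bga (theorem tBga; one g, admissible coefficients). Uses: BdhStmt, BcsStmt.
Proof. Bdh with E := K^2 sqrt D (S^2 N^2) sqrt(Y0/(V^2 g^3) + (Y0/g)^2 E0). For i, Hs, γ': Bcs with E := 2^i sqrt D S^2 N^2 sqrt(..): for given colours c1, c2 put b1 ρ' u := a w.1 w.2 for some w ∈ P with ρ w.1 = ρ', w.2 / v w.1 w.2 = u, col w.1 w.2 = c1 (by choice; 0 if there is none),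
b2 the same with c2; Lt holds by Lp. Hg with H' = 2^i Y0 ≤ 2H + Y0: square ≤ D (S^2N^2)^2 (2^i Y0/(V^2g^3) + 4^i (Y0/g)^2 E0) ≤ 4^i D (S^2 N^2)^2 (..); take the root. Then 32 M g/(R S^2) S^2 N^2 sqrt(Y0/(V^2g^3) + (Y0/g)^2E0) = 32 (M N^2/R) sqrt(Y0/(V^2 g) + Y0^2 E0). -/
def BgaStmt : Prop := ∀ (D E0 : ℝ) (a : ℕ → ℕ → ℤ) (ρ : ℕ → ℕ) (v col : ℕ → ℕ → ℕ) (g K R S M N H Y0 R0 V : ℕ)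
    (P : Finset (ℕ × ℕ)) (γ : ℤ → ℕ → ℕ → ℕ → ℂ) (ω : ℕ → ℕ → ℂ), 0 ≤ D → 0 ≤ E0 → 1 ≤ g → 1 ≤ R → 1 ≤ S → 1 ≤ M →
  1 ≤ N → 1 ≤ Y0 → 1 ≤ V → 4 * (R * S ^ 2) ≤ M * g * Y0 → SL.Cg a P g R S M N γ → (∀ n1 n2, ‖ω n1 n2‖ ≤ 1) →
  Lp a ρ v col K R0 V P → Hg a ρ v g R S N R0 V (2 * H + Y0) P D E0 →
  ‖∑ h ∈ Icc (-(H : ℤ)) H, SL.TG a g h R S N (γ h) ω‖ ≤ 32 * Real.sqrt D * (K : ℝ) ^ 2 * ((M : ℝ) * (N : ℝ) ^ 2 / R) *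
    Real.sqrt ((Y0 : ℝ) / ((V : ℝ) ^ 2 * g) + (Y0 : ℝ) ^ 2 * E0)

/-- Module Bsg (theorem tBsg; sum over g). Uses: nothing.
Proof. Y g ≤ y/g + 1. sqrt(A + B) ≤ sqrt A + sqrt B; sqrt(Y g/(V^2 g)) = sqrt(Y g/g)/V ≤ sqrt(y/g^2 + 1/g)/V ≤ (sqrt y/g + 1/sqrt g)/V; sqrt((Y g)^2 E) = Y g sqrt E ≤ (y/g + 1) sqrt E. ∑_{g ≤ G} 1/g ≤ 1 + log G ≤ T (see Lib/MN/Brm.lean Brm_harm; G ≤ X), ∑_{g ≤ G} 1/sqrt g ≤ 2 sqrt G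
(1/sqrt g ≤ 2 (sqrt g - sqrt (g-1))). Total ≤ (T sqrt y + 2 sqrt G)/V + (T y + G) sqrt E ≤ 2T (..) (T ≥ 1). -/
def BsgStmt : Prop := ∀ (X T y E : ℝ) (G V : ℕ) (Y : ℕ → ℕ), Tau X T → (G : ℝ) ≤ X → 0 ≤ y → 0 ≤ E → 1 ≤ G → 1 ≤ V →
  (∀ g ∈ Icc 1 G, (Y g : ℝ) ≤ y / g + 1) →
  ∑ g ∈ Icc 1 G, Real.sqrt ((Y g : ℝ) / ((V : ℝ) ^ 2 * g) + (Y g : ℝ) ^ 2 * E) ≤
    2 * T * ((Real.sqrt y + Real.sqrt G) / V + (y + G) * Real.sqrt E)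

/-- Module Bdi (theorem tBdi; dispersion with all g). Uses: SL.DspStmt, BgaStmt, BsgStmt.
Proof. Y g := 4 R S^2/(M g) + 1 (natural division): 4 R S^2 ≤ M g (Y g), Y g ≤ y/g + 1 with y = 4 R S^2/M, Y g ≤ Y1 := 4 R S^2/M + 1 (natural). SL.DspStmt with B g := 32 sqrt D K^2 (M N^2/R) sqrt(Y g/(V^2 g) + (Y g)^2 E0) for 1 ≤ g ≤ G (0 ≤ B g), Bga (Hg for 2H + Y g ≤ 2H + Y1: Hg is monotone in Hm).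
R M ∑ B g ≤ 32 sqrt D K^2 M^2 N^2 2T(..) (Bsg; G ≤ S ≤ X). -/
def BdiStmt : Prop := ∃ C : ℝ, 0 < C ∧ ∃ A : ℕ, ∀ (X T z D E0 : ℝ) (a : ℕ → ℕ → ℤ) (ρ : ℕ → ℕ) (v col : ℕ → ℕ → ℕ)
    (K R S M N H G R0 V : ℕ) (P : Finset (ℕ × ℕ)) (f k : ℕ → ℂ), Tau X T → 1 ≤ z → 0 ≤ D → 0 ≤ E0 → 1 ≤ R → 1 ≤ S →
  1 ≤ N → 8 ≤ M → 1 ≤ H → 1 ≤ G → G ≤ S → 1 ≤ V → R ≤ N → 2 * H < R →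
  100 * (M : ℝ) ^ 2 * (N : ℝ) ^ 2 * (R : ℝ) ^ 2 * (S : ℝ) ^ 4 ≤ X → R * S ^ 2 ≤ M * N → SL.Pr a R S z P →
  Lp a ρ v col K R0 V P → (∀ g ∈ Icc 1 G, Hg a ρ v g R S N R0 V (2 * H + (4 * (R * S ^ 2) / M + 1)) P D E0) →
  (∀ m, ‖f m‖ ≤ 1) → (∀ n, ‖k n‖ ≤ 1) →
  (∑ w ∈ P, ‖∑ m ∈ Ioc M (2 * M), ∑ n ∈ Ioc N (2 * N), f m * k n * Dl (a w.1 w.2) w.1 w.2 (m * n)‖) ^ 2 ≤
    C * T ^ A * ((R : ℝ) * (M : ℝ) ^ 2 * N + (M : ℝ) ^ 2 * (N : ℝ) ^ 2 / z + (M : ℝ) ^ 2 * (N : ℝ) ^ 2 / G +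
      (R : ℝ) * M * (N : ℝ) ^ 2 * (S : ℝ) ^ 2 / (G : ℝ) ^ 2 + (R : ℝ) ^ 2 * (S : ℝ) ^ 4 * (N : ℝ) ^ 2 / H +
      Real.sqrt D * (K : ℝ) ^ 2 * ((M : ℝ) ^ 2 * (N : ℝ) ^ 2) *
        ((Real.sqrt (4 * (R * (S : ℝ) ^ 2) / M) + Real.sqrt G) / V + (4 * (R * (S : ℝ) ^ 2) / M + G) * Real.sqrt E0))

/-- Module Bna (theorem tBna; numbers of case I). Uses: nothing.
Proof. Blk: R ≤ N x^(-ε), N ≤ x^(1/2), N ≥ x^(1/3-ε), R S ≤ x^(1/2+δ). hh = 4δ+2κ+10ε, vv + κ = δ+3κ/2+7ε/2, 3l/2 ≥ 1/2+6δ+7κ/2+12ε; R0 ≥ x^l/2, so R0^(3/2) ≥ x^(3l/2)/3. (1) R^3 S V/(R0^(3/2)N^2) = (R S) V (R/N)^2/R0^(3/2) ≤ 3 x^(1/2+δ+δ+3κ/2+7ε/2-2ε-3l/2) ≤ 3 x^(-hh)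
(1/2+2δ+3κ/2+3ε/2-(1/2+6δ+7κ/2+12ε) = -(4δ+2κ+21ε/2)). (2) R^2/(R0^(3/2) N) ≤ N x^(-2ε)/R0^(3/2) ≤ 3 x^(1/2-2ε-3l/2) ≤ 3 x^(-hh). (3) R^(3/2) (S V)^(1/2)/(R0 N) = (R/N) (R S V)^(1/2)/R0 ≤ 2 x^(-ε + (1/2+2δ+3κ/2+7ε/2)/2 - l) ≤ 2 x^(-hh): 1/4+δ+3κ/4+3ε/4 - l ≤ -1/12-3δ-19κ/12-7ε
≤ -4δ-2κ-10ε since δ+5κ/12+3ε ≤ 1/12 by Par. (4) R/R0^(3/2) ≤ 3 x^(1/2-ε-3l/2) ≤ 3 x^(-hh). C = 11. (Use powers of x only: write R0 sqrt R0 ≥ x^(3l/2)/3.) -/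
def BnaStmt : Prop := ∀ δ κ l ε : ℝ, Par δ κ l ε → ∃ C x0 : ℝ, 0 ≤ C ∧ 1 ≤ x0 ∧ ∀ (x : ℝ) (M N R S R0 V : ℕ), x0 ≤ x →
  Blk δ κ ε x M N R S → 1 ≤ R → (V : ℝ) ≤ x ^ (vv δ κ ε + κ) → x ^ l ≤ 2 * (R0 : ℝ) →
  (R : ℝ) ^ 3 * S * V / (R0 * Real.sqrt R0 * (N : ℝ) ^ 2) + (R : ℝ) ^ 2 / (R0 * Real.sqrt R0 * N) +
    R * Real.sqrt R * Real.sqrt ((S : ℝ) * V) / ((R0 : ℝ) * N) + R / (R0 * Real.sqrt R0) ≤ C * x ^ (-hh δ κ ε)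

/-- Module Bnb (theorem tBnb; numbers of case II, one van der Corput step). Uses: nothing.
Proof. 4 hh = 16δ+8κ+40ε; L = ⌊x^(4hh)⌋, L' = ⌊x^(4hh+κ)⌋; L ≥ x^(4hh)/2 ≥ 2 for large x, L ≤ L'. S ≤ 2 x^(1/2+δ+ε+κ)/N (R S ≤ x^(1/2+δ), 2R ≥ N x^(-ε-κ)). 16 L' S V ≤ 32 x^(16δ+9κ+40ε + 1/2+δ+ε+κ + δ+3κ/2+7ε/2)/N = 32 x^(1/2+18δ+23κ/2+89ε/2)/N ≤ N, because N^2 ≥ x^(2/3-2ε), 18δ+23κ/2+93ε/2+20ε ≤ 1/6 by the hypothesis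
and 32 ≤ x^(20ε) for large x. G^4 ≤ x^(4 vv) = x^(4δ+2κ+14ε) ≤ x^(4hh)/2 ≤ L. 1/L^(1/4) ≤ 2 x^(-hh). x^(4hh+κ) < R, because R ≥ N x^(-ε-κ)/2 ≥ x^(1/3-2ε-κ)/2 and 16δ+10κ+42ε < 1/3. -/
def BnbStmt : Prop := ∀ δ κ ε : ℝ, 0 ≤ δ → 0 < κ → 0 < ε → ε < 1 / 100 → 108 * δ + 69 * κ + 400 * ε ≤ 1 →
  ∃ x0 : ℝ, 1 ≤ x0 ∧ ∀ (x : ℝ) (M N R S V G : ℕ), x0 ≤ x →
  Blk δ κ ε x M N R S → (V : ℝ) ≤ x ^ (vv δ κ ε + κ) → (G : ℝ) ≤ x ^ vv δ κ ε →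
  2 ≤ ⌊x ^ (4 * hh δ κ ε)⌋₊ ∧ ⌊x ^ (4 * hh δ κ ε)⌋₊ ≤ ⌊x ^ (4 * hh δ κ ε + κ)⌋₊ ∧
    16 * ⌊x ^ (4 * hh δ κ ε + κ)⌋₊ * S * V ≤ N ∧ G ^ 4 ≤ ⌊x ^ (4 * hh δ κ ε)⌋₊ ∧
    1 / Real.sqrt (Real.sqrt (⌊x ^ (4 * hh δ κ ε)⌋₊ : ℕ)) ≤ 2 * x ^ (-hh δ κ ε) ∧ x ^ (4 * hh δ κ ε + κ) < (R : ℝ)

/-- the bound of the sums TG in CASE I (ρ r = r0) -/
def BiStmt : Prop := ∀ δ κ l ε : ℝ, Par δ κ l ε → ∃ (C C0 x0 : ℝ) (A : ℕ), 0 < C ∧ 0 ≤ C0 ∧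
  ∀ (x T : ℝ) (a : ℕ → ℕ → ℤ) (ρ : ℕ → ℕ) (v : ℕ → ℕ → ℕ) (g M N R S R0 V Hm : ℕ) (P : Finset (ℕ × ℕ)), x0 ≤ x →
  Tau (x ^ (30 : ℝ)) T → Blk δ κ ε x M N R S → 1 ≤ R → R0 ≤ R → 1 ≤ V → V ≤ S → (V : ℝ) ≤ x ^ (vv δ κ ε + κ) →
  x ^ l ≤ 2 * (R0 : ℝ) → 1 ≤ g → (2 * (R : ℝ) * (S : ℝ) ^ 2 * N * Hm) ^ 12 ≤ x ^ (30 : ℝ) →
  Hg a ρ v g R S N R0 V Hm P (C * T ^ A) (C0 * x ^ (-hh δ κ ε))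

/-- the bound of the sums TG in CASE II (ρ r = r), for the parameters δ, κ, ε -/
def BiiStmt (δ κ ε : ℝ) : Prop := ∃ (C C0 x0 : ℝ) (A : ℕ), 0 < C ∧ 0 ≤ C0 ∧
  ∀ (x T : ℝ) (a : ℕ → ℕ → ℤ) (v : ℕ → ℕ → ℕ) (g M N R S V Hm : ℕ) (P : Finset (ℕ × ℕ)), x0 ≤ x →
  Tau (x ^ (30 : ℝ)) T → Blk δ κ ε x M N R S → 1 ≤ R → 1 ≤ V → V ≤ S → x ^ vv δ κ ε ≤ 2 * (V : ℝ) →
  (V : ℝ) ≤ x ^ (vv δ κ ε + κ) → 1 ≤ g → (g : ℝ) ≤ x ^ vv δ κ ε →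
  (2 * (R : ℝ) * (S : ℝ) ^ 2 * N * Hm) ^ 12 ≤ x ^ (30 : ℝ) →
  (∀ w ∈ P, R < w.1 ∧ w.1 ≤ 2 * R ∧ S < w.2 ∧ w.2 ≤ 2 * S ∧ Squarefree (w.1 * w.2) ∧
    ∀ p : ℕ, p.Prime → p ∣ w.2 → (p : ℝ) ≤ x ^ κ) →
  Hg a (fun r => r) v g R S N R V Hm P (C * T ^ A) (C0 * x ^ (-hh δ κ ε))

/-- Module Bia (theorem tBia; case I). STATEMENT BiStmt. Uses: T0Stmt, BnaStmt.
Proof. Hg from T0Stmt with X = x^30: Tz (1 ≤ R0 from x^l ≤ 2 R0, R ≤ N from Blk, size from H' ≤ Hm), the bracket of T0Stmt is ≤ C0 x^(-hh) by Bna. -/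
def BiaStmt : Prop := BiStmt

/-- Module Bnc (theorem tBnc; the numbers of the dispersion). Uses: nothing.
Proof. H = ⌊x^hh⌋, G = min ⌊x^vv⌋ S. Facts (x large): N ≤ x^(1/2) (N ≤ M, M N ≤ x), N ≥ x^(1/3-ε), R ≤ N x^(-ε), R ≥ N x^(-ε-κ)/2 ≥ x^(1/3-2ε-κ)/2, S ≥ x^(ε/2)/4 (4 R S ≥ x^(1/2-ε/2), R ≤ x^(1/2-ε)), y := R S^2/M = (R S)^2/(R M) ≤ x^(1+2δ) 2 x^(ε+κ)/(N M) ≤ 2 x^(2δ+κ+2ε), S ≤ x^(1/2+δ).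
Sizes: R S^2 ≤ 2 x^(2δ+κ+2ε) M ≤ M N; 2 H < R (hh < 1/3-2ε-κ); M ≥ N ≥ 8; 100 M^2 N^2 R^2 S^4 ≤ 100 x^2 (M N)^2 ≤ x^30; 4 R S^2/M + 1 ≤ 9 x^(2δ+κ+2ε), 2 H + that ≤ x, 2 R S^2 N x ≤ 2 M N N x ≤ 2 x^(5/2), its 12th power is ≤ x^30... (2^12 x^30 is too large: use 2H + .. ≤ x^(1/4): 2 R S^2 N x^(1/4) ≤ 2 x^(7/4),
2^12 x^21 ≤ x^30). Terms (MN ≤ x): R M^2 N = (M N)^2 R/N ≤ x^(2-ε). M^2N^2/G ≤ x^2 (1/⌊x^vv⌋ + 1/S) ≤ x^2 (2 x^(-vv) + 4 x^(-ε/2)) ≤ 6 x^(2-ε/2). R M N^2S^2/G^2 ≤ (M N)^2 (y 4 x^(-2vv) + R/M) ≤ 9 x^(2-ε) (2 vv = 2δ+κ+7ε). R^2S^4N^2/H = (M N)^2 y^2/H ≤ 8 x^(2 + 2(2δ+κ+2ε) - hh) ≤ 8 x^(2-ε).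
Last term: if x^vv ≤ 2V: (sqrt(4y) + sqrt G)/V ≤ 2 (3 x^(δ+κ/2+ε) + x^(vv/2)) x^(-vv) ≤ 8 x^(-ε); if V = S: sqrt(4y)/S = 2 sqrt(R/M) ≤ 2 x^(-ε/2), sqrt G/S ≤ 1/sqrt S ≤ 2 x^(-ε/4): ≤ 4 x^(-ε/4). (4y + G) sqrt E0 ≤ (8 x^(2δ+κ+2ε) + x^vv) sqrt C0 x^(-hh/2) ≤ 9 sqrt C0 x^(-ε)
(hh/2 = 2δ+κ+5ε; vv ≤ 2δ+κ+4ε). K^2 ≤ 4 x^(ε/8). So the last term is ≤ 4 sqrt D x^(2+ε/8) (8 x^(-ε/4) + 9 sqrt C0 x^(-ε)) ≤ 4 sqrt D (8 + 9 sqrt C0) x^(2-ε/8). Everything ≤ C (1 + sqrt D) x^2 (x^(-ε/8) + 1/z). -/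
def BncStmt : Prop := ∀ δ κ l ε C0 : ℝ, Par δ κ l ε → 0 ≤ C0 → ∃ C x0 : ℝ, 0 ≤ C ∧ 1 ≤ x0 ∧
  ∀ (x z D E0 : ℝ) (K M N R S V H G : ℕ), x0 ≤ x → 1 ≤ z → 0 ≤ D → 0 ≤ E0 → E0 ≤ C0 * x ^ (-hh δ κ ε) →
  Blk δ κ ε x M N R S → (K : ℝ) ≤ 2 * x ^ (ε / 16) → 1 ≤ V → (x ^ vv δ κ ε ≤ 2 * (V : ℝ) ∨ V = S) →
  H = ⌊x ^ hh δ κ ε⌋₊ → G = min ⌊x ^ vv δ κ ε⌋₊ S →
  (1 ≤ R ∧ 1 ≤ N ∧ 8 ≤ M ∧ 1 ≤ H ∧ 1 ≤ G ∧ G ≤ S ∧ (G : ℝ) ≤ x ^ vv δ κ ε ∧ R ≤ N ∧ 2 * H < R ∧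
    100 * (M : ℝ) ^ 2 * (N : ℝ) ^ 2 * (R : ℝ) ^ 2 * (S : ℝ) ^ 4 ≤ x ^ (30 : ℝ) ∧ R * S ^ 2 ≤ M * N ∧
    (2 * (R : ℝ) * (S : ℝ) ^ 2 * N * ((2 * H + (4 * (R * S ^ 2) / M + 1) : ℕ) : ℝ)) ^ 12 ≤ x ^ (30 : ℝ)) ∧
  (R : ℝ) * (M : ℝ) ^ 2 * N + (M : ℝ) ^ 2 * (N : ℝ) ^ 2 / z + (M : ℝ) ^ 2 * (N : ℝ) ^ 2 / G +
      (R : ℝ) * M * (N : ℝ) ^ 2 * (S : ℝ) ^ 2 / (G : ℝ) ^ 2 + (R : ℝ) ^ 2 * (S : ℝ) ^ 4 * (N : ℝ) ^ 2 / H +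
      Real.sqrt D * (K : ℝ) ^ 2 * ((M : ℝ) ^ 2 * (N : ℝ) ^ 2) *
        ((Real.sqrt (4 * (R * (S : ℝ) ^ 2) / M) + Real.sqrt G) / V + (4 * (R * (S : ℝ) ^ 2) / M + G) * Real.sqrt E0) ≤
    C * (1 + Real.sqrt D) * (x ^ 2 * (x ^ (-(ε / 8)) + 1 / z))

/-- the two cases for a block -/
def Cs (δ κ l ε x : ℝ) (ρ : ℕ → ℕ) (R S R0 V : ℕ) (P : Finset (ℕ × ℕ)) : Prop :=
  (x ^ l ≤ 2 * (R0 : ℝ) ∧ (x ^ vv δ κ ε ≤ 2 * (V : ℝ) ∨ V = S)) ∨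
  (R0 = R ∧ x ^ vv δ κ ε ≤ 2 * (V : ℝ) ∧ ∀ w ∈ P, ρ w.1 = w.1 ∧
    ∀ p : ℕ, p.Prime → p ∣ w.2 → (p : ℝ) ≤ x ^ κ)

/-- Module Bbb (theorem tBbb; one block). Uses: BiStmt, BdiStmt, BncStmt.
Proof. H = ⌊x^hh⌋, G = min ⌊x^vv⌋ S. 1 ≤ V: x^vv ≤ 2V or V = S. Case I: BiStmt gives Hg for all g ≤ G (Hm = 2H + (4 R S^2/M + 1), size from Bnc). Case II: BiiStmt with the function v and ρ' = (fun r => r): Hg and Lp only use ρ on the first components of P, where ρ w.1 = w.1 (replace ρ by fun r => r in Lp first; R0 = R).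
Bdi with X = x^30, D = C1 T^A1, E0 = C0 x^(-hh), Bnc: square ≤ C T^A (1 + sqrt(C1 T^A1)) x^2 (x^(-ε/8) + 1/z) ≤ C' T^A' x^2 2/z^(ε/8) (rn_le; 1/z ≤ 1/z^(ε/8), T ≥ 1, sqrt(C1 T^A1) ≤ (1 + C1) T^A1); root: η = ε/16 (z^(ε/8) = (z^(ε/16))^2, T^A' ≤ (T^A')^2). -/
def BbbStmt : Prop := ∀ δ κ l ε : ℝ, Par δ κ l ε → BiiStmt δ κ ε → ∃ (η C x0 : ℝ) (A0 : ℕ), 0 < η ∧ 0 ≤ C ∧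
  ∀ (x T z : ℝ) (a : ℕ → ℕ → ℤ) (ρ : ℕ → ℕ) (v col : ℕ → ℕ → ℕ) (K M N R S R0 V : ℕ) (P : Finset (ℕ × ℕ))
    (f g : ℕ → ℂ), x0 ≤ x → Tau (x ^ (30 : ℝ)) T → 1 ≤ z → z ≤ x → Blk δ κ ε x M N R S →
  (K : ℝ) ≤ 2 * x ^ (ε / 16) → R0 ≤ R → V ≤ S → (V : ℝ) ≤ x ^ (vv δ κ ε + κ) → Cs δ κ l ε x ρ R S R0 V P →
  SL.Pr a R S z P → Lp a ρ v col K R0 V P → (∀ m, ‖f m‖ ≤ 1) → (∀ n, ‖g n‖ ≤ 1) →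
  ∑ w ∈ P, ‖∑ m ∈ Ioc M (2 * M), ∑ n ∈ Ioc N (2 * N), f m * g n * Dl (a w.1 w.2) w.1 w.2 (m * n)‖ ≤ Bd C A0 η x T z

/-- one modulus q = r (q/r) -/
def Dq (δ κ ε x z : ℝ) (N K : ℕ) (a : ℤ) (q r ρ v col : ℕ) : Prop :=
  (Squarefree q ∧ Int.gcd a q = 1 ∧ (q : ℝ) ≤ x ^ (1 / 2 + δ) ∧ x ^ (1 / 2 - ε / 2) < (q : ℝ)) ∧
  (r ∣ q ∧ (r : ℝ) ≤ N * x ^ (-ε) ∧ (N : ℝ) * x ^ (-ε) < r * x ^ κ ∧ ∀ p : ℕ, p.Prime → p ∣ q / r → z < p) ∧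
  ρ ∣ r ∧ v ∣ q / r ∧ (v : ℝ) ≤ x ^ (vv δ κ ε + κ) ∧ col < K

/-- Module Bdr (theorem tBdr; all blocks). Uses: BbbStmt. MODEL: Lib/MX/Bdr.lean.
Proof. Blocks by the four numbers Nat.log 2 (r q - 1), Nat.log 2 (q/r q - 1), Nat.log 2 (ρ q - 1), Nat.log 2 (v q - 1) (all of r, s = q/r, ρ, v are ≥ 3 for large x: r > x^(1/3-2ε-κ), s > x^(ε/2) as in the MODEL, ρ ≥ x^l or ρ = r, v > x^vv or v = s), at most (6 log x)^4 ≤ 1296 T^4 blocks (log_le_T).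
For a nonempty block R = 2^i < r ≤ 2R, S < s ≤ 2S, R0 < ρ ≤ 2R0, V < v ≤ 2V; ρ ∣ r gives R0 ≤ R (log is monotone), v ∣ s gives V ≤ S. Blk as in the MODEL (Bdr_blk). Cs from any q of the block: in the first case x^l ≤ ρ ≤ 2R0, and x^vv < v ≤ 2V or v = s, V = S; in the second case ρ = r, R0 = R, and q/r is smooth.
P = image of q ↦ (r q, q/r q), A n m = a (n m), v n m = v (n m), col n m = col (n m), ρ n = ρ q for some q ∈ F with r q = n. -/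
def BdrStmt : Prop := ∀ δ κ l ε : ℝ, Par δ κ l ε → BiiStmt δ κ ε → ∃ (η C x0 : ℝ) (A0 : ℕ), 0 < η ∧ 0 ≤ C ∧
  ∀ (x T z : ℝ) (a : ℕ → ℤ) (M N K : ℕ) (f g : ℕ → ℂ) (F : Finset ℕ) (r ρ v col : ℕ → ℕ), x0 ≤ x →
  Tau (x ^ (30 : ℝ)) T → 1 ≤ z → z ≤ x → N ≤ M → x ^ ((1 : ℝ) / 3 - ε) ≤ N →
  x ^ (1 - ε) ≤ (M : ℝ) * N → (M : ℝ) * N ≤ x → (K : ℝ) ≤ 2 * x ^ (ε / 16) → (∀ m, ‖f m‖ ≤ 1) → (∀ n, ‖g n‖ ≤ 1) →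
  (∀ q ∈ F, Dq δ κ ε x z N K (a q) q (r q) (ρ q) (v q) (col q)) →
  ((∀ q ∈ F, x ^ l ≤ (ρ q : ℝ) ∧ (x ^ vv δ κ ε < (v q : ℝ) ∨ v q = q / r q)) ∨
    ∀ q ∈ F, ρ q = r q ∧ x ^ vv δ κ ε < (v q : ℝ) ∧ ∀ p : ℕ, p.Prime → p ∣ q / r q → (p : ℝ) ≤ x ^ κ) →
  (∀ q ∈ F, ∀ q' ∈ F, r q = r q' → ρ q = ρ q') →
  (∀ q ∈ F, ∀ q' ∈ F, ρ q = ρ q' → q / r q / v q = q' / r q' / v q' → col q = col q' →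
    ((ρ q : ℕ) : ℤ) ∣ a q - a q') →
  ∑ q ∈ F, ‖∑ m ∈ Ioc M (2 * M), ∑ n ∈ Ioc N (2 * N), f m * g n * Dl (a q) (r q) (q / r q) (m * n)‖ ≤ Bd C A0 η x T z

/-- the lock divisor c and the modulus r of the first variable: c = lcm(w, t) with the small primes t; r ∣ c or c ∣ r; m is the
factor of w (and of r) that is not smooth -/
def Dw (δ κ l l' ε x z : ℝ) (N : ℕ) (a : ℤ) (q t w m r : ℕ) : Prop :=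
  (Mz (1 / 2 + δ) (ε / 16) z x t q ∧ Int.gcd a q = 1 ∧ x ^ (1 / 2 - ε / 2) < (q : ℝ) ∧
    ∀ p : ℕ, p.Prime → p ∣ q / m → (p : ℝ) ≤ x ^ κ) ∧
  (w ∣ q ∧ x ^ l ≤ (w : ℝ) ∧ (w : ℝ) ≤ x ^ l') ∧
  m ∣ w ∧ m ∣ r ∧ t ∣ r ∧ r ∣ q ∧ (r : ℝ) ≤ N * x ^ (-ε) ∧ (N : ℝ) * x ^ (-ε) < r * x ^ κ ∧ (Nat.lcm w t ∣ r ∨ r ∣ Nat.lcm w t)

/-- Module Bds (theorem tBds; choice of v and of the colours, splitting). Uses: BdrStmt, MI.BgrStmt, MK.FspStmt.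
Proof. c q = lcm (w q) (t q), squarefree, divides q, c q ≤ x^(l'+ε/16). k q = c q / w q divides t q, k q ≤ x^(ε/16); col q = (a q mod k q) < K := ⌊x^(ε/16)⌋ + 1 ≤ 2 x^(ε/16). F = F1 (c q ∣ r q) ∪ F2 (the rest, r q ∣ c q).
F1: ρ = c (≥ w ≥ x^l). v q: if x^(vv+κ) < q/r q, MI.BgrStmt (q := q/r q, t := 1, Z := x^(vv+κ), y := x^κ) gives v ∣ q/r, x^vv < v ≤ x^(vv+κ); otherwise v q = q/r q. MK.Fsp with s := c, t := r (c q is a divisor of r q, at most T values) and inside MK.Fsp with s := w, t := c (w q ∣ c q): on the parts c q is a function of r q, w q a function of c q.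
F2: ρ = r. v q ∣ q/c q with x^vv < v ≤ x^(vv+κ) (Bgr; q/c q ≥ x^(1/2-ε/2-l'-ε/16) > x^(vv+κ) = x^(δ+3κ/2+7ε/2)); v ∣ q/r q. c q v q ∣ q, so c q divides m q := r q (q/r q/v q) = q/v q. MK.Fsp with s := c, t := m, inside with s := w, t := c.
Lock: ρ q = ρ q', equal q/r/v, equal colours: c q = c q' (F1: ρ = c; F2: r q = r q', so m q = m q'), w q = w q', w q ∣ a q - a q', k q = k q' ∣ a q - a q' (equal remainders), c q = w q k q with coprime factors, so c q ∣ a q - a q', and ρ q ∣ c q. K = T, T: factor T^2, 2 parts. -/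
def BdsStmt : Prop := ∀ δ κ l l' ε : ℝ, Par δ κ l ε → l' + δ + 3 / 2 * κ + 6 * ε ≤ 1 / 2 → BiiStmt δ κ ε →
  ∃ (η C x0 : ℝ) (A0 : ℕ), 0 < η ∧ 0 ≤ C ∧
  ∀ (x T z : ℝ) (a : ℕ → ℤ) (M N : ℕ) (f g : ℕ → ℂ) (F : Finset ℕ) (t w m r : ℕ → ℕ), x0 ≤ x →
  Tau (x ^ (30 : ℝ)) T → 1 ≤ z → z ≤ x → N ≤ M → x ^ ((1 : ℝ) / 3 - ε) ≤ N →
  x ^ (1 - ε) ≤ (M : ℝ) * N → (M : ℝ) * N ≤ x → (∀ m, ‖f m‖ ≤ 1) → (∀ n, ‖g n‖ ≤ 1) →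
  (∀ q ∈ F, Dw δ κ l l' ε x z N (a q) q (t q) (w q) (m q) (r q)) →
  (∀ q ∈ F, ∀ q' ∈ F, w q = w q' → ((w q : ℕ) : ℤ) ∣ a q - a q') →
  ∑ q ∈ F, ‖∑ m ∈ Ioc M (2 * M), ∑ n ∈ Ioc N (2 * N), f m * g n * Dl (a q) (r q) (q / r q) (m * n)‖ ≤ Bd C A0 η x T z

/-- Module Bfi (theorem tBfi; the bilinear theorem). Uses: BdsStmt, SL.BgeStmt, MI.BgrStmt. MODEL: end of Lib/MX/Bfi.lean.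
Proof. ε ≤ ε1 small with Par δ κ l ε, l' + δ + 3κ/2 + 6ε ≤ 1/2 and μ + 3ε ≤ 1/3, τ = ε/16. N ≤ M (otherwise exchange f and g, M and N: Bfi_swap). w, m = the functions of SLA.Lkm (there r, m). For q ∈ F, q > x^(1/2-ε/2): Z = N x^(-ε) ≤ x^(1/2-ε) < q, c = lcm (w q) (t q) ∣ q. If c ≤ Z: BgrStmt with q, t := c: c ∣ r ∣ q, r ≤ Z < r x^κ
(the primes of q/c divide q/m). If c > Z: BgrStmt with q := c, t := lcm (m q) (t q) (≤ x^(μ+ε/16) ≤ x^(1/3-2ε) ≤ Z; the primes of c/lcm(m,t) divide q/m): m, t ∣ r ∣ c, r ≤ Z < r x^κ. r q by choice (r q = t q for the other q), u q = r q/t q (divides q/t q; t q u q = r q ≤ Z ≤ x^(1/2-ε/2)). SL.BgeStmt (δ ≤ 1/10): the sum is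
≤ ∑_{q > x^(1/2-ε/2)} ‖.. Dl (a q) (r q) (q/r q)‖ + Bd; the first sum by BdsStmt. -/
def BfiStmt : Prop := ∀ δ μ κ l l' : ℝ, 0 ≤ δ → μ < 1 / 3 → 0 < κ → 84 * δ + 48 * κ < 1 →
  1 / 3 + 4 * δ + 7 / 3 * κ < l → l' + δ + 3 / 2 * κ < 1 / 2 →
  (∃ ε1 : ℝ, 0 < ε1 ∧ ∀ ε : ℝ, 0 < ε → ε ≤ ε1 → BiiStmt δ κ ε) →
  ∃ ε τ : ℝ, 0 < ε ∧ ε < 1 / 100 ∧ 0 < τ ∧ τ ≤ 1 / 3 ∧ SLA.BlStmt (SLA.Lkm μ κ l l') (1 / 2 + δ) τ ε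

end Pool.Agent.Lib.SLB
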