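import Pool.Agent.Lib.SLB.SpecB
import Pool.Agent.Lib.SLB.StmK
import Pool.Agent.Lib.SLA.StmK

/-!
MP_00e23e_nt, project SL (THEOREM SL, single lock), phase 2, chapter B for x^c classes (helper90): from SL.DspStmt, T0KStmt and
TwKStmt to the bilinear theorem SLA.BlStmt (SLA.Lkc c μ κ l l') (1/2+δ) τ ε for 84 δ + 42 c + 48 κ < 1,
1/3 + 4 δ + (8/3) c + κ < l, l' + δ + 2 c + (3/2) κ < 1/2.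
RULES. Module X: file Pool/Agent/Lib/SLB/X.lean, first line `import Pool.Agent.Lib.SLB.SpecK`, then `namespace Pool.Agent.Lib.SLB`
and the two `open` lines below; private lemmas with names starting with X_, final theorem `theorem tX (h1 : AStmt) ... : XStmt`; the
statements listed under Uses are hypotheses of your theorem, in this order. The docstring contains a complete proof. MODEL file: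
copy it and change it. Never use congr!. Every module below 60 s.
Differences from SpecB: the coefficients of one sum TG carry all colours (LtK instead of Lt), the factor K^2 stands in the square
(D := C T^A K^2 in HgK), R ≤ Nm x^(-ε) with Nm = min(N, x^(1/2-2c)) (so that R K^2 ≤ M x^(-ε/4)), y = R S^2/M.
-/

namespace Pool.Agent.Lib.SLB

open Finset Pool.Agent.Lib.EH3 Pool.Agent.Lib.TB Pool.Agent.Results.MP_00e23e_nt Pool.Agent.Lib.MI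
open Pool.Agent.Lib.MX (Bd Mz Bd_nonneg Bd_mono rp_le rn_le log_le_T Tau_x)

/-- the parameters -/
def ParK (c δ κ l ε : ℝ) : Prop := (0 ≤ c ∧ 0 ≤ δ ∧ 0 < κ ∧ 0 < ε ∧ ε < 1 / 100) ∧
  84 * δ + 42 * c + 48 * κ + 400 * ε ≤ 1 ∧ 1 / 3 + 4 * δ + 8 / 3 * c + κ + 8 * ε ≤ l

/-- exponent of the divisor v of s in case I -/
noncomputable def va (c δ κ ε : ℝ) : ℝ := δ + 2 * c + κ / 2 + 7 / 2 * ε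

/-- exponent of the divisor v of s in case II -/
noncomputable def vb (c δ κ ε : ℝ) : ℝ := δ + c + κ / 2 + 7 / 2 * ε

/-- exponent of H -/
noncomputable def ha (c δ κ ε : ℝ) : ℝ := 4 * δ + 4 * c + 2 * κ + 10 * ε

/-- exponent of the saving in case II -/
noncomputable def hb (c δ κ ε : ℝ) : ℝ := 4 * δ + 2 * c + 2 * κ + 10 * ε

/-- min(N, x^(1/2-2c)) -/
noncomputable def Nm (c x : ℝ) (N : ℕ) : ℝ := min (N : ℝ) (x ^ (1 / 2 - 2 * c))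

/-- the sizes of a dyadic block r ∈ (R, 2R], s ∈ (S, 2S]; for N ≤ x^(1/2-2c) this is MI.Blk -/
def BlkK (c δ κ ε x : ℝ) (M N R S : ℕ) : Prop :=
  N ≤ M ∧ x ^ ((1 : ℝ) / 3 - ε) ≤ N ∧ x ^ (1 - ε) ≤ (M : ℝ) * N ∧ (M : ℝ) * N ≤ x ∧ 1 ≤ S ∧
    (R : ℝ) ≤ Nm c x N * x ^ (-ε) ∧ Nm c x N * x ^ (-ε - κ) ≤ 2 * R ∧ (R : ℝ) * S ≤ x ^ (1 / 2 + δ) ∧
    x ^ (1 / 2 - ε / 2) ≤ 4 * ((R : ℝ) * S)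

/-- the bound of T0KStmt -/
noncomputable def EI (R S N R0 V : ℕ) : ℝ :=
  (R : ℝ) ^ 3 * S * V / (R0 * Real.sqrt R0 * (N : ℝ) ^ 2) + (R : ℝ) ^ 2 / (R0 * Real.sqrt R0 * N) +
    R * Real.sqrt R * Real.sqrt ((S : ℝ) * V) / ((R0 : ℝ) * N) + R / (R0 * Real.sqrt R0)

/-- the hypothesis on the sums TG for one g, with colours: for all finite sets Hs of h ≠ 0, |h| ≤ H' ≤ Hm, all coefficients γ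
bounded by 1 and supported on P and all b with LtK -/
def HgK (a : ℕ → ℕ → ℤ) (ρ : ℕ → ℕ) (v col : ℕ → ℕ → ℕ) (K g R S N R0 V Hm : ℕ) (P : Finset (ℕ × ℕ)) (D E : ℝ) : Prop :=
  ∀ (H' : ℕ) (Hs : Finset ℤ) (γ : ℤ → ℕ → ℕ → ℕ → ℂ) (ω : ℕ → ℕ → ℂ) (b : ℕ → ℕ → ℕ → ℤ), 1 ≤ H' → H' ≤ Hm →
  (∀ h ∈ Hs, h ≠ 0 ∧ |h| ≤ (H' : ℤ)) → (∀ h r s1 s2, ‖γ h r s1 s2‖ ≤ 1) → (∀ n1 n2, ‖ω n1 n2‖ ≤ 1) →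
  (∀ h r s1 s2, γ h r s1 s2 ≠ 0 → (r, s1) ∈ P ∧ (r, s2) ∈ P ∧ (2 ≤ g → SL.ND (a r s1) (a r s2) (r * g) N)) →
  LtK a b ρ v col K R0 V γ →
  ‖∑ h ∈ Hs, SL.TG a g h R S N (γ h) ω‖ ^ 2 ≤ D * ((S : ℝ) ^ 2 * (N : ℝ) ^ 2) ^ 2 *
    ((H' : ℝ) / ((V : ℝ) ^ 2 * (g : ℝ) ^ 3) + ((H' : ℝ) / g) ^ 2 * E)

/-- Module BgaK (theorem tBgaK; one g, admissible coefficients). Uses: BdhStmt. MODEL: Lib/SLB/Bga.lean (Bcs is not used; no factor K^2).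
Proof. b ρ' u c := a w.1 w.2 for some w ∈ P with ρ w.1 = ρ', w.2 / v w.1 w.2 = u, col w.1 w.2 = c (by choice; 0 if there is none); by Lp: ρ r ∣ a r s - b (ρ r) (s / v r s) (col r s) for (r, s) ∈ P, so LtK holds for every γ' supported on P. Bdh with
E := sqrt D (S^2 N^2) sqrt(Y0/(V^2 g^3) + (Y0/g)^2 E0): HgK with H' = 2^i Y0 ≤ 2H + Y0: square ≤ D (S^2N^2)^2 (2^i Y0/(V^2g^3) + 4^i (Y0/g)^2 E0) ≤ 4^i D (S^2 N^2)^2 (..); take the root. Then 32 M g/(R S^2) S^2 N^2 sqrt(Y0/(V^2g^3) + (Y0/g)^2E0) = 32 (M N^2/R) sqrt(Y0/(V^2 g) + Y0^2 E0). -/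
def BgaKStmt : Prop := ∀ (D E0 : ℝ) (a : ℕ → ℕ → ℤ) (ρ : ℕ → ℕ) (v col : ℕ → ℕ → ℕ) (g K R S M N H Y0 R0 V : ℕ)
    (P : Finset (ℕ × ℕ)) (γ : ℤ → ℕ → ℕ → ℕ → ℂ) (ω : ℕ → ℕ → ℂ), 0 ≤ D → 0 ≤ E0 → 1 ≤ g → 1 ≤ R → 1 ≤ S → 1 ≤ M →
  1 ≤ N → 1 ≤ Y0 → 1 ≤ V → 4 * (R * S ^ 2) ≤ M * g * Y0 → SL.Cg a P g R S M N γ → (∀ n1 n2, ‖ω n1 n2‖ ≤ 1) →
  Lp a ρ v col K R0 V P → HgK a ρ v col K g R S N R0 V (2 * H + Y0) P D E0 →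
  ‖∑ h ∈ Icc (-(H : ℤ)) H, SL.TG a g h R S N (γ h) ω‖ ≤ 32 * Real.sqrt D * ((M : ℝ) * (N : ℝ) ^ 2 / R) *
    Real.sqrt ((Y0 : ℝ) / ((V : ℝ) ^ 2 * g) + (Y0 : ℝ) ^ 2 * E0)

/-- Module BdiK (theorem tBdiK; dispersion with all g). Uses: SL.DspStmt, BgaKStmt, BsgStmt. MODEL: Lib/SLB/Bdi.lean (no factor K^2).
Proof. Y g := 4 R S^2/(M g) + 1 (natural division): 4 R S^2 ≤ M g (Y g), Y g ≤ y/g + 1 with y = 4 R S^2/M, Y g ≤ Y1 := 4 R S^2/M + 1 (natural). SL.DspStmt with B g := 32 sqrt D (M N^2/R) sqrt(Y g/(V^2 g) + (Y g)^2 E0) for 1 ≤ g ≤ G, BgaK (HgK is monotone in Hm).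
R M ∑ B g ≤ 32 sqrt D M^2 N^2 2T(..) (Bsg; G ≤ S ≤ X). -/
def BdiKStmt : Prop := ∃ C : ℝ, 0 < C ∧ ∃ A : ℕ, ∀ (X T z D E0 : ℝ) (a : ℕ → ℕ → ℤ) (ρ : ℕ → ℕ) (v col : ℕ → ℕ → ℕ)
    (K R S M N H G R0 V : ℕ) (P : Finset (ℕ × ℕ)) (f k : ℕ → ℂ), Tau X T → 1 ≤ z → 0 ≤ D → 0 ≤ E0 → 1 ≤ R → 1 ≤ S →
  1 ≤ N → 8 ≤ M → 1 ≤ H → 1 ≤ G → G ≤ S → 1 ≤ V → R ≤ N → 2 * H < R →
  100 * (M : ℝ) ^ 2 * (N : ℝ) ^ 2 * (R : ℝ) ^ 2 * (S : ℝ) ^ 4 ≤ X → R * S ^ 2 ≤ M * N → SL.Pr a R S z P →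
  Lp a ρ v col K R0 V P →
  (∀ g ∈ Icc 1 G, HgK a ρ v col K g R S N R0 V (2 * H + (4 * (R * S ^ 2) / M + 1)) P D E0) →
  (∀ m, ‖f m‖ ≤ 1) → (∀ n, ‖k n‖ ≤ 1) →
  (∑ w ∈ P, ‖∑ m ∈ Ioc M (2 * M), ∑ n ∈ Ioc N (2 * N), f m * k n * Dl (a w.1 w.2) w.1 w.2 (m * n)‖) ^ 2 ≤
    C * T ^ A * ((R : ℝ) * (M : ℝ) ^ 2 * N + (M : ℝ) ^ 2 * (N : ℝ) ^ 2 / z + (M : ℝ) ^ 2 * (N : ℝ) ^ 2 / G +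
      (R : ℝ) * M * (N : ℝ) ^ 2 * (S : ℝ) ^ 2 / (G : ℝ) ^ 2 + (R : ℝ) ^ 2 * (S : ℝ) ^ 4 * (N : ℝ) ^ 2 / H +
      Real.sqrt D * ((M : ℝ) ^ 2 * (N : ℝ) ^ 2) *
        ((Real.sqrt (4 * (R * (S : ℝ) ^ 2) / M) + Real.sqrt G) / V + (4 * (R * (S : ℝ) ^ 2) / M + G) * Real.sqrt E0))

/-- Module BiaK (theorem tBiaK; case I). Uses: T0KStmt. MODEL: Lib/SLB/Bia.lean (no numbers: E = EI).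
Proof. HgK from T0KStmt with X = x^30 (Tz: size from H' ≤ Hm); EI is its bracket (unfold). -/
def BiaKStmt : Prop := ∃ (C : ℝ) (A : ℕ), 0 < C ∧
  ∀ (x T : ℝ) (a : ℕ → ℕ → ℤ) (ρ : ℕ → ℕ) (v col : ℕ → ℕ → ℕ) (K g R S N R0 V Hm : ℕ) (P : Finset (ℕ × ℕ)),
  Tau (x ^ (30 : ℝ)) T → 1 ≤ K → 1 ≤ g → 1 ≤ R → 1 ≤ S → 1 ≤ N → 1 ≤ R0 → 1 ≤ V → R0 ≤ R → V ≤ S → R ≤ N →
  (2 * (R : ℝ) * (S : ℝ) ^ 2 * N * Hm) ^ 12 ≤ x ^ (30 : ℝ) →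
  HgK a ρ v col K g R S N R0 V Hm P (C * T ^ A * (K : ℝ) ^ 2) (EI R S N R0 V)

/-- the bound of the sums TG in CASE II (ρ r = r), for the parameters c, δ, κ, ε (N ≤ x^(1/2-2c), so the block is a MI.Blk) -/
def BiiKStmt (c δ κ ε : ℝ) : Prop := ∃ (C C0 x0 : ℝ) (A : ℕ), 0 < C ∧ 0 ≤ C0 ∧
  ∀ (x T : ℝ) (a : ℕ → ℕ → ℤ) (v col : ℕ → ℕ → ℕ) (K g M N R S V Hm : ℕ) (P : Finset (ℕ × ℕ)), x0 ≤ x →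
  Tau (x ^ (30 : ℝ)) T → Blk δ κ ε x M N R S → 1 ≤ K → 1 ≤ R → 1 ≤ V → V ≤ S → x ^ vb c δ κ ε ≤ 2 * (V : ℝ) →
  (V : ℝ) ≤ x ^ (vb c δ κ ε + κ) → 1 ≤ g → (2 * (R : ℝ) * (S : ℝ) ^ 2 * N * Hm) ^ 12 ≤ x ^ (30 : ℝ) →
  (∀ w ∈ P, R < w.1 ∧ w.1 ≤ 2 * R ∧ S < w.2 ∧ w.2 ≤ 2 * S ∧ Squarefree (w.1 * w.2) ∧
    ∀ p : ℕ, p.Prime → p ∣ w.2 → (p : ℝ) ≤ x ^ κ) →
  HgK a (fun r => r) v col K g R S N R V Hm P (C * T ^ A * (K : ℝ) ^ 2) (C0 * x ^ (-hb c δ κ ε))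

/-- Module BicK (theorem tBicK; case II). Uses: TwKStmt, MI.BgrStmt (numbers included). MODEL: Lib/SLB/Bicw.lean, Lib/SLB/Bnw.lean
(w = vb, h = hb, LW with x^(4 hb)). -/
def BicKStmt : Prop := ∀ c δ κ ε : ℝ, 0 ≤ c → 0 ≤ δ → 0 < κ → 0 < ε → ε < 1 / 100 →
  84 * δ + 42 * c + 48 * κ + 400 * ε ≤ 1 → BiiKStmt c δ κ ε

/-- Module BfaK (theorem tBfaK; the facts of a block). Uses: nothing. MODEL: Bnc_facts in Lib/SLB/Bnc.lean.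
Proof. x0 with 64 ≤ x0^(1/8). (1) N ≥ x^(1/3-ε) ≥ 64. (2) N^2 ≤ M N ≤ x. (3) Nm ≥ x^(1/3-ε) (N ≥ x^(1/3-ε) and 1/2-2c ≥ 1/3-ε), so 2R ≥ Nm x^(-ε-κ) ≥ x^(1/3-2ε-κ), in particular R ≥ 1. (4) R ≤ Nm x^(-ε) ≤ N x^(-ε) and ≤ x^(1/2-2c-ε). (5) 4 S x^(1/2-2c-ε) ≥ 4 S R ≥ x^(1/2-ε/2).
(6) R S^2: N ≤ Nm x^(2c) (N = Nm, or N ≤ x^(1/2) = x^(1/2-2c) x^(2c)), so 2 R M ≥ M Nm x^(-ε-κ) ≥ M N x^(-2c-ε-κ) ≥ x^(1-2c-2ε-κ), and x^(1-2c-2ε-κ) R S^2 ≤ 2 M (R S)^2 ≤ 2 M x^(1+2δ). (7) the same with N = Nm. (8) (R S^2) R = (R S)^2 ≤ x^(1+2δ) = x^(2δ+ε) x^(1-ε) ≤ x^(2δ+ε) M N.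
(9) M^2 ≥ M N ≥ x^(1-ε), M ≥ x^(1/2-ε/2), R ≤ x^(1/2-2c-ε) ≤ x^(-2c-ε/2) M. -/
def BfaKStmt : Prop := ∀ c δ κ l ε : ℝ, ParK c δ κ l ε → ∃ x0 : ℝ, 1 ≤ x0 ∧ 64 ≤ x0 ^ ((1 : ℝ) / 8) ∧
  ∀ (x : ℝ) (M N R S : ℕ), x0 ≤ x → BlkK c δ κ ε x M N R S →
  ((64 : ℝ) ≤ N ∧ (N : ℝ) ≤ x ^ ((1 : ℝ) / 2) ∧ 1 ≤ R ∧ R ≤ N) ∧
  x ^ ((1 : ℝ) / 3 - 2 * ε - κ) ≤ 2 * (R : ℝ) ∧ (R : ℝ) ≤ N * x ^ (-ε) ∧ (R : ℝ) ≤ x ^ (1 / 2 - 2 * c - ε) ∧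
  x ^ (2 * c + ε / 2) ≤ 4 * (S : ℝ) ∧ (R : ℝ) * (S : ℝ) ^ 2 ≤ 2 * x ^ (2 * δ + 2 * c + κ + 2 * ε) * M ∧
  ((N : ℝ) ≤ x ^ (1 / 2 - 2 * c) → (R : ℝ) * (S : ℝ) ^ 2 ≤ 2 * x ^ (2 * δ + κ + 2 * ε) * M) ∧
  (R : ℝ) * (S : ℝ) ^ 2 * R ≤ x ^ (2 * δ + ε) * (M * N) ∧ (R : ℝ) ≤ x ^ (-(2 * c) - ε / 2) * M

/-- Module BnaK (theorem tBnaK; numbers of case I). Uses: BfaKStmt. MODEL: Lib/SLB/Bna.lean.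
Proof. y = R S^2/M. From BfaK: R/N ≤ x^(-ε) ≤ 1 and y R/N ≤ x^(2δ+ε), so A := (1+y)(R/N) ≤ 2 x^(2δ+ε); 1 + y ≤ 3 x^(2δ+2c+κ+2ε); N ≤ x^(1/2); R0^(3/2) ≥ x^(3l/2)/3, 1/R0 ≤ 2 x^(-l); R S ≤ x^(1/2+δ), V ≤ x^(δ+2c+3κ/2+7ε/2).
(1) (1+y)^2 R^3 S V/(R0^(3/2) N^2) = A^2 (R S) V/R0^(3/2) ≤ 12 x^(4δ+2ε+1/2+δ+δ+2c+3κ/2+7ε/2-3l/2) = 12 x^(1/2+6δ+2c+3κ/2+11ε/2-3l/2) ≤ 12 x^(-2c-3ε) (3l/2 ≥ 1/2+6δ+4c+3κ/2+12ε). (2) (1+y)^2 R^2/(R0^(3/2) N) = A^2 N/R0^(3/2) ≤ 12 x^(4δ+2ε+1/2-3l/2) ≤ 12 x^(-2c-3ε).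
(3) (1+y)^2 R^(3/2) (S V)^(1/2)/(R0 N) = (1+y) A (R S V)^(1/2)/R0 ≤ 12 x^(2δ+2c+κ+2ε+2δ+ε+(1/2+2δ+2c+3κ/2+7ε/2)/2-l) = 12 x^(1/4+5δ+3c+7κ/4+19ε/4-l) ≤ 12 x^(-2c-3ε) (δ+7c/3+3κ/4 ≤ 1/12 by ParK).
(4) (1+y)^2 R/R0^(3/2) = (1+y) A N/R0^(3/2) ≤ 18 x^(4δ+2c+κ+3ε+1/2-3l/2) ≤ 18 x^(-2c-3ε). C = 54. -/
def BnaKStmt : Prop := ∀ c δ κ l ε : ℝ, ParK c δ κ l ε → ∃ C x0 : ℝ, 0 ≤ C ∧ 1 ≤ x0 ∧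
  ∀ (x : ℝ) (M N R S R0 V : ℕ), x0 ≤ x → BlkK c δ κ ε x M N R S → (V : ℝ) ≤ x ^ (va c δ κ ε + κ) →
  x ^ l ≤ 2 * (R0 : ℝ) → (1 + (R : ℝ) * (S : ℝ) ^ 2 / M) ^ 2 * EI R S N R0 V ≤ C * x ^ (-(2 * c + 3 * ε))

/-- Module BncK (theorem tBncK; the numbers of the dispersion). Uses: BfaKStmt. MODEL: Lib/SLB/Bnc.lean.
Proof. y = R S^2/M ≤ 2 x^(2δ+2c+κ+2ε), H = ⌊x^ha⌋, Γ = (1 + sqrt y) x^ε, G = min ⌊Γ⌋ S (≥ 1). Sizes: 2H ≤ 2 x^ha < x^(1/3-2ε-κ)/2 ≤ R (4δ+4c+3κ+12ε + 1/8 ≤ 1/3); R S^2 ≤ 2 x^(2δ+2c+κ+2ε) M ≤ N M; M ≥ N ≥ 8; 100 M^2 N^2 (R S^2)^2 ≤ 100 x^2 x^2 ≤ x^30; 4 R S^2/M + 1 ≤ 9 x^(2δ+2c+κ+2ε),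
2H + that ≤ 11 x^ha ≤ x^(1/2), 2 R S^2 N x^(1/2) ≤ 2 M N N x^(1/2) ≤ 2 x^2, 2^12 x^24 ≤ x^30. Terms (M N ≤ x): R M^2 N = (M N)^2 R/N ≤ x^(2-ε). 1/G ≤ 1/⌊Γ⌋ + 1/S ≤ 2/Γ + 1/S ≤ 2 x^(-ε) + 4 x^(-ε/2) ≤ 6 x^(-ε/2) (4S ≥ x^(2c+ε/2)).
R M N^2S^2/G^2 = (M N)^2 y/G^2 ≤ (M N)^2 (4 y/Γ^2 + y/S^2) ≤ (M N)^2 (4 x^(-2ε) + R/M) ≤ 5 x^(2-ε) (y ≤ (1 + sqrt y)^2; R/M ≤ R/N ≤ x^(-ε)). R^2S^4N^2/H = (M N)^2 y^2/H ≤ 8 x^(2+4δ+4c+2κ+4ε-ha) = 8 x^(2-6ε).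
Last term. (2 sqrt y + sqrt G)/V: for x^va ≤ 2V: 2 sqrt y + sqrt Γ ≤ 3 (1 + sqrt y) x^(ε/2) ≤ 9 x^(δ+c+κ/2+3ε/2) (1 + sqrt y ≤ 3 x^(δ+c+κ/2+ε)), times K/V ≤ 4 x^(c+ε/16-va): ≤ 36 x^(-ε). For x^vb ≤ 2V and N ≤ x^(1/2-2c): 1 + sqrt y ≤ 3 x^(δ+κ/2+ε) (BfaK), times K/V ≤ 4 x^(c+ε/16-vb): ≤ 36 x^(-ε).
For V = S: K 2 sqrt y/S = 2 K sqrt(R/M) ≤ 4 x^(c+ε/16-c-ε/4), K sqrt G/S ≤ K/sqrt S ≤ 4 x^(c+ε/16-c-ε/4): ≤ 8 x^(-ε/8). (4y + G) sqrt E0 ≤ 5 (1+y) x^ε sqrt E0 ≤ 5 x^ε sqrt C0 x^(-c-3ε/2), times K ≤ 2 x^(c+ε/16): ≤ 10 sqrt C0 x^(-ε/4). -/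
def BncKStmt : Prop := ∀ c δ κ l ε C0 : ℝ, ParK c δ κ l ε → 0 ≤ C0 → ∃ C x0 : ℝ, 0 ≤ C ∧ 1 ≤ x0 ∧
  ∀ (x z D E0 : ℝ) (K M N R S V H G : ℕ), x0 ≤ x → 1 ≤ z → 0 ≤ D → 0 ≤ E0 →
  (1 + (R : ℝ) * (S : ℝ) ^ 2 / M) ^ 2 * E0 ≤ C0 * x ^ (-(2 * c + 3 * ε)) →
  BlkK c δ κ ε x M N R S → (K : ℝ) ≤ 2 * x ^ (c + ε / 16) → 1 ≤ V →
  (x ^ va c δ κ ε ≤ 2 * (V : ℝ) ∨ V = S ∨ (x ^ vb c δ κ ε ≤ 2 * (V : ℝ) ∧ (N : ℝ) ≤ x ^ (1 / 2 - 2 * c))) →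
  H = ⌊x ^ ha c δ κ ε⌋₊ → G = min ⌊(1 + Real.sqrt ((R : ℝ) * (S : ℝ) ^ 2 / M)) * x ^ ε⌋₊ S →
  (1 ≤ R ∧ 1 ≤ N ∧ 8 ≤ M ∧ 1 ≤ H ∧ 1 ≤ G ∧ G ≤ S ∧ R ≤ N ∧ 2 * H < R ∧
    100 * (M : ℝ) ^ 2 * (N : ℝ) ^ 2 * (R : ℝ) ^ 2 * (S : ℝ) ^ 4 ≤ x ^ (30 : ℝ) ∧ R * S ^ 2 ≤ M * N ∧
    (2 * (R : ℝ) * (S : ℝ) ^ 2 * N * ((2 * H + (4 * (R * S ^ 2) / M + 1) : ℕ) : ℝ)) ^ 12 ≤ x ^ (30 : ℝ)) ∧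
  (R : ℝ) * (M : ℝ) ^ 2 * N + (M : ℝ) ^ 2 * (N : ℝ) ^ 2 / z + (M : ℝ) ^ 2 * (N : ℝ) ^ 2 / G +
      (R : ℝ) * M * (N : ℝ) ^ 2 * (S : ℝ) ^ 2 / (G : ℝ) ^ 2 + (R : ℝ) ^ 2 * (S : ℝ) ^ 4 * (N : ℝ) ^ 2 / H +
      Real.sqrt (D * (K : ℝ) ^ 2) * ((M : ℝ) ^ 2 * (N : ℝ) ^ 2) *
        ((Real.sqrt (4 * (R * (S : ℝ) ^ 2) / M) + Real.sqrt G) / V + (4 * (R * (S : ℝ) ^ 2) / M + G) * Real.sqrt E0) ≤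
    C * (1 + Real.sqrt D) * (x ^ 2 * (x ^ (-(ε / 8)) + 1 / z))

/-- the two cases for a block -/
def CsK (c δ κ l ε x : ℝ) (ρ : ℕ → ℕ) (N R S R0 V : ℕ) (P : Finset (ℕ × ℕ)) : Prop :=
  (x ^ l ≤ 2 * (R0 : ℝ) ∧ (x ^ va c δ κ ε ≤ 2 * (V : ℝ) ∨ V = S) ∧ (V : ℝ) ≤ x ^ (va c δ κ ε + κ)) ∨
  (R0 = R ∧ (N : ℝ) ≤ x ^ (1 / 2 - 2 * c) ∧ x ^ vb c δ κ ε ≤ 2 * (V : ℝ) ∧ (V : ℝ) ≤ x ^ (vb c δ κ ε + κ) ∧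
    ∀ w ∈ P, ρ w.1 = w.1 ∧ ∀ p : ℕ, p.Prime → p ∣ w.2 → (p : ℝ) ≤ x ^ κ)

/-- Module BbbK (theorem tBbbK; one block). Uses: BiaKStmt, BdiKStmt, BfaKStmt, BnaKStmt, BncKStmt. MODEL: Lib/SLB/Bbb.lean.
Proof. H = ⌊x^ha⌋, G = min ⌊(1 + sqrt(R S^2/M)) x^ε⌋ S. 1 ≤ V: x^va ≤ 2V, x^vb ≤ 2V or V = S. Case I: E0 = EI, BiaKStmt gives HgK with D = C1 T^A1 K^2 for all g ≤ G (Hm = 2H + (4 R S^2/M + 1), size from BncK; 1 ≤ R0 from x^l ≤ 2 R0), (1+y)^2 E0 ≤ C x^(-2c-3ε) by BnaK.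
Case II: Blk from BlkK (Nm = N since N ≤ x^(1/2-2c)); BiiKStmt with v and ρ' = (fun r => r): HgK and Lp only use ρ on the first components of P, where ρ w.1 = w.1 (replace ρ by fun r => r in Lp first; R0 = R). E0 = C2 x^(-hb), (1+y)^2 ≤ 9 x^(4δ+2κ+4ε) (BfaK (7)), so (1+y)^2 E0 ≤ 9 C2 x^(-2c-6ε) ≤ 9 C2 x^(-(2c+3ε)).
BdiK with X = x^30, D = C1 T^A1 K^2; BncK with D := C1 T^A1: square ≤ C T^A (1 + sqrt(C1 T^A1)) x^2 (x^(-ε/8) + 1/z), then as in the MODEL, η = ε/16. -/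
def BbbKStmt : Prop := ∀ c δ κ l ε : ℝ, ParK c δ κ l ε → BiiKStmt c δ κ ε → ∃ (η C x0 : ℝ) (A0 : ℕ), 0 < η ∧ 0 ≤ C ∧
  ∀ (x T z : ℝ) (a : ℕ → ℕ → ℤ) (ρ : ℕ → ℕ) (v col : ℕ → ℕ → ℕ) (K M N R S R0 V : ℕ) (P : Finset (ℕ × ℕ))
    (f g : ℕ → ℂ), x0 ≤ x → Tau (x ^ (30 : ℝ)) T → 1 ≤ z → z ≤ x → BlkK c δ κ ε x M N R S → 1 ≤ K →
  (K : ℝ) ≤ 2 * x ^ (c + ε / 16) → R0 ≤ R → V ≤ S → CsK c δ κ l ε x ρ N R S R0 V P →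
  SL.Pr a R S z P → Lp a ρ v col K R0 V P → (∀ m, ‖f m‖ ≤ 1) → (∀ n, ‖g n‖ ≤ 1) →
  ∑ w ∈ P, ‖∑ m ∈ Ioc M (2 * M), ∑ n ∈ Ioc N (2 * N), f m * g n * Dl (a w.1 w.2) w.1 w.2 (m * n)‖ ≤ Bd C A0 η x T z

/-- one modulus q = r (q/r) -/
def DqK (c δ κ ε x z : ℝ) (N K : ℕ) (a : ℤ) (q r ρ v col : ℕ) : Prop :=
  (Squarefree q ∧ Int.gcd a q = 1 ∧ (q : ℝ) ≤ x ^ (1 / 2 + δ) ∧ x ^ (1 / 2 - ε / 2) < (q : ℝ)) ∧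
  (r ∣ q ∧ (r : ℝ) ≤ Nm c x N * x ^ (-ε) ∧ Nm c x N * x ^ (-ε) < r * x ^ κ ∧ ∀ p : ℕ, p.Prime → p ∣ q / r → z < p) ∧
  ρ ∣ r ∧ v ∣ q / r ∧ col < K

/-- Module BdrK (theorem tBdrK; all blocks). Uses: BbbKStmt. MODEL: Lib/SLB/Bdr.lean.
Proof. As the MODEL with Nm in place of N in the bounds of r (Nm ≥ x^(1/3-ε) since 1/2-2c ≥ 1/3-ε; Nm ≤ N ≤ x^(1/2)); blocks by the four numbers Nat.log 2 (r q - 1), Nat.log 2 (q/r q - 1), Nat.log 2 (ρ q - 1), Nat.log 2 (v q - 1); CsK from any q of the block: in the first case x^l ≤ ρ ≤ 2R0,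
V ≤ x^(va+κ) and x^va < v ≤ 2V or v = s, V = S; in the second case ρ = r, R0 = R, V ≤ x^(vb+κ), and q/r is smooth. -/
def BdrKStmt : Prop := ∀ c δ κ l ε : ℝ, ParK c δ κ l ε → BiiKStmt c δ κ ε → ∃ (η C x0 : ℝ) (A0 : ℕ), 0 < η ∧ 0 ≤ C ∧
  ∀ (x T z : ℝ) (a : ℕ → ℤ) (M N K : ℕ) (f g : ℕ → ℂ) (F : Finset ℕ) (r ρ v col : ℕ → ℕ), x0 ≤ x →
  Tau (x ^ (30 : ℝ)) T → 1 ≤ z → z ≤ x → N ≤ M → x ^ ((1 : ℝ) / 3 - ε) ≤ N →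
  x ^ (1 - ε) ≤ (M : ℝ) * N → (M : ℝ) * N ≤ x → 1 ≤ K → (K : ℝ) ≤ 2 * x ^ (c + ε / 16) → (∀ m, ‖f m‖ ≤ 1) →
  (∀ n, ‖g n‖ ≤ 1) → (∀ q ∈ F, DqK c δ κ ε x z N K (a q) q (r q) (ρ q) (v q) (col q)) →
  ((∀ q ∈ F, x ^ l ≤ (ρ q : ℝ) ∧ (x ^ va c δ κ ε < (v q : ℝ) ∨ v q = q / r q) ∧ (v q : ℝ) ≤ x ^ (va c δ κ ε + κ)) ∨
    ((N : ℝ) ≤ x ^ (1 / 2 - 2 * c) ∧ ∀ q ∈ F, ρ q = r q ∧ x ^ vb c δ κ ε < (v q : ℝ) ∧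
      (v q : ℝ) ≤ x ^ (vb c δ κ ε + κ) ∧ ∀ p : ℕ, p.Prime → p ∣ q / r q → (p : ℝ) ≤ x ^ κ)) →
  (∀ q ∈ F, ∀ q' ∈ F, r q = r q' → ρ q = ρ q') →
  (∀ q ∈ F, ∀ q' ∈ F, ρ q = ρ q' → q / r q / v q = q' / r q' / v q' → col q = col q' →
    ((ρ q : ℕ) : ℤ) ∣ a q - a q') →
  ∑ q ∈ F, ‖∑ m ∈ Ioc M (2 * M), ∑ n ∈ Ioc N (2 * N), f m * g n * Dl (a q) (r q) (q / r q) (m * n)‖ ≤ Bd C A0 η x T z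

/-- Module BclK (theorem tBclK; classes and colours). Uses: nothing.
Proof. For r0 let A r0 = (F.filter (w q = r0)).image (a q % r0), n = (A r0).card ≤ B; Finset.equivFin (A r0); idx q := the number of a q % w q in A (w q) (0 for q ∉ F). idx q < (A (w q)).card ≤ B. If w q = w q' = r0 and idx q = idx q', then a q % r0 = a q' % r0, so r0 ∣ a q - a q'. -/
def BclKStmt : Prop := ∀ (a : ℕ → ℤ) (w : ℕ → ℕ) (F : Finset ℕ) (B : ℕ),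
  (∀ r0 : ℕ, ((F.filter (fun q => w q = r0)).image (fun q => a q % (r0 : ℤ))).card ≤ B) →
  ∃ idx : ℕ → ℕ, (∀ q ∈ F, idx q < B) ∧
    ∀ q ∈ F, ∀ q' ∈ F, w q = w q' → idx q = idx q' → ((w q : ℕ) : ℤ) ∣ a q - a q'

/-- the lock divisor lcm(w, t) and the modulus r of the first variable -/
def DwK (c δ κ l l' ε x z : ℝ) (N : ℕ) (a : ℤ) (q t w m r : ℕ) : Prop :=
  (Mz (1 / 2 + δ) (ε / 16) z x t q ∧ Int.gcd a q = 1 ∧ x ^ (1 / 2 - ε / 2) < (q : ℝ) ∧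
    ∀ p : ℕ, p.Prime → p ∣ q / m → (p : ℝ) ≤ x ^ κ) ∧
  (w ∣ q ∧ x ^ l ≤ (w : ℝ) ∧ (w : ℝ) ≤ x ^ l') ∧
  m ∣ w ∧ m ∣ r ∧ t ∣ r ∧ r ∣ q ∧ (r : ℝ) ≤ Nm c x N * x ^ (-ε) ∧ Nm c x N * x ^ (-ε) < r * x ^ κ ∧
    (Nat.lcm w t ∣ r ∨ r ∣ Nat.lcm w t)

/-- Module BdsK (theorem tBdsK; choice of v and of the colours, splitting). Uses: BdrKStmt, BclKStmt, MI.BgrStmt, MK.FspStmt. MODEL: Lib/SLB/Bds.lean.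
Proof. As the MODEL with C q := lcm (w q) (t q), k q = C q/w q ≤ x^(ε/16). Colour: idx q < B := ⌊x^c⌋ (BclK), k-part j q = a q mod k q < J := ⌊x^(ε/16)⌋ + 1; col q = idx q J + j q < B J =: K ≤ x^c 2 x^(ε/16), K ≥ 1; equal colours: idx and j equal (division by J). F1 (C q ∣ r q): v ∣ q/r q, x^va < v ≤ x^(va+κ) or v = q/r q.
F2 (r q ∣ C q): r q ≤ C q ≤ x^(l'+ε/16), so Nm < r x^(κ+ε) ≤ x^(l'+κ+2ε) ≤ x^(1/2-2c), Nm = N, N ≤ x^(1/2-2c) (if F2 is empty the sum is 0); v ∣ q/C q with x^vb < v ≤ x^(vb+κ) (q/C q > x^(1/2-ε/2-l'-ε/16) ≥ x^(vb+κ)). -/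
def BdsKStmt : Prop := ∀ c δ κ l l' ε : ℝ, ParK c δ κ l ε → l' + δ + 2 * c + 3 / 2 * κ + 6 * ε ≤ 1 / 2 →
  BiiKStmt c δ κ ε → ∃ (η C x0 : ℝ) (A0 : ℕ), 0 < η ∧ 0 ≤ C ∧
  ∀ (x T z : ℝ) (a : ℕ → ℤ) (M N : ℕ) (f g : ℕ → ℂ) (F : Finset ℕ) (t w m r : ℕ → ℕ), x0 ≤ x →
  Tau (x ^ (30 : ℝ)) T → 1 ≤ z → z ≤ x → N ≤ M → x ^ ((1 : ℝ) / 3 - ε) ≤ N →
  x ^ (1 - ε) ≤ (M : ℝ) * N → (M : ℝ) * N ≤ x → (∀ m, ‖f m‖ ≤ 1) → (∀ n, ‖g n‖ ≤ 1) →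
  (∀ q ∈ F, DwK c δ κ l l' ε x z N (a q) q (t q) (w q) (m q) (r q)) →
  (∀ r0 : ℕ, (((F.filter (fun q => w q = r0)).image (fun q => a q % (r0 : ℤ))).card : ℝ) ≤ x ^ c) →
  ∑ q ∈ F, ‖∑ m ∈ Ioc M (2 * M), ∑ n ∈ Ioc N (2 * N), f m * g n * Dl (a q) (r q) (q / r q) (m * n)‖ ≤ Bd C A0 η x T z

/-- Module BfiK (theorem tBfiK; the bilinear theorem). Uses: BdsKStmt, SL.BgeStmt, MI.BgrStmt. MODEL: Lib/SLB/Bfi.lean.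
Proof. As the MODEL with Z = Nm x^(-ε) (≤ x^(1/2-ε) < q; Z ≥ x^(1/3-2ε) ≥ m t since 1/2-2c ≥ 1/3-ε); the set F2 = {q ∈ F : q > x^(1/2-ε/2)} has at most as many classes as F (image of a subset of the filter). -/
def BfiKStmt : Prop := ∀ c δ μ κ l l' : ℝ, 0 ≤ c → 0 ≤ δ → μ < 1 / 3 → 0 < κ → 84 * δ + 42 * c + 48 * κ < 1 →
  1 / 3 + 4 * δ + 8 / 3 * c + κ < l → l' + δ + 2 * c + 3 / 2 * κ < 1 / 2 →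
  (∃ ε1 : ℝ, 0 < ε1 ∧ ∀ ε : ℝ, 0 < ε → ε ≤ ε1 → BiiKStmt c δ κ ε) →
  ∃ ε τ : ℝ, 0 < ε ∧ ε < 1 / 100 ∧ 0 < τ ∧ τ ≤ 1 / 3 ∧ SLA.BlStmt (SLA.Lkc c μ κ l l') (1 / 2 + δ) τ ε

end Pool.Agent.Lib.SLB
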