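import Pool.Agent.Lib.SLB.StmW
import Pool.Agent.Lib.SLB.SpecB
import Pool.Agent.Lib.SL.SpecW
import Pool.Agent.Lib.SL.DefC

/-!
MP_00e23e_nt, project SL (THEOREM SL, single lock), directory Lib/SLB (helper78): case II with 84 δ + 48 κ < 1: TwStmt (StmW) from
SL.SecStmt, SL.PhStmt, SL.EwStmt, and BiiStmt (only s is smooth) from TwStmt.
RULES. Module X: file Pool/Agent/Lib/SLB/X.lean, first line `import Pool.Agent.Lib.SLB.SpecTw`, then `namespace Pool.Agent.Lib.SLB`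
and the two `open` lines below; private lemmas with names starting with X_, final theorem `theorem tX (h1 : AStmt) ... : XStmt`; the
statements listed under Uses are hypotheses of your theorem, in this order. The docstring contains a complete proof. MODEL file:
copy it and change it. Never use congr!. Every module below 60 s.
-/

namespace Pool.Agent.Lib.SLB

open Finset Pool.Agent.Lib.EH3 Pool.Agent.Lib.TB Pool.Agent.Results.MP_00e23e_nt Pool.Agent.Lib.MI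
open Pool.Agent.Lib.MX (Bd Mz Bd_nonneg Bd_mono rp_le rn_le log_le_T Tau_x)

/-- Module Twa (theorem tTwa; the divisors of w1 and w2). Uses: nothing.
Proof. lcm(r u v, r u v') = r u lcm(v, v'), so g w = u lcm(v, v') (r ≥ 1). F = f/gcd(f, g). f ∣ u ∣ g w is squarefree (g w ∣ r g w), so F and gcd(f, g) are coprime and gcd(F, g) (it divides F and gcd(f, g)) is 1; F ∣ g w, so F ∣ w, w = F x. f x = gcd(f, g) F x = gcd(f, g) w ≤ g w.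
If f = u: g w = u lcm(v,v') = F gcd(u, g) lcm(v, v'), so g x = gcd(u, g) lcm(v, v') ≤ g v v' (F ≥ 1), x ≤ v v'. (w = 0 is excluded by Squarefree; g ≥ 1, u ≥ 1, v, v' ≥ 1 also.) -/
def TwaStmt : Prop := ∀ g r u v v' w f : ℕ, Squarefree (r * g * w) →
  r * g * w = Nat.lcm (r * (u * v)) (r * (u * v')) → f ∣ u →
  ∃ F x : ℕ, w = F * x ∧ 1 ≤ F ∧ F ∣ f ∧ f * x ≤ g * w ∧ (f = u → x ≤ v * v')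

/-- Module Twn (theorem tTwn; the sizes). Uses: nothing.
Proof. T1 = R/F1 ≥ R/(2 F1), T2 ≥ R/(2 F2) (real numbers; F_i ≤ R), r ≤ 2R. Every term of EW is ≥ 0, so it suffices to compare with one of them; g, √g, g √g ≤ g^2. (1) r g/(T1 T2) ≤ 8 g F1 F2/R ≤ 16 g S L'/(V R) (F1 ≤ 2S/V, F2 ≤ L'). (2) x1 ≤ 4V^2, x2 ≤ 4 S V/L:
√(r g x1 x2) r g/N^2 ≤ √(32 g R V^3 S/L) 2 R g/N^2 ≤ 12 g √g (R √R √S V √V)/(√L N^2). (3) √(r g x1)/N ≤ √(8 g R V^2)/N ≤ 3 √g √R V/N. (4) √(r g x2)/N ≤ √(8 g R S V/L)/N ≤ 3 √g √(R S V/L)/N. (5) √(g/T2) ≤ √(2 g F2/R) ≤ 2 √g √(L'/R). -/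
def TwnStmt : Prop := ∀ g R S N V L L' r F1 x1 F2 x2 : ℕ, 1 ≤ g → 1 ≤ R → 1 ≤ S → 1 ≤ N → 1 ≤ V → 1 ≤ L → r ≤ 2 * R →
  1 ≤ F1 → F1 ≤ R → F1 * V ≤ 2 * S → x1 ≤ 4 * V ^ 2 → 1 ≤ F2 → F2 ≤ R → F2 ≤ L' → L * x2 ≤ 4 * (S * V) →
  (r : ℝ) * g / (((R / F1 : ℕ) : ℝ) * ((R / F2 : ℕ) : ℝ)) ≤ 16 * (g : ℝ) ^ 2 * EW R S N V L L' ∧
  Real.sqrt ((r : ℝ) * g * x1 * x2) * ((r : ℝ) * g) / (N : ℝ) ^ 2 ≤ 16 * (g : ℝ) ^ 2 * EW R S N V L L' ∧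
  Real.sqrt ((r : ℝ) * g * x1) / N ≤ 16 * (g : ℝ) ^ 2 * EW R S N V L L' ∧
  Real.sqrt ((r : ℝ) * g * x2) / N ≤ 16 * (g : ℝ) ^ 2 * EW R S N V L L' ∧
  Real.sqrt ((g : ℝ) / ((R / F2 : ℕ) : ℝ)) ≤ 16 * (g : ℝ) ^ 2 * EW R S N V L L'

open Classical in
/-- Module Twp (theorem tTwp; one pair). Uses: TwaStmt, TwnStmt, SL.PhStmt, SL.EwStmt. MODEL: the part of Lib/SL/Tzero.lean on the pairs.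
Proof. Ky equal: ρ r = r gives r' = r, u1 := s1/v r s1 = s1'/v r s1', u2 := s2/v r s2 = s2'/v r s2'; s_i = u_i v_i, s_i' = u_i v_i' (v_i ∣ s_i). PhStmt with R0 = R: either all products are 0, or B = r (g lcm(r/r, r/r)) = r g (r ≥ 1), l, c1, c2, w1, w2 with
r g w_i = lcm(r (u_i v_i), r (u_i v_i')), R g < B, g w_i ≤ 4 S V. TwaStmt for w1 with f := u1: w1 = F1 x1, x1 ≤ v1 v1' ≤ 4V^2, F1 ≤ u1, u1 V ≤ u1 v1 = s1 ≤ 2S. TwaStmt for w2 with the divisor f of u2: w2 = F2 x2, F2 ≤ f ≤ L' ≤ R, L x2 ≤ f x2 ≤ g w2 ≤ 4 S V.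
F1 ≤ 2S ≤ R. EwStmt with k2 = r, k3 = g, u1 := x1, u2 := x2, T1 = R/F1, T2 = R/F2 (≥ 1; F_i T_i ≤ R ≤ N; T2 ≤ R < r g), e = 16 g^2 EW (TwnStmt); its size: 100 r g x1 x2 N^2 ≤ 100 (2R)(2S)(4V^2)(4SV)N^2 ≤ 6400 R S^5 N^2 ≤ X (g ≤ 2S, L ≥ 1, V ≤ S). It gives (rewrite Fp ..: n1, n2 ≥ 1)
‖..‖ ≤ C T^A (N^2/(r g)) (1 + r g/N) √(e √γ), γ = gcd(c1, r) = gcd(Th, r) (PhStmt with F = ρ r = r), γ ≥ 1 (r ≥ 1): √(e √γ) ≤ √e γ = 4 g √EW γ. (N^2/(r g)) (1 + r g/N) = N^2/(r g) + N ≤ 2 N^2/R (R < r, R ≤ N). -/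
def TwpStmt : Prop := ∃ C : ℝ, 0 < C ∧ ∃ A : ℕ, ∀ (X T : ℝ) (a b1 b2 : ℕ → ℕ → ℤ) (v : ℕ → ℕ → ℕ)
    (g R S N V L L' f : ℕ) (h h' : ℤ) (r s1 s2 r' s1' s2' : ℕ), Tau X T → 1 ≤ g → g ≤ 2 * S → 1 ≤ R → 1 ≤ S → 1 ≤ N →
  1 ≤ V → V ≤ S → R ≤ N → 1 ≤ L → L' ≤ R → 4 * S ≤ R → 6400 * ((R : ℝ) * (S : ℝ) ^ 5 * (N : ℝ) ^ 2) ≤ X →
  SL.Su a b1 b2 (fun r => r) v g R V R S N r s1 s2 → SL.Su a b1 b2 (fun r => r) v g R V R S N r' s1' s2' →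
  SL.Ky (fun r => r) v r s1 s2 = SL.Ky (fun r => r) v r' s1' s2' →
  f ∣ s2 / v r s2 → L ≤ f → f ≤ L' →
  ‖∑ n1 ∈ Ioc N (2 * N), ∑ n2 ∈ Ioc N (2 * N),
    SL.Fp a g h r s1 s2 n1 n2 * (starRingEnd ℂ) (SL.Fp a g h' r' s1' s2' n1 n2)‖ ≤
    C * T ^ A * ((N : ℝ) ^ 2 / R * g * Real.sqrt (EW R S N V L L')) *
      (Int.gcd (SL.Th (fun r => r) v h h' r s1 s2 r' s1' s2') (r : ℤ) : ℝ)

/-- Module Tw (theorem tTw). STATEMENT TwStmt (SLB/StmW). Uses: TwpStmt, SL.SecStmt. MODEL: Lib/SL/Tzero.lean.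
Proof. SecStmt with ρ = (fun r => r), R0 = R, D = C1 T^A1 (N^2/R) g √EW (C1, A1 from TwpStmt; f := f r (s2/v r s2); gcd(s1, s2) = g ≤ s1 ≤ 2S; the support from Tz and Lt as in the MODEL). Sizes: y = R S^2 N H ≥ R ≥ 4 (4 S ≤ R), (2y)^12 = 4096 y^12 ≤ X, so 100 y^2 ≤ X and 6400 R S^5 N^2 ≤ 6400 y^3 ≤ 4096 y^12 ≤ X.
Second term: (H^2/g^4) (R^2 D/(R N^2)) = C1 T^A1 (H^2/g^3) √EW ≤ C1 T^A1 (H/g)^2 √EW. -/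
def TwMod : Prop := TwStmt

/-- L of the block -/
noncomputable def LW (δ κ ε x : ℝ) (R S N V : ℕ) : ℕ :=
  ⌈x ^ (4 * hh δ κ ε) * ((R : ℝ) ^ 3 * S * (V : ℝ) ^ 3 / (N : ℝ) ^ 4 + (R : ℝ) * S * V / (N : ℝ) ^ 2)⌉₊

/-- Module Bnw (theorem tBnw; numbers). Uses: nothing.
Proof. h = hh = 4δ+2κ+10ε, w = vv = δ+κ/2+7ε/2, x^w ≤ 2V, V ≤ x^(w+κ); Blk: N ≥ x^(1/3-ε), N ≤ x^(1/2) (N ≤ M, M N ≤ x), R ≤ N x^(-ε), 2R ≥ N x^(-ε-κ), R S ≤ x^(1/2+δ). E := 84δ+48κ+400ε ≤ 1. A = R^3 S V^3/N^4, B = R S V/N^2, y = x^(4h)(A+B) > 0, L = ⌈y⌉, y ≤ L < y+1,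
L' = ⌊L x^κ⌋ ≤ (y+1) x^κ. S/R = R S/R^2 ≤ 4 x^(1/2+δ+2ε+2κ)/N^2 ≤ 4 x^(-1/6+δ+2κ+4ε), so 4S ≤ R for large x. (0) 4 V y ≤ S: x^(4h) A/(S/V) = x^(4h) R^3 V^4/N^4 ≤ x^(4h+4w+4κ-3ε)/N ≤ x^(20δ+14κ+52ε-1/3) ≤ 1/8 and x^(4h) B/(S/V) = x^(4h) R V^2/N^2
≤ x^(4h+2w+2κ-ε)/N ≤ x^(18δ+11κ+47ε-1/3) ≤ 1/8 (the exponents are ≤ -80ε by E). So L = 1, or L < y+1 ≤ 2y ≤ S/(2V). EW ≤ 25 x^(-2h), term by term: (1) S L'/(V R) ≤ (S/(V R)) x^κ x^(4h) (A + B) + (S/(V R)) x^κ; the part A is x^(4h+κ) (R S)^2 V^2/N^4 ≤ x^(4h+κ+1+2δ+2w+2κ-4/3+4ε) = x^(20δ+12κ+51ε-1/3)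
≤ x^(-2h) (28δ+16κ+71ε ≤ 1/3); B: x^(4h+κ) S^2/N^2, S ≤ x^(1/2+δ)/R ≤ 2 x^(1/2+δ+ε+κ)/N: ≤ 4 x^(4h+3κ+1+2δ+2ε)/N^4 ≤ 4 x^(18δ+11κ+46ε-1/3) ≤ 4 x^(-2h) (26δ+15κ+66ε ≤ 1/3); the last part ≤ 4 x^(-1/6+δ+2κ+4ε) 2 x^(-w) x^κ = 8 x^(-1/6+5κ/2+ε/2) ≤ 8 x^(-2h) (8δ+13κ/2+41ε/2 ≤ 1/6).
(2) = √(A/L) ≤ √(x^(-4h)) = x^(-2h) (L ≥ x^(4h) A). (3) = √(B/L) ≤ x^(-2h). (4) √R V/N ≤ V x^(-ε/2)/√N ≤ x^(w+κ-1/6) ≤ x^(-2h) (9δ+11κ/2+47ε/2 ≤ 1/6). (5) L'/R: x^(κ+4h) A/R = x^(κ+4h) (R S)(R/N) V^3/N^3 ≤ x^(κ+4h+1/2+δ-ε+3w+3κ-1+3ε) = x^(20δ+27κ/2+105ε/2-1/2) ≤ x^(-4h) (36δ+43κ/2+185ε/2 ≤ 1/2);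
x^(κ+4h) B/R = x^(κ+4h) (R S) V/(N^2 R) ≤ 2 x^(3κ+4h+1/2+δ+w+ε)/N^3 ≤ 2 x^(18δ+23κ/2+95ε/2-1/2) ≤ 2 x^(-4h); x^κ/R ≤ 2 x^(2κ+2ε-1/3) ≤ 2 x^(-4h) (16δ+10κ+42ε ≤ 1/3). So L'/R ≤ 5 x^(-4h) ≤ 1 for large x (L' ≤ R), √(L'/R) ≤ 3 x^(-2h). Total 13+1+1+1+3 ≤ 25. √EW ≤ 5 x^(-h). -/
def BnwStmt : Prop := ∀ δ κ ε : ℝ, 0 ≤ δ → 0 < κ → 0 < ε → ε < 1 / 100 → 84 * δ + 48 * κ + 400 * ε ≤ 1 →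
  ∃ x0 : ℝ, 1 ≤ x0 ∧ ∀ (x : ℝ) (M N R S V : ℕ), x0 ≤ x → Blk δ κ ε x M N R S → 1 ≤ R → 1 ≤ V → V ≤ S →
  x ^ vv δ κ ε ≤ 2 * (V : ℝ) → (V : ℝ) ≤ x ^ (vv δ κ ε + κ) →
  1 ≤ LW δ κ ε x R S N V ∧ ⌊(LW δ κ ε x R S N V : ℝ) * x ^ κ⌋₊ ≤ R ∧ 4 * S ≤ R ∧
    (LW δ κ ε x R S N V = 1 ∨ (LW δ κ ε x R S N V : ℝ) * (2 * V) ≤ S) ∧
    Real.sqrt (EW R S N V (LW δ κ ε x R S N V) ⌊(LW δ κ ε x R S N V : ℝ) * x ^ κ⌋₊) ≤ 5 * x ^ (-hh δ κ ε)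

/-- Module Bicw (file SLB/Bicw.lean, theorem tBicw; case II with 84 δ + 48 κ). Uses: TwStmt, BnwStmt, MI.BgrStmt.
Proof. L = LW.., L' = ⌊L x^κ⌋. For (r, s2) ∈ P in the support (Lt: v = v r s2 ∣ s2, V < v ≤ 2V) t = s2/v satisfies t 2V ≥ t v = s2 > S, t ≥ 1. So L ≤ t (L = 1, or L ≤ S/(2V) < t). If t ≤ L x^κ take f = t. Otherwise MI.BgrStmt with q := t, t := 1, Z := L x^κ < t, y := x^κ (the primes of t are primes of s2)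
gives f ∣ t, f ≤ Z (so f ≤ L'), Z < f x^κ, so L < f. Define f r t by choice (if f ∣ t, L ≤ f ≤ L' is possible; otherwise 1). Hg from TwStmt with X = x^30, H := H' (Tz: H' ≤ Hm in the size condition, R ≤ N from Blk as x^(-ε) ≤ 1; ND and the bounds from Hg), √EW ≤ 5 x^(-h): C0 = 5. -/
def BicwStmt : Prop := ∀ δ κ ε : ℝ, 0 ≤ δ → 0 < κ → 0 < ε → ε < 1 / 100 → 84 * δ + 48 * κ + 400 * ε ≤ 1 →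
  BiiStmt δ κ ε

end Pool.Agent.Lib.SLB
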