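import Pool.Agent.Lib.SLB.SpecTw

/-!
MP_00e23e_nt, project SL, directory Lib/SLB: module Twa (the divisors of w1 and w2).
-/

set_option autoImplicit false

namespace Pool.Agent.Lib.SLB

open Finset Pool.Agent.Lib.EH3 Pool.Agent.Lib.TB Pool.Agent.Results.MP_00e23e_nt Pool.Agent.Lib.MI
open Pool.Agent.Lib.MX (Bd Mz Bd_nonneg Bd_mono rp_le rn_le log_le_T Tau_x)

/-- Module Twa: the divisors of w1 and w2. -/
theorem tTwa : TwaStmt := by
  intro g r u v v' w f hsq h hf
  have h0 : r * g * w ≠ 0 := hsq.ne_zero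
  have hw : 0 < w := Nat.pos_of_ne_zero (right_ne_zero_of_mul h0)
  have hrg : r * g ≠ 0 := left_ne_zero_of_mul h0
  have hr : 0 < r := Nat.pos_of_ne_zero (left_ne_zero_of_mul hrg)
  have hg : 0 < g := Nat.pos_of_ne_zero (right_ne_zero_of_mul hrg)
  have e1 : Nat.lcm (r * (u * v)) (r * (u * v')) = r * (u * Nat.lcm v v') := by
    rw [Nat.lcm_mul_left, Nat.lcm_mul_left]
  have e2 : g * w = u * Nat.lcm v v' := by
    rw [e1, mul_assoc] at h
    exact Nat.eq_of_mul_eq_mul_left hr h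
  have hlp : 0 < Nat.lcm v v' := by
    have h1 : u * Nat.lcm v v' ≠ 0 := by
      rw [← e2]
      exact (Nat.mul_pos hg hw).ne'
    exact Nat.pos_of_ne_zero (right_ne_zero_of_mul h1)
  have hv : 0 < v := by
    rcases Nat.eq_zero_or_pos v with hv | hv
    · rw [hv, Nat.lcm_zero_left] at hlp
      exact absurd hlp (lt_irrefl _)
    · exact hv
  have hv' : 0 < v' := by
    rcases Nat.eq_zero_or_pos v' with hv' | hv'
    · rw [hv', Nat.lcm_zero_right] at hlp
      exact absurd hlp (lt_irrefl _)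
    · exact hv'
  have hu : f ∣ g * w := hf.trans (by rw [e2]; exact dvd_mul_right _ _)
  have hfs : Squarefree f :=
    hsq.squarefree_of_dvd (hu.trans (by rw [mul_assoc]; exact dvd_mul_left _ _))
  have hf0 : 0 < f := Nat.pos_of_ne_zero hfs.ne_zero
  obtain ⟨F, hF⟩ := Nat.gcd_dvd_left f g
  have hF0 : 0 < F := by
    rcases Nat.eq_zero_or_pos F with h1 | h1
    · rw [h1, mul_zero] at hF
      omega
    · exact h1
  have hc : Nat.gcd (Nat.gcd f g) F = 1 := by
    apply Nat.coprime_of_squarefree_mul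
    rw [← hF]
    exact hfs
  have hFf : F ∣ f := Dvd.intro_left _ hF.symm
  have hFg : Nat.Coprime F g := by
    have h1 : Nat.gcd F g ∣ Nat.gcd f g :=
      Nat.dvd_gcd ((Nat.gcd_dvd_left _ _).trans hFf) (Nat.gcd_dvd_right _ _)
    have h2 : Nat.gcd F g ∣ Nat.gcd (Nat.gcd f g) F := Nat.dvd_gcd h1 (Nat.gcd_dvd_left _ _)
    rw [hc] at h2
    exact Nat.dvd_one.1 h2
  obtain ⟨x, hx⟩ := hFg.dvd_of_dvd_mul_left (hFf.trans hu)
  have e5 : f * x = Nat.gcd f g * w := by
    calc f * x = (Nat.gcd f g * F) * x := by rw [← hF]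
      _ = Nat.gcd f g * (F * x) := mul_assoc _ _ _
      _ = Nat.gcd f g * w := by rw [← hx]
  refine ⟨F, x, hx, hF0, hFf, ?_, ?_⟩
  · rw [e5]
    exact Nat.mul_le_mul_right _ (Nat.gcd_le_right _ hg)
  · intro hfu
    rw [← hfu] at e2
    have e3 : F * (g * x) = F * (Nat.gcd f g * Nat.lcm v v') := by
      calc F * (g * x) = g * (F * x) := by ring
        _ = g * w := by rw [← hx]
        _ = f * Nat.lcm v v' := e2
        _ = (Nat.gcd f g * F) * Nat.lcm v v' := by rw [← hF]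
        _ = F * (Nat.gcd f g * Nat.lcm v v') := by ring
    have e4 := Nat.eq_of_mul_eq_mul_left hF0 e3
    have e6 : g * x ≤ g * (v * v') := by
      rw [e4]
      exact Nat.mul_le_mul (Nat.gcd_le_right _ hg)
        (Nat.le_of_dvd (Nat.mul_pos hv hv') (Nat.lcm_dvd_mul v v'))
    exact Nat.le_of_mul_le_mul_left e6 hg

end Pool.Agent.Lib.SLB
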