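import Pool.Agent.Lib.SLB.SpecTw

/-!
MP_00e23e_nt, project SL, directory Lib/SLB, module Twn: the sizes (five inequalities with square roots).
-/

set_option autoImplicit false

namespace Pool.Agent.Lib.SLB

open Finset Pool.Agent.Lib.EH3 Pool.Agent.Lib.TB Pool.Agent.Results.MP_00e23e_nt Pool.Agent.Lib.MI
open Pool.Agent.Lib.MX (Bd Mz Bd_nonneg Bd_mono rp_le rn_le log_le_T Tau_x)

private lemma Twn_floor (R F : ℕ) (hF : 1 ≤ F) (hFR : F ≤ R) :
    0 < ((R / F : ℕ) : ℝ) ∧ (R : ℝ) ≤ 2 * F * ((R / F : ℕ) : ℝ) := by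
  have h1 : 1 ≤ R / F := Nat.div_pos hFR hF
  have h2 : R < F * (R / F + 1) := Nat.lt_mul_div_succ R hF
  have h3 : R ≤ 2 * F * (R / F) := by nlinarith
  refine ⟨by exact_mod_cast h1, ?_⟩
  exact_mod_cast h3

/-- final comparison -/
private lemma Twn_fin (g κ e E : ℝ) (he : 0 ≤ e) (hE : e ≤ E) (_hg : 0 ≤ g) (hκ : κ ≤ 16 * g ^ 2) :
    κ * e ≤ 16 * g ^ 2 * E :=
  (mul_le_mul_of_nonneg_right hκ he).trans
    (mul_le_mul_of_nonneg_left hE (by positivity))

theorem tTwn : TwnStmt := by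
  intro g R S N V L L' r F1 x1 F2 x2 hg hR hS hN hV hL hr hF1 hF1R hF1V hx1 hF2 hF2R hF2L hx2
  obtain ⟨hT1, hT1'⟩ := Twn_floor R F1 hF1 hF1R
  obtain ⟨hT2, hT2'⟩ := Twn_floor R F2 hF2 hF2R
  have hg' : (1 : ℝ) ≤ g := by exact_mod_cast hg
  have hR' : (1 : ℝ) ≤ R := by exact_mod_cast hR
  have hS' : (1 : ℝ) ≤ S := by exact_mod_cast hS
  have hN' : (1 : ℝ) ≤ N := by exact_mod_cast hN
  have hV' : (1 : ℝ) ≤ V := by exact_mod_cast hV
  have hL' : (1 : ℝ) ≤ L := by exact_mod_cast hL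
  have hr' : (r : ℝ) ≤ 2 * R := by exact_mod_cast hr
  have hF1' : (1 : ℝ) ≤ F1 := by exact_mod_cast hF1
  have hF2' : (1 : ℝ) ≤ F2 := by exact_mod_cast hF2
  have hF1V' : (F1 : ℝ) * V ≤ 2 * S := by exact_mod_cast hF1V
  have hx1' : (x1 : ℝ) ≤ 4 * (V : ℝ) ^ 2 := by exact_mod_cast hx1
  have hF2L' : (F2 : ℝ) ≤ L' := by exact_mod_cast hF2L
  have hx2' : (L : ℝ) * x2 ≤ 4 * ((S : ℝ) * V) := by exact_mod_cast hx2
  have hr0 : (0 : ℝ) ≤ r := Nat.cast_nonneg r
  have hx10 : (0 : ℝ) ≤ x1 := Nat.cast_nonneg x1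
  have hx20 : (0 : ℝ) ≤ x2 := Nat.cast_nonneg x2
  have hLL0 : (0 : ℝ) ≤ L' := Nat.cast_nonneg L'
  generalize ((R / F1 : ℕ) : ℝ) = T1 at hT1 hT1' ⊢
  generalize ((R / F2 : ℕ) : ℝ) = T2 at hT2 hT2' ⊢
  generalize (g : ℝ) = g at *
  unfold EW
  generalize (R : ℝ) = R at *
  generalize (S : ℝ) = S at *
  generalize (N : ℝ) = N at *
  generalize (V : ℝ) = V at *
  generalize (L : ℝ) = L at *
  generalize (L' : ℝ) = M at *
  generalize (r : ℝ) = r at *
  generalize (F1 : ℝ) = F1 at *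
  generalize (F2 : ℝ) = F2 at *
  generalize (x1 : ℝ) = x1 at *
  generalize (x2 : ℝ) = x2 at *
  have g0 : 0 < g := by linarith
  have R0 : 0 < R := by linarith
  have S0 : 0 < S := by linarith
  have N0 : 0 < N := by linarith
  have V0 : 0 < V := by linarith
  have L0 : 0 < L := by linarith
  have F10 : 0 < F1 := by linarith
  have F20 : 0 < F2 := by linarith
  have sg0 : 0 < Real.sqrt g := Real.sqrt_pos.mpr g0
  have sg1 : Real.sqrt g ≤ g := by
    rw [Real.sqrt_le_left g0.le]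
    nlinarith
  have sgg : Real.sqrt g ^ 2 = g := Real.sq_sqrt g0.le
  have sR : Real.sqrt R ^ 2 = R := Real.sq_sqrt R0.le
  have sS : Real.sqrt S ^ 2 = S := Real.sq_sqrt S0.le
  have sV : Real.sqrt V ^ 2 = V := Real.sq_sqrt V0.le
  have sL : Real.sqrt L ^ 2 = L := Real.sq_sqrt L0.le
  have sR0 : 0 < Real.sqrt R := Real.sqrt_pos.mpr R0
  have sS0 : 0 < Real.sqrt S := Real.sqrt_pos.mpr S0
  have sV0 : 0 < Real.sqrt V := Real.sqrt_pos.mpr V0
  have sL0 : 0 < Real.sqrt L := Real.sqrt_pos.mpr L0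
  have e1 : 0 ≤ S * M / (V * R) := by positivity
  have e2 : 0 ≤ R * Real.sqrt R * Real.sqrt S * (V * Real.sqrt V) / (Real.sqrt L * N ^ 2) := by
    positivity
  have e3 : 0 ≤ Real.sqrt (R * S * V / L) / N := by positivity
  have e4 : 0 ≤ Real.sqrt R * V / N := by positivity
  have e5 : 0 ≤ Real.sqrt (M / R) := Real.sqrt_nonneg _
  have hx2'' : x2 ≤ 4 * (S * V) / L := by
    rw [le_div_iff₀ L0]
    linarith
  have k1 : g ≤ g ^ 2 := by nlinarith
  have k2 : g * Real.sqrt g ≤ g ^ 2 := by nlinarith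
  have k3 : Real.sqrt g ≤ g ^ 2 := sg1.trans k1
  refine ⟨?_, ?_, ?_, ?_, ?_⟩
  · -- first inequality
    have h1 : r * g / (T1 * T2) ≤ (16 * g) * (S * M / (V * R)) := by
      rw [div_le_iff₀ (mul_pos hT1 hT2)]
      have h2 : r * g ≤ 2 * R * g := mul_le_mul_of_nonneg_right hr' g0.le
      have h3 : R * R ≤ (2 * F1 * T1) * (2 * F2 * T2) :=
        mul_le_mul hT1' hT2' R0.le (by positivity)
      have h4 : F1 * F2 * V ≤ 2 * S * M := by
        have : (F1 * V) * F2 ≤ (2 * S) * M := mul_le_mul hF1V' hF2L' F20.le (by positivity)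
        linarith
      have h5 : 2 * R * g ≤ 16 * g * (S * M / (V * R)) * (T1 * T2) := by
        have h6 : 16 * g * (S * M / (V * R)) * (T1 * T2) =
            (8 * g * (2 * S * M) * (T1 * T2)) / (V * R) := by
          field_simp
          ring
        rw [h6, le_div_iff₀ (mul_pos V0 R0)]
        have h7 : 8 * g * (F1 * F2 * V) * (T1 * T2) ≤ 8 * g * (2 * S * M) * (T1 * T2) := by
          apply mul_le_mul_of_nonneg_right _ (mul_pos hT1 hT2).le
          exact mul_le_mul_of_nonneg_left h4 (by positivity)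
        have h8 : 2 * R * g * (V * R) ≤ 8 * g * (F1 * F2 * V) * (T1 * T2) := by
          have h9 : 2 * g * V * (R * R) ≤ 2 * g * V * ((2 * F1 * T1) * (2 * F2 * T2)) :=
            mul_le_mul_of_nonneg_left h3 (by positivity)
          calc 2 * R * g * (V * R) = 2 * g * V * (R * R) := by ring
            _ ≤ 2 * g * V * ((2 * F1 * T1) * (2 * F2 * T2)) := h9
            _ = 8 * g * (F1 * F2 * V) * (T1 * T2) := by ring
        exact h8.trans h7
      exact h2.trans h5
    refine h1.trans (Twn_fin g _ _ _ e1 ?_ g0.le (by linarith))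
    linarith
  · -- second inequality
    have h1 : Real.sqrt (r * g * x1 * x2) ≤
        6 * (Real.sqrt g * Real.sqrt R * Real.sqrt S * (V * Real.sqrt V) / Real.sqrt L) := by
      rw [Real.sqrt_le_left (by positivity)]
      have h2 : (6 * (Real.sqrt g * Real.sqrt R * Real.sqrt S * (V * Real.sqrt V) /
          Real.sqrt L)) ^ 2 = 36 * (g * R * S * (V ^ 2 * V) / L) := by
        rw [mul_pow, div_pow, mul_pow, mul_pow, mul_pow, mul_pow, sgg, sR, sS, sV, sL]
        norm_num
      rw [h2]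
      have h3 : r * g * x1 * x2 ≤ (2 * R) * g * (4 * V ^ 2) * (4 * (S * V) / L) := by
        gcongr
      refine h3.trans ?_
      have h4 : (2 * R) * g * (4 * V ^ 2) * (4 * (S * V) / L) =
          32 * (g * R * S * (V ^ 2 * V) / L) := by ring
      rw [h4]
      have h5 : 0 ≤ g * R * S * (V ^ 2 * V) / L := by positivity
      linarith
    have h6 : Real.sqrt (r * g * x1 * x2) * (r * g) / N ^ 2 ≤
        (12 * (g * Real.sqrt g)) *
          (R * Real.sqrt R * Real.sqrt S * (V * Real.sqrt V) / (Real.sqrt L * N ^ 2)) := by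
      have h7 : Real.sqrt (r * g * x1 * x2) * (r * g) / N ^ 2 ≤
          6 * (Real.sqrt g * Real.sqrt R * Real.sqrt S * (V * Real.sqrt V) / Real.sqrt L) *
            ((2 * R) * g) / N ^ 2 := by
        gcongr
      refine h7.trans (le_of_eq ?_)
      field_simp
      ring
    refine h6.trans (Twn_fin g _ _ _ e2 ?_ g0.le (by nlinarith))
    linarith
  · -- third inequality
    have h1 : Real.sqrt (r * g * x1) ≤ 3 * (Real.sqrt g * Real.sqrt R * V) := by
      rw [Real.sqrt_le_left (by positivity)]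
      have h2 : (3 * (Real.sqrt g * Real.sqrt R * V)) ^ 2 = 9 * (g * R * V ^ 2) := by
        rw [mul_pow, mul_pow, mul_pow, sgg, sR]
        norm_num
      rw [h2]
      have h3 : r * g * x1 ≤ (2 * R) * g * (4 * V ^ 2) := by gcongr
      have h5 : 0 ≤ g * R * V ^ 2 := by positivity
      linarith
    have h6 : Real.sqrt (r * g * x1) / N ≤ (3 * Real.sqrt g) * (Real.sqrt R * V / N) := by
      have h7 : Real.sqrt (r * g * x1) / N ≤ 3 * (Real.sqrt g * Real.sqrt R * V) / N := by gcongr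
      refine h7.trans (le_of_eq ?_)
      ring
    refine h6.trans (Twn_fin g _ _ _ e4 ?_ g0.le (by linarith [sq_nonneg g]))
    linarith
  · -- fourth inequality
    have h1 : Real.sqrt (r * g * x2) ≤ 3 * (Real.sqrt g * Real.sqrt (R * S * V / L)) := by
      rw [Real.sqrt_le_left (by positivity)]
      have h2 : (3 * (Real.sqrt g * Real.sqrt (R * S * V / L))) ^ 2 =
          9 * (g * (R * S * V / L)) := by
        rw [mul_pow, mul_pow, sgg, Real.sq_sqrt (by positivity)]
        norm_num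
      rw [h2]
      have h3 : r * g * x2 ≤ (2 * R) * g * (4 * (S * V) / L) := by gcongr
      have h4 : (2 * R) * g * (4 * (S * V) / L) = 8 * (g * (R * S * V / L)) := by ring
      have h5 : 0 ≤ g * (R * S * V / L) := by positivity
      linarith
    have h6 : Real.sqrt (r * g * x2) / N ≤
        (3 * Real.sqrt g) * (Real.sqrt (R * S * V / L) / N) := by
      have h7 : Real.sqrt (r * g * x2) / N ≤
          3 * (Real.sqrt g * Real.sqrt (R * S * V / L)) / N := by gcongr
      refine h7.trans (le_of_eq ?_)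
      ring
    refine h6.trans (Twn_fin g _ _ _ e3 ?_ g0.le (by linarith [sq_nonneg g]))
    linarith
  · -- fifth inequality
    have h1 : Real.sqrt (g / T2) ≤ (2 * Real.sqrt g) * Real.sqrt (M / R) := by
      rw [Real.sqrt_le_left (by positivity)]
      have h2 : (2 * Real.sqrt g * Real.sqrt (M / R)) ^ 2 = 4 * (g * (M / R)) := by
        rw [mul_pow, mul_pow, sgg, Real.sq_sqrt (by positivity)]
        ring
      rw [h2]
      have h3 : g / T2 ≤ 2 * (g * (M / R)) := by
        rw [div_le_iff₀ hT2]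
        have h4 : 2 * (g * (M / R)) * T2 = g * (2 * M * T2) / R := by ring
        rw [h4, le_div_iff₀ R0]
        apply mul_le_mul_of_nonneg_left _ g0.le
        refine hT2'.trans ?_
        gcongr
      have h5 : 0 ≤ g * (M / R) := by positivity
      linarith
    refine h1.trans (Twn_fin g _ _ _ e5 ?_ g0.le (by linarith [sq_nonneg g]))
    linarith

end Pool.Agent.Lib.SLB
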